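import Mathlib

/-! The walk with steps `- log 2`, `log 3 - log 2` with probability `1/2` each: total variation of the
binomial distribution, second moments. -/

set_option autoImplicit false

namespace Pool.Agent.K6.H38.ND

open Finset

/-- the central binomial coefficient -/
theorem central_sq (m : ℕ) : ((Nat.centralBinom m : ℝ) / 4 ^ m) ^ 2 * (2 * m + 1) ≤ 1 := by
  induction m with
  | zero => simp
  | succ m ih =>
    have h1 : ((m + 1 : ℕ) : ℝ) * (Nat.centralBinom (m + 1) : ℝ) = 2 * (2 * m + 1) * Nat.centralBinom m := by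
      exact_mod_cast Nat.succ_mul_centralBinom_succ m
    have hm : (0 : ℝ) < (m : ℝ) + 1 := by positivity
    have h2 : (Nat.centralBinom (m + 1) : ℝ) / 4 ^ (m + 1) = ((Nat.centralBinom m : ℝ) / 4 ^ m) * ((2 * m + 1) / (2 * (m + 1))) := by
      have h3 : (Nat.centralBinom (m + 1) : ℝ) = 2 * (2 * m + 1) * Nat.centralBinom m / (m + 1) := by
        rw [eq_div_iff hm.ne']
        push_cast at h1
        linarith
      rw [h3, pow_succ]
      field_simp
      ring
    rw [h2, mul_pow]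
    set c := ((Nat.centralBinom m : ℝ) / 4 ^ m) ^ 2 with hc
    have hc0 : 0 ≤ c := by rw [hc]; positivity
    have h4 : ((2 * (m : ℝ) + 1) / (2 * (m + 1))) ^ 2 * (2 * ((m + 1 : ℕ) : ℝ) + 1) ≤ 2 * m + 1 := by
      rw [div_pow, div_mul_eq_mul_div, div_le_iff₀ (by positivity)]
      push_cast
      nlinarith [Nat.cast_nonneg (α := ℝ) m]
    calc c * ((2 * (m : ℝ) + 1) / (2 * (m + 1))) ^ 2 * (2 * ((m + 1 : ℕ) : ℝ) + 1)
        = c * (((2 * (m : ℝ) + 1) / (2 * (m + 1))) ^ 2 * (2 * ((m + 1 : ℕ) : ℝ) + 1)) := by ring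
      _ ≤ c * (2 * m + 1) := mul_le_mul_of_nonneg_left h4 hc0
      _ ≤ 1 := ih

/-- the largest binomial coefficient -/
theorem middle_le (n : ℕ) : (n.choose (n / 2) : ℝ) / 2 ^ n ≤ 1 / √ (n + 1) := by
  rw [le_div_iff₀ (by positivity)]
  apply le_of_sq_le_sq _ (by norm_num)
  rw [mul_pow, Real.sq_sqrt (by positivity), one_pow]
  rcases Nat.even_or_odd' n with ⟨m, rfl | rfl⟩
  · have h := central_sq m
    have e1 : (2 * m) / 2 = m := by omega
    rw [e1]
    have e2 : ((2 * m).choose m : ℝ) / 2 ^ (2 * m) = (Nat.centralBinom m : ℝ) / 4 ^ m := by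
      rw [pow_mul, Nat.centralBinom]
      norm_num
    rw [e2]
    push_cast
    exact h
  · have h := central_sq (m + 1)
    have e1 : (2 * m + 1) / 2 = m := by omega
    rw [e1]
    have e3 : Nat.centralBinom (m + 1) = 2 * (2 * m + 1).choose m := by
      rw [Nat.centralBinom, show 2 * (m + 1) = 2 * m + 1 + 1 by ring, Nat.choose_succ_succ' (2 * m + 1) m,
        Nat.choose_symm_half m]
      ring
    have e2 : ((2 * m + 1).choose m : ℝ) / 2 ^ (2 * m + 1) = (Nat.centralBinom (m + 1) : ℝ) / 4 ^ (m + 1) := by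
      rw [e3]
      have : (4 : ℝ) ^ (m + 1) = 2 * 2 ^ (2 * m + 1) := by
        rw [show (4 : ℝ) = 2 ^ 2 by norm_num, ← pow_mul, show 2 * (m + 1) = (2 * m + 1) + 1 by ring, pow_succ (2 : ℝ) (2 * m + 1)]
        ring
      rw [this]
      push_cast
      field_simp
    rw [e2]
    have hle : ((2 * m + 1 : ℕ) : ℝ) + 1 ≤ 2 * ((m + 1 : ℕ) : ℝ) + 1 := by push_cast; linarith
    have h0 : 0 ≤ ((Nat.centralBinom (m + 1) : ℝ) / 4 ^ (m + 1)) ^ 2 := by positivity
    calc ((Nat.centralBinom (m + 1) : ℝ) / 4 ^ (m + 1)) ^ 2 * (((2 * m + 1 : ℕ) : ℝ) + 1)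
        ≤ ((Nat.centralBinom (m + 1) : ℝ) / 4 ^ (m + 1)) ^ 2 * (2 * ((m + 1 : ℕ) : ℝ) + 1) :=
          mul_le_mul_of_nonneg_left hle h0
      _ ≤ 1 := h

end Pool.Agent.K6.H38.ND
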