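import Pool.Agent.K6.H38.ND.Rate2

/-! Almost harmonic functions: the rate of convergence, conclusion. -/

set_option autoImplicit false

namespace Pool.Agent.K6.H38.ND

open Filter Topology

/-- integer root -/
theorem root_nat (p : ℕ) (hp : p ≠ 0) {w : ℝ} (hw : 1 ≤ w) : ∃ N : ℕ, 1 ≤ N ∧ (N : ℝ) ^ p ≤ w ∧ w < (2 * N : ℝ) ^ p := by
  have hex : ∃ n : ℕ, w < ((n : ℝ) + 1) ^ p := by
    obtain ⟨n, hn⟩ := exists_nat_gt w
    refine ⟨n, ?_⟩
    have h2 : (1 : ℝ) ≤ (n : ℝ) + 1 := by linarith [show (0 : ℝ) ≤ n from Nat.cast_nonneg n]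
    have h3 : (n : ℝ) + 1 ≤ ((n : ℝ) + 1) ^ p := le_self_pow₀ h2 hp
    linarith
  set N := Nat.find hex with hN
  have hN1 : w < ((N : ℝ) + 1) ^ p := Nat.find_spec hex
  have hNpos : 1 ≤ N := by
    by_contra hcon
    have h0 : N = 0 := by omega
    rw [h0] at hN1
    norm_num at hN1
    linarith
  have hN2 : (N : ℝ) ^ p ≤ w := by
    have := Nat.find_min hex (m := N - 1) (by omega)
    rw [not_lt, Nat.cast_sub hNpos] at this
    simpa using this
  have hNR : (1 : ℝ) ≤ N := by exact_mod_cast hNpos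
  refine ⟨N, hNpos, hN2, hN1.trans_le ?_⟩
  apply pow_le_pow_left₀ (by linarith)
  linarith

variable {K : ℝ}

theorem rate (hK : 0 ≤ K) : ∃ C : ℝ, 0 < C ∧ ∀ G, Hyp K G → ∃ D : ℝ, Tendsto G atTop (𝓝 D) ∧
    ∀ w : ℝ, 1 ≤ w → |G w - D| ≤ C / w ^ (1 / 34 : ℝ) := by
  obtain ⟨C6, hC6, h6⟩ := S6 hK
  set lam : ℝ := 1 + 1 / (10 * 2 ^ 34) with hlam
  have hlam1 : 1 < lam := by
    rw [hlam]
    have : (0 : ℝ) < 1 / (10 * 2 ^ 34) := by positivity
    linarith
  set ρ : ℝ := (lam ^ (1 / 34 : ℝ))⁻¹ with hρ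
  have hlp : 1 < lam ^ (1 / 34 : ℝ) := Real.one_lt_rpow hlam1 (by norm_num)
  have hρ0 : 0 ≤ ρ := by rw [hρ]; positivity
  have hρ1 : ρ < 1 := by rw [hρ]; exact inv_lt_one_of_one_lt₀ hlp
  refine ⟨2 * C6 / (1 - ρ), by have : 0 < 1 - ρ := by linarith
                               positivity, ?_⟩
  intro G hG
  obtain ⟨D, hD, h⟩ := tail_lemma (G := G) (ε := fun w => 2 * C6 / w ^ (1 / 34 : ℝ)) (W := 1) (lam := lam) (ρ := ρ)
    (by norm_num) hlam1 hρ0 hρ1
    (by intro w hw; have : 0 < w := by linarith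
        positivity)
    (by
      intro w w' hw h1 h2
      have hw0 : 0 < w := by linarith
      obtain ⟨N, hN1, hN2, hN3⟩ := root_nat 34 (by norm_num) (w := w') (by linarith)
      have hN0 : (0 : ℝ) < N := by exact_mod_cast (by omega : 0 < N)
      have h3 := h6 G hG N hN1 w' hN2 (w' - w) (by linarith) (by
        have h4 : w' - w ≤ w' / (10 * 2 ^ 34) := by
          have h5 : w' - w ≤ 1 / (10 * 2 ^ 34) * w := by
            have e : lam * w = w + 1 / (10 * 2 ^ 34) * w := by rw [hlam]; ring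
            rw [e] at h2
            linarith
          have h6 : 1 / (10 * 2 ^ 34) * w ≤ 1 / (10 * 2 ^ 34) * w' := mul_le_mul_of_nonneg_left h1 (by norm_num)
          have e : w' / (10 * 2 ^ 34) = 1 / (10 * 2 ^ 34) * w' := by ring
          rw [e]
          linarith
        rw [mul_pow] at hN3
        have h5 : w' / (10 * 2 ^ 34) ≤ (N : ℝ) ^ 34 / 10 := by
          rw [div_le_div_iff₀ (by positivity) (by norm_num)]
          calc w' * 10 ≤ (2 ^ 34 * (N : ℝ) ^ 34) * 10 := mul_le_mul_of_nonneg_right hN3.le (by norm_num)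
            _ = (N : ℝ) ^ 34 * (10 * 2 ^ 34) := by ring
        linarith)
      rw [show w' - (w' - w) = w by ring, abs_sub_comm] at h3
      refine h3.trans ?_
      rw [div_le_div_iff₀ hN0 (by positivity)]
      have h4 : w ^ (1 / 34 : ℝ) ≤ 2 * N := by
        have h5 : w ^ (1 / 34 : ℝ) ≤ ((2 * N : ℝ) ^ 34) ^ (1 / 34 : ℝ) :=
          Real.rpow_le_rpow hw0.le (by linarith) (by norm_num)
        have e : ((2 * N : ℝ) ^ 34) ^ (1 / 34 : ℝ) = 2 * N := by
          rw [← Real.rpow_natCast, ← Real.rpow_mul (by positivity)]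
          norm_num
        rwa [e] at h5
      calc C6 * w ^ (1 / 34 : ℝ) ≤ C6 * (2 * N) := mul_le_mul_of_nonneg_left h4 hC6.le
        _ = 2 * C6 * N := by ring)
    (by
      intro w hw
      have hw0 : 0 < w := by linarith
      rw [Real.mul_rpow (by linarith) hw0.le, hρ]
      apply le_of_eq
      have : lam ^ (1 / 34 : ℝ) ≠ 0 := by positivity
      field_simp)
  refine ⟨D, hD, fun w hw => ?_⟩
  refine (h w hw).trans (le_of_eq ?_)
  rw [div_div, div_div, mul_comm (1 - ρ)]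

end Pool.Agent.K6.H38.ND
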