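import Pool.Agent.K6.H38.ND.FE3
import Pool.Agent.K6.H38.ND.Rate3

/-! The counting function of an invariant set. -/

set_option autoImplicit false

namespace Pool.Agent.K6.H38.ND

open Pool.Agent.H499R2.ND Finset Filter Topology

/-- the counting function -/
noncomputable def cnt (T : Set ℤ) (x : ℝ) : ℝ := ∑ n ∈ range (⌊x⌋₊ + 1), chi T n

noncomputable def ind (v : ℝ) : ℝ := if v ≤ 1 then 1 else 0

theorem ind_anti : Antitone ind := by
  intro a b hab
  unfold ind
  split_ifs with h1 h2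
  · exact le_rfl
  · exact absurd (hab.trans h1) h2
  · norm_num
  · exact le_rfl

theorem ind_le (v : ℝ) : ind v ≤ 1 := by unfold ind; split_ifs <;> norm_num
theorem ind_nonneg (v : ℝ) : 0 ≤ ind v := by unfold ind; split_ifs <;> norm_num
theorem ind_zero (v : ℝ) (hv : 2 ≤ v) : ind v = 0 := by unfold ind; rw [if_neg (by linarith)]

theorem gg_ind (T : Set ℤ) (u : ℝ) : gg T ind u = Real.exp (-u) * cnt T (Real.exp u) := by
  unfold gg cnt
  rw [tsum_eq_sum (s := range (⌊Real.exp u⌋₊ + 1))]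
  · congr 1
    apply sum_congr rfl
    intro n hn
    rw [mem_range] at hn
    have h1 : (n : ℝ) ≤ Real.exp u := (Nat.le_floor_iff (Real.exp_pos u).le).1 (by omega)
    have h2 : (n : ℝ) * Real.exp (-u) ≤ 1 := by
      have := mul_le_mul_of_nonneg_right h1 (Real.exp_pos (-u)).le
      rwa [exp_mul_exp_neg] at this
    unfold ind
    rw [if_pos h2, mul_one]
  · intro n hn
    rw [mem_range, not_lt] at hn
    have h1 : Real.exp u < n := (Nat.floor_lt (Real.exp_pos u).le).1 (by omega)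
    have h2 : 1 < (n : ℝ) * Real.exp (-u) := by
      have := mul_lt_mul_of_pos_right h1 (Real.exp_pos (-u))
      rwa [exp_mul_exp_neg] at this
    unfold ind
    rw [if_neg (by linarith), mul_zero]

theorem chi_zero (T : Set ℤ) : chi T 0 = 0 := by unfold chi; simp

theorem cnt_nonneg (T : Set ℤ) (x : ℝ) : 0 ≤ cnt T x := sum_nonneg fun n _ => chi_nonneg T n

theorem cnt_le (T : Set ℤ) {x : ℝ} (hx : 0 ≤ x) : cnt T x ≤ x := by
  unfold cnt
  rw [sum_range_succ', chi_zero, add_zero]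
  refine (sum_le_sum fun n _ => chi_le_one T (n + 1)).trans ?_
  rw [sum_const, card_range, nsmul_eq_mul, mul_one]
  exact Nat.floor_le hx

theorem cnt_diff (T : Set ℤ) {a b : ℝ} (ha : 0 ≤ a) (hab : a ≤ b) : 0 ≤ cnt T b - cnt T a ∧ cnt T b - cnt T a ≤ b - a + 1 := by
  have hfl : ⌊a⌋₊ ≤ ⌊b⌋₊ := Nat.floor_le_floor hab
  have h1 : cnt T b - cnt T a = ∑ n ∈ Ico (⌊a⌋₊ + 1) (⌊b⌋₊ + 1), chi T n := by
    unfold cnt
    rw [sum_Ico_eq_sub _ (by omega)]
  rw [h1]
  refine ⟨sum_nonneg fun n _ => chi_nonneg T n, ?_⟩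
  refine (sum_le_sum fun n _ => chi_le_one T n).trans ?_
  rw [sum_const, Nat.card_Ico, nsmul_eq_mul, mul_one]
  have h2 : ((⌊b⌋₊ + 1 - (⌊a⌋₊ + 1) : ℕ) : ℝ) = (⌊b⌋₊ : ℝ) - ⌊a⌋₊ := by
    rw [Nat.add_sub_add_right, Nat.cast_sub hfl]
  rw [h2]
  have h3 := Nat.floor_le (ha.trans hab)
  have h4 := Nat.lt_floor_add_one a
  linarith

theorem gg_ind_bd (T : Set ℤ) (u : ℝ) : 0 ≤ gg T ind u ∧ gg T ind u ≤ 1 := by
  rw [gg_ind]
  have h1 := cnt_le T (Real.exp_pos u).le
  have h2 := cnt_nonneg T (Real.exp u)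
  refine ⟨by positivity, ?_⟩
  have := mul_le_mul_of_nonneg_left h1 (Real.exp_pos (-u)).le
  rwa [mul_comm (Real.exp (-u)) (Real.exp u), exp_mul_exp_neg] at this

theorem hyp_ind {s : ℤ} (hs : s = 1 ∨ s = -1) : ∃ K : ℝ, 0 ≤ K ∧ ∀ T : Set ℤ, Inv s T → Hyp K (gg T ind) := by
  obtain ⟨C, hC, h⟩ := gg_anti 3 hs
  refine ⟨C * 2, by positivity, ?_⟩
  intro T hT
  refine ⟨?_, ?_, ?_⟩
  · intro w
    obtain ⟨h1, h2⟩ := gg_ind_bd T w
    rw [abs_of_nonneg h1]; exact h2
  · intro w hw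
    exact h T hT ind 2 (by norm_num) ind_zero ind_anti ind_le ind_nonneg w hw
  · intro w t hw ht
    rw [gg_ind, gg_ind]
    have hE := Real.exp_pos w
    have hE2 := Real.exp_pos (w - t)
    obtain ⟨h1, h2⟩ := cnt_diff T (a := Real.exp (w - t)) (b := Real.exp w) hE2.le (Real.exp_le_exp.2 (by linarith))
    have h3 := cnt_le T hE2.le
    have h4 := cnt_nonneg T (Real.exp (w - t))
    have e1 : Real.exp (-(w - t)) = Real.exp (-w) * Real.exp t := by rw [← Real.exp_add]; congr 1; ring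
    have e2 : Real.exp (w - t) = Real.exp w * Real.exp (-t) := by rw [← Real.exp_add]; congr 1
    have e3 := exp_mul_exp_neg w
    have e4 := exp_mul_exp_neg t
    have het : 1 - t ≤ Real.exp (-t) := by have := Real.add_one_le_exp (-t); linarith
    have het1 : 1 ≤ Real.exp t := Real.one_le_exp ht
    have hw1 : Real.exp (-w) ≤ 1 / w := by
      have := exp_neg_le_fact 1 (show 0 < w by linarith)
      simpa using this
    have hm := Real.exp_pos (-w)
    set N1 := cnt T (Real.exp w)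
    set N0 := cnt T (Real.exp (w - t))
    have key : Real.exp (-w) * N1 - Real.exp (-(w - t)) * N0 = Real.exp (-w) * (N1 - N0) - Real.exp (-w) * (Real.exp t - 1) * N0 := by
      rw [e1]; ring
    rw [key]
    have u1 : Real.exp (-w) * (N1 - N0) ≤ t + 1 / w := by
      have h5 := mul_le_mul_of_nonneg_left h2 hm.le
      have h6 : Real.exp (-w) * (Real.exp w - Real.exp (w - t) + 1) = 1 - Real.exp (-t) + Real.exp (-w) := by
        rw [e2]
        calc Real.exp (-w) * (Real.exp w - Real.exp w * Real.exp (-t) + 1)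
            = (Real.exp w * Real.exp (-w)) * (1 - Real.exp (-t)) + Real.exp (-w) := by ring
          _ = _ := by rw [e3]; ring
      rw [h6] at h5
      linarith
    have u2 : Real.exp (-w) * (Real.exp t - 1) * N0 ≤ t := by
      have h5 : Real.exp (-w) * (Real.exp t - 1) * N0 ≤ Real.exp (-w) * (Real.exp t - 1) * Real.exp (w - t) :=
        mul_le_mul_of_nonneg_left h3 (mul_nonneg hm.le (by linarith))
      have h6 : Real.exp (-w) * (Real.exp t - 1) * Real.exp (w - t) = 1 - Real.exp (-t) := by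
        rw [e2]
        calc Real.exp (-w) * (Real.exp t - 1) * (Real.exp w * Real.exp (-t))
            = (Real.exp w * Real.exp (-w)) * ((Real.exp t * Real.exp (-t)) - Real.exp (-t)) := by ring
          _ = _ := by rw [e3, e4]; ring
      rw [h6] at h5
      linarith
    have u3 : 0 ≤ Real.exp (-w) * (N1 - N0) := mul_nonneg hm.le h1
    have u4 : 0 ≤ Real.exp (-w) * (Real.exp t - 1) * N0 := mul_nonneg (mul_nonneg hm.le (by linarith)) h4
    have u5 : 0 ≤ 1 / w := by positivity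
    rw [abs_le]
    constructor <;> linarith

/-- the counting function, with an error term -/
theorem cnt_rate {s : ℤ} (hs : s = 1 ∨ s = -1) : ∃ C : ℝ, 0 < C ∧ ∀ T : Set ℤ, Inv s T → ∃ D : ℝ, 0 ≤ D ∧ D ≤ 1 ∧
    Tendsto (gg T ind) atTop (𝓝 D) ∧
    ∀ x : ℝ, 2 ≤ x → |cnt T x - D * x| ≤ C * x / (Real.log x) ^ (1 / 34 : ℝ) := by
  obtain ⟨K, hK, hhyp⟩ := hyp_ind hs
  obtain ⟨C, hC, h⟩ := rate hK
  refine ⟨C + 1, by positivity, ?_⟩
  intro T hT
  obtain ⟨D, hD, h1⟩ := h (gg T ind) (hhyp T hT)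
  have hD0 : 0 ≤ D := ge_of_tendsto' hD fun u => (gg_ind_bd T u).1
  have hD1 : D ≤ 1 := le_of_tendsto' hD fun u => (gg_ind_bd T u).2
  refine ⟨D, hD0, hD1, hD, ?_⟩
  intro x hx
  have hx0 : 0 < x := by linarith
  have hlx : 0 < Real.log x := Real.log_pos (by linarith)
  have hlp : 0 < (Real.log x) ^ (1 / 34 : ℝ) := Real.rpow_pos_of_pos hlx _
  have hc1 := cnt_le T hx0.le
  have hc0 := cnt_nonneg T x
  rcases lt_or_ge (Real.log x) 1 with hl | hl
  · have h2 : (Real.log x) ^ (1 / 34 : ℝ) ≤ 1 := Real.rpow_le_one hlx.le hl.le (by norm_num)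
    have h3 : |cnt T x - D * x| ≤ x := by
      rw [abs_le]
      have : D * x ≤ x := mul_le_of_le_one_left hx0.le hD1
      have : 0 ≤ D * x := by positivity
      constructor <;> linarith
    refine h3.trans ?_
    rw [le_div_iff₀ hlp]
    calc x * (Real.log x) ^ (1 / 34 : ℝ) ≤ x * 1 := mul_le_mul_of_nonneg_left h2 hx0.le
      _ ≤ (C + 1) * x := by nlinarith
  · have h2 := h1 (Real.log x) hl
    rw [gg_ind, Real.exp_log hx0, Real.exp_neg, Real.exp_log hx0] at h2
    have e : cnt T x - D * x = x * (x⁻¹ * cnt T x - D) := by field_simp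
    rw [e, abs_mul, abs_of_pos hx0]
    calc x * |x⁻¹ * cnt T x - D| ≤ x * (C / (Real.log x) ^ (1 / 34 : ℝ)) := mul_le_mul_of_nonneg_left h2 hx0.le
      _ = C * x / (Real.log x) ^ (1 / 34 : ℝ) := by ring
      _ ≤ (C + 1) * x / (Real.log x) ^ (1 / 34 : ℝ) := by
          apply div_le_div_of_nonneg_right _ hlp.le
          linarith

end Pool.Agent.K6.H38.ND
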