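import Pool.Agent.K6.H38.ND.Walk

/-! Functions which are almost harmonic for the walk with steps `- log 2`, `log 3 - log 2`: near invariance
under the shifts. -/

set_option autoImplicit false

namespace Pool.Agent.K6.H38.ND

open Finset Filter Topology

/-- bounded, almost harmonic and almost Lipschitz functions -/
structure Hyp (K : ℝ) (G : ℝ → ℝ) : Prop where
  one : ∀ w, |G w| ≤ 1
  harm : ∀ w, 1 ≤ w → |G w - Av G w| ≤ K / w ^ 3
  lip : ∀ w t, 1 ≤ w → 0 ≤ t → |G w - G (w - t)| ≤ t + 1 / w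

theorem l2b : 0.6931 ≤ Real.log 2 ∧ Real.log 2 ≤ 0.6932 := by
  have h1 := Real.log_two_gt_d9
  have h2 := Real.log_two_lt_d9
  constructor <;> linarith

theorem l3b : 1.0986 ≤ Real.log 3 ∧ Real.log 3 ≤ 1.0987 := by
  constructor
  · rw [Real.le_log_iff_exp_le (by norm_num)]
    have h1 := Real.exp_one_lt_d9
    have h2 : Real.exp 1.0986 = Real.exp 1 * Real.exp 0.0986 := by rw [← Real.exp_add]; norm_num
    have h3 : Real.exp 0.0986 ≤ 1.10363 := by
      have := Real.exp_bound' (x := 0.0986) (by norm_num) (by norm_num) (n := 4) (by norm_num)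
      refine this.trans ?_
      simp [sum_range_succ, Nat.factorial]
      norm_num
    rw [h2]
    have h4 := Real.exp_pos 0.0986
    nlinarith
  · rw [Real.log_le_iff_le_exp (by norm_num)]
    have h1 := Real.exp_one_gt_d9
    have h2 : Real.exp 1.0987 = Real.exp 1 * Real.exp 0.0987 := by rw [← Real.exp_add]; norm_num
    have h3 : 1.10373 ≤ Real.exp 0.0987 := by
      have h5 := Real.sum_le_exp_of_nonneg (x := 0.0987) (by norm_num) 4
      refine le_trans ?_ h5
      simp [sum_range_succ, Nat.factorial]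
      norm_num
    rw [h2]
    nlinarith

variable {K : ℝ} {G : ℝ → ℝ}

/-- the iterates of the averaging operator, depth `m` -/
theorem iter_close (hK : 0 ≤ K) (h : Hyp K G) (n : ℕ) : ∀ w m : ℝ, 1 ≤ m → m ≤ w - n * Real.log 2 →
    |G w - (Av^[n] G) w| ≤ n * (K / m ^ 3) := by
  have hl2 := l2b
  have hl3 := l3b
  induction n with
  | zero => intro w m _ _; simp
  | succ n ih =>
    intro w m hm hw
    rw [Function.iterate_succ_apply']
    push_cast at hw
    have hnl : (0 : ℝ) ≤ n * Real.log 2 := by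
      have : (0 : ℝ) ≤ Real.log 2 := by linarith
      positivity
    have hwm : m ≤ w := by linarith
    have h1 := h.harm w (by linarith)
    have h2 := ih (w - Real.log 2) m hm (by linarith)
    have h3 := ih (w - Real.log 2 + Real.log 3) m hm (by linarith)
    have h4 : K / w ^ 3 ≤ K / m ^ 3 := by
      apply div_le_div_of_nonneg_left hK (by positivity)
      exact pow_le_pow_left₀ (by linarith) hwm 3
    have h5 : |Av G w - Av (Av^[n] G) w| ≤ n * (K / m ^ 3) := by
      unfold Av
      rw [← sub_div, abs_div, abs_two]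
      have e : G (w - Real.log 2) + G (w - Real.log 2 + Real.log 3)
          - (Av^[n] G (w - Real.log 2) + Av^[n] G (w - Real.log 2 + Real.log 3))
          = (G (w - Real.log 2) - Av^[n] G (w - Real.log 2))
            + (G (w - Real.log 2 + Real.log 3) - Av^[n] G (w - Real.log 2 + Real.log 3)) := by ring
      have h6 := abs_add_le (G (w - Real.log 2) - Av^[n] G (w - Real.log 2))
        (G (w - Real.log 2 + Real.log 3) - Av^[n] G (w - Real.log 2 + Real.log 3))
      unfold Av at e
      rw [e]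
      unfold Av at h2 h3 h6
      linarith
    have h6 := abs_sub_le (G w) (Av G w) (Av (Av^[n] G) w)
    push_cast
    linarith

theorem iter_close' (hK : 0 ≤ K) (h : Hyp K G) {w : ℝ} (hw : 4 ≤ w) {n : ℕ} (hn : (n : ℝ) ≤ w) :
    |G w - (Av^[n] G) w| ≤ 38 * K / w ^ 2 := by
  have hl2 := l2b
  have h1 := iter_close hK h n w (0.3 * w) (by linarith) (by
    have : (n : ℝ) * Real.log 2 ≤ w * 0.6932 := mul_le_mul hn hl2.2 (by linarith) (by linarith)
    linarith)
  refine h1.trans ?_
  have hw0 : 0 < w := by linarith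
  have h2 : (n : ℝ) * (K / (0.3 * w) ^ 3) ≤ w * (K / (0.3 * w) ^ 3) :=
    mul_le_mul_of_nonneg_right hn (by positivity)
  refine h2.trans ?_
  have e : w * (K / (0.3 * w) ^ 3) = K / w ^ 2 * (1000 / 27) := by
    field_simp
    norm_num
    ring
  rw [e]
  have e2 : 38 * K / w ^ 2 = K / w ^ 2 * 38 := by ring
  rw [e2]
  apply mul_le_mul_of_nonneg_left (by norm_num) (by positivity)

/-- near invariance under the shifts by `- j log 2 + b log 3` -/
theorem shift_close (hK : 0 ≤ K) (h : Hyp K G) {w : ℝ} (hw : 16 ≤ w) {j b : ℕ} (hj : (j : ℝ) ≤ w / 8)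
    {l : ℝ} (hl : 0 < l) (hq : ((j : ℝ) / 2 - b) ^ 2 + j / 4 ≤ l ^ 2) :
    |G w - G (w - j * Real.log 2 + b * Real.log 3)| ≤ 6 * l / √ w + 85 * K / w ^ 2 := by
  have hl2 := l2b
  have hl3 := l3b
  have hw0 : 0 < w := by linarith
  set n : ℕ := ⌊w / 8⌋₊ with hn
  have hn1 : (n : ℝ) ≤ w / 8 := Nat.floor_le (by positivity)
  have hn2 : w / 8 < n + 1 := Nat.lt_floor_add_one _
  set w' : ℝ := w - j * Real.log 2 + b * Real.log 3 with hw'
  have hj0 : (0 : ℝ) ≤ j := Nat.cast_nonneg j
  have hb0 : (0 : ℝ) ≤ b * Real.log 3 := mul_nonneg (Nat.cast_nonneg b) (by linarith)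
  have hjl : (j : ℝ) * Real.log 2 ≤ w / 8 * 0.6932 := mul_le_mul hj hl2.2 (by linarith) (by linarith)
  have hw'1 : 0.9 * w ≤ w' := by rw [hw']; linarith
  -- first term
  have h1 := iter_close' hK h (w := w) (by linarith) (n := j + n) (by push_cast; linarith)
  have h2 := iter_close' hK h (w := w') (by linarith) (n := n) (by linarith)
  set ψ : ℝ → ℝ := Av^[n] G with hψ
  have hδ := Av_shift h.one n
  set δ : ℝ := 2 / √ (n + 1) with hδdef
  have hδ0 : 0 ≤ δ := by positivity
  have hδ1 : δ ≤ 6 / √ w := by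
    rw [hδdef, div_le_div_iff₀ (by positivity) (by positivity)]
    have h3 : √ w ≤ 3 * √ (n + 1) := by
      rw [show (3 : ℝ) * √ (n + 1) = √ (9 * (n + 1)) by
        rw [Real.sqrt_mul (by norm_num), show (9 : ℝ) = 3 ^ 2 by norm_num, Real.sqrt_sq (by norm_num)]]
      apply Real.sqrt_le_sqrt
      linarith
    linarith
  have h3 : |(Av^[j] ψ) w - ψ w'| ≤ δ * l := by
    have h4 : ∀ k : ℤ, |ψ ((w - j * Real.log 2) + k * Real.log 3) - ψ w'| ≤ δ * l / 2 + δ / (2 * l) * ((k : ℝ) - b) ^ 2 := by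
      intro k
      have h5 := Av_iter_shift hδ w' (k - b)
      have e : w' + ((k - b : ℤ) : ℝ) * Real.log 3 = (w - j * Real.log 2) + k * Real.log 3 := by
        rw [hw']; push_cast; ring
      rw [e] at h5
      refine h5.trans ?_
      push_cast
      have h6 : |(k : ℝ) - b| ≤ l / 2 + ((k : ℝ) - b) ^ 2 / (2 * l) := by
        rw [div_add_div _ _ (by norm_num) (by positivity), le_div_iff₀ (by positivity), ← sq_abs ((k : ℝ) - b)]
        nlinarith [sq_nonneg (|(k : ℝ) - b| - l)]
      have h7 := mul_le_mul_of_nonneg_left h6 hδ0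
      refine h7.trans (le_of_eq ?_)
      field_simp
    have h5 := Av_quad j h4 0
    have e : w - j * Real.log 2 + j * Real.log 2 + ((0 : ℤ) : ℝ) * Real.log 3 = w := by push_cast; ring
    rw [e] at h5
    refine h5.trans ?_
    have h6 : (((0 : ℤ) : ℝ) + j / 2 - b) ^ 2 + (j : ℝ) / 4 ≤ l ^ 2 := by
      push_cast
      rw [zero_add]
      exact hq
    have h7 := mul_le_mul_of_nonneg_left h6 (show 0 ≤ δ / (2 * l) by positivity)
    have e2 : δ / (2 * l) * l ^ 2 = δ * l / 2 := by field_simp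
    linarith
  have e1 : (Av^[j + n] G) w = (Av^[j] ψ) w := by rw [Function.iterate_add_apply]
  rw [e1] at h1
  have h4 := abs_sub_le (G w) ((Av^[j] ψ) w) (ψ w')
  have h5 := abs_sub_le (G w) (ψ w') (G w')
  rw [abs_sub_comm] at h2
  have h6 : δ * l ≤ 6 * l / √ w := by
    have := mul_le_mul_of_nonneg_right hδ1 hl.le
    calc δ * l ≤ 6 / √ w * l := this
      _ = 6 * l / √ w := by ring
  have h7 : 38 * K / w' ^ 2 ≤ 47 * K / w ^ 2 := by
    rw [div_le_div_iff₀ (by nlinarith) (by positivity)]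
    have h8 : (0.9 * w) ^ 2 ≤ w' ^ 2 := pow_le_pow_left₀ (by positivity) hw'1 2
    have h9 : 38 * w ^ 2 ≤ 47 * w' ^ 2 := by nlinarith
    have := mul_le_mul_of_nonneg_left h9 hK
    linarith
  have e3 : 85 * K / w ^ 2 = 38 * K / w ^ 2 + 47 * K / w ^ 2 := by ring
  rw [e3]
  linarith

end Pool.Agent.K6.H38.ND
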