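import Pool.Agent.K6.H38.ND.Meas3
import Pool.Agent.K6.H38.ND.Rate

/-! Homogeneous and inhomogeneous approximations by `b log 3 - j log 2`. -/

set_option autoImplicit false

namespace Pool.Agent.K6.H38.ND

/-- small values -/
theorem dio_hom : ∃ c : ℝ, 0 < c ∧ ∀ N : ℕ, 1 ≤ N → ∃ j b : ℕ, j ≤ 3 * N ∧ b ≤ N ∧
    c / N ^ 16 ≤ |b * Real.log 3 - j * Real.log 2| ∧ |b * Real.log 3 - j * Real.log 2| ≤ 1 / N := by
  obtain ⟨c, hc, h⟩ := meas
  have hl2 := l2b
  have hl3 := l3b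
  refine ⟨c / 3 ^ 16, by positivity, ?_⟩
  intro N hN
  have hNR : (1 : ℝ) ≤ N := by exact_mod_cast hN
  obtain ⟨j, k, hk, hkN, hjk⟩ := Real.exists_int_int_abs_mul_sub_le (Real.log 3 / Real.log 2) (n := N) (by omega)
  have hl20 : 0 < Real.log 2 := by linarith
  have hkR : (1 : ℝ) ≤ k := by exact_mod_cast hk
  have hkNR : (k : ℝ) ≤ N := by exact_mod_cast hkN
  have hθ1 : 1.5 ≤ Real.log 3 / Real.log 2 := by rw [le_div_iff₀ hl20]; linarith
  have hθ2 : Real.log 3 / Real.log 2 ≤ 1.6 := by rw [div_le_iff₀ hl20]; linarith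
  have hinv : (1 : ℝ) / ((N : ℝ) + 1) ≤ 1 / 2 := by
    apply one_div_le_one_div_of_le (by norm_num); linarith
  have habs := abs_le.1 hjk
  have hj0 : 0 < j := by
    have : (0 : ℝ) < j := by nlinarith
    exact_mod_cast this
  have hj3 : j ≤ 3 * N := by
    have : (j : ℝ) ≤ 3 * N := by nlinarith
    exact_mod_cast this
  have e : (k : ℝ) * Real.log 3 - j * Real.log 2 = (k * (Real.log 3 / Real.log 2) - j) * Real.log 2 := by
    field_simp
  refine ⟨j.toNat, k.toNat, by omega, by omega, ?_, ?_⟩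
  · have hjc : ((j.toNat : ℕ) : ℝ) = j := by
      have : ((j.toNat : ℕ) : ℤ) = j := Int.toNat_of_nonneg hj0.le
      exact_mod_cast this
    have hkc : ((k.toNat : ℕ) : ℝ) = k := by
      have : ((k.toNat : ℕ) : ℤ) = k := Int.toNat_of_nonneg hk.le
      exact_mod_cast this
    rw [hjc, hkc]
    have h1 := h j k (Or.inl hj0.ne') (3 * N) (by linarith) (by
      rw [abs_of_pos (by exact_mod_cast hj0)]
      exact_mod_cast hj3) (by
      rw [abs_of_pos (by linarith)]; linarith)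
    refine le_trans (le_of_eq ?_) h1
    rw [mul_pow, div_div]
  · have hjc : ((j.toNat : ℕ) : ℝ) = j := by
      have : ((j.toNat : ℕ) : ℤ) = j := Int.toNat_of_nonneg hj0.le
      exact_mod_cast this
    have hkc : ((k.toNat : ℕ) : ℝ) = k := by
      have : ((k.toNat : ℕ) : ℤ) = k := Int.toNat_of_nonneg hk.le
      exact_mod_cast this
    rw [hjc, hkc, e, abs_mul, abs_of_pos hl20]
    calc |(k : ℝ) * (Real.log 3 / Real.log 2) - j| * Real.log 2 ≤ 1 / ((N : ℝ) + 1) * 1 :=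
          mul_le_mul hjk (by linarith) hl20.le (by positivity)
      _ ≤ 1 / N := by
          rw [mul_one]
          apply one_div_le_one_div_of_le (by linarith); linarith

/-- inhomogeneous approximation -/
theorem dio_inhom : ∃ C : ℝ, 1 ≤ C ∧ ∀ N : ℕ, 1 ≤ N → ∀ t : ℝ, 0 ≤ t → t ≤ 1 → ∃ j b : ℕ,
    (j : ℝ) ≤ C * (N : ℝ) ^ 16 ∧ (b : ℝ) ≤ C * (N : ℝ) ^ 16 ∧ |b * Real.log 3 - j * Real.log 2 + t| ≤ 1 / N := by
  obtain ⟨c, hc, h⟩ := meas
  have hl2 := l2b
  have hl3 := l3b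
  have hl20 : 0 < Real.log 2 := by linarith
  set A : ℝ := 12 ^ 16 / c with hA
  have hA0 : 0 < A := by positivity
  refine ⟨5 * (A + 1), by linarith, ?_⟩
  intro N hN t ht0 ht1
  have hNR : (1 : ℝ) ≤ N := by exact_mod_cast hN
  have hN16 : (1 : ℝ) ≤ (N : ℝ) ^ 16 := one_le_pow₀ hNR
  set Q : ℕ := ⌈A * (N : ℝ) ^ 16⌉₊ with hQ
  have hQ1 : A * (N : ℝ) ^ 16 ≤ Q := Nat.le_ceil _
  have hQ2 : (Q : ℝ) ≤ (A + 1) * (N : ℝ) ^ 16 := by
    have := (Nat.ceil_lt_add_one (show 0 ≤ A * (N : ℝ) ^ 16 by positivity)).le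
    rw [← hQ] at this
    have e : (A + 1) * (N : ℝ) ^ 16 = A * (N : ℝ) ^ 16 + (N : ℝ) ^ 16 := by ring
    linarith
  have hQ0 : 0 < Q := by
    have h1 : (0 : ℝ) < A * (N : ℝ) ^ 16 := by positivity
    have : (0 : ℝ) < Q := by linarith
    exact_mod_cast this
  obtain ⟨ρ, hρ, hρQ⟩ := Real.exists_rat_abs_sub_le_and_den_le (Real.log 3 / Real.log 2) hQ0
  set q : ℕ := ρ.den with hq
  set p : ℤ := ρ.num with hp
  have hq0 : 0 < q := ρ.den_pos
  have hqR : (0 : ℝ) < q := by exact_mod_cast hq0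
  have hq1 : (1 : ℝ) ≤ q := by exact_mod_cast hq0
  have hqQ : (q : ℝ) ≤ Q := by exact_mod_cast hρQ
  have hρeq : ((ρ : ℚ) : ℝ) = p / q := by
    rw [hp, hq]; exact_mod_cast (Rat.num_div_den ρ).symm
  set θ : ℝ := Real.log 3 / Real.log 2 with hθ
  have hθ1 : 1.5 ≤ θ := by rw [hθ, le_div_iff₀ hl20]; linarith
  have hθ2 : θ ≤ 1.6 := by rw [hθ, div_le_iff₀ hl20]; linarith
  have hQR : (1 : ℝ) ≤ Q := by exact_mod_cast hQ0
  have hd : |q * θ - p| ≤ 1 / ((Q : ℝ) + 1) := by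
    rw [hρeq] at hρ
    have e : (q : ℝ) * θ - p = q * (θ - p / q) := by field_simp
    rw [e, abs_mul, abs_of_pos hqR]
    have := mul_le_mul_of_nonneg_left hρ hqR.le
    refine this.trans (le_of_eq ?_)
    field_simp
  have hd2 : |q * θ - p| ≤ 1 / 2 := hd.trans (one_div_le_one_div_of_le (by norm_num) (by linarith))
  have hdabs := abs_le.1 hd2
  have hp1 : (0 : ℝ) < p := by nlinarith
  have hp2 : (p : ℝ) ≤ 3 * q := by nlinarith
  have hppos : 0 < p := by exact_mod_cast hp1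
  -- the denominator is large
  have hqN : 4 * (N : ℝ) < q := by
    by_contra hcon
    rw [not_lt] at hcon
    have h1 := h p q (Or.inl hppos.ne') (12 * N) (by linarith) (by
      rw [abs_of_pos hp1]; linarith) (by
      push_cast
      rw [abs_of_pos hqR]; linarith)
    have e : ((q : ℤ) : ℝ) * Real.log 3 - p * Real.log 2 = (q * θ - p) * Real.log 2 := by
      rw [hθ]; push_cast; field_simp
    rw [e, abs_mul, abs_of_pos hl20] at h1
    have h2 : |q * θ - p| * Real.log 2 ≤ 1 / ((Q : ℝ) + 1) * 0.6932 :=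
      mul_le_mul hd hl2.2 hl20.le (by positivity)
    have h3 : c / (12 * (N : ℝ)) ^ 16 = 1 / (A * (N : ℝ) ^ 16) := by
      rw [hA, mul_pow]; field_simp
    rw [h3] at h1
    have h4 : 1 / ((Q : ℝ) + 1) ≤ 1 / (A * (N : ℝ) ^ 16) :=
      one_div_le_one_div_of_le (by positivity) (by linarith)
    have h5 : 0 < 1 / ((Q : ℝ) + 1) := by positivity
    linarith
  -- solve the congruence
  set τ : ℝ := t / Real.log 2 with hτ
  have hτ0 : 0 ≤ τ := by positivity
  have hτ2 : τ ≤ 2 := by rw [hτ, div_le_iff₀ hl20]; linarith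
  set m : ℤ := ⌊q * τ⌋ with hm
  have hm1 : (m : ℝ) ≤ q * τ := Int.floor_le _
  have hm2 : (q : ℝ) * τ < m + 1 := Int.lt_floor_add_one _
  have hm0 : 0 ≤ m := Int.floor_nonneg.2 (by positivity)
  have hcop : IsCoprime p (q : ℤ) := by
    rw [Int.isCoprime_iff_gcd_eq_one]
    have := ρ.reduced
    rw [hp, hq]
    unfold Int.gcd
    simpa using this
  obtain ⟨x, y, hxy⟩ := hcop
  set b : ℤ := (-m * x) % q with hb
  have hb0 : 0 ≤ b := Int.emod_nonneg _ (by omega)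
  have hbq : b < q := Int.emod_lt_of_pos _ (by omega)
  have hdvd : (q : ℤ) ∣ b * p + m := by
    have h1 : (q : ℤ) ∣ (-m * x) - b := by
      rw [hb]; exact Int.dvd_self_sub_emod
    obtain ⟨z, hz⟩ := h1
    refine ⟨-(z * p) + m * y, ?_⟩
    have h2 : b = -m * x - q * z := by linarith
    rw [h2]
    have h3 : m * (x * p + y * q) = m := by rw [hxy, mul_one]
    linear_combination -h3
  obtain ⟨j, hj⟩ := hdvd
  have hb0R : (0 : ℝ) ≤ b := by exact_mod_cast hb0
  have hbqR : (b : ℝ) ≤ q := by exact_mod_cast hbq.le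
  have hjR : (b : ℝ) * p + m = q * j := by exact_mod_cast hj
  have hj0 : 0 ≤ j := by
    by_contra hcon
    rw [not_le] at hcon
    have h1 : (q : ℤ) * j < 0 := mul_neg_of_pos_of_neg (by omega) hcon
    have h2 : 0 ≤ b * p + m := by positivity
    omega
  have hj0R : (0 : ℝ) ≤ j := by exact_mod_cast hj0
  have hjle : (j : ℝ) ≤ 5 * q := by
    have h1 : (q : ℝ) * j ≤ q * (5 * q) := by
      rw [← hjR]
      have h2 : (b : ℝ) * p ≤ q * (3 * q) := mul_le_mul hbqR hp2 hp1.le hqR.le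
      have h3 : (m : ℝ) ≤ q * 2 := hm1.trans (mul_le_mul_of_nonneg_left hτ2 hqR.le)
      nlinarith
    exact le_of_mul_le_mul_left h1 hqR
  have hbc : ((b.toNat : ℕ) : ℝ) = b := by
    have : ((b.toNat : ℕ) : ℤ) = b := Int.toNat_of_nonneg hb0
    exact_mod_cast this
  have hjc : ((j.toNat : ℕ) : ℝ) = j := by
    have : ((j.toNat : ℕ) : ℤ) = j := Int.toNat_of_nonneg hj0
    exact_mod_cast this
  refine ⟨j.toNat, b.toNat, ?_, ?_, ?_⟩
  · rw [hjc]
    calc (j : ℝ) ≤ 5 * q := hjle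
      _ ≤ 5 * Q := by linarith
      _ ≤ 5 * ((A + 1) * (N : ℝ) ^ 16) := by linarith
      _ = 5 * (A + 1) * (N : ℝ) ^ 16 := by ring
  · rw [hbc]
    have h0 : 0 ≤ (A + 1) * (N : ℝ) ^ 16 := by positivity
    calc (b : ℝ) ≤ q := hbqR
      _ ≤ Q := hqQ
      _ ≤ (A + 1) * (N : ℝ) ^ 16 := hQ2
      _ ≤ 5 * ((A + 1) * (N : ℝ) ^ 16) := by linarith
      _ = 5 * (A + 1) * (N : ℝ) ^ 16 := by ring
  · rw [hbc, hjc]
    have e : (b : ℝ) * Real.log 3 - j * Real.log 2 + t = (b * θ + τ - j) * Real.log 2 := by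
      rw [hθ, hτ]; field_simp; ring
    have e2 : (b : ℝ) * θ + τ - j = b / q * (q * θ - p) + (τ - m / q) := by
      have : (j : ℝ) = (b * p + m) / q := by rw [hjR]; field_simp
      rw [this]; field_simp; ring
    have h1 : |(b : ℝ) / q * (q * θ - p)| ≤ 1 / q := by
      rw [abs_mul, abs_of_nonneg (by positivity)]
      have h2 : (b : ℝ) / q ≤ 1 := by rw [div_le_one hqR]; exact hbqR
      calc (b : ℝ) / q * |q * θ - p| ≤ 1 * (1 / ((Q : ℝ) + 1)) := mul_le_mul h2 hd (abs_nonneg _) (by norm_num)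
        _ ≤ 1 / q := by rw [one_mul]; exact one_div_le_one_div_of_le hqR (by linarith)
    have h2 : |τ - m / q| ≤ 1 / q := by
      have h3 : 0 ≤ τ - m / q := by
        rw [sub_nonneg, div_le_iff₀ hqR]; linarith
      rw [abs_of_nonneg h3]
      rw [sub_le_iff_le_add, ← add_div, le_div_iff₀ hqR]; linarith
    have h3 : |(b : ℝ) * θ + τ - j| ≤ 2 / q := by
      rw [e2]
      refine (abs_add_le _ _).trans ?_
      have : (2 : ℝ) / q = 1 / q + 1 / q := by ring
      linarith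
    rw [e, abs_mul, abs_of_pos hl20]
    have h4 : 2 / (q : ℝ) ≤ 1 / (2 * N) := by
      rw [div_le_div_iff₀ hqR (by positivity)]; linarith
    calc |(b : ℝ) * θ + τ - j| * Real.log 2 ≤ 1 / (2 * N) * 1 := mul_le_mul (h3.trans h4) (by linarith) hl20.le (by positivity)
      _ ≤ 1 / N := by
          rw [mul_one]; exact one_div_le_one_div_of_le (by positivity) (by linarith)

end Pool.Agent.K6.H38.ND
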