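import Pool.Agent.H319R3.LV.LV3

/-! The functional equation of the counting function of an invariant set, with error smaller than any
power of the logarithm. -/

set_option autoImplicit false

namespace Pool.Agent.K6.H38.ND

open Pool.Agent.H320R2.PD Pool.Agent.H499R2.ND Pool.Agent.H319R3.LV Finset

open scoped Classical in
/-- indicator of the positive elements -/
noncomputable def chi (T : Set ℤ) (n : ℕ) : ℝ := if 1 ≤ n ∧ (n : ℤ) ∈ T then 1 else 0

theorem chi_nonneg (T : Set ℤ) (n : ℕ) : 0 ≤ chi T n := by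
  unfold chi; split_ifs <;> norm_num

theorem chi_le_one (T : Set ℤ) (n : ℕ) : chi T n ≤ 1 := by
  unfold chi; split_ifs <;> norm_num

theorem chi_abs (T : Set ℤ) (n : ℕ) : |chi T n| ≤ 1 := by
  rw [abs_of_nonneg (chi_nonneg T n)]; exact chi_le_one T n

theorem chi_two {s : ℤ} {T : Set ℤ} (h : Inv s T) (k : ℕ) : chi T (2 * k) = chi T k := by
  unfold chi
  have : (1 ≤ 2 * k ∧ ((2 * k : ℕ) : ℤ) ∈ T) ↔ (1 ≤ k ∧ (k : ℤ) ∈ T) := by
    push_cast
    rw [h.two]
    constructor
    · rintro ⟨h1, h2⟩; exact ⟨by omega, h2⟩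
    · rintro ⟨h1, h2⟩; exact ⟨by omega, h2⟩
  by_cases h1 : 1 ≤ k ∧ (k : ℤ) ∈ T
  · rw [if_pos h1, if_pos (this.2 h1)]
  · rw [if_neg h1, if_neg (fun h => h1 (this.1 h))]

theorem chi_odd {s : ℤ} {T : Set ℤ} (h : Inv s T) {r : ℕ} (hr : 2 * (r : ℤ) = 3 + s) (hr1 : 1 ≤ r) (k : ℕ) :
    chi T (2 * k + 1) = chi T (3 * k + r) := by
  unfold chi
  have : (1 ≤ 2 * k + 1 ∧ ((2 * k + 1 : ℕ) : ℤ) ∈ T) ↔ (1 ≤ 3 * k + r ∧ ((3 * k + r : ℕ) : ℤ) ∈ T) := by
    have h1 : ((2 * k + 1 : ℕ) : ℤ) ∈ T ↔ ((3 * k + r : ℕ) : ℤ) ∈ T := by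
      apply h.odd
      · push_cast; exact ⟨k, by ring⟩
      · push_cast; linarith
    rw [h1]
    constructor
    · rintro ⟨_, h2⟩; exact ⟨by omega, h2⟩
    · rintro ⟨_, h2⟩; exact ⟨by omega, h2⟩
  by_cases h1 : 1 ≤ 3 * k + r ∧ ((3 * k + r : ℕ) : ℤ) ∈ T
  · rw [if_pos h1, if_pos (this.2 h1)]
  · rw [if_neg h1, if_neg (fun h => h1 (this.1 h))]

/-- indicator of a class mod three, minus its mean -/
noncomputable def ww (r m : ℕ) : ℝ := (if m % 3 = r then 1 else 0) - 1 / 3

noncomputable def WW (T : Set ℤ) (r M : ℕ) : ℝ := ∑ m ∈ range M, chi T m * ww r m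

theorem sum_even_odd (F : ℕ → ℝ) (M : ℕ) : ∑ n ∈ range (2 * M), F n = ∑ k ∈ range M, F (2 * k) + ∑ k ∈ range M, F (2 * k + 1) := by
  induction M with
  | zero => simp
  | succ M ih =>
    rw [show 2 * (M + 1) = 2 * M + 1 + 1 by ring, sum_range_succ, sum_range_succ, ih, sum_range_succ, sum_range_succ]
    ring

theorem sum_three (F : ℕ → ℝ) {r : ℕ} (hr : r < 3) (M : ℕ) :
    ∑ k ∈ range M, F (3 * k + r) = ∑ m ∈ range (3 * M), F m * (if m % 3 = r then 1 else 0) := by
  induction M with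
  | zero => simp
  | succ M ih =>
    rw [show 3 * (M + 1) = 3 * M + 1 + 1 + 1 by ring, sum_range_succ, sum_range_succ, sum_range_succ, sum_range_succ, ih]
    have h0 : (3 * M) % 3 = 0 := by omega
    have h1 : (3 * M + 1) % 3 = 1 := by omega
    have h2 : (3 * M + 1 + 1) % 3 = 2 := by omega
    rw [h0, h1, h2]
    interval_cases r <;> simp

/-- the basic identity -/
theorem basic {s : ℤ} {T : Set ℤ} (h : Inv s T) {r : ℕ} (hr : 2 * (r : ℤ) = 3 + s) (hr1 : 1 ≤ r) (hr3 : r < 3)
    (f : ℝ → ℝ) (M : ℕ) :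
    ∑ n ∈ range (2 * M), chi T n * f n = ∑ k ∈ range M, chi T k * f (2 * k)
      + 1 / 3 * ∑ m ∈ range (3 * M), chi T m * f ((2 * m - s) / 3)
      + ∑ m ∈ range (3 * M), chi T m * ww r m * f ((2 * m - s) / 3) := by
  rw [sum_even_odd]
  have e1 : ∀ k ∈ range M, chi T (2 * k) * f ((2 * k : ℕ) : ℝ) = chi T k * f (2 * k) := by
    intro k _; rw [chi_two h]; push_cast; rfl
  have e2 : ∀ k ∈ range M, chi T (2 * k + 1) * f ((2 * k + 1 : ℕ) : ℝ)
      = (fun m : ℕ => chi T m * f ((2 * (m : ℝ) - s) / 3)) (3 * k + r) := by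
    intro k _
    rw [chi_odd h hr hr1]
    simp only
    congr 2
    push_cast
    have : 2 * (r : ℝ) = 3 + s := by exact_mod_cast hr
    linarith
  rw [sum_congr rfl e1, sum_congr rfl e2, sum_three (fun m : ℕ => chi T m * f ((2 * (m : ℝ) - s) / 3)) hr3,
    add_assoc, mul_sum, ← sum_add_distrib]
  congr 1
  apply sum_congr rfl
  intro m _
  unfold ww
  ring

theorem wc_count (T : Set ℤ) (M : ℕ) : ((wc T 1 M 1 0).card : ℝ) = ∑ m ∈ range M, chi T m := by
  classical
  have h1 : wc T 1 M 1 0 = ((range M).filter fun n : ℕ => 1 ≤ n ∧ (n : ℤ) ∈ T).image (fun n : ℕ => (n : ℤ)) := by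
    ext x
    rw [mem_wc, mem_image]
    constructor
    · rintro ⟨⟨h1, h2⟩, h3, _⟩
      have hx1 : 1 ≤ x := by exact_mod_cast h1
      have hx2 : x < M := by exact_mod_cast h2
      refine ⟨x.toNat, ?_, Int.toNat_of_nonneg (by omega)⟩
      rw [mem_filter, mem_range]
      refine ⟨by omega, by omega, ?_⟩
      rw [Int.toNat_of_nonneg (by omega)]; exact h3
    · rintro ⟨n, hn, rfl⟩
      rw [mem_filter, mem_range] at hn
      refine ⟨⟨?_, ?_⟩, hn.2.2, one_dvd _⟩
      · exact_mod_cast hn.2.1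
      · exact_mod_cast hn.1
  rw [h1, card_image_of_injective _ (fun a b hab => by simpa using hab)]
  unfold chi
  rw [sum_ite, sum_const_zero, add_zero, sum_const, nsmul_eq_mul, mul_one]

theorem wc_count3 (T : Set ℤ) {r : ℕ} (hr3 : r < 3) (M : ℕ) :
    ((wc T 1 M 3 r).card : ℝ) = ∑ m ∈ range M, chi T m * (if m % 3 = r then 1 else 0) := by
  classical
  have h1 : wc T 1 M 3 r = ((range M).filter fun n : ℕ => (1 ≤ n ∧ (n : ℤ) ∈ T) ∧ n % 3 = r).image (fun n : ℕ => (n : ℤ)) := by
    ext x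
    rw [mem_wc, mem_image]
    constructor
    · rintro ⟨⟨h1, h2⟩, h3, h4⟩
      have hx1 : 1 ≤ x := by exact_mod_cast h1
      have hx2 : x < M := by exact_mod_cast h2
      refine ⟨x.toNat, ?_, Int.toNat_of_nonneg (by omega)⟩
      rw [mem_filter, mem_range]
      refine ⟨by omega, ⟨by omega, ?_⟩, by omega⟩
      rw [Int.toNat_of_nonneg (by omega)]; exact h3
    · rintro ⟨n, hn, rfl⟩
      rw [mem_filter, mem_range] at hn
      refine ⟨⟨?_, ?_⟩, hn.2.1.2, by omega⟩
      · exact_mod_cast hn.2.1.1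
      · exact_mod_cast hn.1
  rw [h1, card_image_of_injective _ (fun a b hab => by simpa using hab)]
  have h2 : ∀ m ∈ range M, chi T m * (if m % 3 = r then 1 else 0)
      = if (1 ≤ m ∧ (m : ℤ) ∈ T) ∧ m % 3 = r then 1 else 0 := by
    intro m _
    unfold chi
    by_cases h1 : 1 ≤ m ∧ (m : ℤ) ∈ T <;> by_cases h2 : m % 3 = r <;> simp [h1, h2]
  rw [sum_congr rfl h2, sum_ite, sum_const_zero, add_zero, sum_const, nsmul_eq_mul, mul_one]

theorem WW_eq (T : Set ℤ) {r : ℕ} (hr3 : r < 3) (M : ℕ) :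
    WW T r M = ((wc T 1 M 3 r).card : ℝ) - ((wc T 1 M 1 0).card : ℝ) / 3 := by
  rw [wc_count, wc_count3 T hr3]
  unfold WW ww
  rw [sum_div, ← sum_sub_distrib]
  apply sum_congr rfl
  intro m _
  ring

/-- additivity in the interval -/
theorem wc_add (T : Set ℤ) {a b c : ℝ} (hab : a ≤ b) (hbc : b ≤ c) (q z : ℤ) :
    (wc T a c q z).card = (wc T a b q z).card + (wc T b c q z).card := by
  classical
  rw [← card_union_of_disjoint]
  · congr 1
    ext x
    rw [mem_wc, mem_union, mem_wc, mem_wc]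
    constructor
    · rintro ⟨⟨h1, h2⟩, h3, h4⟩
      rcases lt_or_ge (x : ℝ) b with h | h
      · left; exact ⟨⟨h1, h⟩, h3, h4⟩
      · right; exact ⟨⟨h, h2⟩, h3, h4⟩
    · rintro (⟨⟨h1, h2⟩, h3, h4⟩ | ⟨⟨h1, h2⟩, h3, h4⟩)
      · exact ⟨⟨h1, by linarith⟩, h3, h4⟩
      · exact ⟨⟨by linarith, h2⟩, h3, h4⟩
  · rw [Finset.disjoint_left]
    intro x hx hx'
    rw [mem_wc] at hx hx'
    linarith [hx.1.2, hx'.1.1]

theorem equi_sum (B : ℕ) {d : ℤ} (hd : Odd d) (hd3 : IsCoprime d 3) : ∃ C : ℝ, 0 < C ∧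
    ∀ T : Set ℤ, Inv d T → ∀ z : ℤ, ∀ b : ℝ, 2 ≤ b →
      |((wc T 1 b 3 z).card : ℝ) - ((wc T 1 b 1 0).card : ℝ) / 3| ≤ C * b / (Real.log b) ^ B := by
  obtain ⟨K, hK, c₀, hc₀, hc₀1, he⟩ := equi_avg B hd hd3
  set L0 : ℝ := 2000 + 1 / c₀ + 2 * B with hL0
  have hL0p : 2000 ≤ L0 := by
    have : (0 : ℝ) ≤ 1 / c₀ := by positivity
    have : (0 : ℝ) ≤ 2 * B := by positivity
    linarith
  set A0 : ℝ := 2 * Real.exp L0 with hA0
  have hA02 : 4 ≤ A0 := by
    have := Real.add_one_le_exp L0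
    rw [hA0]; linarith
  have hlogA0 : Real.log A0 = Real.log 2 + L0 := by
    rw [hA0, Real.log_mul (by norm_num) (by positivity), Real.log_exp]
  set C : ℝ := 3 * K + 2 * (Real.log A0) ^ B with hC
  have hlA0 : 0 < Real.log A0 := Real.log_pos (by linarith)
  have hCpos : 0 < C := by positivity
  refine ⟨C, hCpos, ?_⟩
  intro T hT z
  have hmain : ∀ n : ℕ, ∀ b : ℝ, 2 ≤ b → b ≤ A0 * 2 ^ n →
      |((wc T 1 b 3 z).card : ℝ) - ((wc T 1 b 1 0).card : ℝ) / 3| ≤ C * b / (Real.log b) ^ B := by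
    intro n
    induction n with
    | zero =>
      intro b hb hb2
      rw [pow_zero, mul_one] at hb2
      have hlb : 0 < Real.log b := Real.log_pos (by linarith)
      have h1 := wc_one_card_le T (a := 1) (b := b) (by linarith) 0
      have h2 : ((wc T 1 b 3 z).card : ℝ) ≤ b := by
        have h3 : ((wc T 1 b 3 z).card : ℝ) ≤ (wc T 1 b 1 0).card := by exact_mod_cast wc_q_le_one T 1 b 3 z
        linarith
      have h3 : (0 : ℝ) ≤ (wc T 1 b 3 z).card := Nat.cast_nonneg _
      have h4 : (0 : ℝ) ≤ (wc T 1 b 1 0).card := Nat.cast_nonneg _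
      have h5 : 2 * b ≤ C * b / (Real.log b) ^ B := by
        rw [le_div_iff₀ (by positivity)]
        have h6 : (Real.log b) ^ B ≤ (Real.log A0) ^ B :=
          pow_le_pow_left₀ hlb.le (Real.log_le_log (by linarith) hb2) B
        have h7 : 2 * (Real.log b) ^ B ≤ C := by rw [hC]; linarith
        calc 2 * b * (Real.log b) ^ B = 2 * (Real.log b) ^ B * b := by ring
          _ ≤ C * b := mul_le_mul_of_nonneg_right h7 (by linarith)
      rw [abs_le]
      constructor <;> linarith
    | succ n ih =>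
      intro b hb hb2
      rcases le_or_gt b A0 with hs | hl
      · exact ih b hb (hs.trans (le_mul_of_one_le_right (by linarith) (one_le_pow₀ (by norm_num))))
      · set A : ℝ := b / 2 with hA
        have hbA : b = 2 * A := by rw [hA]; ring
        have hA2 : 2 ≤ A := by rw [hA]; linarith
        have hAn : A ≤ A0 * 2 ^ n := by rw [hA]; rw [pow_succ] at hb2; linarith
        have hlA : L0 ≤ Real.log A := by
          rw [Real.le_log_iff_exp_le (by linarith)]
          rw [hA]; linarith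
        have hlApos : 0 < Real.log A := by linarith
        have h1 := ih A hA2 hAn
        have h2 := he T hT A (by linarith) (by linarith) 1 (by
          have : (0 : ℝ) ≤ 2 * B := by positivity
          have h3 : 1 / c₀ ≤ Real.log A := by linarith
          rw [div_le_iff₀ hc₀] at h3
          push_cast
          linarith) z
        rw [pow_one, pow_one] at h2
        have e1 := wc_add T (a := 1) (b := A) (c := b) (by linarith) (by linarith) 3 z
        have e2 := wc_add T (a := 1) (b := A) (c := b) (by linarith) (by linarith) 1 0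
        rw [e1, e2, hbA]
        push_cast
        have h3 : |((wc T 1 A 3 z).card : ℝ) + (wc T A (2 * A) 3 z).card
            - (((wc T 1 A 1 0).card : ℝ) + (wc T A (2 * A) 1 0).card) / 3|
            ≤ C * A / (Real.log A) ^ B + K / (Real.log A) ^ B * (A / 3) := by
          have h4 := abs_add_le (((wc T 1 A 3 z).card : ℝ) - ((wc T 1 A 1 0).card : ℝ) / 3)
            (((wc T A (2 * A) 3 z).card : ℝ) - (wc T A (2 * A) 1 0).card / 3)
          have e : (((wc T 1 A 3 z).card : ℝ) - ((wc T 1 A 1 0).card : ℝ) / 3)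
            + (((wc T A (2 * A) 3 z).card : ℝ) - (wc T A (2 * A) 1 0).card / 3)
            = ((wc T 1 A 3 z).card : ℝ) + (wc T A (2 * A) 3 z).card
            - (((wc T 1 A 1 0).card : ℝ) + (wc T A (2 * A) 1 0).card) / 3 := by ring
          rw [e] at h4
          linarith
        refine h3.trans ?_
        have hl2 : Real.log (2 * A) = Real.log 2 + Real.log A := Real.log_mul (by norm_num) (by linarith)
        have h5 : (Real.log (2 * A)) ^ B ≤ 3 / 2 * (Real.log A) ^ B := by
          rw [hl2]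
          have h6 : Real.log 2 + Real.log A = Real.log A * (1 + Real.log 2 / Real.log A) := by
            field_simp; ring
          rw [h6, mul_pow]
          have h7 : (1 + Real.log 2 / Real.log A) ^ B ≤ 3 / 2 := by
            have hl2' := Real.log_two_lt_d9
            have hl2'' := Real.log_two_gt_d9
            have h8 : 1 + Real.log 2 / Real.log A ≤ Real.exp (Real.log 2 / Real.log A) := by
              have := Real.add_one_le_exp (Real.log 2 / Real.log A); linarith
            have h9 : (1 + Real.log 2 / Real.log A) ^ B ≤ Real.exp (Real.log 2 / Real.log A) ^ B :=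
              pow_le_pow_left₀ (by positivity) h8 B
            refine h9.trans ?_
            rw [← Real.exp_nat_mul]
            have h10 : (B : ℝ) * (Real.log 2 / Real.log A) ≤ 0.35 := by
              rw [mul_div_assoc', div_le_iff₀ hlApos]
              have : (2 : ℝ) * B ≤ Real.log A := by
                have : (0 : ℝ) ≤ 1 / c₀ := by positivity
                linarith
              have hB0 : (0 : ℝ) ≤ B := Nat.cast_nonneg B
              nlinarith
            have h11 : Real.exp (0.35 : ℝ) ≤ 3 / 2 := by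
              have := Real.exp_bound' (x := 0.35) (by norm_num) (by norm_num) (n := 4) (by norm_num)
              refine this.trans ?_
              simp [sum_range_succ, Nat.factorial]
              norm_num
            exact (Real.exp_le_exp.2 h10).trans h11
          have := mul_le_mul_of_nonneg_left h7 (show (0 : ℝ) ≤ Real.log A ^ B by positivity)
          linarith
        have hpos1 : 0 < (Real.log A) ^ B := by positivity
        have hpos2 : 0 < (Real.log (2 * A)) ^ B := by rw [hl2]; have := Real.log_two_gt_d9; positivity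
        have h6 : C * A / (Real.log A) ^ B + K / (Real.log A) ^ B * (A / 3) = (C + K / 3) * A / (Real.log A) ^ B := by
          field_simp
        rw [h6, div_le_div_iff₀ hpos1 hpos2]
        have hKC : 3 * K ≤ C := by
          have : (0 : ℝ) ≤ 2 * (Real.log A0) ^ B := by positivity
          rw [hC]; linarith
        have h7 : (C + K / 3) * A * (Real.log (2 * A)) ^ B ≤ (C + K / 3) * A * (3 / 2 * (Real.log A) ^ B) :=
          mul_le_mul_of_nonneg_left h5 (by positivity)
        refine h7.trans ?_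
        have h8 : (C + K / 3) * (3 / 2) ≤ C * 2 := by linarith
        calc (C + K / 3) * A * (3 / 2 * (Real.log A) ^ B) = (C + K / 3) * (3 / 2) * (A * (Real.log A) ^ B) := by ring
          _ ≤ C * 2 * (A * (Real.log A) ^ B) := mul_le_mul_of_nonneg_right h8 (by positivity)
          _ = _ := by ring
  intro b hb
  obtain ⟨n, hn⟩ := pow_unbounded_of_one_lt (b / A0) (one_lt_two (α := ℝ))
  refine hmain n b hb ?_
  rw [div_lt_iff₀ (by linarith)] at hn
  linarith

theorem WW_bound (B : ℕ) {s : ℤ} (hd : Odd s) (hd3 : IsCoprime s 3) : ∃ C : ℝ, 0 < C ∧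
    ∀ T : Set ℤ, Inv s T → ∀ r : ℕ, r < 3 → ∀ M : ℕ, 2 ≤ M →
      |WW T r M| ≤ C * M / (Real.log M) ^ B := by
  obtain ⟨C, hC, h⟩ := equi_sum B hd hd3
  refine ⟨C, hC, fun T hT r hr M hM => ?_⟩
  rw [WW_eq T hr]
  exact h T hT r M (by exact_mod_cast hM)

end Pool.Agent.K6.H38.ND
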