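import Pool.Agent.K6.H38.ND.Bin

/-! The averaging operator of the walk with steps `- log 2`, `log 3 - log 2`. -/

set_option autoImplicit false

namespace Pool.Agent.K6.H38.ND

open Finset

/-- the averaging operator -/
noncomputable def Av (φ : ℝ → ℝ) : ℝ → ℝ := fun w => (φ (w - Real.log 2) + φ (w - Real.log 2 + Real.log 3)) / 2

theorem choose_sum (n : ℕ) (x : ℕ → ℝ) :
    ∑ a ∈ range (n + 2), ((n + 1).choose a : ℝ) * x a
      = ∑ a ∈ range (n + 1), (n.choose a : ℝ) * x a + ∑ a ∈ range (n + 1), (n.choose a : ℝ) * x (a + 1) := by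
  rw [sum_range_succ' (fun a => ((n + 1).choose a : ℝ) * x a)]
  have h1 : ∀ a ∈ range (n + 1), ((n + 1).choose (a + 1) : ℝ) * x (a + 1)
      = (n.choose (a + 1) : ℝ) * x (a + 1) + (n.choose a : ℝ) * x (a + 1) := by
    intro a _
    rw [Nat.choose_succ_succ' n a]
    push_cast
    ring
  rw [sum_congr rfl h1, sum_add_distrib]
  have h2 : ∑ a ∈ range (n + 1), (n.choose a : ℝ) * x a
      = ∑ a ∈ range (n + 1), (n.choose (a + 1) : ℝ) * x (a + 1) + x 0 := by
    have h3 : ∑ a ∈ range (n + 1 + 1), (n.choose a : ℝ) * x a = ∑ a ∈ range (n + 1), (n.choose a : ℝ) * x a := by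
      rw [sum_range_succ, Nat.choose_eq_zero_of_lt (Nat.lt_succ_self n)]
      simp
    rw [← h3, sum_range_succ' (fun a => (n.choose a : ℝ) * x a)]
    simp
  rw [h2]
  simp
  ring

/-- binomial form of the iterates -/
theorem Av_iter (φ : ℝ → ℝ) (n : ℕ) : ∀ w : ℝ, (Av^[n] φ) w
    = (∑ a ∈ range (n + 1), (n.choose a : ℝ) * φ (w - n * Real.log 2 + a * Real.log 3)) / 2 ^ n := by
  induction n with
  | zero => intro w; simp
  | succ n ih =>
    intro w
    rw [Function.iterate_succ_apply']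
    show ((Av^[n] φ) (w - Real.log 2) + (Av^[n] φ) (w - Real.log 2 + Real.log 3)) / 2 = _
    rw [ih, ih, choose_sum n (fun a => φ (w - (n + 1 : ℕ) * Real.log 2 + a * Real.log 3))]
    have e1 : ∀ a ∈ range (n + 1), (n.choose a : ℝ) * φ (w - Real.log 2 - n * Real.log 2 + a * Real.log 3)
        = (n.choose a : ℝ) * φ (w - (n + 1 : ℕ) * Real.log 2 + a * Real.log 3) := by
      intro a _
      congr 2
      push_cast
      ring
    have e2 : ∀ a ∈ range (n + 1), (n.choose a : ℝ) * φ (w - Real.log 2 + Real.log 3 - n * Real.log 2 + a * Real.log 3)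
        = (n.choose a : ℝ) * φ (w - (n + 1 : ℕ) * Real.log 2 + (a + 1 : ℕ) * Real.log 3) := by
      intro a _
      congr 2
      push_cast
      ring
    rw [sum_congr rfl e1, sum_congr rfl e2, pow_succ, ← add_div, div_div]

/-- difference of consecutive binomial coefficients, the index zero included -/
noncomputable def dd (n a : ℕ) : ℝ := (n.choose a : ℝ) - (if a = 0 then 0 else (n.choose (a - 1) : ℝ))

theorem tv (n : ℕ) : ∑ a ∈ range (n + 2), |dd n a| = 2 * (n.choose (n / 2) : ℝ) := by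
  have h1 : ∀ m : ℕ, m ≤ n / 2 → ∑ a ∈ range (m + 1), |dd n a| = (n.choose m : ℝ) := by
    intro m
    induction m with
    | zero => intro _; simp [dd]
    | succ m ih =>
      intro hm
      rw [sum_range_succ, ih (by omega)]
      have h2 : n.choose m ≤ n.choose (m + 1) := Nat.choose_le_succ_of_lt_half_left (by omega)
      have h3 : (n.choose m : ℝ) ≤ n.choose (m + 1) := by exact_mod_cast h2
      have h4 : dd n (m + 1) = (n.choose (m + 1) : ℝ) - n.choose m := by
        unfold dd; simp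
      rw [h4, abs_of_nonneg (by linarith)]
      ring
  have h2 : ∀ i : ℕ, ∑ a ∈ range (n / 2 + 1 + i), |dd n a| = 2 * (n.choose (n / 2) : ℝ) - (n.choose (n / 2 + i) : ℝ) := by
    intro i
    induction i with
    | zero => rw [add_zero, add_zero, h1 _ le_rfl]; ring
    | succ i ih =>
      rw [← add_assoc, sum_range_succ, ih]
      have h3 : n.choose (n / 2 + i + 1) ≤ n.choose (n / 2 + i) := by
        have h4 := Nat.choose_succ_right_eq n (n / 2 + i)
        have h5 : n - (n / 2 + i) ≤ n / 2 + i + 1 := by omega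
        have h6 : n.choose (n / 2 + i + 1) * (n / 2 + i + 1) ≤ n.choose (n / 2 + i) * (n / 2 + i + 1) := by
          rw [h4]; exact Nat.mul_le_mul_left _ h5
        exact Nat.le_of_mul_le_mul_right h6 (by omega)
      have h4 : (n.choose (n / 2 + i + 1) : ℝ) ≤ n.choose (n / 2 + i) := by exact_mod_cast h3
      have h5 : dd n (n / 2 + 1 + i) = (n.choose (n / 2 + i + 1) : ℝ) - n.choose (n / 2 + i) := by
        unfold dd
        rw [if_neg (by omega), show n / 2 + 1 + i - 1 = n / 2 + i by omega, show n / 2 + 1 + i = n / 2 + i + 1 by ring]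
      rw [h5, abs_of_nonpos (by linarith)]
      rw [show n / 2 + (i + 1) = n / 2 + i + 1 by ring]
      ring
  have h3 := h2 (n + 1 - n / 2)
  rw [show n / 2 + 1 + (n + 1 - n / 2) = n + 2 by omega, show n / 2 + (n + 1 - n / 2) = n + 1 by omega] at h3
  rw [h3, Nat.choose_eq_zero_of_lt (Nat.lt_succ_self n)]
  simp

/-- near invariance of the iterates under the shift by `log 3` -/
theorem Av_shift {φ : ℝ → ℝ} (hφ : ∀ w, |φ w| ≤ 1) (n : ℕ) (w : ℝ) :
    |(Av^[n] φ) w - (Av^[n] φ) (w + Real.log 3)| ≤ 2 / √ (n + 1) := by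
  rw [Av_iter, Av_iter]
  set x : ℕ → ℝ := fun a => φ (w - n * Real.log 2 + a * Real.log 3) with hx
  have e1 : ∀ a ∈ range (n + 1), (n.choose a : ℝ) * φ (w + Real.log 3 - n * Real.log 2 + a * Real.log 3)
      = (n.choose a : ℝ) * x (a + 1) := by
    intro a _
    rw [hx]
    simp only
    congr 2
    push_cast
    ring
  rw [sum_congr rfl e1]
  have e2 : ∑ a ∈ range (n + 1), (n.choose a : ℝ) * x a - ∑ a ∈ range (n + 1), (n.choose a : ℝ) * x (a + 1)
      = ∑ a ∈ range (n + 2), dd n a * x a := by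
    have h1 : ∑ a ∈ range (n + 2), (if a = 0 then 0 else (n.choose (a - 1) : ℝ)) * x a
        = ∑ a ∈ range (n + 1), (n.choose a : ℝ) * x (a + 1) := by
      rw [sum_range_succ' (fun a => (if a = 0 then 0 else (n.choose (a - 1) : ℝ)) * x a)]
      simp
    have h2 : ∑ a ∈ range (n + 2), (n.choose a : ℝ) * x a = ∑ a ∈ range (n + 1), (n.choose a : ℝ) * x a := by
      rw [sum_range_succ, Nat.choose_eq_zero_of_lt (Nat.lt_succ_self n)]
      simp
    unfold dd
    simp only [sub_mul]
    rw [sum_sub_distrib, h1, h2]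
  rw [← sub_div, e2, abs_div, abs_of_pos (show (0 : ℝ) < 2 ^ n by positivity)]
  have h3 : |∑ a ∈ range (n + 2), dd n a * x a| ≤ 2 * (n.choose (n / 2) : ℝ) := by
    rw [← tv n]
    refine (abs_sum_le_sum_abs _ _).trans (sum_le_sum fun a _ => ?_)
    rw [abs_mul]
    exact mul_le_of_le_one_right (abs_nonneg _) (hφ _)
  have h4 := middle_le n
  calc |∑ a ∈ range (n + 2), dd n a * x a| / 2 ^ n ≤ 2 * (n.choose (n / 2) : ℝ) / 2 ^ n :=
        div_le_div_of_nonneg_right h3 (by positivity)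
    _ = 2 * ((n.choose (n / 2) : ℝ) / 2 ^ n) := by ring
    _ ≤ 2 * (1 / √ (n + 1)) := by linarith
    _ = 2 / √ (n + 1) := by ring

theorem Av_iter_shift {ψ : ℝ → ℝ} {δ : ℝ} (h : ∀ w, |ψ w - ψ (w + Real.log 3)| ≤ δ) (y : ℝ) (k : ℤ) :
    |ψ (y + k * Real.log 3) - ψ y| ≤ δ * |(k : ℝ)| := by
  have hN : ∀ (m : ℕ) (y : ℝ), |ψ (y + m * Real.log 3) - ψ y| ≤ δ * m := by
    intro m
    induction m with
    | zero => intro y; simp
    | succ m ih =>
      intro y
      have h1 := ih y
      have h2 := h (y + m * Real.log 3)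
      have e : y + ((m + 1 : ℕ) : ℝ) * Real.log 3 = y + m * Real.log 3 + Real.log 3 := by push_cast; ring
      rw [e]
      have h3 := abs_sub_le (ψ (y + m * Real.log 3 + Real.log 3)) (ψ (y + m * Real.log 3)) (ψ y)
      rw [abs_sub_comm] at h2
      push_cast
      linarith
  obtain ⟨m, rfl | rfl⟩ := Int.eq_nat_or_neg k
  · have := hN m y
    simpa using this
  · have := hN m (y + ((-(m : ℤ) : ℤ) : ℝ) * Real.log 3)
    have e : y + ((-(m : ℤ) : ℤ) : ℝ) * Real.log 3 + m * Real.log 3 = y := by push_cast; ring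
    rw [e] at this
    rw [abs_sub_comm]
    refine this.trans (le_of_eq ?_)
    push_cast
    rw [abs_neg, Nat.abs_cast]

/-- quadratic bounds are preserved by the walk -/
theorem Av_quad {α β x : ℝ} (j : ℕ) : ∀ {ψ : ℝ → ℝ} {c y : ℝ}, (∀ k : ℤ, |ψ (y + k * Real.log 3) - c| ≤ α + β * (k - x) ^ 2) →
    ∀ k : ℤ, |(Av^[j] ψ) (y + j * Real.log 2 + k * Real.log 3) - c| ≤ α + β * ((k + j / 2 - x) ^ 2 + j / 4) := by
  induction j with
  | zero => intro ψ c y h k; simpa using h k
  | succ j ih =>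
    intro ψ c y h k
    rw [Function.iterate_succ_apply']
    have h1 := ih h k
    have h2 := ih h (k + 1)
    have e0 : Av (Av^[j] ψ) (y + ((j + 1 : ℕ) : ℝ) * Real.log 2 + k * Real.log 3)
        = ((Av^[j] ψ) (y + j * Real.log 2 + k * Real.log 3) + (Av^[j] ψ) (y + j * Real.log 2 + ((k + 1 : ℤ) : ℝ) * Real.log 3)) / 2 := by
      unfold Av
      have e1 : y + ((j + 1 : ℕ) : ℝ) * Real.log 2 + k * Real.log 3 - Real.log 2 = y + j * Real.log 2 + k * Real.log 3 := by
        push_cast; ring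
      have e2 : y + j * Real.log 2 + k * Real.log 3 + Real.log 3 = y + j * Real.log 2 + ((k + 1 : ℤ) : ℝ) * Real.log 3 := by
        push_cast; ring
      rw [e1, e2]
    rw [e0]
    set u := (Av^[j] ψ) (y + j * Real.log 2 + k * Real.log 3)
    set v := (Av^[j] ψ) (y + j * Real.log 2 + ((k + 1 : ℤ) : ℝ) * Real.log 3)
    have e3 : (u + v) / 2 - c = ((u - c) + (v - c)) / 2 := by ring
    rw [e3, abs_div, abs_two]
    have h3 := abs_add_le (u - c) (v - c)
    have e4 : α + β * ((k + ((j + 1 : ℕ) : ℝ) / 2 - x) ^ 2 + ((j + 1 : ℕ) : ℝ) / 4)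
        = ((α + β * ((k + j / 2 - x) ^ 2 + j / 4)) + (α + β * ((((k + 1 : ℤ) : ℝ) + j / 2 - x) ^ 2 + j / 4))) / 2 := by
      push_cast; ring
    rw [e4]
    linarith

end Pool.Agent.K6.H38.ND
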