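import Pool.Agent.K6.H38.ND.FE
import Pool.Agent.K6.H38.ND.Walk

/-! Weighted counting functions of an invariant set: almost harmonic. -/

set_option autoImplicit false

namespace Pool.Agent.K6.H38.ND

open Pool.Agent.H499R2.ND Finset

theorem abs_WW_le (T : Set ℤ) (r m : ℕ) : |WW T r m| ≤ m := by
  unfold WW
  refine (abs_sum_le_sum_abs _ _).trans ?_
  have : ∀ k ∈ range m, |chi T k * ww r k| ≤ 1 := by
    intro k _
    rw [abs_mul]
    have h1 := chi_abs T k
    have h2 : |ww r k| ≤ 1 := by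
      unfold ww
      rw [abs_le]
      split_ifs <;> constructor <;> norm_num
    calc |chi T k| * |ww r k| ≤ 1 * 1 := mul_le_mul h1 h2 (abs_nonneg _) (by norm_num)
      _ = 1 := by norm_num
  have h := sum_le_sum this
  simpa using h

/-- uniform version -/
theorem WW_max (B : ℕ) {s : ℤ} (hd : Odd s) (hd3 : IsCoprime s 3) : ∃ C : ℝ, 0 < C ∧
    ∀ T : Set ℤ, Inv s T → ∀ r : ℕ, r < 3 → ∀ M : ℕ, 2 ≤ M → ∀ m : ℕ, m ≤ M →
      |WW T r m| ≤ C * M / (Real.log M) ^ B := by
  obtain ⟨C, hC, h⟩ := WW_bound B hd hd3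
  refine ⟨C * 2 ^ B + 2 ^ B * B.factorial, by positivity, ?_⟩
  intro T hT r hr M hM m hm
  have hMR : (2 : ℝ) ≤ M := by exact_mod_cast hM
  have hlM : 0 < Real.log M := Real.log_pos (by linarith)
  have hmR : (m : ℝ) ≤ M := by exact_mod_cast hm
  have hm0 : (0 : ℝ) ≤ m := Nat.cast_nonneg m
  rcases lt_or_ge ((m : ℝ)) (Real.exp (Real.log M / 2)) with hs | hl
  · have h1 := abs_WW_le T r m
    have h2 : (Real.log M / 2) ^ B / B.factorial ≤ Real.exp (Real.log M / 2) :=
      Real.pow_div_factorial_le_exp _ (by positivity) B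
    have h3 : Real.exp (Real.log M / 2) * Real.exp (Real.log M / 2) = M := by
      rw [← Real.exp_add, add_halves, Real.exp_log (by linarith)]
    have hf : (0 : ℝ) < B.factorial := by exact_mod_cast Nat.factorial_pos B
    have h4 : Real.exp (Real.log M / 2) * (Real.log M) ^ B ≤ 2 ^ B * B.factorial * M := by
      rw [div_le_iff₀ hf, div_pow, div_le_iff₀ (by positivity)] at h2
      have h5 := mul_le_mul_of_nonneg_left h2 (Real.exp_pos (Real.log M / 2)).le
      calc Real.exp (Real.log M / 2) * (Real.log M) ^ B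
          ≤ Real.exp (Real.log M / 2) * (Real.exp (Real.log M / 2) * B.factorial * 2 ^ B) := h5
        _ = (Real.exp (Real.log M / 2) * Real.exp (Real.log M / 2)) * (B.factorial * 2 ^ B) := by ring
        _ = _ := by rw [h3]; ring
    rw [le_div_iff₀ (by positivity)]
    have h5 : |WW T r m| * (Real.log M) ^ B ≤ Real.exp (Real.log M / 2) * (Real.log M) ^ B :=
      mul_le_mul_of_nonneg_right (h1.trans hs.le) (by positivity)
    have h6 : 0 ≤ C * 2 ^ B * M := by positivity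
    linarith
  · have hm2 : 2 ≤ m ∨ m < 2 := le_or_gt 2 m
    rcases hm2 with hm2 | hm2
    · have h1 := h T hT r hr m hm2
      have hlm : Real.log M / 2 ≤ Real.log m := by
        rw [Real.le_log_iff_exp_le (by have : (2 : ℝ) ≤ m := by exact_mod_cast hm2
                                       linarith)]
        exact hl
      have h2 : (Real.log M / 2) ^ B ≤ (Real.log m) ^ B := pow_le_pow_left₀ (by positivity) hlm B
      refine h1.trans ?_
      have h3 : C * m / (Real.log m) ^ B ≤ C * M / (Real.log M / 2) ^ B := by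
        apply div_le_div₀ (by positivity) (mul_le_mul_of_nonneg_left hmR hC.le) (by positivity) h2
      refine h3.trans ?_
      have h4 : C * M / (Real.log M / 2) ^ B = C * 2 ^ B * M / (Real.log M) ^ B := by
        rw [div_pow]; field_simp
      rw [h4]
      apply div_le_div_of_nonneg_right _ (by positivity)
      have : (0 : ℝ) ≤ 2 ^ B * B.factorial * M := by positivity
      linarith
    · exfalso
      have h1 : Real.exp (Real.log M / 2) * Real.exp (Real.log M / 2) = M := by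
        rw [← Real.exp_add, add_halves, Real.exp_log (by linarith)]
      have h2 : (m : ℝ) ≤ 1 := by exact_mod_cast (by omega : m ≤ 1)
      have h3 := Real.exp_pos (Real.log M / 2)
      nlinarith

theorem abel (w h : ℕ → ℝ) (M : ℕ) : ∑ m ∈ range M, w m * h m
    = (∑ m ∈ range M, w m) * h M - ∑ m ∈ range M, (∑ k ∈ range (m + 1), w k) * (h (m + 1) - h m) := by
  induction M with
  | zero => simp
  | succ M ih =>
    rw [sum_range_succ, ih, sum_range_succ (fun m => (∑ k ∈ range (m + 1), w k) * (h (m + 1) - h m)),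
      sum_range_succ w M]
    ring

theorem abel_bound {w h : ℕ → ℝ} {M : ℕ} {W : ℝ} (hW : ∀ m ≤ M, |∑ k ∈ range m, w k| ≤ W) :
    |∑ m ∈ range M, w m * h m| ≤ W * (|h M| + ∑ m ∈ range M, |h (m + 1) - h m|) := by
  rw [abel]
  have hW0 : 0 ≤ W := (abs_nonneg _).trans (hW 0 (Nat.zero_le _))
  have h1 : |(∑ m ∈ range M, w m) * h M| ≤ W * |h M| := by
    rw [abs_mul]; exact mul_le_mul_of_nonneg_right (hW M le_rfl) (abs_nonneg _)
  have h2 : |∑ m ∈ range M, (∑ k ∈ range (m + 1), w k) * (h (m + 1) - h m)| ≤ W * ∑ m ∈ range M, |h (m + 1) - h m| := by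
    rw [mul_sum]
    refine (abs_sum_le_sum_abs _ _).trans (sum_le_sum fun m hm => ?_)
    rw [mem_range] at hm
    rw [abs_mul]
    exact mul_le_mul_of_nonneg_right (hW _ (by omega)) (abs_nonneg _)
  have h3 := abs_sub (a := (∑ m ∈ range M, w m) * h M) (b := ∑ m ∈ range M, (∑ k ∈ range (m + 1), w k) * (h (m + 1) - h m))
  rw [mul_add]
  linarith

/-- the functional equation for a general weight -/
theorem fe_general {s : ℤ} {T : Set ℤ} (hT : Inv s T) {r : ℕ} (hr : 2 * (r : ℤ) = 3 + s) (hr1 : 1 ≤ r) (hr3 : r < 3)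
    (f : ℝ → ℝ) (M : ℕ) {W V E : ℝ} (hW : ∀ m ≤ 3 * M, |WW T r m| ≤ W)
    (hV : |f ((2 * ((3 * M : ℕ) : ℝ) - s) / 3)|
      + ∑ m ∈ range (3 * M), |f ((2 * ((m + 1 : ℕ) : ℝ) - s) / 3) - f ((2 * (m : ℝ) - s) / 3)| ≤ V)
    (hE : ∑ m ∈ range (3 * M), |f ((2 * (m : ℝ) - s) / 3) - f (2 * m / 3)| ≤ E) :
    |∑ n ∈ range (2 * M), chi T n * f n - ∑ k ∈ range M, chi T k * f (2 * k)
      - 1 / 3 * ∑ m ∈ range (3 * M), chi T m * f (2 * m / 3)| ≤ W * V + E / 3 := by
  have h0 := basic hT hr hr1 hr3 f M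
  have hW0 : 0 ≤ W := (abs_nonneg _).trans (hW 0 (Nat.zero_le _))
  have h1 : |∑ m ∈ range (3 * M), chi T m * ww r m * f ((2 * m - s) / 3)| ≤ W * V := by
    have := abel_bound (w := fun m => chi T m * ww r m) (h := fun m => f ((2 * (m : ℝ) - s) / 3)) (M := 3 * M) (W := W)
      (fun m hm => hW m hm)
    exact this.trans (mul_le_mul_of_nonneg_left hV hW0)
  have h2 : |∑ m ∈ range (3 * M), chi T m * f ((2 * m - s) / 3) - ∑ m ∈ range (3 * M), chi T m * f (2 * m / 3)| ≤ E := by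
    rw [← sum_sub_distrib]
    refine ((abs_sum_le_sum_abs _ _).trans (sum_le_sum fun m _ => ?_)).trans hE
    rw [← mul_sub, abs_mul]
    exact mul_le_of_le_one_left (abs_nonneg _) (chi_abs T m)
  have e : ∑ n ∈ range (2 * M), chi T n * f n - ∑ k ∈ range M, chi T k * f (2 * k)
      - 1 / 3 * ∑ m ∈ range (3 * M), chi T m * f (2 * m / 3)
      = ∑ m ∈ range (3 * M), chi T m * ww r m * f ((2 * m - s) / 3)
        + 1 / 3 * (∑ m ∈ range (3 * M), chi T m * f ((2 * m - s) / 3) - ∑ m ∈ range (3 * M), chi T m * f (2 * m / 3)) := by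
    rw [h0]; ring
  rw [e]
  refine (abs_add_le _ _).trans ?_
  rw [abs_mul, abs_of_pos (by norm_num : (0 : ℝ) < 1 / 3)]
  linarith

/-- the weighted counting function, logarithmic scale -/
noncomputable def gg (T : Set ℤ) (φ : ℝ → ℝ) (u : ℝ) : ℝ :=
  Real.exp (-u) * ∑' n : ℕ, chi T n * φ (n * Real.exp (-u))

theorem gg_eq (T : Set ℤ) {φ : ℝ → ℝ} {R : ℝ} (hφ : ∀ v, R ≤ v → φ v = 0) {u : ℝ} {M : ℕ} (hM : R * Real.exp u ≤ M) :
    gg T φ u = Real.exp (-u) * ∑ n ∈ range M, chi T n * φ (n * Real.exp (-u)) := by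
  unfold gg
  rw [tsum_eq_sum (s := range M)]
  intro n hn
  rw [mem_range, not_lt] at hn
  have h1 : (M : ℝ) ≤ n := by exact_mod_cast hn
  rw [hφ, mul_zero]
  rw [Real.exp_neg, ← div_eq_mul_inv, le_div_iff₀ (Real.exp_pos u)]
  linarith

/-- near harmonicity, from bounds for the variations -/
theorem gg_harm {s : ℤ} {T : Set ℤ} (hT : Inv s T) {r : ℕ} (hr : 2 * (r : ℤ) = 3 + s) (hr1 : 1 ≤ r) (hr3 : r < 3)
    {φ : ℝ → ℝ} {R : ℝ} (hφ : ∀ v, R ≤ v → φ v = 0) {u : ℝ} {M : ℕ} (hM : R * Real.exp u ≤ 2 * M) {W V E : ℝ}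
    (hW : ∀ m ≤ 3 * M, |WW T r m| ≤ W)
    (hV : |φ ((2 * ((3 * M : ℕ) : ℝ) - s) / 3 * Real.exp (-u))|
      + ∑ m ∈ range (3 * M), |φ ((2 * ((m + 1 : ℕ) : ℝ) - s) / 3 * Real.exp (-u)) - φ ((2 * (m : ℝ) - s) / 3 * Real.exp (-u))| ≤ V)
    (hE : ∑ m ∈ range (3 * M), |φ ((2 * (m : ℝ) - s) / 3 * Real.exp (-u)) - φ (2 * m / 3 * Real.exp (-u))| ≤ E) :
    |gg T φ u - Av (gg T φ) u| ≤ Real.exp (-u) * (W * V + E / 3) := by
  have h := fe_general hT hr hr1 hr3 (fun y => φ (y * Real.exp (-u))) M hW hV hE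
  have e1 : gg T φ u = Real.exp (-u) * ∑ n ∈ range (2 * M), chi T n * φ (n * Real.exp (-u)) :=
    gg_eq T hφ (by push_cast; exact hM)
  have x1 : Real.exp (-(u - Real.log 2)) = 2 * Real.exp (-u) := by
    rw [neg_sub, sub_eq_add_neg, Real.exp_add, Real.exp_log (by norm_num)]
  have x2 : Real.exp (-(u - Real.log 2 + Real.log 3)) = 2 / 3 * Real.exp (-u) := by
    rw [show -(u - Real.log 2 + Real.log 3) = Real.log 2 + (-Real.log 3 + -u) by ring, Real.exp_add, Real.exp_add,
      Real.exp_log (by norm_num), Real.exp_neg (Real.log 3), Real.exp_log (by norm_num)]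
    ring
  have y1 : Real.exp (u - Real.log 2) = Real.exp u / 2 := by
    rw [Real.exp_sub, Real.exp_log (by norm_num)]
  have y2 : Real.exp (u - Real.log 2 + Real.log 3) = Real.exp u * 3 / 2 := by
    rw [Real.exp_add, y1, Real.exp_log (by norm_num)]; ring
  have e2 : gg T φ (u - Real.log 2) = 2 * Real.exp (-u) * ∑ k ∈ range M, chi T k * φ (2 * k * Real.exp (-u)) := by
    rw [gg_eq T hφ (u := u - Real.log 2) (M := M) (by rw [y1]; linarith), x1]
    congr 1
    apply sum_congr rfl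
    intro k _
    congr 2
    ring
  have e3 : gg T φ (u - Real.log 2 + Real.log 3)
      = 2 / 3 * Real.exp (-u) * ∑ m ∈ range (3 * M), chi T m * φ (2 * m / 3 * Real.exp (-u)) := by
    rw [gg_eq T hφ (u := u - Real.log 2 + Real.log 3) (M := 3 * M) (by rw [y2]; push_cast; linarith), x2]
    congr 1
    apply sum_congr rfl
    intro k _
    congr 2
    ring
  have e4 : gg T φ u - Av (gg T φ) u = Real.exp (-u) * (∑ n ∈ range (2 * M), chi T n * φ (n * Real.exp (-u))
      - ∑ k ∈ range M, chi T k * φ (2 * k * Real.exp (-u))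
      - 1 / 3 * ∑ m ∈ range (3 * M), chi T m * φ (2 * m / 3 * Real.exp (-u))) := by
    unfold Av
    rw [e1, e2, e3]
    ring
  rw [e4, abs_mul, abs_of_pos (Real.exp_pos _)]
  exact mul_le_mul_of_nonneg_left h (Real.exp_pos _).le

end Pool.Agent.K6.H38.ND
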