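import Pool.Agent.K6.H38.ND.FE2

/-! Weighted counting functions of an invariant set: Lipschitz weights and monotone weights. -/

set_option autoImplicit false

namespace Pool.Agent.K6.H38.ND

open Pool.Agent.H499R2.ND Finset

theorem exp_neg_le_fact (B : ℕ) {u : ℝ} (hu : 0 < u) : Real.exp (-u) ≤ B.factorial / u ^ B := by
  have h2 : u ^ B / B.factorial ≤ Real.exp u := Real.pow_div_factorial_le_exp _ hu.le B
  have hf : (0 : ℝ) < B.factorial := by exact_mod_cast Nat.factorial_pos B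
  rw [Real.exp_neg, inv_eq_one_div, div_le_div_iff₀ (Real.exp_pos _) (by positivity), one_mul]
  rw [div_le_iff₀ hf] at h2
  linarith

theorem rr {s : ℤ} (hs : s = 1 ∨ s = -1) : ∃ r : ℕ, 2 * (r : ℤ) = 3 + s ∧ 1 ≤ r ∧ r < 3 := by
  rcases hs with rfl | rfl
  · exact ⟨2, by norm_num, by norm_num, by norm_num⟩
  · exact ⟨1, by norm_num, by norm_num, by norm_num⟩

theorem sodd {s : ℤ} (hs : s = 1 ∨ s = -1) : Odd s := by rcases hs with rfl | rfl <;> decide

theorem scop {s : ℤ} (hs : s = 1 ∨ s = -1) : IsCoprime s 3 := by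
  rcases hs with rfl | rfl
  · exact isCoprime_one_left
  · exact isCoprime_one_left.neg_left

theorem sabs {s : ℤ} (hs : s = 1 ∨ s = -1) : |(s : ℝ)| = 1 := by
  rcases hs with rfl | rfl <;> norm_num

/-- the common part -/
theorem gg_harm' (B : ℕ) {s : ℤ} (hs : s = 1 ∨ s = -1) : ∃ C : ℝ, 0 < C ∧ ∀ T : Set ℤ, Inv s T →
    ∀ (φ : ℝ → ℝ) (R V E : ℝ), 1 ≤ R → 0 ≤ V → 0 ≤ E → (∀ v, R ≤ v → φ v = 0) → ∀ u : ℝ, 1 ≤ u →
    (∀ M : ℕ, (M : ℝ) ≤ 2 * R * Real.exp u → |φ ((2 * ((3 * M : ℕ) : ℝ) - s) / 3 * Real.exp (-u))|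
      + ∑ m ∈ range (3 * M), |φ ((2 * ((m + 1 : ℕ) : ℝ) - s) / 3 * Real.exp (-u)) - φ ((2 * (m : ℝ) - s) / 3 * Real.exp (-u))| ≤ V) →
    (∀ M : ℕ, (M : ℝ) ≤ 2 * R * Real.exp u →
      ∑ m ∈ range (3 * M), |φ ((2 * (m : ℝ) - s) / 3 * Real.exp (-u)) - φ (2 * m / 3 * Real.exp (-u))| ≤ E) →
    |gg T φ u - Av (gg T φ) u| ≤ C * (R * V + E) / u ^ B := by
  obtain ⟨C, hC, h⟩ := WW_max B (sodd hs) (scop hs)
  obtain ⟨r, hr, hr1, hr3⟩ := rr hs
  refine ⟨6 * C + B.factorial, by positivity, ?_⟩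
  intro T hT φ R V E hR hV0 hE0 hφ u hu hV hE
  have hu0 : 0 < u := by linarith
  have he1 : 1 + u ≤ Real.exp u := by have := Real.add_one_le_exp u; linarith
  have heR : Real.exp u ≤ R * Real.exp u := le_mul_of_one_le_left (Real.exp_pos u).le hR
  set M : ℕ := ⌈R * Real.exp u⌉₊ with hM
  have hM1 : R * Real.exp u ≤ M := Nat.le_ceil _
  have hM2 : (M : ℝ) ≤ 2 * R * Real.exp u := by
    have := (Nat.ceil_lt_add_one (show 0 ≤ R * Real.exp u by positivity)).le
    rw [← hM] at this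
    linarith
  have hM3 : (2 : ℝ) ≤ M := by linarith
  have hM4 : 2 ≤ M := by exact_mod_cast hM3
  have hW : ∀ m ≤ 3 * M, |WW T r m| ≤ C * (6 * R * Real.exp u) / u ^ B := by
    intro m hm
    refine (h T hT r hr3 (3 * M) (by omega) m hm).trans ?_
    apply div_le_div₀ (by positivity)
    · apply mul_le_mul_of_nonneg_left _ hC.le
      push_cast; linarith
    · positivity
    · apply pow_le_pow_left₀ hu0.le
      rw [Real.le_log_iff_exp_le (by push_cast; linarith)]
      push_cast; linarith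
  have h1 := gg_harm hT hr hr1 hr3 hφ (u := u) (M := M) (by linarith) hW (hV M hM2) (hE M hM2)
  refine h1.trans ?_
  have h2 := exp_neg_le_fact B hu0
  have e1 : Real.exp (-u) * (C * (6 * R * Real.exp u) / u ^ B * V) = 6 * C * (R * V) / u ^ B := by
    have : Real.exp (-u) * Real.exp u = 1 := by rw [← Real.exp_add]; simp
    calc Real.exp (-u) * (C * (6 * R * Real.exp u) / u ^ B * V)
        = (Real.exp (-u) * Real.exp u) * (6 * C * (R * V) / u ^ B) := by ring
      _ = _ := by rw [this, one_mul]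
  rw [mul_add, e1]
  have h3 : Real.exp (-u) * (E / 3) ≤ B.factorial * E / u ^ B := by
    calc Real.exp (-u) * (E / 3) ≤ Real.exp (-u) * E := mul_le_mul_of_nonneg_left (by linarith) (Real.exp_pos _).le
      _ ≤ B.factorial / u ^ B * E := mul_le_mul_of_nonneg_right h2 hE0
      _ = _ := by ring
  have h4 : (6 * C + B.factorial) * (R * V + E) / u ^ B
      = 6 * C * (R * V) / u ^ B + B.factorial * E / u ^ B + (6 * C * E + B.factorial * (R * V)) / u ^ B := by
    ring
  rw [h4]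
  have h5 : 0 ≤ (6 * C * E + B.factorial * (R * V)) / u ^ B := by positivity
  linarith

theorem exp_mul_exp_neg (u : ℝ) : Real.exp u * Real.exp (-u) = 1 := by rw [← Real.exp_add]; simp

/-- Lipschitz weights -/
theorem gg_lip (B : ℕ) {s : ℤ} (hs : s = 1 ∨ s = -1) : ∃ C : ℝ, 0 < C ∧ ∀ T : Set ℤ, Inv s T →
    ∀ (φ : ℝ → ℝ) (R H L : ℝ), 1 ≤ R → 0 ≤ L → (∀ v, R ≤ v → φ v = 0) → (∀ v, |φ v| ≤ H) →
    (∀ v v', |φ v - φ v'| ≤ L * |v - v'|) → ∀ u : ℝ, 1 ≤ u →
    |gg T φ u - Av (gg T φ) u| ≤ C * (R * H + R ^ 2 * L) / u ^ B := by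
  obtain ⟨C, hC, h⟩ := gg_harm' B hs
  refine ⟨6 * C, by positivity, ?_⟩
  intro T hT φ R H L hR hL hφ hH hLip u hu
  have hH0 : 0 ≤ H := (abs_nonneg _).trans (hH 0)
  have he := Real.exp_pos (-u)
  have hs1 := sabs hs
  have hsumM : ∀ M : ℕ, (M : ℝ) ≤ 2 * R * Real.exp u → (M : ℝ) * Real.exp (-u) ≤ 2 * R := by
    intro M hM
    have := mul_le_mul_of_nonneg_right hM he.le
    rwa [mul_assoc, exp_mul_exp_neg, mul_one] at this
  have h1 := h T hT φ R (H + 4 * R * L) (2 * R * L) hR (by positivity) (by positivity) hφ u hu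
    (by
      intro M hM
      have h2 : ∀ m ∈ range (3 * M), |φ ((2 * ((m + 1 : ℕ) : ℝ) - s) / 3 * Real.exp (-u))
          - φ ((2 * (m : ℝ) - s) / 3 * Real.exp (-u))| ≤ L * (2 / 3 * Real.exp (-u)) := by
        intro m _
        refine (hLip _ _).trans (mul_le_mul_of_nonneg_left (le_of_eq ?_) hL)
        have : (2 * ((m + 1 : ℕ) : ℝ) - s) / 3 * Real.exp (-u) - (2 * (m : ℝ) - s) / 3 * Real.exp (-u) = 2 / 3 * Real.exp (-u) := by
          push_cast; ring
        rw [this, abs_of_pos (by positivity)]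
      have h3 := sum_le_sum h2
      rw [sum_const, card_range, nsmul_eq_mul] at h3
      have h4 : ((3 * M : ℕ) : ℝ) * (L * (2 / 3 * Real.exp (-u))) = 2 * L * (M * Real.exp (-u)) := by
        push_cast; ring
      rw [h4] at h3
      have h5 := mul_le_mul_of_nonneg_left (hsumM M hM) (show 0 ≤ 2 * L by positivity)
      have h6 := hH ((2 * ((3 * M : ℕ) : ℝ) - s) / 3 * Real.exp (-u))
      have h7 : 2 * L * (2 * R) = 4 * R * L := by ring
      linarith)
    (by
      intro M hM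
      have h2 : ∀ m ∈ range (3 * M), |φ ((2 * (m : ℝ) - s) / 3 * Real.exp (-u))
          - φ (2 * (m : ℝ) / 3 * Real.exp (-u))| ≤ L * (1 / 3 * Real.exp (-u)) := by
        intro m _
        refine (hLip _ _).trans (mul_le_mul_of_nonneg_left (le_of_eq ?_) hL)
        have : (2 * (m : ℝ) - s) / 3 * Real.exp (-u) - 2 * (m : ℝ) / 3 * Real.exp (-u) = -(s : ℝ) * (1 / 3 * Real.exp (-u)) := by
          ring
        rw [this, abs_mul, abs_neg, hs1, one_mul, abs_of_pos (by positivity)]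
      have h3 := sum_le_sum h2
      rw [sum_const, card_range, nsmul_eq_mul] at h3
      have h4 : ((3 * M : ℕ) : ℝ) * (L * (1 / 3 * Real.exp (-u))) = L * (M * Real.exp (-u)) := by
        push_cast; ring
      rw [h4] at h3
      have h5 := mul_le_mul_of_nonneg_left (hsumM M hM) hL
      have h7 : L * (2 * R) = 2 * R * L := by ring
      linarith)
  refine h1.trans ?_
  apply div_le_div_of_nonneg_right _ (by positivity)
  have hRR : R * L ≤ R ^ 2 * L := mul_le_mul_of_nonneg_right (by nlinarith) hL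
  have : R * (H + 4 * R * L) + 2 * R * L ≤ 6 * (R * H + R ^ 2 * L) := by
    have : 0 ≤ R * H := by positivity
    nlinarith
  calc C * (R * (H + 4 * R * L) + 2 * R * L) ≤ C * (6 * (R * H + R ^ 2 * L)) := mul_le_mul_of_nonneg_left this hC.le
    _ = _ := by ring

/-- monotone weights -/
theorem gg_anti (B : ℕ) {s : ℤ} (hs : s = 1 ∨ s = -1) : ∃ C : ℝ, 0 < C ∧ ∀ T : Set ℤ, Inv s T →
    ∀ (φ : ℝ → ℝ) (R : ℝ), 1 ≤ R → (∀ v, R ≤ v → φ v = 0) → Antitone φ → (∀ v, φ v ≤ 1) → (∀ v, 0 ≤ φ v) →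
    ∀ u : ℝ, 1 ≤ u → |gg T φ u - Av (gg T φ) u| ≤ C * R / u ^ B := by
  obtain ⟨C, hC, h⟩ := gg_harm' B hs
  refine ⟨3 * C, by positivity, ?_⟩
  intro T hT φ R hR hφ hanti h1 h0 u hu
  have he := Real.exp_pos (-u)
  have htel : ∀ (x : ℕ → ℝ) (M : ℕ), ∑ m ∈ range M, (φ (x m) - φ (x (m + 1))) ≤ 1 := by
    intro x M
    rw [sum_range_sub' (fun m => φ (x m))]
    have := h1 (x 0); have := h0 (x M)
    linarith
  have h2 := h T hT φ R 2 1 hR (by norm_num) (by norm_num) hφ u hu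
    (by
      intro M hM
      have h2 : ∀ m ∈ range (3 * M), |φ ((2 * ((m + 1 : ℕ) : ℝ) - s) / 3 * Real.exp (-u))
          - φ ((2 * (m : ℝ) - s) / 3 * Real.exp (-u))|
          = φ ((2 * (m : ℝ) - s) / 3 * Real.exp (-u)) - φ ((2 * ((m + 1 : ℕ) : ℝ) - s) / 3 * Real.exp (-u)) := by
        intro m _
        rw [abs_sub_comm, abs_of_nonneg]
        have : φ ((2 * ((m + 1 : ℕ) : ℝ) - s) / 3 * Real.exp (-u)) ≤ φ ((2 * (m : ℝ) - s) / 3 * Real.exp (-u)) := by
          apply hanti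
          apply mul_le_mul_of_nonneg_right _ he.le
          push_cast; linarith
        linarith
      rw [sum_congr rfl h2]
      have h3 := htel (fun m => (2 * (m : ℝ) - s) / 3 * Real.exp (-u)) (3 * M)
      have h4 := h1 ((2 * ((3 * M : ℕ) : ℝ) - s) / 3 * Real.exp (-u))
      rw [abs_of_nonneg (h0 _)]
      linarith)
    (by
      intro M hM
      rcases hs with rfl | rfl
      · have h3 := htel (fun m => (2 * (m : ℝ) - 1) / 3 * Real.exp (-u)) (3 * M)
        refine le_trans (sum_le_sum fun m _ => ?_) h3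
        push_cast
        have h4 : φ (2 * (m : ℝ) / 3 * Real.exp (-u)) ≤ φ ((2 * (m : ℝ) - 1) / 3 * Real.exp (-u)) := by
          apply hanti
          apply mul_le_mul_of_nonneg_right _ he.le
          linarith
        have h5 : φ ((2 * ((m : ℝ) + 1) - 1) / 3 * Real.exp (-u)) ≤ φ (2 * (m : ℝ) / 3 * Real.exp (-u)) := by
          apply hanti
          apply mul_le_mul_of_nonneg_right _ he.le
          linarith
        rw [abs_of_nonneg (by linarith)]
        linarith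
      · have h3 := htel (fun m => 2 * (m : ℝ) / 3 * Real.exp (-u)) (3 * M)
        refine le_trans (sum_le_sum fun m _ => ?_) h3
        push_cast
        have h4 : φ ((2 * (m : ℝ) - -1) / 3 * Real.exp (-u)) ≤ φ (2 * (m : ℝ) / 3 * Real.exp (-u)) := by
          apply hanti
          apply mul_le_mul_of_nonneg_right _ he.le
          linarith
        have h5 : φ (2 * ((m : ℝ) + 1) / 3 * Real.exp (-u)) ≤ φ ((2 * (m : ℝ) - -1) / 3 * Real.exp (-u)) := by
          apply hanti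
          apply mul_le_mul_of_nonneg_right _ he.le
          linarith
        rw [abs_sub_comm, abs_of_nonneg (by linarith)]
        linarith)
  refine h2.trans ?_
  apply div_le_div_of_nonneg_right _ (by positivity)
  have : C * 1 ≤ C * R := mul_le_mul_of_nonneg_left hR hC.le
  linarith

/-- number of terms -/
theorem sum_chi_le (T : Set ℤ) {x : ℝ} (hx : 0 ≤ x) {M : ℕ} {F : ℕ → ℝ} {H : ℝ} (hH : 0 ≤ H)
    (h1 : ∀ n : ℕ, 1 ≤ n → (n : ℝ) ≤ x → |F n| ≤ H) (h2 : ∀ n : ℕ, x < (n : ℝ) → F n = 0) :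
    |∑ n ∈ range M, chi T n * F n| ≤ H * x := by
  refine (abs_sum_le_sum_abs _ _).trans ?_
  have h3 : ∀ n ∈ range M, |chi T n * F n| ≤ if n ∈ Icc 1 ⌊x⌋₊ then H else 0 := by
    intro n _
    rw [abs_mul]
    split_ifs with h
    · rw [mem_Icc] at h
      have h4 : (n : ℝ) ≤ x := (Nat.le_floor_iff hx).1 h.2
      calc |chi T n| * |F n| ≤ 1 * H := mul_le_mul (chi_abs T n) (h1 n h.1 h4) (abs_nonneg _) (by norm_num)
        _ = H := one_mul H
    · rw [mem_Icc, not_and_or, not_le, not_le] at h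
      rcases h with h | h
      · have : n = 0 := by omega
        subst this
        have : chi T 0 = 0 := by unfold chi; simp
        rw [this]; simp
      · rw [h2 n ((Nat.floor_lt hx).1 h)]; simp
  refine (sum_le_sum h3).trans ?_
  rw [← sum_filter, sum_const, nsmul_eq_mul]
  have h4 : ((filter (fun n => n ∈ Icc 1 ⌊x⌋₊) (range M)).card : ℝ) ≤ x := by
    have h5 : (filter (fun n => n ∈ Icc 1 ⌊x⌋₊) (range M)) ⊆ Icc 1 ⌊x⌋₊ := by
      intro n hn
      rw [mem_filter] at hn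
      exact hn.2
    have h6 := card_le_card h5
    rw [Nat.card_Icc, Nat.add_sub_cancel] at h6
    have h7 : ((filter (fun n => n ∈ Icc 1 ⌊x⌋₊) (range M)).card : ℝ) ≤ ⌊x⌋₊ := by exact_mod_cast h6
    exact h7.trans (Nat.floor_le hx)
  have h5 := mul_le_mul_of_nonneg_left h4 hH
  linarith

theorem gg_bd (T : Set ℤ) {φ : ℝ → ℝ} {R H : ℝ} (hR : 0 ≤ R) (hφ : ∀ v, R ≤ v → φ v = 0)
    (hH : ∀ v, |φ v| ≤ H) (u : ℝ) : |gg T φ u| ≤ R * H := by
  have hH0 : 0 ≤ H := (abs_nonneg _).trans (hH 0)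
  rw [gg_eq T hφ (M := ⌈R * Real.exp u⌉₊) (Nat.le_ceil _), abs_mul, abs_of_pos (Real.exp_pos _)]
  have h1 := sum_chi_le T (x := R * Real.exp u) (by positivity) (M := ⌈R * Real.exp u⌉₊)
    (F := fun n => φ (n * Real.exp (-u))) hH0 (fun n _ _ => hH _) (by
      intro n hn
      apply hφ
      have := mul_le_mul_of_nonneg_right hn.le (Real.exp_pos (-u)).le
      rwa [mul_assoc, exp_mul_exp_neg, mul_one] at this)
  have h2 := mul_le_mul_of_nonneg_left h1 (Real.exp_pos (-u)).le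
  refine h2.trans (le_of_eq ?_)
  calc Real.exp (-u) * (H * (R * Real.exp u)) = (Real.exp u * Real.exp (-u)) * (R * H) := by ring
    _ = R * H := by rw [exp_mul_exp_neg, one_mul]

/-- logarithmic derivative of the weight -/
noncomputable def th (φ : ℝ → ℝ) : ℝ → ℝ := fun v => -(φ v) - v * deriv φ v

theorem gg_deriv (T : Set ℤ) {φ : ℝ → ℝ} {R : ℝ} (hR : 0 ≤ R) (hφ : ∀ v, R ≤ v → φ v = 0)
    (hd : ∀ v, R ≤ v → deriv φ v = 0) (hD : Differentiable ℝ φ) (u : ℝ) : HasDerivAt (gg T φ) (gg T (th φ) u) u := by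
  set M : ℕ := ⌈R * Real.exp (u + 1)⌉₊ with hM
  have hMle : R * Real.exp (u + 1) ≤ M := Nat.le_ceil _
  have hev : gg T φ =ᶠ[nhds u] fun v => Real.exp (-v) * ∑ n ∈ range M, chi T n * φ (n * Real.exp (-v)) := by
    have : Set.Iio (u + 1) ∈ nhds u := Iio_mem_nhds (by linarith)
    filter_upwards [this] with v hv
    apply gg_eq T hφ
    refine le_trans ?_ hMle
    exact mul_le_mul_of_nonneg_left (Real.exp_le_exp.2 (le_of_lt hv)) hR
  have hth : ∀ v, R ≤ v → th φ v = 0 := by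
    intro v hv
    unfold th
    rw [hφ v hv, hd v hv]; simp
  rw [gg_eq T hth (u := u) (M := M) (le_trans (mul_le_mul_of_nonneg_left (Real.exp_le_exp.2 (by linarith)) hR) hMle)]
  have h1 : HasDerivAt (fun v : ℝ => Real.exp (-v)) (-Real.exp (-u)) u := by
    have := (hasDerivAt_neg u).exp
    simpa using this
  have h2 : ∀ n ∈ range M, HasDerivAt (fun v : ℝ => chi T n * φ (n * Real.exp (-v)))
      (chi T n * (deriv φ (n * Real.exp (-u)) * (n * (-Real.exp (-u))))) u := by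
    intro n _
    apply HasDerivAt.const_mul
    have h3 : HasDerivAt (fun v : ℝ => (n : ℝ) * Real.exp (-v)) (n * (-Real.exp (-u))) u := h1.const_mul _
    exact HasDerivAt.comp u (hD _).hasDerivAt h3
  have h3 := h1.mul (HasDerivAt.fun_sum h2)
  have h4 : HasDerivAt (fun v => Real.exp (-v) * ∑ n ∈ range M, chi T n * φ (n * Real.exp (-v)))
      (Real.exp (-u) * ∑ n ∈ range M, chi T n * th φ (n * Real.exp (-u))) u := by
    refine HasDerivAt.congr_deriv (f := fun v => Real.exp (-v) * ∑ n ∈ range M, chi T n * φ (n * Real.exp (-v))) h3 ?_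
    rw [mul_sum, mul_sum, mul_sum, ← sum_add_distrib]
    apply sum_congr rfl
    intro n _
    unfold th
    ring
  exact h4.congr_of_eventuallyEq hev

end Pool.Agent.K6.H38.ND
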