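import Mathlib

/-! Simultaneous approximations to `log (3/2)` and `log (4/3)`: the integrals. -/

set_option autoImplicit false

namespace Pool.Agent.K6.H38.ND

open Polynomial Finset

/-- the numerator -/
noncomputable def FF (n : ℕ) : ℤ[X] := (X - C 2) ^ (4 * n) * ((X - C 3) ^ (6 * n) * (X - C 4) ^ (4 * n))

theorem natDegree_pow_X_sub (a : ℤ) (m : ℕ) : ((X - C a) ^ m : ℤ[X]).natDegree ≤ m := by
  refine natDegree_pow_le.trans ?_
  have := natDegree_X_sub_C_le a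
  calc m * (X - C a : ℤ[X]).natDegree ≤ m * 1 := Nat.mul_le_mul_left _ this
    _ = m := by ring

theorem natDegree_FF (n : ℕ) : (FF n).natDegree ≤ 14 * n := by
  unfold FF
  refine natDegree_mul_le.trans ?_
  have h1 := natDegree_pow_X_sub 2 (4 * n)
  have h2 := natDegree_mul_le (p := (X - C 3 : ℤ[X]) ^ (6 * n)) (q := (X - C 4) ^ (4 * n))
  have h3 := natDegree_pow_X_sub 3 (6 * n)
  have h4 := natDegree_pow_X_sub 4 (4 * n)
  omega

theorem dvd_four (n k : ℕ) (hk : k ≤ 6 * n) : (4 : ℤ) ^ (6 * n - k) ∣ (FF n).coeff k := by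
  have h1 : (FF n).comp (C 4 * X) = C (4 ^ (6 * n))
      * ((C 2 * X - C 1) ^ (4 * n) * ((C 4 * X - C 3) ^ (6 * n) * (X - C 1) ^ (4 * n))) := by
    unfold FF
    simp only [mul_comp, pow_comp, sub_comp, X_comp, C_comp]
    have e1 : (C 4 * X - C 2 : ℤ[X]) = C 2 * (C 2 * X - C 1) := by
      rw [mul_sub, ← mul_assoc, ← C_mul, ← C_mul]; norm_num
    have e2 : (C 4 * X - C 4 : ℤ[X]) = C 4 * (X - C 1) := by
      rw [mul_sub, ← C_mul]; norm_num
    rw [e1, e2, mul_pow, mul_pow, ← C_pow, ← C_pow]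
    have e3 : (4 : ℤ) ^ (6 * n) = 2 ^ (4 * n) * 4 ^ (4 * n) := by
      rw [pow_mul, pow_mul, pow_mul, ← mul_pow]; norm_num
    rw [e3, C_mul]
    ring
  have h2 := congrArg (fun p => Polynomial.coeff p k) h1
  beta_reduce at h2
  rw [comp_C_mul_X_coeff, coeff_C_mul] at h2
  have e : (4 : ℤ) ^ (6 * n) = 4 ^ (6 * n - k) * 4 ^ k := by rw [← pow_add]; congr 1; omega
  rw [e] at h2
  set g := ((C 2 * X - C 1 : ℤ[X]) ^ (4 * n) * ((C 4 * X - C 3) ^ (6 * n) * (X - C 1) ^ (4 * n))).coeff k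
  refine ⟨g, ?_⟩
  have h4 : (4 : ℤ) ^ k ≠ 0 := by positivity
  apply mul_right_cancel₀ h4
  rw [h2]; ring

theorem dvd_two (n k : ℕ) (hk : k ≤ 6 * n) : (2 : ℤ) ^ (6 * n - k) ∣ (FF n).coeff k :=
  (pow_dvd_pow_of_dvd (by norm_num : (2 : ℤ) ∣ 4) _).trans (dvd_four n k hk)

theorem dvd_three (n k : ℕ) (hk : k ≤ 6 * n) : (3 : ℤ) ^ (6 * n - k) ∣ (FF n).coeff k := by
  have h1 : (FF n).comp (C 3 * X) = C (3 ^ (6 * n))
      * ((C 3 * X - C 2) ^ (4 * n) * ((X - C 1) ^ (6 * n) * (C 3 * X - C 4) ^ (4 * n))) := by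
    unfold FF
    simp only [mul_comp, pow_comp, sub_comp, X_comp, C_comp]
    have e2 : (C 3 * X - C 3 : ℤ[X]) = C 3 * (X - C 1) := by
      rw [mul_sub, ← C_mul]; norm_num
    rw [e2, mul_pow, ← C_pow]
    ring
  have h2 := congrArg (fun p => Polynomial.coeff p k) h1
  beta_reduce at h2
  rw [comp_C_mul_X_coeff, coeff_C_mul] at h2
  have e : (3 : ℤ) ^ (6 * n) = 3 ^ (6 * n - k) * 3 ^ k := by rw [← pow_add]; congr 1; omega
  rw [e] at h2
  set g := ((C 3 * X - C 2 : ℤ[X]) ^ (4 * n) * ((X - C 1) ^ (6 * n) * (C 3 * X - C 4) ^ (4 * n))).coeff k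
  refine ⟨g, ?_⟩
  have h4 : (3 : ℤ) ^ k ≠ 0 := by positivity
  apply mul_right_cancel₀ h4
  rw [h2]; ring

theorem bd_step {a : ℤ} (ha : 0 ≤ a) {G : ℤ[X]} {Bd : ℤ} (h : ∀ k, |G.coeff k| * 2 ^ k ≤ Bd) :
    ∀ k, |((X - C a) * G).coeff k| * 2 ^ k ≤ (2 + a) * Bd := by
  intro k
  have hB : 0 ≤ Bd := le_trans (by positivity) (h 0)
  cases k with
  | zero =>
    rw [sub_mul, coeff_sub, coeff_C_mul, coeff_X_mul_zero, zero_sub, abs_neg, abs_mul, abs_of_nonneg ha]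
    have h0 := h 0
    have := mul_le_mul_of_nonneg_left h0 ha
    have e : a * |G.coeff 0| * 2 ^ 0 = a * (|G.coeff 0| * 2 ^ 0) := by ring
    rw [e]; linarith
  | succ k =>
    rw [sub_mul, coeff_sub, coeff_C_mul, coeff_X_mul]
    have h1 := h k
    have h2 := h (k + 1)
    have h3 : |G.coeff k - a * G.coeff (k + 1)| ≤ |G.coeff k| + a * |G.coeff (k + 1)| := by
      have := abs_sub (a := G.coeff k) (b := a * G.coeff (k + 1))
      rwa [abs_mul a, abs_of_nonneg ha] at this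
    have h4 := mul_le_mul_of_nonneg_right h3 (show (0 : ℤ) ≤ 2 ^ (k + 1) by positivity)
    have h5 := mul_le_mul_of_nonneg_left h2 ha
    have e : (|G.coeff k| + a * |G.coeff (k + 1)|) * 2 ^ (k + 1)
        = 2 * (|G.coeff k| * 2 ^ k) + a * (|G.coeff (k + 1)| * 2 ^ (k + 1)) := by rw [pow_succ]; ring
    rw [e] at h4
    linarith

theorem bd_pow {a : ℤ} (ha : 0 ≤ a) {G : ℤ[X]} {Bd : ℤ} (h : ∀ k, |G.coeff k| * 2 ^ k ≤ Bd) (m : ℕ) :
    ∀ k, |((X - C a) ^ m * G).coeff k| * 2 ^ k ≤ (2 + a) ^ m * Bd := by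
  induction m with
  | zero => simpa using h
  | succ m ih =>
    intro k
    have := bd_step ha ih k
    have e : (X - C a) ^ (m + 1) * G = (X - C a) * ((X - C a) ^ m * G) := by ring
    rw [e]
    refine this.trans (le_of_eq (by ring))

theorem coeff_bd (n : ℕ) : |(FF n).coeff (6 * n)| ≤ 81000000 ^ n := by
  have h0 : ∀ k, |(1 : ℤ[X]).coeff k| * 2 ^ k ≤ 1 := by
    intro k
    rw [coeff_one]
    split_ifs with hk
    · subst hk; simp
    · simp
  have h1 := bd_pow (a := 4) (by norm_num) h0 (4 * n)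
  have h2 := bd_pow (a := 3) (by norm_num) h1 (6 * n)
  have h3 := bd_pow (a := 2) (by norm_num) h2 (4 * n) (6 * n)
  have e : (X - C 2 : ℤ[X]) ^ (4 * n) * ((X - C 3) ^ (6 * n) * ((X - C 4) ^ (4 * n) * 1)) = FF n := by
    unfold FF; ring
  rw [e] at h3
  have e2 : ((2 : ℤ) + 2) ^ (4 * n) * ((2 + 3) ^ (6 * n) * ((2 + 4) ^ (4 * n) * 1)) = 81000000 ^ n * 2 ^ (6 * n) := by
    rw [mul_one, pow_mul, pow_mul, pow_mul, pow_mul, ← mul_pow, ← mul_pow, ← mul_pow]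
    norm_num
  rw [e2] at h3
  exact le_of_mul_le_mul_right h3 (by positivity)

theorem term_int {a b : ℕ} (ha : 0 < a) (hab : a ≤ b) {n k : ℕ} (hk : k < 14 * n + 1)
    (hda : k ≤ 6 * n → (a : ℤ) ^ (6 * n - k) ∣ (FF n).coeff k)
    (hdb : k ≤ 6 * n → (b : ℤ) ^ (6 * n - k) ∣ (FF n).coeff k) :
    ∃ Z : ℤ, (Nat.lcmUpto (8 * n) : ℝ) * (((FF n).coeff k : ℝ) * ∫ x in (a : ℝ)..b, x ^ ((k : ℤ) - (6 * n + 1)))
      = (if k = 6 * n then (Nat.lcmUpto (8 * n) : ℝ) * (FF n).coeff (6 * n) * Real.log (b / a) else 0) + Z := by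
  have haR : (0 : ℝ) < a := by exact_mod_cast ha
  have hbR : (0 : ℝ) < b := by exact_mod_cast (lt_of_lt_of_le ha hab)
  have habR : (a : ℝ) ≤ b := by exact_mod_cast hab
  by_cases hkn : k = 6 * n
  · refine ⟨0, ?_⟩
    rw [if_pos hkn, hkn]
    have e : (((6 * n : ℕ) : ℤ) - (6 * n + 1)) = -1 := by push_cast; ring
    rw [e]
    have e2 : ∫ x in (a : ℝ)..b, x ^ (-1 : ℤ) = Real.log (b / a) := by
      have : ∀ x : ℝ, x ^ (-1 : ℤ) = x⁻¹ := fun x => zpow_neg_one x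
      simp only [this]
      exact integral_inv_of_pos haR hbR
    rw [e2]; push_cast; ring
  · rw [if_neg hkn]
    simp only [zero_add]
    have h0 : (0 : ℝ) ∉ Set.uIcc (a : ℝ) b := by
      rw [Set.uIcc_of_le habR]
      intro h; exact absurd h.1 (not_le.2 haR)
    have hne : ((k : ℤ) - (6 * n + 1)) ≠ -1 := by omega
    rw [integral_zpow (Or.inr ⟨hne, h0⟩)]
    -- the denominator divides
    have hd : ((k : ℤ) - 6 * n).natAbs ∣ Nat.lcmUpto (8 * n) := by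
      unfold Nat.lcmUpto
      exact Finset.dvd_lcm (f := id) (b := ((k : ℤ) - 6 * n).natAbs) (Finset.mem_Icc.2 ⟨by omega, by omega⟩)
    have hd2 : ((k : ℤ) - 6 * n) ∣ (Nat.lcmUpto (8 * n) : ℤ) := by
      rw [← Int.natAbs_dvd]; exact_mod_cast hd
    obtain ⟨w, hw⟩ := hd2
    have hint : ∀ c : ℕ, 0 < c → (k ≤ 6 * n → (c : ℤ) ^ (6 * n - k) ∣ (FF n).coeff k) →
        ∃ z : ℤ, ((FF n).coeff k : ℝ) * (c : ℝ) ^ ((k : ℤ) - 6 * n) = z := by
      intro c hc hdc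
      have hcR : (c : ℝ) ≠ 0 := by exact_mod_cast hc.ne'
      rcases le_or_gt k (6 * n) with h | h
      · obtain ⟨z, hz⟩ := hdc h
        refine ⟨z, ?_⟩
        rw [hz]
        push_cast
        have e : (c : ℝ) ^ ((k : ℤ) - 6 * n) = ((c : ℝ) ^ (6 * n - k))⁻¹ := by
          rw [← zpow_natCast, ← zpow_neg]
          congr 1
          push_cast [Nat.cast_sub h]
          ring
        rw [e]
        have : (c : ℝ) ^ (6 * n - k) ≠ 0 := pow_ne_zero _ hcR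
        field_simp
      · refine ⟨(FF n).coeff k * (c : ℤ) ^ (k - 6 * n), ?_⟩
        push_cast
        congr 1
        rw [← zpow_natCast]
        congr 1
        push_cast [Nat.cast_sub h.le]
        ring
    obtain ⟨za, hza⟩ := hint a ha hda
    obtain ⟨zb, hzb⟩ := hint b (lt_of_lt_of_le ha hab) hdb
    refine ⟨w * (zb - za), ?_⟩
    have e1 : ((k : ℤ) - (6 * n + 1)) + 1 = (k : ℤ) - 6 * n := by ring
    rw [e1]
    have hden : (((k : ℤ) - (6 * n + 1) : ℤ) : ℝ) + 1 = (((k : ℤ) - 6 * n : ℤ) : ℝ) := by push_cast; ring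
    rw [hden]
    have hne2 : (((k : ℤ) - 6 * n : ℤ) : ℝ) ≠ 0 := by
      have : ((k : ℤ) - 6 * n) ≠ 0 := by omega
      exact_mod_cast this
    have hwR : (Nat.lcmUpto (8 * n) : ℝ) = (((k : ℤ) - 6 * n : ℤ) : ℝ) * w := by exact_mod_cast hw
    rw [hwR]
    push_cast
    rw [← hzb, ← hza]
    push_cast at hne2
    field_simp

theorem aeval_FF (n : ℕ) (x : ℝ) : aeval x (FF n) = (x - 2) ^ (4 * n) * ((x - 3) ^ (6 * n) * (x - 4) ^ (4 * n)) := by
  unfold FF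
  simp only [map_mul, map_pow, map_sub, aeval_X, aeval_C]
  norm_num

theorem int_id {a b : ℕ} (ha : 0 < a) (hab : a ≤ b) (n : ℕ)
    (hda : ∀ k ≤ 6 * n, (a : ℤ) ^ (6 * n - k) ∣ (FF n).coeff k)
    (hdb : ∀ k ≤ 6 * n, (b : ℤ) ^ (6 * n - k) ∣ (FF n).coeff k) :
    ∃ Z : ℤ, (Nat.lcmUpto (8 * n) : ℝ) * ∫ x in (a : ℝ)..b, (aeval x (FF n)) / x ^ (6 * n + 1)
      = (Nat.lcmUpto (8 * n) : ℝ) * (FF n).coeff (6 * n) * Real.log (b / a) + Z := by
  have haR : (0 : ℝ) < a := by exact_mod_cast ha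
  have habR : (a : ℝ) ≤ b := by exact_mod_cast hab
  have h1 : ∀ k : ℕ, k < 14 * n + 1 → ∃ Z : ℤ,
      (Nat.lcmUpto (8 * n) : ℝ) * (((FF n).coeff k : ℝ) * ∫ x in (a : ℝ)..b, x ^ ((k : ℤ) - (6 * n + 1)))
      = (if k = 6 * n then (Nat.lcmUpto (8 * n) : ℝ) * (FF n).coeff (6 * n) * Real.log (b / a) else 0) + Z :=
    fun k hk => term_int ha hab hk (hda k) (hdb k)
  choose! Z hZ using h1
  refine ⟨∑ k ∈ range (14 * n + 1), Z k, ?_⟩
  have h2 : ∫ x in (a : ℝ)..b, (aeval x (FF n)) / x ^ (6 * n + 1)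
      = ∑ k ∈ range (14 * n + 1), ((FF n).coeff k : ℝ) * ∫ x in (a : ℝ)..b, x ^ ((k : ℤ) - (6 * n + 1)) := by
    have h3 : ∫ x in (a : ℝ)..b, (aeval x (FF n)) / x ^ (6 * n + 1)
        = ∫ x in (a : ℝ)..b, ∑ k ∈ range (14 * n + 1), ((FF n).coeff k : ℝ) * x ^ ((k : ℤ) - (6 * n + 1)) := by
      apply intervalIntegral.integral_congr
      intro x hx
      rw [Set.uIcc_of_le habR] at hx
      have hx0 : 0 < x := lt_of_lt_of_le haR hx.1
      simp only
      rw [aeval_eq_sum_range' (n := 14 * n + 1) (by have := natDegree_FF n; omega), sum_div]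
      apply sum_congr rfl
      intro k _
      have e : x ^ ((k : ℤ) - (6 * n + 1)) = x ^ k / x ^ (6 * n + 1) := by
        have h4 : (6 * (n : ℤ) + 1) = ((6 * n + 1 : ℕ) : ℤ) := by push_cast; ring
        rw [h4, zpow_sub₀ hx0.ne', zpow_natCast, zpow_natCast]
      rw [zsmul_eq_mul, mul_div_assoc, e]
    rw [h3, intervalIntegral.integral_finsetSum]
    · apply sum_congr rfl
      intro k _
      rw [intervalIntegral.integral_const_mul]
    · intro k _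
      apply IntervalIntegrable.const_mul
      apply intervalIntegral.intervalIntegrable_zpow
      right
      rw [Set.uIcc_of_le habR]
      intro h; exact absurd h.1 (not_le.2 haR)
  rw [h2, mul_sum]
  have h3 : ∀ k ∈ range (14 * n + 1), (Nat.lcmUpto (8 * n) : ℝ) * (((FF n).coeff k : ℝ) * ∫ x in (a : ℝ)..b, x ^ ((k : ℤ) - (6 * n + 1)))
      = (if k = 6 * n then (Nat.lcmUpto (8 * n) : ℝ) * (FF n).coeff (6 * n) * Real.log (b / a) else 0) + (Z k : ℝ) := by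
    intro k hk
    rw [mem_range] at hk
    exact hZ k hk
  rw [sum_congr rfl h3, sum_add_distrib, sum_ite_eq' (range (14 * n + 1)), if_pos (mem_range.2 (by omega))]
  push_cast
  rfl

end Pool.Agent.K6.H38.ND
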