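import Pool.Agent.K6.H38.ND.Meas1

/-! Simultaneous approximations to `log (3/2)` and `log (4/3)`: bounds for the integrals. -/

set_option autoImplicit false

namespace Pool.Agent.K6.H38.ND

open Polynomial MeasureTheory

theorem sq_le_cube {z : ℝ} (hz : 0 ≤ z) : z ^ 2 ≤ (1 + 4 * z) ^ 3 / 108 := by
  have h : (1 + 4 * z) ^ 3 - 108 * z ^ 2 = (1 - 2 * z) ^ 2 * (1 + 16 * z) := by ring
  have h2 : 0 ≤ (1 - 2 * z) ^ 2 * (1 + 16 * z) := by positivity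
  linarith

/-- the common numerator -/
theorem num_le {y : ℝ} (hy : 0 ≤ y) (hy1 : y ≤ 1) : (1 - y ^ 2) ^ 2 * y ^ 3 ≤ (y * (5 - 4 * y ^ 2)) ^ 3 / 108 := by
  have hz : 0 ≤ 1 - y ^ 2 := by nlinarith
  have h := mul_le_mul_of_nonneg_right (sq_le_cube hz) (show 0 ≤ y ^ 3 by positivity)
  refine h.trans (le_of_eq ?_)
  ring

theorem cub1 {y : ℝ} (hy : 0 ≤ y) : y * (5 - 4 * y ^ 2) ≤ 0.927 * (3 - y) := by
  have h : 0.927 * (3 - y) - y * (5 - 4 * y ^ 2) = 4 * ((y - 0.7028) ^ 2 * (y + 2 * 0.7028))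
    + ((3 * 4 * 0.7028 ^ 2 - 5.927) * y + (2.781 - 8 * 0.7028 ^ 3)) := by ring
  have h2 : 0 ≤ (y - 0.7028) ^ 2 * (y + 2 * 0.7028) := by positivity
  have h3 : 0 ≤ (3 * 4 * 0.7028 ^ 2 - 5.927) * y + (2.781 - 8 * 0.7028 ^ 3) := by
    have : (0 : ℝ) ≤ (3 * 4 * 0.7028 ^ 2 - 5.927) := by norm_num
    have h4 : (0 : ℝ) ≤ (2.781 - 8 * 0.7028 ^ 3) := by norm_num
    positivity
  linarith

theorem cub2 {y : ℝ} (hy : 0 ≤ y) : y * (5 - 4 * y ^ 2) ≤ 0.6 * (3 + y) := by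
  have h : 0.6 * (3 + y) - y * (5 - 4 * y ^ 2) = 4 * ((y - 0.606) ^ 2 * (y + 2 * 0.606))
    + ((3 * 4 * 0.606 ^ 2 - 4.4) * y + (1.8 - 8 * 0.606 ^ 3)) := by ring
  have h2 : 0 ≤ (y - 0.606) ^ 2 * (y + 2 * 0.606) := by positivity
  have h3 : 0 ≤ (3 * 4 * 0.606 ^ 2 - 4.4) * y + (1.8 - 8 * 0.606 ^ 3) := by
    have : (0 : ℝ) ≤ (3 * 4 * 0.606 ^ 2 - 4.4) := by norm_num
    have h4 : (0 : ℝ) ≤ (1.8 - 8 * 0.606 ^ 3) := by norm_num
    positivity
  linarith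

/-- the quotient whose powers are integrated -/
noncomputable def hq (x : ℝ) : ℝ := (x - 2) ^ 4 * ((x - 3) ^ 6 * (x - 4) ^ 4) / x ^ 6

theorem hq_nonneg (x : ℝ) : 0 ≤ hq x := by
  unfold hq
  have h1 : 0 ≤ (x - 2) ^ 4 := by positivity
  have h2 : 0 ≤ (x - 3) ^ 6 := by positivity
  have h3 : 0 ≤ (x - 4) ^ 4 := by positivity
  have h4 : 0 ≤ x ^ 6 := by positivity
  positivity

theorem hq1 {x : ℝ} (h2 : 2 ≤ x) (h3 : x ≤ 3) : hq x ≤ 545 / 10 ^ 7 := by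
  unfold hq
  have hx : 0 < x := by linarith
  rw [div_le_iff₀ (by positivity)]
  have e : (x - 2) ^ 4 * ((x - 3) ^ 6 * (x - 4) ^ 4) = ((1 - (3 - x) ^ 2) ^ 2 * (3 - x) ^ 3) ^ 2 := by ring
  rw [e]
  have h5 := num_le (y := 3 - x) (by linarith) (by linarith)
  have h6 := cub1 (y := 3 - x) (by linarith)
  have h7 : 0 ≤ (3 - x) * (5 - 4 * (3 - x) ^ 2) ∨ (3 - x) * (5 - 4 * (3 - x) ^ 2) < 0 := le_or_gt _ _
  have h8 : ((3 - x) * (5 - 4 * (3 - x) ^ 2)) ^ 3 ≤ (0.927 * x) ^ 3 := by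
    have h9 : (3 - x) * (5 - 4 * (3 - x) ^ 2) ≤ 0.927 * x := by
      refine h6.trans (le_of_eq (by ring))
    exact (Odd.pow_le_pow (by decide : Odd 3)).2 h9
  have h9 : 0 ≤ (1 - (3 - x) ^ 2) ^ 2 * (3 - x) ^ 3 := by
    have : 0 ≤ 3 - x := by linarith
    positivity
  have h10 : (1 - (3 - x) ^ 2) ^ 2 * (3 - x) ^ 3 ≤ 0.007376 * x ^ 3 := by
    have h11 : (0.927 * x) ^ 3 / 108 ≤ 0.007376 * x ^ 3 := by
      have e2 : (0.927 * x) ^ 3 / 108 = 0.927 ^ 3 / 108 * x ^ 3 := by ring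
      rw [e2]
      apply mul_le_mul_of_nonneg_right (by norm_num) (by positivity)
    linarith
  have h12 := pow_le_pow_left₀ h9 h10 2
  refine h12.trans ?_
  have e3 : (0.007376 * x ^ 3) ^ 2 = 0.007376 ^ 2 * x ^ 6 := by ring
  rw [e3]
  apply mul_le_mul_of_nonneg_right (by norm_num) (by positivity)

theorem hq2 {x : ℝ} (h2 : 3 ≤ x) (h3 : x ≤ 4) : hq x ≤ 4 / 10 ^ 6 := by
  unfold hq
  have hx : 0 < x := by linarith
  rw [div_le_iff₀ (by positivity)]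
  have e : (x - 2) ^ 4 * ((x - 3) ^ 6 * (x - 4) ^ 4) = ((1 - (x - 3) ^ 2) ^ 2 * (x - 3) ^ 3) ^ 2 := by ring
  rw [e]
  have h5 := num_le (y := x - 3) (by linarith) (by linarith)
  have h6 := cub2 (y := x - 3) (by linarith)
  have h8 : ((x - 3) * (5 - 4 * (x - 3) ^ 2)) ^ 3 ≤ (0.6 * x) ^ 3 := by
    have h9 : (x - 3) * (5 - 4 * (x - 3) ^ 2) ≤ 0.6 * x := by
      refine h6.trans (le_of_eq (by ring))
    exact (Odd.pow_le_pow (by decide : Odd 3)).2 h9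
  have h9 : 0 ≤ (1 - (x - 3) ^ 2) ^ 2 * (x - 3) ^ 3 := by
    have : 0 ≤ x - 3 := by linarith
    positivity
  have h10 : (1 - (x - 3) ^ 2) ^ 2 * (x - 3) ^ 3 ≤ 0.002 * x ^ 3 := by
    have e2 : (0.6 * x) ^ 3 / 108 = 0.002 * x ^ 3 := by ring
    linarith
  have h12 := pow_le_pow_left₀ h9 h10 2
  refine h12.trans (le_of_eq ?_)
  ring

theorem hq_low {x : ℝ} (h2 : 2.295 ≤ x) (h3 : x ≤ 2.3) : 5 / 10 ^ 5 ≤ hq x := by
  unfold hq
  have hx : 0 < x := by linarith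
  rw [le_div_iff₀ (by positivity)]
  have h4 : (0.295 : ℝ) ^ 4 ≤ (x - 2) ^ 4 := pow_le_pow_left₀ (by norm_num) (by linarith) 4
  have h5 : (0.7 : ℝ) ^ 6 ≤ (x - 3) ^ 6 := by
    have e : (x - 3) ^ 6 = (3 - x) ^ 6 := by ring
    rw [e]
    exact pow_le_pow_left₀ (by norm_num) (by linarith) 6
  have h6 : (1.7 : ℝ) ^ 4 ≤ (x - 4) ^ 4 := by
    have e : (x - 4) ^ 4 = (4 - x) ^ 4 := by ring
    rw [e]
    exact pow_le_pow_left₀ (by norm_num) (by linarith) 4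
  have h7 : x ^ 6 ≤ 2.3 ^ 6 := pow_le_pow_left₀ hx.le h3 6
  have h8 : (0.295 : ℝ) ^ 4 * (0.7 ^ 6 * 1.7 ^ 4) ≤ (x - 2) ^ 4 * ((x - 3) ^ 6 * (x - 4) ^ 4) :=
    mul_le_mul h4 (mul_le_mul h5 h6 (by positivity) (by positivity)) (by positivity) (by positivity)
  have h9 : (5 : ℝ) / 10 ^ 5 * 2.3 ^ 6 ≤ 0.295 ^ 4 * (0.7 ^ 6 * 1.7 ^ 4) := by norm_num
  have h10 : (5 : ℝ) / 10 ^ 5 * x ^ 6 ≤ 5 / 10 ^ 5 * 2.3 ^ 6 := mul_le_mul_of_nonneg_left h7 (by norm_num)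
  linarith

theorem integrand_eq (n : ℕ) {x : ℝ} (hx : 0 < x) : (aeval x (FF n)) / x ^ (6 * n + 1) = hq x ^ n / x := by
  rw [aeval_FF]
  unfold hq
  rw [div_pow, mul_pow, mul_pow, ← pow_mul, ← pow_mul, ← pow_mul, ← pow_mul, pow_succ, div_div]

theorem cont_on {a b : ℝ} (ha : 0 < a) (n : ℕ) : ContinuousOn (fun x : ℝ => (aeval x (FF n)) / x ^ (6 * n + 1)) (Set.uIcc a b ∩ {x | 0 < x}) := by
  apply ContinuousOn.div
  · exact (Polynomial.continuous_aeval (FF n)).continuousOn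
  · fun_prop
  · intro x hx
    have : 0 < x := hx.2
    positivity

theorem intble {a b : ℝ} (ha : 0 < a) (hab : a ≤ b) (n : ℕ) :
    IntervalIntegrable (fun x : ℝ => (aeval x (FF n)) / x ^ (6 * n + 1)) volume a b := by
  apply ContinuousOn.intervalIntegrable
  apply (cont_on (a := a) (b := b) ha n).mono
  intro x hx
  refine ⟨hx, ?_⟩
  rw [Set.uIcc_of_le hab] at hx
  exact lt_of_lt_of_le ha hx.1

theorem I1_le (n : ℕ) : ∫ x in (2 : ℝ)..3, (aeval x (FF n)) / x ^ (6 * n + 1) ≤ (545 / 10 ^ 7) ^ n := by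
  have h := intervalIntegral.integral_mono_on (a := 2) (b := 3) (by norm_num) (intble (by norm_num) (by norm_num) n)
    (intervalIntegrable_const (c := (545 / 10 ^ 7 : ℝ) ^ n)) (by
      intro x hx
      have hx0 : 0 < x := by linarith [hx.1]
      rw [integrand_eq n hx0]
      have h1 := pow_le_pow_left₀ (hq_nonneg x) (hq1 hx.1 hx.2) n
      have h2 : hq x ^ n / x ≤ hq x ^ n := div_le_self (pow_nonneg (hq_nonneg x) n) (by linarith [hx.1])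
      linarith)
  refine h.trans (le_of_eq ?_)
  rw [intervalIntegral.integral_const]
  norm_num

theorem I2_le (n : ℕ) : ∫ x in (3 : ℝ)..4, (aeval x (FF n)) / x ^ (6 * n + 1) ≤ (4 / 10 ^ 6) ^ n := by
  have h := intervalIntegral.integral_mono_on (a := 3) (b := 4) (by norm_num) (intble (by norm_num) (by norm_num) n)
    (intervalIntegrable_const (c := (4 / 10 ^ 6 : ℝ) ^ n)) (by
      intro x hx
      have hx0 : 0 < x := by linarith [hx.1]
      rw [integrand_eq n hx0]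
      have h1 := pow_le_pow_left₀ (hq_nonneg x) (hq2 hx.1 hx.2) n
      have h2 : hq x ^ n / x ≤ hq x ^ n := div_le_self (pow_nonneg (hq_nonneg x) n) (by linarith [hx.1])
      linarith)
  refine h.trans (le_of_eq ?_)
  rw [intervalIntegral.integral_const]
  norm_num

theorem I_nonneg {a b : ℝ} (ha : 0 < a) (hab : a ≤ b) (n : ℕ) :
    0 ≤ ∫ x in a..b, (aeval x (FF n)) / x ^ (6 * n + 1) := by
  apply intervalIntegral.integral_nonneg hab
  intro x hx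
  have hx0 : 0 < x := lt_of_lt_of_le ha hx.1
  rw [integrand_eq n hx0]
  exact div_nonneg (pow_nonneg (hq_nonneg x) n) hx0.le

theorem I1_ge (n : ℕ) : (5 / 10 ^ 5) ^ n / 500 ≤ ∫ x in (2 : ℝ)..3, (aeval x (FF n)) / x ^ (6 * n + 1) := by
  have h1 := intervalIntegral.integral_add_adjacent_intervals (a := (2 : ℝ)) (b := 2.295) (c := 3)
    (intble (by norm_num) (by norm_num) n) (intble (by norm_num) (by norm_num) n)
  have h2 := intervalIntegral.integral_add_adjacent_intervals (a := (2.295 : ℝ)) (b := 2.3) (c := 3)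
    (intble (by norm_num) (by norm_num) n) (intble (by norm_num) (by norm_num) n)
  have h3 := I_nonneg (a := 2) (b := 2.295) (by norm_num) (by norm_num) n
  have h4 := I_nonneg (a := 2.3) (b := 3) (by norm_num) (by norm_num) n
  have h5 := intervalIntegral.integral_mono_on (a := (2.295 : ℝ)) (b := 2.3) (by norm_num)
    (intervalIntegrable_const (c := (5 / 10 ^ 5 : ℝ) ^ n / 2.3)) (intble (by norm_num) (by norm_num) n) (by
      intro x hx
      have hx0 : 0 < x := by linarith [hx.1]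
      rw [integrand_eq n hx0]
      have h1 := pow_le_pow_left₀ (by norm_num : (0 : ℝ) ≤ 5 / 10 ^ 5) (hq_low hx.1 hx.2) n
      exact div_le_div₀ (pow_nonneg (hq_nonneg x) n) h1 hx0 hx.2)
  rw [intervalIntegral.integral_const, smul_eq_mul] at h5
  rw [← h1, ← h2]
  have h6 : (5 / 10 ^ 5 : ℝ) ^ n / 500 ≤ (2.3 - 2.295) * ((5 / 10 ^ 5) ^ n / 2.3) := by
    have : (0 : ℝ) ≤ (5 / 10 ^ 5) ^ n := by positivity
    have e : (2.3 - 2.295) * ((5 / 10 ^ 5 : ℝ) ^ n / 2.3) = (5 / 10 ^ 5) ^ n * (0.005 / 2.3) := by ring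
    rw [e, div_eq_mul_inv]
    apply mul_le_mul_of_nonneg_left (by norm_num) this
  linarith

end Pool.Agent.K6.H38.ND
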