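import Pool.Agent.K6.H38.ND.Meas2
import Pool.Agent.Helper923.PNT

/-! A lower bound for linear forms in `log 2` and `log 3`. -/

set_option autoImplicit false

namespace Pool.Agent.K6.H38.ND

open Polynomial MeasureTheory Filter Topology

theorem exp804 : Real.exp 8.04 ≤ 3103 := by
  have h1 := Real.exp_one_lt_d9
  have h2 : Real.exp 8.04 = Real.exp 1 ^ 8 * Real.exp 0.04 := by
    rw [← Real.exp_nat_mul, ← Real.exp_add]; norm_num
  have h3 : Real.exp 0.04 ≤ 1.04082 := by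
    have := Real.exp_bound' (x := 0.04) (by norm_num) (by norm_num) (n := 4) (by norm_num)
    refine this.trans ?_
    simp [Finset.sum_range_succ, Nat.factorial]
    norm_num
  rw [h2]
  have h4 : Real.exp 1 ^ 8 ≤ 2.7182818286 ^ 8 := pow_le_pow_left₀ (Real.exp_pos 1).le h1.le 8
  calc Real.exp 1 ^ 8 * Real.exp 0.04 ≤ 2.7182818286 ^ 8 * 1.04082 :=
        mul_le_mul h4 h3 (Real.exp_pos _).le (by norm_num)
    _ ≤ 3103 := by norm_num

theorem lcm_le : ∃ n₀ : ℕ, ∀ n : ℕ, n₀ ≤ n → (Nat.lcmUpto (8 * n) : ℝ) ≤ 3103 ^ n := by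
  have h := Pool.Agent.Helper923.PNT.psi_div_tendsto
  have h1 : ∀ᶠ x : ℝ in atTop, Chebyshev.psi x / x < 1.005 := h.eventually_lt_const (by norm_num)
  have h2 : Tendsto (fun n : ℕ => (8 : ℝ) * n) atTop atTop :=
    Tendsto.const_mul_atTop (by norm_num) tendsto_natCast_atTop_atTop
  have h3 := h2.eventually h1
  obtain ⟨n₀, hn₀⟩ := eventually_atTop.1 h3
  refine ⟨n₀ + 1, fun n hn => ?_⟩
  have h4 := hn₀ n (by omega)
  have hn0 : (0 : ℝ) < n := by exact_mod_cast (by omega : 0 < n)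
  rw [div_lt_iff₀ (by positivity)] at h4
  have h5 : Chebyshev.psi (8 * n) = Real.log (Nat.lcmUpto (8 * n)) := by
    have := Chebyshev.psi_eq_log_lcmUpto (8 * n)
    push_cast at this
    exact this
  rw [h5] at h4
  have hpos : (0 : ℝ) < Nat.lcmUpto (8 * n) := by exact_mod_cast Nat.lcmUpto_pos (8 * n)
  have h6 : (Nat.lcmUpto (8 * n) : ℝ) = Real.exp (Real.log (Nat.lcmUpto (8 * n))) := (Real.exp_log hpos).symm
  rw [h6]
  calc Real.exp (Real.log (Nat.lcmUpto (8 * n))) ≤ Real.exp (n * 8.04) := Real.exp_le_exp.2 (by linarith)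
    _ = Real.exp 8.04 ^ n := Real.exp_nat_mul _ _
    _ ≤ 3103 ^ n := pow_le_pow_left₀ (Real.exp_pos _).le exp804 n

theorem claimA {n : ℕ} (hM : (Nat.lcmUpto (8 * n) : ℝ) ≤ 3103 ^ n) {u v : ℤ} (hu : u ≠ 0) {H : ℝ}
    (huH : |(u : ℝ)| ≤ H) (hvH : |(v : ℝ)| ≤ H) (hn : H * 0.17 ^ n ≤ 1 / 1000) :
    (0.17 ^ n) ^ 16 / 1000 ≤ |u * Real.log (3 / 2) + v * Real.log (4 / 3)| := by
  set M : ℝ := (Nat.lcmUpto (8 * n) : ℝ) with hMdef
  have hMpos : 0 < M := by rw [hMdef]; exact_mod_cast Nat.lcmUpto_pos (8 * n)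
  obtain ⟨Z1, hZ1⟩ := int_id (a := 2) (b := 3) (by norm_num) (by norm_num) n (fun k hk => dvd_two n k hk) (fun k hk => dvd_three n k hk)
  obtain ⟨Z2, hZ2⟩ := int_id (a := 3) (b := 4) (by norm_num) (by norm_num) n (fun k hk => dvd_three n k hk) (fun k hk => dvd_four n k hk)
  push_cast at hZ1 hZ2
  rw [← hMdef] at hZ1 hZ2
  have hI1 := I1_le n
  have hI2 := I2_le n
  have hI1g := I1_ge n
  have hI1n := I_nonneg (a := 2) (b := 3) (by norm_num) (by norm_num) n
  have hI2n := I_nonneg (a := 3) (b := 4) (by norm_num) (by norm_num) n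
  set I1 : ℝ := ∫ x in (2 : ℝ)..3, (aeval x (FF n)) / x ^ (6 * n + 1) with hI1def
  set I2 : ℝ := ∫ x in (3 : ℝ)..4, (aeval x (FF n)) / x ^ (6 * n + 1) with hI2def
  set q : ℝ := ((FF n).coeff (6 * n) : ℝ) with hq
  have hqb : |q| ≤ 81000000 ^ n := by
    have := coeff_bd n
    rw [hq]
    exact_mod_cast this
  set L : ℝ := u * Real.log (3 / 2) + v * Real.log (4 / 3) with hL
  have hH0 : 0 ≤ H := (abs_nonneg _).trans huH
  have key : M * (u * I1 + v * I2) = M * q * L + ((u * Z1 + v * Z2 : ℤ) : ℝ) := by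
    push_cast
    have e1 : M * (u * I1 + v * I2) = u * (M * I1) + v * (M * I2) := by ring
    rw [e1, hZ1, hZ2, hL]; ring
  have hL0 := abs_nonneg L
  have hx0 : (0 : ℝ) ≤ 0.17 ^ n := by positivity
  have hpow16 : ((0.17 : ℝ) ^ n) ^ 16 = (0.17 ^ 16) ^ n := by rw [← pow_mul, ← pow_mul, mul_comm]
  by_cases hZ : (u * Z1 + v * Z2 : ℤ) = 0
  · rw [hZ, Int.cast_zero, add_zero] at key
    have key2 : q * L = u * I1 + v * I2 := by
      have : M * (q * L) = M * (u * I1 + v * I2) := by rw [key]; ring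
      exact mul_left_cancel₀ hMpos.ne' this
    have h1 : I1 - H * I2 ≤ |u * I1 + v * I2| := by
      have h2 : |(u : ℝ) * I1| ≤ |u * I1 + v * I2| + |(v : ℝ) * I2| := by
        have := abs_sub (a := u * I1 + v * I2) (b := (v : ℝ) * I2)
        rwa [add_sub_cancel_right] at this
      rw [abs_mul (u : ℝ), abs_of_nonneg hI1n, abs_mul (v : ℝ), abs_of_nonneg hI2n] at h2
      have h3 : (1 : ℝ) ≤ |(u : ℝ)| := by
        have := Int.one_le_abs hu
        exact_mod_cast this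
      have h4 := mul_le_mul_of_nonneg_right h3 hI1n
      have h5 := mul_le_mul_of_nonneg_right hvH hI2n
      linarith
    have h2 : H * I2 ≤ (5 / 10 ^ 5) ^ n / 1000 := by
      have h3 := mul_le_mul_of_nonneg_left hI2 hH0
      have h4 : (4 / 10 ^ 6 : ℝ) ^ n ≤ 0.17 ^ n * (5 / 10 ^ 5) ^ n := by
        rw [← mul_pow]
        exact pow_le_pow_left₀ (by norm_num) (by norm_num) n
      have h5 := mul_le_mul_of_nonneg_left h4 hH0
      have h6 := mul_le_mul_of_nonneg_right hn (show (0 : ℝ) ≤ (5 / 10 ^ 5) ^ n by positivity)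
      have e : H * (0.17 ^ n * (5 / 10 ^ 5) ^ n) = H * 0.17 ^ n * (5 / 10 ^ 5) ^ n := by ring
      rw [e] at h5
      linarith
    have h3 : (5 / 10 ^ 5) ^ n / 1000 ≤ |q| * |L| := by
      rw [← abs_mul, key2]
      have : (5 / 10 ^ 5 : ℝ) ^ n / 500 - (5 / 10 ^ 5) ^ n / 1000 = (5 / 10 ^ 5) ^ n / 1000 := by ring
      linarith
    have h4 : |q| * |L| ≤ 81000000 ^ n * |L| := mul_le_mul_of_nonneg_right hqb hL0
    have h5 : (0.17 ^ 16 : ℝ) ^ n * 81000000 ^ n ≤ (5 / 10 ^ 5) ^ n := by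
      rw [← mul_pow]
      exact pow_le_pow_left₀ (by norm_num) (by norm_num) n
    have h6 : ((0.17 ^ 16 : ℝ) ^ n / 1000) * 81000000 ^ n ≤ |L| * 81000000 ^ n := by
      have e : ((0.17 ^ 16 : ℝ) ^ n / 1000) * 81000000 ^ n = ((0.17 ^ 16 : ℝ) ^ n * 81000000 ^ n) / 1000 := by ring
      rw [e]
      linarith
    rw [hpow16]
    exact le_of_mul_le_mul_right h6 (by positivity)
  · have h1 : (1 : ℝ) ≤ |((u * Z1 + v * Z2 : ℤ) : ℝ)| := by
      have := Int.one_le_abs hZ
      exact_mod_cast this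
    have h2 : |M * (u * I1 + v * I2)| ≤ 1 / 2 := by
      rw [abs_mul, abs_of_pos hMpos]
      have h3 : |u * I1 + v * I2| ≤ H * I1 + H * I2 := by
        refine (abs_add_le _ _).trans ?_
        rw [abs_mul, abs_mul, abs_of_nonneg hI1n, abs_of_nonneg hI2n]
        exact add_le_add (mul_le_mul_of_nonneg_right huH hI1n) (mul_le_mul_of_nonneg_right hvH hI2n)
      have h4 : M * I1 ≤ 0.17 ^ n := by
        calc M * I1 ≤ 3103 ^ n * (545 / 10 ^ 7) ^ n := mul_le_mul hM hI1 hI1n (by positivity)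
          _ = (3103 * (545 / 10 ^ 7)) ^ n := by rw [mul_pow]
          _ ≤ 0.17 ^ n := pow_le_pow_left₀ (by norm_num) (by norm_num) n
      have h5 : M * I2 ≤ 0.17 ^ n := by
        calc M * I2 ≤ 3103 ^ n * (4 / 10 ^ 6) ^ n := mul_le_mul hM hI2 hI2n (by positivity)
          _ = (3103 * (4 / 10 ^ 6)) ^ n := by rw [mul_pow]
          _ ≤ 0.17 ^ n := pow_le_pow_left₀ (by norm_num) (by norm_num) n
      have h6 := mul_le_mul_of_nonneg_left h3 hMpos.le
      have h7 := mul_le_mul_of_nonneg_left h4 hH0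
      have h8 := mul_le_mul_of_nonneg_left h5 hH0
      have e : M * (H * I1 + H * I2) = H * (M * I1) + H * (M * I2) := by ring
      rw [e] at h6
      linarith
    have h3 : 1 / 2 ≤ M * |q| * |L| := by
      have e : ((u * Z1 + v * Z2 : ℤ) : ℝ) = M * (u * I1 + v * I2) - M * q * L := by rw [key]; ring
      rw [e] at h1
      have h4 := abs_sub (a := M * (u * I1 + v * I2)) (b := M * q * L)
      have h5 : |M * q * L| = M * |q| * |L| := by rw [abs_mul, abs_mul, abs_of_pos hMpos]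
      rw [h5] at h4
      linarith
    have h4 : M * |q| * |L| ≤ (3103 * 81000000) ^ n * |L| := by
      apply mul_le_mul_of_nonneg_right _ hL0
      rw [mul_pow]
      exact mul_le_mul hM hqb (abs_nonneg _) (by positivity)
    have h5 : (0.17 ^ 16 : ℝ) ^ n * (3103 * 81000000) ^ n ≤ 1 := by
      rw [← mul_pow]
      exact pow_le_one₀ (by norm_num) (by norm_num)
    have h6 : ((0.17 ^ 16 : ℝ) ^ n / 1000) * (3103 * 81000000) ^ n ≤ |L| * (3103 * 81000000) ^ n := by
      have e : ((0.17 ^ 16 : ℝ) ^ n / 1000) * (3103 * 81000000) ^ n = ((0.17 ^ 16 : ℝ) ^ n * (3103 * 81000000) ^ n) / 1000 := by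
        rw [div_mul_eq_mul_div]
      have h7 : ((0.17 ^ 16 : ℝ) ^ n * (3103 * 81000000) ^ n) / 1000 ≤ 1 / 1000 := div_le_div_of_nonneg_right h5 (by norm_num)
      have h8 : 1 / 2 ≤ |L| * (3103 * 81000000) ^ n := by rw [mul_comm]; exact h3.trans h4
      rw [e]
      exact h7.trans (le_trans (by norm_num) h8)
    rw [hpow16]
    exact le_of_mul_le_mul_right h6 (by positivity)

/-- lower bound for linear forms in `log (3/2)`, `log (4/3)` -/
theorem meas0 : ∃ c : ℝ, 0 < c ∧ ∀ u v : ℤ, (u ≠ 0 ∨ v ≠ 0) → ∀ H : ℝ, 1 ≤ H → |(u : ℝ)| ≤ H → |(v : ℝ)| ≤ H →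
    c / H ^ 16 ≤ |u * Real.log (3 / 2) + v * Real.log (4 / 3)| := by
  obtain ⟨n₀, hn₀⟩ := lcm_le
  set c : ℝ := (0.17 ^ n₀) ^ 16 * (0.17 / 1000) ^ 16 / 1000 with hc
  have hcpos : 0 < c := by positivity
  have hx1 : (0.17 : ℝ) ^ n₀ ≤ 1 := pow_le_one₀ (by norm_num) (by norm_num)
  have hx0 : (0 : ℝ) ≤ 0.17 ^ n₀ := by positivity
  have hx16 : ((0.17 : ℝ) ^ n₀) ^ 16 ≤ 1 := pow_le_one₀ hx0 hx1
  have hy16 : ((0.17 : ℝ) / 1000) ^ 16 ≤ 1 := pow_le_one₀ (by norm_num) (by norm_num)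
  have hc1 : c ≤ (0.17 ^ n₀) ^ 16 / 1000 := by
    rw [hc]
    apply div_le_div_of_nonneg_right _ (by norm_num)
    exact mul_le_of_le_one_right (by positivity) hy16
  have hc2 : c ≤ (0.17 / 1000) ^ 16 / 1000 := by
    rw [hc]
    apply div_le_div_of_nonneg_right _ (by norm_num)
    exact mul_le_of_le_one_left (by positivity) hx16
  refine ⟨c, hcpos, ?_⟩
  intro u v huv H hH huH hvH
  have hH16 : (1 : ℝ) ≤ H ^ 16 := one_le_pow₀ hH
  have hcH : c / H ^ 16 ≤ c := div_le_self hcpos.le hH16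
  by_cases hu : u = 0
  · have hv : v ≠ 0 := by rcases huv with h | h; exact absurd hu h; exact h
    subst hu
    rw [Int.cast_zero, zero_mul, zero_add, abs_mul]
    have h1 : (1 : ℝ) ≤ |(v : ℝ)| := by
      have := Int.one_le_abs hv
      exact_mod_cast this
    have h2 : (1 : ℝ) / 1000 ≤ Real.log (4 / 3) := by
      have := Real.one_sub_inv_le_log_of_pos (show (0 : ℝ) < 4 / 3 by norm_num)
      refine le_trans ?_ this
      norm_num
    have h3 : |Real.log (4 / 3)| = Real.log (4 / 3) := abs_of_pos (by linarith)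
    rw [h3]
    have h4 : c ≤ 1 / 1000 := by
      refine hc1.trans ?_
      apply div_le_div_of_nonneg_right hx16 (by norm_num)
    have h5 := mul_le_mul h1 h2 (by norm_num) (by positivity)
    linarith
  · -- choice of n
    have hex : ∃ k : ℕ, H * (0.17 : ℝ) ^ k ≤ 1 / 1000 := by
      obtain ⟨k, hk⟩ := exists_pow_lt_of_lt_one (show (0 : ℝ) < 1 / 1000 / H by positivity) (show (0.17 : ℝ) < 1 by norm_num)
      refine ⟨k, ?_⟩
      rw [lt_div_iff₀ (by linarith)] at hk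
      linarith
    set k := Nat.find hex with hk
    have hk1 : H * (0.17 : ℝ) ^ k ≤ 1 / 1000 := Nat.find_spec hex
    rcases le_or_gt k n₀ with h | h
    · have h1 : H * (0.17 : ℝ) ^ n₀ ≤ 1 / 1000 := by
        refine le_trans ?_ hk1
        apply mul_le_mul_of_nonneg_left _ (by linarith)
        exact pow_le_pow_of_le_one (by norm_num) (by norm_num) h
      have h2 := claimA (hn₀ n₀ le_rfl) hu huH hvH h1
      linarith
    · have h2 := claimA (hn₀ k h.le) hu huH hvH hk1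
      have h3 : ¬ (H * (0.17 : ℝ) ^ (k - 1) ≤ 1 / 1000) := Nat.find_min hex (by omega)
      rw [not_le] at h3
      have h4 : (0.17 : ℝ) ^ k = 0.17 ^ (k - 1) * 0.17 := by
        rw [← pow_succ]; congr 1; omega
      have h5 : 0.17 / 1000 / H ≤ (0.17 : ℝ) ^ k := by
        rw [h4, div_le_iff₀ (by linarith)]
        linarith
      have h6 : (0.17 / 1000 / H) ^ 16 ≤ ((0.17 : ℝ) ^ k) ^ 16 := pow_le_pow_left₀ (by positivity) h5 16
      have h7 : c / H ^ 16 ≤ (0.17 / 1000 / H) ^ 16 / 1000 := by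
        have e : (0.17 / 1000 / H) ^ 16 / 1000 = (0.17 / 1000) ^ 16 / 1000 / H ^ 16 := by
          rw [div_pow _ H]; ring
        rw [e]
        exact div_le_div_of_nonneg_right hc2 (by positivity)
      linarith

/-- lower bound for linear forms in `log 2`, `log 3` -/
theorem meas : ∃ c : ℝ, 0 < c ∧ ∀ p q : ℤ, (p ≠ 0 ∨ q ≠ 0) → ∀ H : ℝ, 1 ≤ H → |(p : ℝ)| ≤ H → |(q : ℝ)| ≤ H →
    c / H ^ 16 ≤ |q * Real.log 3 - p * Real.log 2| := by
  obtain ⟨c, hc, h⟩ := meas0
  refine ⟨c / 3 ^ 16, by positivity, ?_⟩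
  intro p q hpq H hH hp hq
  have h1 := h (2 * q - p) (q - p) (by
    by_contra hcon
    rw [not_or, not_not, not_not] at hcon
    rcases hpq with h1 | h1 <;> omega) (3 * H) (by linarith) (by
      push_cast
      have := abs_sub (a := 2 * (q : ℝ)) (b := p)
      rw [abs_mul, abs_two] at this
      linarith) (by
      push_cast
      have := abs_sub (a := (q : ℝ)) (b := p)
      linarith)
  have e1 : Real.log (3 / 2) = Real.log 3 - Real.log 2 := Real.log_div (by norm_num) (by norm_num)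
  have e2 : Real.log (4 / 3) = 2 * Real.log 2 - Real.log 3 := by
    rw [Real.log_div (by norm_num) (by norm_num), show (4 : ℝ) = 2 ^ 2 by norm_num, Real.log_pow]; push_cast; ring
  have e3 : ((2 * q - p : ℤ) : ℝ) * Real.log (3 / 2) + ((q - p : ℤ) : ℝ) * Real.log (4 / 3)
      = q * Real.log 3 - p * Real.log 2 := by
    rw [e1, e2]; push_cast; ring
  rw [e3] at h1
  refine le_trans (le_of_eq ?_) h1
  rw [mul_pow, div_div]

end Pool.Agent.K6.H38.ND
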