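import Pool.Agent.K6.H38.ND.Wt

/-! Smooth logarithmic sums. -/

set_option autoImplicit false

namespace Pool.Agent.K6.H38.ND

open Pool.Agent.H499R2.ND Finset Filter Topology ContDiff MeasureTheory

/-- smooth cutoff -/
noncomputable def Ph (v : ℝ) : ℝ := Real.smoothTransition (2 - v)

theorem Ph_sm : ContDiff ℝ ∞ Ph := by
  unfold Ph
  exact Real.smoothTransition.contDiff.comp (contDiff_const.sub contDiff_id)

theorem Ph_one {v : ℝ} (hv : v ≤ 1) : Ph v = 1 := Real.smoothTransition.one_of_one_le (by linarith)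

theorem Ph_zero {v : ℝ} (hv : 2 ≤ v) : Ph v = 0 := Real.smoothTransition.zero_of_nonpos (by linarith)

theorem Ph_nonneg (v : ℝ) : 0 ≤ Ph v := Real.smoothTransition.nonneg _

theorem Ph_le (v : ℝ) : Ph v ≤ 1 := Real.smoothTransition.le_one _

/-- minus the derivative of the cutoff -/
noncomputable def ps (v : ℝ) : ℝ := -deriv Ph v

theorem ps_good : Good 2 ps := by
  have h1 : ∀ v, v < 1 → deriv Ph v = 0 := by
    intro v hv
    have h1 : Ph =ᶠ[𝓝 v] fun _ => (1 : ℝ) := by
      filter_upwards [Iio_mem_nhds hv] with w hw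
      exact Ph_one (le_of_lt hw)
    rw [h1.deriv_eq, deriv_const]
  have h2 : ∀ v, 2 < v → deriv Ph v = 0 := deriv_van fun v hv => Ph_zero hv.le
  refine ⟨?_, ?_, ?_⟩
  · exact (contDiff_infty_iff_deriv.1 Ph_sm).2.neg
  · apply HasCompactSupport.intro (isCompact_Icc (a := (1 : ℝ)) (b := 2))
    intro v hv
    unfold ps
    rw [Set.mem_Icc, not_and_or, not_le, not_le] at hv
    rcases hv with hv | hv
    · rw [h1 v hv, neg_zero]
    · rw [h2 v hv, neg_zero]
  · intro v hv
    unfold ps
    rw [h2 v hv, neg_zero]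

theorem ps_int : ∫ v in Set.Ioi (0 : ℝ), ps v = 1 := by
  have hD : Differentiable ℝ Ph := Ph_sm.differentiable (by norm_num)
  have hint : Integrable ps := ps_good.sm.continuous.integrable_of_hasCompactSupport ps_good.cp
  have h := integral_Ioi_of_hasDerivAt_of_tendsto (f := fun v => -Ph v) (f' := ps) (a := 0) (m := 0)
    (hD.continuous.neg.continuousWithinAt) (fun v _ => (hD v).hasDerivAt.neg) hint.integrableOn (by
      apply tendsto_const_nhds.congr'
      filter_upwards [eventually_ge_atTop (2 : ℝ)] with v hv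
      rw [Ph_zero hv, neg_zero])
  rw [h, Ph_one zero_le_one]
  norm_num

/-- smooth logarithmic sum -/
noncomputable def SL (T : Set ℤ) (u : ℝ) : ℝ := ∑' n : ℕ, chi T n / n * Ph (n * Real.exp (-u))

theorem SL_eq (T : Set ℤ) {u : ℝ} {M : ℕ} (hM : 2 * Real.exp u ≤ M) :
    SL T u = ∑ n ∈ range M, chi T n / n * Ph (n * Real.exp (-u)) := by
  unfold SL
  rw [tsum_eq_sum (s := range M)]
  intro n hn
  rw [mem_range, not_lt] at hn
  have h1 : (M : ℝ) ≤ n := by exact_mod_cast hn
  rw [Ph_zero, mul_zero]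
  have := mul_le_mul_of_nonneg_right (hM.trans h1) (Real.exp_pos (-u)).le
  rwa [mul_assoc, exp_mul_exp_neg, mul_one] at this

theorem SL_deriv (T : Set ℤ) (u : ℝ) : HasDerivAt (SL T) (gg T ps u) u := by
  have hD : Differentiable ℝ Ph := Ph_sm.differentiable (by norm_num)
  set M : ℕ := ⌈3 * Real.exp (u + 1)⌉₊ with hM
  have hMle : 3 * Real.exp (u + 1) ≤ M := Nat.le_ceil _
  have hev : SL T =ᶠ[nhds u] fun v => ∑ n ∈ range M, chi T n / n * Ph (n * Real.exp (-v)) := by
    have : Set.Iio (u + 1) ∈ nhds u := Iio_mem_nhds (by linarith)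
    filter_upwards [this] with v hv
    apply SL_eq T
    refine le_trans ?_ hMle
    have := Real.exp_le_exp.2 (le_of_lt hv)
    have := Real.exp_pos (u + 1)
    linarith
  have hvan : ∀ v, (3 : ℝ) ≤ v → ps v = 0 := fun v hv => ps_good.van v (by linarith)
  rw [gg_eq T hvan (u := u) (M := M) (le_trans (mul_le_mul_of_nonneg_left (Real.exp_le_exp.2 (by linarith)) (by norm_num)) hMle)]
  have h1 : HasDerivAt (fun v : ℝ => Real.exp (-v)) (-Real.exp (-u)) u := by
    have := (hasDerivAt_neg u).exp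
    simpa using this
  have h2 : ∀ n ∈ range M, HasDerivAt (fun v : ℝ => chi T n / n * Ph (n * Real.exp (-v)))
      (chi T n / n * (deriv Ph (n * Real.exp (-u)) * (n * (-Real.exp (-u))))) u := by
    intro n _
    apply HasDerivAt.const_mul
    have h3 : HasDerivAt (fun v : ℝ => (n : ℝ) * Real.exp (-v)) (n * (-Real.exp (-u))) u := h1.const_mul _
    have h4 : HasDerivAt Ph (deriv Ph (n * Real.exp (-u))) (n * Real.exp (-u)) := (hD _).hasDerivAt
    exact HasDerivAt.comp (h₂ := Ph) u h4 h3
  have h4 := HasDerivAt.fun_sum h2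
  refine HasDerivAt.congr_of_eventuallyEq ?_ hev
  refine HasDerivAt.congr_deriv h4 ?_
  rw [mul_sum]
  apply sum_congr rfl
  intro n _
  unfold ps
  rcases Nat.eq_zero_or_pos n with h0 | h0
  · subst h0
    have : chi T 0 = 0 := by unfold chi; simp
    rw [this]; simp
  · have h5 : (n : ℝ) ≠ 0 := by positivity
    field_simp

/-- convergence from a bound for the derivative -/
theorem conv_of_deriv {H h : ℝ → ℝ} {C : ℝ} (hd : ∀ u, 1 ≤ u → HasDerivAt H (h u) u)
    (hb : ∀ u, 1 ≤ u → |h u| ≤ C / u ^ 2) : ∃ γ, ∀ u, 1 ≤ u → |H u - γ| ≤ C / u := by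
  have hCd : ∀ u : ℝ, 1 ≤ u → HasDerivAt (fun w => C / w) (-C / u ^ 2) u := by
    intro u hu
    have h1 := (hasDerivAt_inv (by linarith : u ≠ 0)).const_mul C
    have e : (fun w => C / w) = fun w => C * w⁻¹ := by ext w; rw [div_eq_mul_inv]
    rw [e]
    refine HasDerivAt.congr_deriv h1 ?_
    ring
  have hP : AntitoneOn (fun u => H u + C / u) (Set.Ici 1) := by
    apply antitoneOn_of_deriv_nonpos (convex_Ici 1)
    · intro u hu
      exact ((hd u hu).add (hCd u hu)).continuousAt.continuousWithinAt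
    · intro u hu
      rw [interior_Ici] at hu
      exact ((hd u (le_of_lt hu)).add (hCd u (le_of_lt hu))).differentiableAt.differentiableWithinAt
    · intro u hu
      rw [interior_Ici] at hu
      have hda : HasDerivAt (fun u => H u + C / u) (h u + -C / u ^ 2) u := (hd u (le_of_lt hu)).add (hCd u (le_of_lt hu))
      rw [hda.deriv]
      have := (abs_le.1 (hb u (le_of_lt hu))).2
      rw [neg_div]; linarith
  have hQ : MonotoneOn (fun u => H u - C / u) (Set.Ici 1) := by
    apply monotoneOn_of_deriv_nonneg (convex_Ici 1)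
    · intro u hu
      exact ((hd u hu).sub (hCd u hu)).continuousAt.continuousWithinAt
    · intro u hu
      rw [interior_Ici] at hu
      exact ((hd u (le_of_lt hu)).sub (hCd u (le_of_lt hu))).differentiableAt.differentiableWithinAt
    · intro u hu
      rw [interior_Ici] at hu
      have hda : HasDerivAt (fun u => H u - C / u) (h u - -C / u ^ 2) u := (hd u (le_of_lt hu)).sub (hCd u (le_of_lt hu))
      rw [hda.deriv]
      have := (abs_le.1 (hb u (le_of_lt hu))).1
      rw [neg_div]; linarith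
  have hC0 : 0 ≤ C := by
    have := (abs_nonneg _).trans (hb 1 le_rfl)
    simpa using this
  have hQP : ∀ u w, 1 ≤ u → 1 ≤ w → H w - C / w ≤ H u + C / u := by
    intro u w hu hw
    have hu0 : 0 ≤ C / u := div_nonneg hC0 (by linarith)
    have hw0 : 0 ≤ C / w := div_nonneg hC0 (by linarith)
    rcases le_total u w with h1 | h1
    · have := hP (a := u) (b := w) hu hw h1
      simp only at this
      linarith
    · have := hQ (a := w) (b := u) hw hu h1
      simp only at this
      linarith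
  refine ⟨sSup ((fun u => H u - C / u) '' Set.Ici 1), fun u hu => ?_⟩
  have hne : ((fun u => H u - C / u) '' Set.Ici (1 : ℝ)).Nonempty := ⟨_, 1, Set.self_mem_Ici, rfl⟩
  have hbd : BddAbove ((fun u => H u - C / u) '' Set.Ici (1 : ℝ)) := by
    refine ⟨H 1 + C / 1, ?_⟩
    rintro _ ⟨w, hw, rfl⟩
    exact hQP 1 w le_rfl hw
  have h1 : H u - C / u ≤ sSup ((fun u => H u - C / u) '' Set.Ici 1) := le_csSup hbd ⟨u, hu, rfl⟩
  have h2 : sSup ((fun u => H u - C / u) '' Set.Ici 1) ≤ H u + C / u := by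
    apply csSup_le hne
    rintro _ ⟨w, hw, rfl⟩
    exact hQP u w hu hw
  rw [abs_le]
  constructor <;> linarith

/-- the smooth logarithmic sums -/
theorem SL_main {s : ℤ} (hs : s = 1 ∨ s = -1) : ∃ C : ℝ, 0 ≤ C ∧ ∀ T : Set ℤ, Inv s T → ∀ D : ℝ,
    Tendsto (gg T ind) atTop (𝓝 D) → ∃ γ : ℝ, ∀ u : ℝ, 1 ≤ u → |SL T u - D * u - γ| ≤ C / u := by
  obtain ⟨C, hC⟩ := wt_main hs (by norm_num : (1 : ℝ) ≤ 2) ps_good
  refine ⟨|C 2|, abs_nonneg _, fun T hT D hD => ?_⟩
  apply conv_of_deriv (h := fun u => gg T ps u - D)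
  · intro u _
    have h1 := (SL_deriv T u).sub ((hasDerivAt_id u).const_mul D)
    rw [mul_one] at h1
    exact h1
  · intro u hu
    have h1 := hC T hT D hD 2 u hu
    rw [ps_int, mul_one] at h1
    refine h1.trans ?_
    gcongr
    exact le_abs_self _

end Pool.Agent.K6.H38.ND
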