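import Pool.Agent.K6.H38.ND.Sm2

/-! Smooth functions which are almost harmonic converge faster than any power: conclusion. -/

set_option autoImplicit false

namespace Pool.Agent.K6.H38.ND

open Filter Topology

variable {b : ℕ → ℝ} {h : ℕ → ℕ → ℝ}

theorem down (hb : ∀ k, 0 < b k) (hh : ∀ B k, 0 ≤ h B k) (a : ℕ) : ∀ d k, 1 ≤ k → a ≤ k + d → ∃ C : ℝ, 0 < C ∧
    ∀ g, HypS b h g → ∀ N : ℕ, 1 ≤ N → ∀ w : ℝ, (N : ℝ) ^ 36 ≤ w → |g k w| ≤ C / (N : ℝ) ^ a := by
  intro d
  induction d with
  | zero => intro k _ hk; exact boot hb hh a k (by omega)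
  | succ d ih =>
    intro k hk1 hk
    obtain ⟨C1, hC1, h1⟩ := ih (k + 1) (by omega) (by omega)
    have hl2 := l2b
    have hl3 := l3b
    have hbk := hb k
    have hha := hh a (k - 1)
    refine ⟨b k + 8 * (h a (k - 1) + C1 * 2 ^ a), by positivity, ?_⟩
    intro g hg N hN w hw
    have hNR : (1 : ℝ) ≤ N := by exact_mod_cast hN
    have hN0 : (0 : ℝ) < N := by linarith
    rcases Nat.lt_or_ge N 2 with hN2 | hN2
    · have hN1 : N = 1 := by omega
      subst hN1
      have h2 := hg.bd k w
      rw [Nat.cast_one, one_pow, div_one]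
      have : 0 ≤ 8 * (h a (k - 1) + C1 * 2 ^ a) := by positivity
      linarith
    · have hN2R : (2 : ℝ) ≤ N := by exact_mod_cast hN2
      have hpred : ((N - 1 : ℕ) : ℝ) = N - 1 := by
        rw [Nat.cast_sub (by omega)]; norm_num
      have hw1 : (1 : ℝ) ≤ w := (one_le_pow₀ hNR).trans hw
      have hpw : ((N - 1 : ℕ) : ℝ) ^ 36 ≤ w - Real.log 2 := by
        rw [hpred]
        have h2 : ((N : ℝ) - 1) ^ 36 + 1 ≤ (N : ℝ) ^ 36 := by
          have h3 : (1 : ℝ) ≤ (N : ℝ) ^ 35 := one_le_pow₀ hNR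
          have h4 : ((N : ℝ) - 1) ^ 35 ≤ (N : ℝ) ^ 35 := pow_le_pow_left₀ (by linarith) (by linarith) 35
          calc ((N : ℝ) - 1) ^ 36 + 1 = ((N : ℝ) - 1) ^ 35 * (N - 1) + 1 := by ring
            _ ≤ (N : ℝ) ^ 35 * (N - 1) + (N : ℝ) ^ 35 := by
                have := mul_le_mul_of_nonneg_right h4 (show (0 : ℝ) ≤ N - 1 by linarith)
                linarith
            _ = (N : ℝ) ^ 36 := by ring
        linarith
      set M : ℝ := C1 * 2 ^ a / (N : ℝ) ^ a with hM
      have hM0 : 0 < M := by positivity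
      have hgk : ∀ y, w - Real.log 2 ≤ y → |g (k + 1) y| ≤ M := by
        intro y hy
        refine (h1 g hg (N - 1) (by omega) y (hpw.trans hy)).trans ?_
        rw [hM, div_le_div_iff₀ (by rw [hpred]; exact pow_pos (by linarith) a) (by positivity), mul_assoc]
        apply mul_le_mul_of_nonneg_left _ hC1.le
        rw [← mul_pow]
        apply pow_le_pow_left₀ hN0.le
        rw [hpred]; linarith
      have hder1 : ∀ s, w - Real.log 2 ≤ s → HasDerivAt (g (k - 1)) (g k s) s := by
        intro s _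
        have := hg.der (k - 1) s
        rwa [show k - 1 + 1 = k by omega] at this
      have hder2 : ∀ s, w - Real.log 2 ≤ s → HasDerivAt (g k) (g (k + 1) s) s := fun s _ => hg.der k s
      have t1 := taylor1 hder1 hder2 hgk (a := w) (b := w - Real.log 2) (by linarith) le_rfl
      have t2 := taylor1 hder1 hder2 hgk (a := w) (b := w - Real.log 2 + Real.log 3) (by linarith) (by linarith)
      have hh1 := hg.harm a (k - 1) w hw1
      have hwa : h a (k - 1) / w ^ a ≤ h a (k - 1) / (N : ℝ) ^ a := by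
        apply div_le_div_of_nonneg_left hha (by positivity)
        apply pow_le_pow_left₀ hN0.le
        refine le_trans ?_ hw
        exact le_self_pow₀ hNR (by norm_num)
      unfold Av at hh1
      rw [show w - Real.log 2 - w = -Real.log 2 by ring] at t1
      rw [show w - Real.log 2 + Real.log 3 - w = Real.log 3 - Real.log 2 by ring] at t2
      have q1 : M * (-Real.log 2) ^ 2 ≤ M := by
        have : (-Real.log 2) ^ 2 ≤ 1 := by nlinarith
        nlinarith
      have q2 : M * (Real.log 3 - Real.log 2) ^ 2 ≤ M := by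
        have : (Real.log 3 - Real.log 2) ^ 2 ≤ 1 := by nlinarith
        nlinarith
      have t1' := abs_le.1 (t1.trans q1)
      have t2' := abs_le.1 (t2.trans q2)
      have hh' := abs_le.1 (hh1.trans hwa)
      set γ : ℝ := Real.log 2 - Real.log 3 / 2 with hγ
      have hγ1 : 1 / 8 ≤ γ := by rw [hγ]; linarith
      have key : |γ * g k w| ≤ h a (k - 1) / (N : ℝ) ^ a + M := by
        have e : γ * g k w = (g (k - 1) w - (g (k - 1) (w - Real.log 2) + g (k - 1) (w - Real.log 2 + Real.log 3)) / 2)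
            + ((g (k - 1) (w - Real.log 2) - g (k - 1) w - -Real.log 2 * g k w)
              + (g (k - 1) (w - Real.log 2 + Real.log 3) - g (k - 1) w - (Real.log 3 - Real.log 2) * g k w)) / 2 := by
          rw [hγ]; ring
        rw [e, abs_le]
        constructor <;> linarith [t1'.1, t1'.2, t2'.1, t2'.2, hh'.1, hh'.2]
      rw [abs_mul, abs_of_pos (by linarith : 0 < γ)] at key
      have hgn := abs_nonneg (g k w)
      have h3 : |g k w| ≤ 8 * (h a (k - 1) / (N : ℝ) ^ a + M) := by nlinarith
      refine h3.trans ?_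
      have e : (b k + 8 * (h a (k - 1) + C1 * 2 ^ a)) / (N : ℝ) ^ a = b k / (N : ℝ) ^ a + 8 * (h a (k - 1) / (N : ℝ) ^ a + M) := by
        rw [hM]; ring
      rw [e]
      have : 0 ≤ b k / (N : ℝ) ^ a := by positivity
      linarith

/-- the derivative decays -/
theorem decay (hb : ∀ k, 0 < b k) (hh : ∀ B k, 0 ≤ h B k) (B : ℕ) : ∃ C : ℝ, 0 < C ∧
    ∀ g, HypS b h g → ∀ w : ℝ, 1 ≤ w → |g 1 w| ≤ C / w ^ B := by
  obtain ⟨C, hC, h1⟩ := down hb hh (36 * B) (36 * B) 1 le_rfl (by omega)
  refine ⟨C * 2 ^ (36 * B), by positivity, ?_⟩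
  intro g hg w hw
  have hex : ∃ n : ℕ, w < ((n : ℝ) + 1) ^ 36 := by
    obtain ⟨n, hn⟩ := exists_nat_gt w
    refine ⟨n, ?_⟩
    have h2 : (1 : ℝ) ≤ (n : ℝ) + 1 := by linarith [show (0 : ℝ) ≤ n from Nat.cast_nonneg n]
    have h3 : (n : ℝ) + 1 ≤ ((n : ℝ) + 1) ^ 36 := le_self_pow₀ h2 (by norm_num)
    linarith
  set N := Nat.find hex with hN
  have hN1 : w < ((N : ℝ) + 1) ^ 36 := Nat.find_spec hex
  have hNpos : 1 ≤ N := by
    by_contra hcon
    have h0 : N = 0 := by omega
    rw [h0] at hN1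
    norm_num at hN1
    linarith
  have hN2 : (N : ℝ) ^ 36 ≤ w := by
    have := Nat.find_min hex (m := N - 1) (by omega)
    rw [not_lt, Nat.cast_sub hNpos] at this
    simpa using this
  have hNR : (1 : ℝ) ≤ N := by exact_mod_cast hNpos
  have h2 := h1 g hg N hNpos w hN2
  refine h2.trans ?_
  rw [div_le_div_iff₀ (by positivity) (by positivity), mul_assoc]
  apply mul_le_mul_of_nonneg_left _ hC.le
  rw [← mul_pow, pow_mul]
  apply pow_le_pow_left₀ (by linarith)
  refine hN1.le.trans ?_
  apply pow_le_pow_left₀ (by linarith)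
  linarith

/-- convergence faster than any power -/
theorem limit (hb : ∀ k, 0 < b k) (hh : ∀ B k, 0 ≤ h B k) : ∃ C : ℕ → ℝ, (∀ B, 0 < C B) ∧
    ∀ g, HypS b h g → ∃ D : ℝ, Tendsto (g 0) atTop (𝓝 D) ∧ ∀ B : ℕ, ∀ w : ℝ, 1 ≤ w → |g 0 w - D| ≤ C B / w ^ B := by
  have hdec := fun B => decay hb hh B
  choose K hK hd using hdec
  have hstep : ∀ B : ℕ, 1 ≤ B → ∀ g, HypS b h g → ∃ D : ℝ, Tendsto (g 0) atTop (𝓝 D) ∧
      ∀ w : ℝ, 1 ≤ w → |g 0 w - D| ≤ 2 * K (B + 1) / w ^ B := by
    intro B hB g hg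
    have hKp := hK (B + 1)
    obtain ⟨D, hD, h1⟩ := tail_lemma (G := g 0) (ε := fun w => K (B + 1) / w ^ B) (W := 1) (lam := 2) (ρ := 1 / 2)
      (by norm_num) (by norm_num) (by norm_num) (by norm_num)
      (by intro w hw; have : 0 < w := by linarith
          positivity)
      (by
        intro w w' hw h1 h2
        have hw0 : 0 < w := by linarith
        have h3 := mvt (f := g 0) (f' := g 1) (x₀ := w) (C := K (B + 1) / w ^ (B + 1)) (fun s _ => hg.der 0 s)
          (fun s hs => by
            refine (hd (B + 1) g hg s (by linarith)).trans ?_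
            apply div_le_div_of_nonneg_left hKp.le (by positivity)
            exact pow_le_pow_left₀ hw0.le hs _) (a := w) (b := w') le_rfl h1
        rw [abs_sub_comm]
        refine h3.trans ?_
        rw [abs_of_nonneg (by linarith)]
        have h4 : K (B + 1) / w ^ (B + 1) * (w' - w) ≤ K (B + 1) / w ^ (B + 1) * w :=
          mul_le_mul_of_nonneg_left (by linarith) (by positivity)
        refine h4.trans (le_of_eq ?_)
        rw [pow_succ]; field_simp)
      (by
        intro w hw
        have hw0 : 0 < w := by linarith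
        have h2 : K (B + 1) / (2 * w) ^ B ≤ K (B + 1) / (2 * w ^ B) := by
          apply div_le_div_of_nonneg_left hKp.le (by positivity)
          rw [mul_pow]
          apply mul_le_mul_of_nonneg_right _ (by positivity)
          calc (2 : ℝ) = 2 ^ 1 := by norm_num
            _ ≤ 2 ^ B := pow_le_pow_right₀ (by norm_num) hB
        refine h2.trans (le_of_eq ?_)
        field_simp)
    refine ⟨D, hD, fun w hw => ?_⟩
    refine (h1 w hw).trans (le_of_eq ?_)
    ring
  refine ⟨fun B => if B = 0 then 2 * K 2 else 2 * K (B + 1), ?_, ?_⟩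
  · intro B
    have h1 := hK 2
    have h2 := hK (B + 1)
    simp only
    split_ifs <;> linarith
  · intro g hg
    obtain ⟨D, hD, h1⟩ := hstep 1 le_rfl g hg
    refine ⟨D, hD, ?_⟩
    intro B w hw
    simp only
    split_ifs with hB
    · subst hB
      refine (h1 w hw).trans ?_
      rw [pow_zero, div_one, pow_one]
      have := hK 2
      exact div_le_self (by linarith) hw
    · obtain ⟨D', hD', h2⟩ := hstep B (by omega) g hg
      rw [tendsto_nhds_unique hD hD']
      exact h2 w hw

end Pool.Agent.K6.H38.ND
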