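import Pool.Agent.K6.H38.ND.Cnt
import Pool.Agent.K6.H38.ND.Sm3

/-! Smooth weights. -/

set_option autoImplicit false

namespace Pool.Agent.K6.H38.ND

open Pool.Agent.H499R2.ND Finset Filter Topology ContDiff MeasureTheory

/-- smooth functions with compact support, vanishing beyond `R` -/
structure Good (R : ℝ) (φ : ℝ → ℝ) : Prop where
  sm : ContDiff ℝ ∞ φ
  cp : HasCompactSupport φ
  van : ∀ v, R < v → φ v = 0

theorem deriv_van {R : ℝ} {φ : ℝ → ℝ} (h : ∀ v, R < v → φ v = 0) : ∀ v, R < v → deriv φ v = 0 := by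
  intro v hv
  have h1 : φ =ᶠ[𝓝 v] fun _ => (0 : ℝ) := by
    filter_upwards [Ioi_mem_nhds hv] with w hw
    exact h w hw
  rw [h1.deriv_eq, deriv_const]

theorem Good.step {R : ℝ} {φ : ℝ → ℝ} (h : Good R φ) : Good R (th φ) := by
  have hd : ContDiff ℝ ∞ (deriv φ) := (contDiff_infty_iff_deriv.1 h.sm).2
  refine ⟨?_, ?_, ?_⟩
  · unfold th
    exact h.sm.neg.sub (contDiff_id.mul hd)
  · have h1 : HasCompactSupport (deriv φ) := h.cp.deriv
    have h2 : HasCompactSupport (fun v : ℝ => -φ v) := h.cp.neg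
    have h3 : HasCompactSupport (fun v : ℝ => v * deriv φ v) := h1.mul_left
    exact h2.sub h3
  · intro v hv
    unfold th
    rw [h.van v hv, deriv_van h.van v hv]; simp

theorem Good.iter {R : ℝ} {φ : ℝ → ℝ} (h : Good R φ) (k : ℕ) : Good R (th^[k] φ) := by
  induction k with
  | zero => exact h
  | succ k ih => rw [Function.iterate_succ_apply']; exact ih.step

theorem Good.bound {R : ℝ} {φ : ℝ → ℝ} (h : Good R φ) : ∃ H : ℝ, 0 ≤ H ∧ ∀ v, |φ v| ≤ H := by
  obtain ⟨H, hH⟩ := h.cp.exists_bound_of_continuous h.sm.continuous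
  refine ⟨H, (norm_nonneg _).trans (hH 0), fun v => ?_⟩
  rw [← Real.norm_eq_abs]; exact hH v

theorem Good.lip {R : ℝ} {φ : ℝ → ℝ} (h : Good R φ) : ∃ L : ℝ, 0 ≤ L ∧ ∀ v v', |φ v - φ v'| ≤ L * |v - v'| := by
  have hd : ContDiff ℝ ∞ (deriv φ) := (contDiff_infty_iff_deriv.1 h.sm).2
  obtain ⟨L, hL⟩ := h.cp.deriv.exists_bound_of_continuous hd.continuous
  refine ⟨L, (norm_nonneg _).trans (hL 0), fun v v' => ?_⟩
  have hD : Differentiable ℝ φ := h.sm.differentiable (by norm_num)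
  have := mvt (f := φ) (f' := deriv φ) (x₀ := min v v') (C := L) (fun w _ => (hD w).hasDerivAt)
    (fun w _ => by rw [← Real.norm_eq_abs]; exact hL w) (a := v') (b := v) (min_le_right _ _) (min_le_left _ _)
  exact this

/-- the sequence of weighted counting functions -/
theorem hypS_gg {s : ℤ} (hs : s = 1 ∨ s = -1) {R : ℝ} (hR : 1 ≤ R) {φ : ℝ → ℝ} (hφ : Good R φ) :
    ∃ (b : ℕ → ℝ) (h : ℕ → ℕ → ℝ), (∀ k, 0 < b k) ∧ (∀ B k, 0 ≤ h B k) ∧
      ∀ T : Set ℤ, Inv s T → HypS b h (fun k => gg T (th^[k] φ)) := by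
  have hlip := fun B => gg_lip B hs
  choose CB hCB hlB using hlip
  have hbd := fun k => (hφ.iter k).bound
  choose H hH0 hH using hbd
  have hl := fun k => (hφ.iter k).lip
  choose L hL0 hL using hl
  refine ⟨fun k => (R + 1) * H k + 1, fun B k => CB B * ((R + 1) * H k + (R + 1) ^ 2 * L k), ?_, ?_, ?_⟩
  · intro k
    have := hH0 k
    positivity
  · intro B k
    have := hH0 k
    have := hL0 k
    have := hCB B
    positivity
  · intro T hT
    have hvan : ∀ k v, R + 1 ≤ v → th^[k] φ v = 0 := fun k v hv => (hφ.iter k).van v (by linarith)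
    refine ⟨?_, ?_, ?_⟩
    · intro k w
      have hD : Differentiable ℝ (th^[k] φ) := (hφ.iter k).sm.differentiable (by norm_num)
      have := gg_deriv T (φ := th^[k] φ) (R := R + 1) (by linarith) (hvan k)
        (fun v hv => deriv_van (hφ.iter k).van v (by linarith)) hD w
      rw [← Function.iterate_succ_apply' th k φ] at this
      exact this
    · intro k w
      have := gg_bd T (φ := th^[k] φ) (R := R + 1) (H := H k) (by linarith) (hvan k) (hH k) w
      linarith
    · intro B k w hw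
      exact hlB B T hT (th^[k] φ) (R + 1) (H k) (L k) (by linarith) (hL0 k) (hvan k) (hH k) (hL k) w hw

/-- Riemann sums -/
theorem riem {R L : ℝ} {φ : ℝ → ℝ} (hc : Continuous φ) (hvan : ∀ v, R ≤ v → φ v = 0) (hL0 : 0 ≤ L)
    (hL : ∀ v v', |φ v - φ v'| ≤ L * |v - v'|) {h : ℝ} (hh : 0 < h) {M : ℕ} (hM1 : R ≤ M * h) (hM2 : M * h ≤ R + 1) :
    |h * ∑ n ∈ range M, φ (n * h) - ∫ v in Set.Ioi (0 : ℝ), φ v| ≤ (R + 1) * L * h := by
  have hint : ∀ a b : ℝ, IntervalIntegrable φ volume a b := fun a b => hc.intervalIntegrable a b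
  have h1 : ∫ v in Set.Ioi (0 : ℝ), φ v = ∫ v in (0 : ℝ)..(M * h), φ v := by
    rw [intervalIntegral.integral_of_le (by positivity)]
    rw [← Set.Ioc_union_Ioi_eq_Ioi (show (0 : ℝ) ≤ M * h by positivity)]
    rw [setIntegral_union (by exact Set.Ioc_disjoint_Ioi_same) measurableSet_Ioi]
    · have h2 : ∫ v in Set.Ioi ((M : ℝ) * h), φ v = 0 := by
        apply setIntegral_eq_zero_of_forall_eq_zero
        intro v hv
        exact hvan v (by rw [Set.mem_Ioi] at hv; linarith)
      rw [h2, add_zero]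
    · exact hc.integrableOn_Ioc
    · have h2 : Set.EqOn φ (fun _ => (0 : ℝ)) (Set.Ioi ((M : ℝ) * h)) := by
        intro v hv
        exact hvan v (by rw [Set.mem_Ioi] at hv; linarith)
      exact (integrableOn_congr_fun h2 measurableSet_Ioi).2 (integrableOn_zero)
  have h2 : ∫ v in (0 : ℝ)..(M * h), φ v = ∑ n ∈ range M, ∫ v in ((n : ℝ) * h)..(((n + 1 : ℕ) : ℝ) * h), φ v := by
    have := intervalIntegral.sum_integral_adjacent_intervals (f := φ) (μ := volume) (a := fun n : ℕ => (n : ℝ) * h) (n := M)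
      (fun k _ => hint _ _)
    rw [this]; simp
  rw [h1, h2, mul_sum, ← sum_sub_distrib]
  refine (abs_sum_le_sum_abs _ _).trans ?_
  have h3 : ∀ n ∈ range M, |h * φ (n * h) - ∫ v in ((n : ℝ) * h)..(((n + 1 : ℕ) : ℝ) * h), φ v| ≤ L * h * h := by
    intro n _
    have e1 : h * φ (n * h) = ∫ v in ((n : ℝ) * h)..(((n + 1 : ℕ) : ℝ) * h), φ (n * h) := by
      rw [intervalIntegral.integral_const, smul_eq_mul]
      push_cast; ring
    rw [e1, ← intervalIntegral.integral_sub (intervalIntegrable_const) (hint _ _)]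
    have h4 := intervalIntegral.norm_integral_le_of_norm_le_const (a := (n : ℝ) * h) (b := ((n + 1 : ℕ) : ℝ) * h)
      (f := fun v => φ (n * h) - φ v) (C := L * h) (by
        intro v hv
        rw [Set.uIoc_of_le (by push_cast; nlinarith)] at hv
        rw [Real.norm_eq_abs]
        refine (hL _ _).trans (mul_le_mul_of_nonneg_left ?_ hL0)
        rw [abs_sub_comm, abs_of_nonneg (by linarith [hv.1])]
        have := hv.2
        push_cast at this
        linarith)
    rw [Real.norm_eq_abs] at h4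
    refine h4.trans (le_of_eq ?_)
    have : ((n + 1 : ℕ) : ℝ) * h - n * h = h := by push_cast; ring
    rw [this, abs_of_pos hh]
  refine (sum_le_sum h3).trans ?_
  rw [sum_const, card_range, nsmul_eq_mul]
  calc (M : ℝ) * (L * h * h) = (M * h) * (L * h) := by ring
    _ ≤ (R + 1) * (L * h) := mul_le_mul_of_nonneg_right hM2 (by positivity)
    _ = _ := by ring

/-- the limit of the weighted counting functions -/
theorem gg_limit {T : Set ℤ} {D : ℝ} (hD : Tendsto (gg T ind) atTop (𝓝 D)) {R : ℝ} (hR : 1 ≤ R) {φ : ℝ → ℝ}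
    (hφ : Good R φ) : Tendsto (gg T φ) atTop (𝓝 (D * ∫ v in Set.Ioi (0 : ℝ), φ v)) := by
  obtain ⟨H, hH0, hH⟩ := hφ.bound
  obtain ⟨L, hL0, hL⟩ := hφ.lip
  have hvan : ∀ v, R + 1 ≤ v → φ v = 0 := fun v hv => hφ.van v (by linarith)
  -- partial sums
  have hA : ∀ ε : ℝ, 0 < ε → ∃ m₀ : ℕ, ∀ m : ℕ, |∑ k ∈ range m, (chi T k - D)| ≤ ε * m + m₀ := by
    intro ε hε
    have hD1 : |D| ≤ 1 := by
      have h0 : 0 ≤ D := ge_of_tendsto' hD fun u => (gg_ind_bd T u).1
      have h1 : D ≤ 1 := le_of_tendsto' hD fun u => (gg_ind_bd T u).2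
      rw [abs_of_nonneg h0]; exact h1
    have h1 := Metric.tendsto_atTop.1 hD ε hε
    obtain ⟨u₀, hu₀⟩ := h1
    obtain ⟨m₀, hm₀⟩ := exists_nat_gt (Real.exp u₀)
    refine ⟨2 * m₀ + 4, fun m => ?_⟩
    have htriv : |∑ k ∈ range m, (chi T k - D)| ≤ 2 * m := by
      refine (abs_sum_le_sum_abs _ _).trans ?_
      have : ∀ k ∈ range m, |chi T k - D| ≤ 2 := by
        intro k _
        have := abs_sub (a := chi T k) (b := D)
        have := chi_abs T k
        linarith
      refine (sum_le_sum this).trans ?_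
      rw [sum_const, card_range, nsmul_eq_mul, mul_comm]
    rcases le_or_gt m (m₀ + 1) with hm | hm
    · have : (m : ℝ) ≤ m₀ + 1 := by exact_mod_cast hm
      have h2 : 0 ≤ ε * m := by positivity
      push_cast
      linarith
    · obtain ⟨x, rfl⟩ : ∃ x : ℕ, m = x + 1 := ⟨m - 1, by omega⟩
      have hx : m₀ ≤ x := by omega
      have hxR : (m₀ : ℝ) ≤ x := by exact_mod_cast hx
      have hxpos : (0 : ℝ) < x := lt_of_lt_of_le ((Real.exp_pos u₀).trans hm₀) hxR
      have h2 := hu₀ (Real.log x) (by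
        rw [ge_iff_le, Real.le_log_iff_exp_le hxpos]
        linarith)
      rw [gg_ind, Real.exp_log hxpos, Real.exp_neg, Real.exp_log hxpos, Real.dist_eq] at h2
      have h3 : ∑ k ∈ range (x + 1), (chi T k - D) = cnt T x - D * x - D := by
        unfold cnt
        rw [Nat.floor_natCast, sum_sub_distrib, sum_const, card_range, nsmul_eq_mul]
        push_cast; ring
      rw [h3]
      have h4 : |cnt T x - D * x| ≤ ε * x := by
        have e : cnt T x - D * x = x * ((x : ℝ)⁻¹ * cnt T x - D) := by field_simp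
        rw [e, abs_mul, abs_of_pos hxpos, mul_comm]
        exact mul_le_mul_of_nonneg_right h2.le hxpos.le
      have h5 := abs_sub (a := cnt T x - D * x) (b := D)
      push_cast
      have h6 : (0 : ℝ) ≤ m₀ := Nat.cast_nonneg _
      linarith
  rw [Metric.tendsto_atTop]
  intro ε hε
  set Q : ℝ := (R + 2) * (H + (R + 2) * L) + 1 with hQ
  have hQ0 : 0 < Q := by positivity
  obtain ⟨m₀, hm₀⟩ := hA (ε / (4 * Q)) (by positivity)
  -- choice of the threshold
  have hexp : Tendsto (fun u : ℝ => Real.exp (-u)) atTop (𝓝 0) := Real.tendsto_exp_neg_atTop_nhds_zero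
  have hev : ∀ᶠ u : ℝ in atTop, Real.exp (-u) < ε / (4 * (((m₀ : ℝ) + 1) * Q + (R + 2) * L + 1)) :=
    hexp.eventually_lt_const (by positivity)
  obtain ⟨u₁, hu₁⟩ := eventually_atTop.1 (hev.and (eventually_ge_atTop 0))
  refine ⟨u₁, fun u hu => ?_⟩
  obtain ⟨hu1, hu0⟩ := hu₁ u hu
  set h : ℝ := Real.exp (-u) with hh
  have hhpos : 0 < h := Real.exp_pos _
  have hh1 : h ≤ 1 := by rw [hh]; exact Real.exp_le_one_iff.2 (by linarith)
  have hEh : Real.exp u * h = 1 := exp_mul_exp_neg u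
  set M : ℕ := ⌈(R + 1) * Real.exp u⌉₊ with hM
  have hM1 : (R + 1) * Real.exp u ≤ M := Nat.le_ceil _
  have hM2 : (M : ℝ) ≤ (R + 1) * Real.exp u + 1 := (Nat.ceil_lt_add_one (by positivity)).le
  have hMh1 : R + 1 ≤ M * h := by
    have := mul_le_mul_of_nonneg_right hM1 hhpos.le
    rwa [mul_assoc, hEh, mul_one] at this
  have hMh2 : M * h ≤ R + 1 + 1 := by
    have := mul_le_mul_of_nonneg_right hM2 hhpos.le
    have e : ((R + 1) * Real.exp u + 1) * h = (R + 1) * (Real.exp u * h) + h := by ring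
    rw [e, hEh] at this
    linarith
  have hr := riem (R := R + 1) (L := L) hφ.sm.continuous hvan hL0 hL hhpos hMh1 hMh2
  rw [gg_eq T hvan hM1, Real.dist_eq]
  set I : ℝ := ∫ v in Set.Ioi (0 : ℝ), φ v with hI
  have hsplit : h * ∑ n ∈ range M, chi T n * φ (n * h) - D * I
      = h * ∑ n ∈ range M, (chi T n - D) * φ (n * h) + D * (h * ∑ n ∈ range M, φ (n * h) - I) := by
    have : ∑ n ∈ range M, (chi T n - D) * φ (n * h) = ∑ n ∈ range M, chi T n * φ (n * h) - D * ∑ n ∈ range M, φ (n * h) := by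
      rw [mul_sum, ← sum_sub_distrib]
      apply sum_congr rfl
      intro n _; ring
    rw [this]; ring
  rw [hsplit]
  have hD1 : |D| ≤ 1 := by
    have h0 : 0 ≤ D := ge_of_tendsto' hD fun u => (gg_ind_bd T u).1
    have h1 : D ≤ 1 := le_of_tendsto' hD fun u => (gg_ind_bd T u).2
    rw [abs_of_nonneg h0]; exact h1
  -- first part
  have hab := abel_bound (w := fun n => chi T n - D) (h := fun n => φ (n * h)) (M := M) (W := ε / (4 * Q) * M + m₀) (by
    intro m hm
    refine (hm₀ m).trans ?_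
    have : (m : ℝ) ≤ M := by exact_mod_cast hm
    have h2 := mul_le_mul_of_nonneg_left this (show 0 ≤ ε / (4 * Q) by positivity)
    linarith)
  have hvar : |φ (M * h)| + ∑ m ∈ range M, |φ (((m + 1 : ℕ) : ℝ) * h) - φ (m * h)| ≤ H + (R + 2) * L := by
    have h2 : ∀ m ∈ range M, |φ (((m + 1 : ℕ) : ℝ) * h) - φ (m * h)| ≤ L * h := by
      intro m _
      refine (hL _ _).trans (mul_le_mul_of_nonneg_left (le_of_eq ?_) hL0)
      have : ((m + 1 : ℕ) : ℝ) * h - m * h = h := by push_cast; ring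
      rw [this, abs_of_pos hhpos]
    have h3 := sum_le_sum h2
    rw [sum_const, card_range, nsmul_eq_mul] at h3
    have h4 : (M : ℝ) * (L * h) ≤ (R + 2) * L := by
      calc (M : ℝ) * (L * h) = (M * h) * L := by ring
        _ ≤ (R + 1 + 1) * L := mul_le_mul_of_nonneg_right hMh2 hL0
        _ = (R + 2) * L := by ring
    have := hH (M * h)
    linarith
  have hm0R : (0 : ℝ) ≤ m₀ := Nat.cast_nonneg _
  have hfirst : |h * ∑ n ∈ range M, (chi T n - D) * φ (n * h)| ≤ ε / 4 + h * (m₀ * Q) := by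
    rw [abs_mul, abs_of_pos hhpos]
    have h2 := hab.trans (mul_le_mul_of_nonneg_left hvar (by positivity))
    have h3 := mul_le_mul_of_nonneg_left h2 hhpos.le
    refine h3.trans ?_
    have e : h * ((ε / (4 * Q) * M + m₀) * (H + (R + 2) * L))
        = ε / (4 * Q) * (M * h) * (H + (R + 2) * L) + h * (m₀ * (H + (R + 2) * L)) := by ring
    rw [e]
    have h4 : ε / (4 * Q) * (M * h) * (H + (R + 2) * L) ≤ ε / 4 := by
      have h5 : (M * h) * (H + (R + 2) * L) ≤ Q := by
        have := mul_le_mul_of_nonneg_right hMh2 (show 0 ≤ H + (R + 2) * L by positivity)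
        rw [hQ]; linarith
      calc ε / (4 * Q) * (M * h) * (H + (R + 2) * L) = ε / (4 * Q) * ((M * h) * (H + (R + 2) * L)) := by ring
        _ ≤ ε / (4 * Q) * Q := mul_le_mul_of_nonneg_left h5 (by positivity)
        _ = ε / 4 := by field_simp
    have h5 : H + (R + 2) * L ≤ Q := by
      rw [hQ]
      have : 0 ≤ H + (R + 2) * L := by positivity
      nlinarith
    have h6 : h * (m₀ * (H + (R + 2) * L)) ≤ h * (m₀ * Q) :=
      mul_le_mul_of_nonneg_left (mul_le_mul_of_nonneg_left h5 hm0R) hhpos.le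
    linarith
  have hsecond : |D * (h * ∑ n ∈ range M, φ (n * h) - I)| ≤ (R + 2) * L * h := by
    rw [abs_mul]
    have h2 := mul_le_mul hD1 hr (abs_nonneg _) (by norm_num)
    refine h2.trans (le_of_eq ?_)
    ring
  have hfin : h * (m₀ * Q) + (R + 2) * L * h < ε / 4 := by
    rw [lt_div_iff₀ (by positivity)] at hu1
    have e : h * (4 * (((m₀ : ℝ) + 1) * Q + (R + 2) * L + 1)) = 4 * (h * (m₀ * Q) + (R + 2) * L * h + h * Q + h) := by ring
    rw [e] at hu1
    have : 0 < h * Q := by positivity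
    linarith
  refine lt_of_le_of_lt (abs_add_le _ _) ?_
  linarith

/-- smooth weights: error smaller than any power of the logarithm -/
theorem wt_main {s : ℤ} (hs : s = 1 ∨ s = -1) {R : ℝ} (hR : 1 ≤ R) {φ : ℝ → ℝ} (hφ : Good R φ) : ∃ C : ℕ → ℝ,
    ∀ T : Set ℤ, Inv s T → ∀ D : ℝ, Tendsto (gg T ind) atTop (𝓝 D) → ∀ B : ℕ, ∀ w : ℝ, 1 ≤ w →
      |gg T φ w - D * ∫ v in Set.Ioi (0 : ℝ), φ v| ≤ C B / w ^ B := by
  obtain ⟨b, h, hb, hh, hg⟩ := hypS_gg hs hR hφ
  obtain ⟨C, hC, h1⟩ := limit hb hh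
  refine ⟨C, fun T hT D hD B w hw => ?_⟩
  obtain ⟨D', hD', h2⟩ := h1 _ (hg T hT)
  have h3 : Tendsto (gg T φ) atTop (𝓝 (D * ∫ v in Set.Ioi (0 : ℝ), φ v)) := gg_limit hD hR hφ
  have h4 : D' = D * ∫ v in Set.Ioi (0 : ℝ), φ v := tendsto_nhds_unique hD' h3
  rw [← h4]
  exact h2 B w hw

end Pool.Agent.K6.H38.ND
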