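import Pool.Agent.K6.H38.ND.Pre
import Pool.Agent.K6.H38.ND.Wt

/-! The counting function in residue classes modulo `2^j 3^m`. -/

set_option autoImplicit false

namespace Pool.Agent.K6.H38.ND

open Pool.Agent.H320R2.PD Pool.Agent.H499R2.ND Pool.Agent.H319R3.LV Finset Filter Topology

theorem three_two (j : ℕ) : (3 : ℝ) ^ j ≤ (2 ^ j) ^ 2 := by
  rw [← pow_mul, mul_comm, pow_mul]
  exact pow_le_pow_left₀ (by norm_num) (by norm_num) j

/-- the data of a residue class -/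
theorem equi_q (B : ℕ) {s : ℤ} (hs : s = 1 ∨ s = -1) : ∃ K : ℝ, 0 < K ∧ ∃ c : ℝ, 0 < c ∧ c ≤ 1 / 16 ∧
    ∀ T : Set ℤ, Inv s T → ∀ j m : ℕ, ∀ a : ℤ, ∃ o : ℕ, o ≤ j ∧ ∀ X : ℝ, 2 ≤ X → (2 ^ j * 3 ^ m : ℝ) ≤ X ^ c →
      |((wc T 1 X (2 ^ j * 3 ^ m) a).card : ℝ) - ((wc T 1 (3 ^ o / 2 ^ j * X) 1 0).card : ℝ) / 3 ^ (o + m)|
        ≤ K * (X / (2 ^ j * 3 ^ m)) / (Real.log X) ^ B := by
  obtain ⟨K, hK, c, hc, hc4, he⟩ := equi_three B (sodd hs) (scop hs)
  refine ⟨K * 2 ^ B + 8 * (4 ^ B * B.factorial) + 4 * 10 ^ B, by positivity, c / 4, by positivity, by linarith, ?_⟩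
  intro T hT j m a
  obtain ⟨o, hoj, hTd, hb⟩ := Td_prefix (sodd hs) a j
  refine ⟨o, hoj, ?_⟩
  intro X hX hq
  set q : ℝ := 2 ^ j * 3 ^ m with hqdef
  have hX0 : 0 < X := by linarith
  have h2j : (0 : ℝ) < 2 ^ j := by positivity
  have h2j1 : (1 : ℝ) ≤ 2 ^ j := one_le_pow₀ (by norm_num)
  have h3m1 : (1 : ℝ) ≤ 3 ^ m := one_le_pow₀ (by norm_num)
  have h3o1 : (1 : ℝ) ≤ 3 ^ o := one_le_pow₀ (by norm_num)
  have hq1 : 1 ≤ q := by rw [hqdef]; nlinarith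
  have hq0 : 0 < q := by linarith
  have h3om : (0 : ℝ) < 3 ^ (o + m) := by positivity
  set ρ : ℝ := 3 ^ o / 2 ^ j with hρ
  have hρ0 : 0 < ρ := by positivity
  have hratio : ρ * X / 3 ^ (o + m) = X / q := by
    rw [hρ, hqdef, pow_add]; field_simp
  have hρ3 : ρ ≤ 3 ^ o := div_le_self (by positivity) h2j1
  have hlX : 0 < Real.log X := Real.log_pos (by linarith)
  have hlXB : 0 < (Real.log X) ^ B := by positivity
  have hqX : q ≤ X ^ (1 / 16 : ℝ) := hq.trans (Real.rpow_le_rpow_of_exponent_le (by linarith) (by linarith))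
  have hX1 : 1 ≤ X := by linarith
  have hqX' : q ≤ X := hqX.trans (by
    calc X ^ (1 / 16 : ℝ) ≤ X ^ (1 : ℝ) := Real.rpow_le_rpow_of_exponent_le hX1 (by norm_num)
      _ = X := Real.rpow_one X)
  have hqZ : (0 : ℤ) < 2 ^ j * 3 ^ m := by positivity
  have hqc : (((2 ^ j * 3 ^ m : ℤ)) : ℝ) = q := by rw [hqdef]; push_cast; ring
  have hone : 1 ≤ X / q := by rw [le_div_iff₀ hq0]; linarith
  rcases lt_or_ge (Real.log X) 10 with hsm | hl
  · -- small X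
    have h1 := wc_card_le T (a := 1) (b := X) (by linarith) hqZ a
    rw [hqc] at h1
    have h2 : (X - 1) / q ≤ X / q := div_le_div_of_nonneg_right (by linarith) hq0.le
    have h3 : ((wc T 1 (ρ * X) 1 0).card : ℝ) ≤ ρ * X + 1 := by
      have := wc_short T (a := 1) (b := ρ * X) (l := ρ * X) (by linarith) (by positivity) (q := 1) one_pos 0
      simpa using this
    have h4 : ((wc T 1 (ρ * X) 1 0).card : ℝ) / 3 ^ (o + m) ≤ X / q + 1 := by
      rw [← hratio]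
      have : ((wc T 1 (ρ * X) 1 0).card : ℝ) / 3 ^ (o + m) ≤ (ρ * X + 1) / 3 ^ (o + m) := div_le_div_of_nonneg_right h3 h3om.le
      refine this.trans ?_
      rw [add_div]
      have h5 : 1 / (3 : ℝ) ^ (o + m) ≤ 1 := by
        rw [div_le_one h3om]; exact one_le_pow₀ (by norm_num)
      linarith
    have h5 : (0 : ℝ) ≤ (wc T 1 X (2 ^ j * 3 ^ m) a).card := Nat.cast_nonneg _
    have h6 : 0 ≤ ((wc T 1 (ρ * X) 1 0).card : ℝ) / 3 ^ (o + m) := by positivity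
    have h7 : 2 * (X / q) ≤ (K * 2 ^ B + 8 * (4 ^ B * B.factorial) + 4 * 10 ^ B) * (X / q) / (Real.log X) ^ B := by
      rw [le_div_iff₀ hlXB]
      have h8 : (Real.log X) ^ B ≤ 10 ^ B := pow_le_pow_left₀ hlX.le hsm.le B
      have h9 : 2 * (Real.log X) ^ B ≤ K * 2 ^ B + 8 * (4 ^ B * B.factorial) + 4 * 10 ^ B := by
        have : 0 ≤ K * 2 ^ B + 8 * (4 ^ B * (B.factorial : ℝ)) := by positivity
        have : (0 : ℝ) < 10 ^ B := by positivity
        linarith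
      calc 2 * (X / q) * (Real.log X) ^ B = 2 * (Real.log X) ^ B * (X / q) := by ring
        _ ≤ _ := mul_le_mul_of_nonneg_right h9 (by positivity)
    rw [abs_le]; constructor <;> linarith
  · -- large X
    have hX16 : (0 : ℝ) < X ^ (1 / 16 : ℝ) := Real.rpow_pos_of_pos hX0 _
    have hρX : X ^ (1 / 2 : ℝ) ≤ ρ * X := by
      have h1 : (2 : ℝ) ^ j ≤ X ^ (1 / 2 : ℝ) := by
        have : (2 : ℝ) ^ j ≤ q := by rw [hqdef]; exact le_mul_of_one_le_right h2j.le h3m1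
        refine (this.trans hqX).trans (Real.rpow_le_rpow_of_exponent_le hX1 (by norm_num))
      have e : X = X ^ (1 / 2 : ℝ) * X ^ (1 / 2 : ℝ) := by rw [← Real.rpow_add hX0]; norm_num
      rw [hρ, div_mul_eq_mul_div, le_div_iff₀ h2j]
      calc X ^ (1 / 2 : ℝ) * 2 ^ j ≤ X ^ (1 / 2 : ℝ) * X ^ (1 / 2 : ℝ) := mul_le_mul_of_nonneg_left h1 (by positivity)
        _ = X := e.symm
        _ ≤ 3 ^ o * X := le_mul_of_one_le_left hX0.le h3o1
    have hlρ : Real.log X / 2 ≤ Real.log (ρ * X) := by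
      have := Real.log_le_log (by positivity) hρX
      rw [Real.log_rpow hX0] at this
      linarith
    have hρ2 : 2 ≤ ρ * X := by
      have h1 : 5 ≤ Real.log (ρ * X) := by linarith
      have h2 : Real.exp 5 ≤ ρ * X := by
        rw [← Real.exp_log (show 0 < ρ * X by positivity)]
        exact Real.exp_le_exp.2 h1
      have := Real.add_one_le_exp (5 : ℝ)
      linarith
    have h3omc : (3 : ℝ) ^ (o + m) ≤ (ρ * X) ^ c := by
      have h1 : (3 : ℝ) ^ (o + m) ≤ q ^ 2 := by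
        rw [pow_add, hqdef, mul_pow]
        apply mul_le_mul _ _ (by positivity) (by positivity)
        · exact (pow_le_pow_right₀ (by norm_num) hoj).trans (three_two j)
        · exact le_self_pow₀ h3m1 (by norm_num)
      have h2 : q ^ 2 ≤ (X ^ (c / 4)) ^ 2 := pow_le_pow_left₀ hq0.le hq 2
      have h3 : (X ^ (c / 4)) ^ 2 = X ^ (c / 2) := by
        rw [← Real.rpow_natCast, ← Real.rpow_mul hX0.le]; congr 1; push_cast; ring
      have h4 : X ^ (c / 2) = (X ^ (1 / 2 : ℝ)) ^ c := by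
        rw [← Real.rpow_mul hX0.le]; congr 1; ring
      have h5 : (X ^ (1 / 2 : ℝ)) ^ c ≤ (ρ * X) ^ c := Real.rpow_le_rpow (by positivity) hρX hc.le
      linarith
    have h1 := he T hT (ρ * X) hρ2 (o + m) h3omc ((Td s)^[j] a)
    have h2 := prefix_gen hT 1 X m hTd
    rw [← hρ] at h2
    set y : ℤ := (Td s)^[j] a with hy
    have hs1 := sabs hs
    rw [hs1, one_mul] at hb
    have h3 := wc_ends T (ρ * 1 + ((y : ℝ) - ρ * a)) (ρ * X + ((y : ℝ) - ρ * a)) 1 (ρ * X) (3 * 3 ^ o) (by positivity)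
      (by
        have e : ρ * 1 + ((y : ℝ) - ρ * a) - 1 = ((y : ℝ) - ρ * a) + (ρ - 1) := by ring
        rw [e]
        refine (abs_add_le _ _).trans ?_
        have : |ρ - 1| ≤ 3 ^ o := by
          rw [abs_le]; constructor <;> linarith
        linarith)
      (by
        have e : ρ * X + ((y : ℝ) - ρ * a) - ρ * X = (y : ℝ) - ρ * a := by ring
        rw [e]; linarith) (q := 3 ^ (o + m)) (by positivity) y
    have e2 : ((wc T 1 X (2 ^ j * 3 ^ m) a).card : ℝ)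
        = (wc T (ρ * 1 + ((y : ℝ) - ρ * a)) (ρ * X + ((y : ℝ) - ρ * a)) (3 ^ (o + m)) y).card := by
      rw [h2]
    rw [← e2] at h3
    have h4 : 2 * (3 * (3 : ℝ) ^ o / (((3 : ℤ) ^ (o + m) : ℤ) : ℝ) + 1) ≤ 8 := by
      have : 3 * (3 : ℝ) ^ o / (((3 : ℤ) ^ (o + m) : ℤ) : ℝ) ≤ 3 := by
        push_cast
        rw [div_le_iff₀ h3om, pow_add]
        have : (3 : ℝ) ^ o ≤ 3 ^ o * 3 ^ m := le_mul_of_one_le_right (by positivity) h3m1
        linarith
      linarith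
    rw [hratio] at h1
    have h5 : K * (X / q) / (Real.log (ρ * X)) ^ B ≤ K * 2 ^ B * (X / q) / (Real.log X) ^ B := by
      rw [div_le_div_iff₀ (pow_pos (by linarith) B) hlXB]
      have h6 : (Real.log X) ^ B ≤ 2 ^ B * (Real.log (ρ * X)) ^ B := by
        rw [← mul_pow]
        apply pow_le_pow_left₀ hlX.le
        linarith
      calc K * (X / q) * (Real.log X) ^ B ≤ K * (X / q) * (2 ^ B * (Real.log (ρ * X)) ^ B) :=
            mul_le_mul_of_nonneg_left h6 (by positivity)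
        _ = _ := by ring
    have h6 : 8 ≤ 8 * (4 ^ B * B.factorial) * (X / q) / (Real.log X) ^ B := by
      rw [le_div_iff₀ hlXB]
      have h7 := log_pow_le B hX1
      have h8 : X ^ (1 / 4 : ℝ) ≤ X / q := by
        rw [le_div_iff₀ hq0]
        calc X ^ (1 / 4 : ℝ) * q ≤ X ^ (1 / 4 : ℝ) * X ^ (1 / 16 : ℝ) := mul_le_mul_of_nonneg_left hqX (by positivity)
          _ = X ^ (1 / 4 + 1 / 16 : ℝ) := by rw [← Real.rpow_add hX0]
          _ ≤ X ^ (1 : ℝ) := Real.rpow_le_rpow_of_exponent_le hX1 (by norm_num)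
          _ = X := Real.rpow_one X
      have h9 := mul_le_mul_of_nonneg_left h8 (show (0 : ℝ) ≤ 4 ^ B * B.factorial by positivity)
      linarith
    have e : (K * 2 ^ B + 8 * (4 ^ B * B.factorial) + 4 * 10 ^ B) * (X / q) / (Real.log X) ^ B
        = K * 2 ^ B * (X / q) / (Real.log X) ^ B + 8 * (4 ^ B * B.factorial) * (X / q) / (Real.log X) ^ B
          + 4 * 10 ^ B * (X / q) / (Real.log X) ^ B := by ring
    rw [e]
    have h7 : 0 ≤ 4 * 10 ^ B * (X / q) / (Real.log X) ^ B := by positivity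
    have h8 := abs_sub_le ((wc T 1 X (2 ^ j * 3 ^ m) a).card : ℝ) ((wc T 1 (ρ * X) (3 ^ (o + m)) y).card : ℝ)
      (((wc T 1 (ρ * X) 1 0).card : ℝ) / 3 ^ (o + m))
    linarith

/-- relation of the counting functions -/
theorem wc_cnt (T : Set ℤ) (Y : ℝ) : |((wc T 1 Y 1 0).card : ℝ) - cnt T Y| ≤ 1 := by
  have h1 : wc T 1 Y 1 0 = wc T 1 (⌈Y⌉₊ : ℝ) 1 0 := by
    ext x
    rw [mem_wc, mem_wc]
    constructor
    · rintro ⟨⟨h1, h2⟩, h3⟩
      exact ⟨⟨h1, h2.trans_le (Nat.le_ceil Y)⟩, h3⟩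
    · rintro ⟨⟨h1, h2⟩, h3⟩
      refine ⟨⟨h1, ?_⟩, h3⟩
      have hx1 : 1 ≤ x := by exact_mod_cast h1
      have hx2 : x.toNat < ⌈Y⌉₊ := by
        have : x < (⌈Y⌉₊ : ℤ) := by exact_mod_cast h2
        omega
      have h4 := Nat.lt_ceil.1 hx2
      have h5 : ((x.toNat : ℕ) : ℝ) = x := by
        have : ((x.toNat : ℕ) : ℤ) = x := Int.toNat_of_nonneg (by omega)
        exact_mod_cast this
      rwa [h5] at h4
  rw [h1, wc_count]
  unfold cnt
  have h2 : ⌈Y⌉₊ ≤ ⌊Y⌋₊ + 1 := Nat.ceil_le_floor_add_one Y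
  have h3 : ⌊Y⌋₊ ≤ ⌈Y⌉₊ := Nat.floor_le_ceil Y
  have h4 : ⌈Y⌉₊ = ⌊Y⌋₊ ∨ ⌈Y⌉₊ = ⌊Y⌋₊ + 1 := by omega
  rcases h4 with h4 | h4
  · rw [h4, sum_range_succ]
    have := chi_abs T ⌊Y⌋₊
    rw [show ∑ m ∈ range ⌊Y⌋₊, chi T m - (∑ m ∈ range ⌊Y⌋₊, chi T m + chi T ⌊Y⌋₊) = -chi T ⌊Y⌋₊ by ring, abs_neg]
    exact this
  · rw [h4, sub_self, abs_zero]; norm_num

/-- the counting function in residue classes -/
theorem sharp_q {s : ℤ} (hs : s = 1 ∨ s = -1) : ∃ K : ℝ, 0 < K ∧ ∃ c : ℝ, 0 < c ∧ c ≤ 1 / 16 ∧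
    ∀ T : Set ℤ, Inv s T → ∀ D : ℝ, Tendsto (gg T ind) atTop (𝓝 D) →
    ∀ X : ℝ, 2 ≤ X → ∀ j m : ℕ, (2 ^ j * 3 ^ m : ℝ) ≤ X ^ c → ∀ a : ℤ,
      |((wc T 1 X (2 ^ j * 3 ^ m) a).card : ℝ) - D * (X / (2 ^ j * 3 ^ m))|
        ≤ K * (X / (2 ^ j * 3 ^ m)) / (Real.log X) ^ (1 / 34 : ℝ) := by
  obtain ⟨K, hK, c, hc, hc16, he⟩ := equi_q 1 hs
  obtain ⟨C, hC, hr⟩ := cnt_rate hs
  refine ⟨K * 10 + 2 * C + 2 + 30, by positivity, c, hc, hc16, ?_⟩
  intro T hT D hD X hX j m hq a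
  obtain ⟨D', hD0, hD1, hD', hrate⟩ := hr T hT
  have hDD : D = D' := tendsto_nhds_unique hD hD'
  rw [← hDD] at hD0 hD1 hrate
  obtain ⟨o, hoj, h1⟩ := he T hT j m a
  have h1 := h1 X hX hq
  set q : ℝ := 2 ^ j * 3 ^ m with hqdef
  have hX0 : 0 < X := by linarith
  have h2j : (0 : ℝ) < 2 ^ j := by positivity
  have h2j1 : (1 : ℝ) ≤ 2 ^ j := one_le_pow₀ (by norm_num)
  have h3m1 : (1 : ℝ) ≤ 3 ^ m := one_le_pow₀ (by norm_num)
  have h3o1 : (1 : ℝ) ≤ 3 ^ o := one_le_pow₀ (by norm_num)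
  have hq1 : 1 ≤ q := by rw [hqdef]; nlinarith
  have hq0 : 0 < q := by linarith
  have h3om : (0 : ℝ) < 3 ^ (o + m) := by positivity
  have h3om1 : (1 : ℝ) ≤ 3 ^ (o + m) := one_le_pow₀ (by norm_num)
  set ρ : ℝ := 3 ^ o / 2 ^ j with hρ
  have hρ0 : 0 < ρ := by positivity
  have hratio : ρ * X / 3 ^ (o + m) = X / q := by
    rw [hρ, hqdef, pow_add]; field_simp
  have hlX : 0 < Real.log X := Real.log_pos (by linarith)
  have hlp : 0 < (Real.log X) ^ (1 / 34 : ℝ) := Real.rpow_pos_of_pos hlX _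
  have hX1 : 1 ≤ X := by linarith
  have hqX : q ≤ X ^ (1 / 16 : ℝ) := hq.trans (Real.rpow_le_rpow_of_exponent_le hX1 (by linarith))
  have hqX' : q ≤ X := hqX.trans (by
    calc X ^ (1 / 16 : ℝ) ≤ X ^ (1 : ℝ) := Real.rpow_le_rpow_of_exponent_le hX1 (by norm_num)
      _ = X := Real.rpow_one X)
  have hone : 1 ≤ X / q := by rw [le_div_iff₀ hq0]; linarith
  have hqZ : (0 : ℤ) < 2 ^ j * 3 ^ m := by positivity
  have hqc : (((2 ^ j * 3 ^ m : ℤ)) : ℝ) = q := by rw [hqdef]; push_cast; ring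
  have hKtot : ∀ z : ℝ, 0 ≤ z → z ≤ K * 10 + 2 * C + 2 + 30 → z * (X / q) / (Real.log X) ^ (1 / 34 : ℝ)
      ≤ (K * 10 + 2 * C + 2 + 30) * (X / q) / (Real.log X) ^ (1 / 34 : ℝ) := by
    intro z _ hz
    apply div_le_div_of_nonneg_right _ hlp.le
    exact mul_le_mul_of_nonneg_right hz (by positivity)
  rcases lt_or_ge (Real.log X) 10 with hsm | hl
  · have h2 := wc_card_le T (a := 1) (b := X) (by linarith) hqZ a
    rw [hqc] at h2
    have h3 : (X - 1) / q ≤ X / q := div_le_div_of_nonneg_right (by linarith) hq0.le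
    have h5 : (0 : ℝ) ≤ (wc T 1 X (2 ^ j * 3 ^ m) a).card := Nat.cast_nonneg _
    have h6 : D * (X / q) ≤ X / q := mul_le_of_le_one_left (by positivity) hD1
    have h7 : 0 ≤ D * (X / q) := by positivity
    have h8 : (Real.log X) ^ (1 / 34 : ℝ) ≤ 10 := by
      have h9 : (Real.log X) ^ (1 / 34 : ℝ) ≤ (10 : ℝ) ^ (1 / 34 : ℝ) := Real.rpow_le_rpow hlX.le hsm.le (by norm_num)
      have h10 : (10 : ℝ) ^ (1 / 34 : ℝ) ≤ (10 : ℝ) ^ (1 : ℝ) := Real.rpow_le_rpow_of_exponent_le (by norm_num) (by norm_num)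
      rw [Real.rpow_one] at h10
      linarith
    have h9 : 2 * (X / q) ≤ 20 * (X / q) / (Real.log X) ^ (1 / 34 : ℝ) := by
      rw [le_div_iff₀ hlp]
      nlinarith
    refine le_trans ?_ (hKtot 20 (by norm_num) (by linarith))
    refine le_trans ?_ h9
    rw [abs_le]; constructor <;> linarith
  · have hρX : X ^ (1 / 2 : ℝ) ≤ ρ * X := by
      have h1 : (2 : ℝ) ^ j ≤ X ^ (1 / 2 : ℝ) := by
        have : (2 : ℝ) ^ j ≤ q := by rw [hqdef]; exact le_mul_of_one_le_right h2j.le h3m1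
        refine (this.trans hqX).trans (Real.rpow_le_rpow_of_exponent_le hX1 (by norm_num))
      have e : X = X ^ (1 / 2 : ℝ) * X ^ (1 / 2 : ℝ) := by rw [← Real.rpow_add hX0]; norm_num
      rw [hρ, div_mul_eq_mul_div, le_div_iff₀ h2j]
      calc X ^ (1 / 2 : ℝ) * 2 ^ j ≤ X ^ (1 / 2 : ℝ) * X ^ (1 / 2 : ℝ) := mul_le_mul_of_nonneg_left h1 (by positivity)
        _ = X := e.symm
        _ ≤ 3 ^ o * X := le_mul_of_one_le_left hX0.le h3o1
    have hlρ : Real.log X / 2 ≤ Real.log (ρ * X) := by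
      have := Real.log_le_log (by positivity) hρX
      rw [Real.log_rpow hX0] at this
      linarith
    have hρ2 : 2 ≤ ρ * X := by
      have h1 : 5 ≤ Real.log (ρ * X) := by linarith
      have h2 : Real.exp 5 ≤ ρ * X := by
        rw [← Real.exp_log (show 0 < ρ * X by positivity)]
        exact Real.exp_le_exp.2 h1
      have := Real.add_one_le_exp (5 : ℝ)
      linarith
    have h2 := hrate (ρ * X) hρ2
    have h3 := wc_cnt T (ρ * X)
    -- the rate at ρ X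
    have h4 : C * (ρ * X) / (Real.log (ρ * X)) ^ (1 / 34 : ℝ) ≤ 2 * C * (ρ * X) / (Real.log X) ^ (1 / 34 : ℝ) := by
      have h5 : (Real.log X) ^ (1 / 34 : ℝ) ≤ 2 * (Real.log (ρ * X)) ^ (1 / 34 : ℝ) := by
        have h6 : (Real.log X) ^ (1 / 34 : ℝ) ≤ (2 * Real.log (ρ * X)) ^ (1 / 34 : ℝ) :=
          Real.rpow_le_rpow hlX.le (by linarith) (by norm_num)
        rw [Real.mul_rpow (by norm_num) (by linarith)] at h6
        have h7 : (2 : ℝ) ^ (1 / 34 : ℝ) ≤ 2 := by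
          calc (2 : ℝ) ^ (1 / 34 : ℝ) ≤ (2 : ℝ) ^ (1 : ℝ) := Real.rpow_le_rpow_of_exponent_le (by norm_num) (by norm_num)
            _ = 2 := Real.rpow_one 2
        refine h6.trans (mul_le_mul_of_nonneg_right h7 ?_)
        exact Real.rpow_nonneg (by linarith) _
      rw [div_le_div_iff₀ (Real.rpow_pos_of_pos (by linarith) _) hlp]
      calc C * (ρ * X) * (Real.log X) ^ (1 / 34 : ℝ) ≤ C * (ρ * X) * (2 * (Real.log (ρ * X)) ^ (1 / 34 : ℝ)) :=
            mul_le_mul_of_nonneg_left h5 (by positivity)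
        _ = _ := by ring
    have h5 : |((wc T 1 (ρ * X) 1 0).card : ℝ) - D * (ρ * X)| ≤ 1 + 2 * C * (ρ * X) / (Real.log X) ^ (1 / 34 : ℝ) := by
      have := abs_sub_le ((wc T 1 (ρ * X) 1 0).card : ℝ) (cnt T (ρ * X)) (D * (ρ * X))
      linarith
    have h6 : |((wc T 1 (ρ * X) 1 0).card : ℝ) / 3 ^ (o + m) - D * (X / q)| ≤ 1 + 2 * C * (X / q) / (Real.log X) ^ (1 / 34 : ℝ) := by
      have e : ((wc T 1 (ρ * X) 1 0).card : ℝ) / 3 ^ (o + m) - D * (X / q)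
          = (((wc T 1 (ρ * X) 1 0).card : ℝ) - D * (ρ * X)) / 3 ^ (o + m) := by
        rw [← hratio]; ring
      rw [e, abs_div, abs_of_pos h3om]
      have h7 := div_le_div_of_nonneg_right h5 h3om.le
      refine h7.trans ?_
      rw [add_div]
      have h8 : 1 / (3 : ℝ) ^ (o + m) ≤ 1 := by rw [div_le_one h3om]; exact h3om1
      have h9 : 2 * C * (ρ * X) / (Real.log X) ^ (1 / 34 : ℝ) / 3 ^ (o + m) = 2 * C * (X / q) / (Real.log X) ^ (1 / 34 : ℝ) := by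
        rw [← hratio]; ring
      rw [h9]; linarith
    -- comparison of the errors
    have hlog34 : (Real.log X) ^ (1 / 34 : ℝ) ≤ Real.log X := by
      calc (Real.log X) ^ (1 / 34 : ℝ) ≤ (Real.log X) ^ (1 : ℝ) := Real.rpow_le_rpow_of_exponent_le (by linarith) (by norm_num)
        _ = Real.log X := Real.rpow_one _
    have h7 : K * (X / q) / (Real.log X) ^ 1 ≤ K * 10 * (X / q) / (Real.log X) ^ (1 / 34 : ℝ) := by
      rw [pow_one, div_le_div_iff₀ hlX hlp]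
      have h0 : 0 ≤ K * (X / q) := by positivity
      calc K * (X / q) * (Real.log X) ^ (1 / 34 : ℝ) ≤ K * (X / q) * Real.log X := mul_le_mul_of_nonneg_left hlog34 h0
        _ ≤ K * 10 * (X / q) * Real.log X := by nlinarith
    have h8 : 1 ≤ 30 * (X / q) / (Real.log X) ^ (1 / 34 : ℝ) := by
      rw [le_div_iff₀ hlp, one_mul]
      have h9 : Real.log X ≤ 4 * X ^ (1 / 4 : ℝ) := by
        have := log_pow_le 1 hX1
        simpa using this
      have h10 : X ^ (1 / 4 : ℝ) ≤ X / q := by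
        rw [le_div_iff₀ hq0]
        calc X ^ (1 / 4 : ℝ) * q ≤ X ^ (1 / 4 : ℝ) * X ^ (1 / 16 : ℝ) := mul_le_mul_of_nonneg_left hqX (by positivity)
          _ = X ^ (1 / 4 + 1 / 16 : ℝ) := by rw [← Real.rpow_add hX0]
          _ ≤ X ^ (1 : ℝ) := Real.rpow_le_rpow_of_exponent_le hX1 (by norm_num)
          _ = X := Real.rpow_one X
      linarith
    have h9 := abs_sub_le ((wc T 1 X (2 ^ j * 3 ^ m) a).card : ℝ) (((wc T 1 (ρ * X) 1 0).card : ℝ) / 3 ^ (o + m)) (D * (X / q))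
    have e : (K * 10 + 2 * C + 2 + 30) * (X / q) / (Real.log X) ^ (1 / 34 : ℝ)
        = K * 10 * (X / q) / (Real.log X) ^ (1 / 34 : ℝ) + 2 * C * (X / q) / (Real.log X) ^ (1 / 34 : ℝ)
          + 2 * (X / q) / (Real.log X) ^ (1 / 34 : ℝ) + 30 * (X / q) / (Real.log X) ^ (1 / 34 : ℝ) := by ring
    rw [e]
    have h10 : 0 ≤ 2 * (X / q) / (Real.log X) ^ (1 / 34 : ℝ) := by positivity
    linarith

end Pool.Agent.K6.H38.ND
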