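import Pool.Agent.K6.H38.ND.Mer
import Pool.Agent.K6.H38.ND.Prog
import Pool.Agent.TH237.RT.Dens

/-! Logarithmic sums over invariant sets. -/

set_option autoImplicit false

namespace Pool.Agent.K6.H38.ND

open Pool.Agent.H499R2.ND Pool.Agent.H320R2.PD Pool.Agent.H319R3.LV Finset Filter Topology ContDiff MeasureTheory

theorem G_cnt (T : Set ℤ) (X : ℝ) : |G T X - cnt T X| ≤ 1 := by
  have h1 : G T X = ((wc T 1 X 1 0).card : ℝ) := by
    unfold G
    congr 2
    ext x
    rw [mem_pos, mem_wc]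
    constructor
    · rintro ⟨⟨h1, h2⟩, h3⟩
      exact ⟨⟨by exact_mod_cast h1, h2⟩, h3, one_dvd _⟩
    · rintro ⟨⟨h1, h2⟩, h3, _⟩
      exact ⟨⟨by exact_mod_cast h1, h2⟩, h3⟩
  rw [h1]
  exact wc_cnt T X

theorem log_le_of {x : ℝ} (hx : 2 ≤ x) : (Real.log x) ^ (1 / 30 : ℝ) ≤ x := by
  have hx0 : 0 < x := by linarith
  have h1 : Real.log x ≤ x := (Real.log_le_sub_one_of_pos hx0).trans (by linarith)
  have h2 : 0 ≤ Real.log x := Real.log_nonneg (by linarith)
  calc (Real.log x) ^ (1 / 30 : ℝ) ≤ x ^ (1 / 30 : ℝ) := Real.rpow_le_rpow h2 h1 (by norm_num)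
    _ ≤ x ^ (1 : ℝ) := Real.rpow_le_rpow_of_exponent_le (by linarith) (by norm_num)
    _ = x := Real.rpow_one x

/-- the rate of the starting library -/
theorem rate30 {s : ℤ} (hs : s = 1 ∨ s = -1) : ∃ C : ℝ, 0 < C ∧ ∀ T : Set ℤ, Inv s T → ∀ D : ℝ,
    Tendsto (gg T ind) atTop (𝓝 D) → ∀ x : ℝ, 2 ≤ x → |cnt T x - D * x| ≤ C * x / (Real.log x) ^ (1 / 30 : ℝ) := by
  obtain ⟨C, hC, h⟩ := Pool.Agent.TH237.RT.density_rate (sodd hs) (scop hs)
  refine ⟨C + 1, by positivity, fun T hT D hD => ?_⟩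
  obtain ⟨δ, _, _, h1, h2⟩ := h T hT
  have h3 : Tendsto (fun u : ℝ => G T (Real.exp u) / Real.exp u) atTop (𝓝 δ) := h1.comp Real.tendsto_exp_atTop
  have h4 : Tendsto (fun u : ℝ => gg T ind u - G T (Real.exp u) / Real.exp u) atTop (𝓝 0) := by
    apply squeeze_zero_norm (a := fun u => Real.exp (-u))
    · intro u
      rw [gg_ind, Real.norm_eq_abs]
      have e : Real.exp (-u) * cnt T (Real.exp u) - G T (Real.exp u) / Real.exp u
          = -(Real.exp (-u) * (G T (Real.exp u) - cnt T (Real.exp u))) := by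
        rw [Real.exp_neg]; field_simp; ring
      rw [e, abs_neg, abs_mul, abs_of_pos (Real.exp_pos _)]
      have := mul_le_mul_of_nonneg_left (G_cnt T (Real.exp u)) (Real.exp_pos (-u)).le
      linarith
    · exact Real.tendsto_exp_neg_atTop_nhds_zero
  have h5 : D - δ = 0 := tendsto_nhds_unique (hD.sub h3) h4
  have h6 : δ = D := by linarith
  subst h6
  intro x hx
  have hx0 : 0 < x := by linarith
  have hl : 0 < Real.log x := Real.log_pos (by linarith)
  have hlp : 0 < (Real.log x) ^ (1 / 30 : ℝ) := Real.rpow_pos_of_pos hl _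
  have h7 := h2 x hx
  have h8 := G_cnt T x
  have h9 : (1 : ℝ) ≤ x / (Real.log x) ^ (1 / 30 : ℝ) := by
    rw [le_div_iff₀ hlp, one_mul]; exact log_le_of hx
  have e : cnt T x - δ * x = (G T x - δ * x) - (G T x - cnt T x) := by ring
  rw [e]
  refine (abs_sub _ _).trans ?_
  have e2 : (C + 1) * x / (Real.log x) ^ (1 / 30 : ℝ) = C * x / (Real.log x) ^ (1 / 30 : ℝ) + x / (Real.log x) ^ (1 / 30 : ℝ) := by ring
  rw [e2]; linarith

/-- logarithmic sum -/
noncomputable def LL (T : Set ℤ) (x : ℝ) : ℝ := ∑ n ∈ Icc 0 ⌊x⌋₊, chi T n / n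

theorem cnt_Icc (T : Set ℤ) (x : ℝ) : cnt T x = ∑ n ∈ Icc 0 ⌊x⌋₊, chi T n := by
  unfold cnt
  rw [Nat.range_succ_eq_Icc_zero]

theorem inv_univ (s : ℤ) : Inv s Set.univ := fun x => by simp

theorem chi_univ {n : ℕ} (hn : 1 ≤ n) : chi Set.univ n = 1 := by unfold chi; simp [hn]

theorem cnt_univ {x : ℝ} : cnt Set.univ x = ⌊x⌋₊ := by
  unfold cnt
  rw [sum_range_succ', chi_zero, add_zero]
  rw [sum_congr rfl (fun n _ => chi_univ (Nat.succ_le_succ (Nat.zero_le n)))]
  simp

theorem dens_univ : Tendsto (gg Set.univ ind) atTop (𝓝 1) := by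
  have h1 : Tendsto (fun u : ℝ => 1 - Real.exp (-u)) atTop (𝓝 1) := by
    have := tendsto_const_nhds (x := (1 : ℝ)) (f := atTop (α := ℝ)) |>.sub Real.tendsto_exp_neg_atTop_nhds_zero
    rwa [sub_zero] at this
  refine tendsto_of_tendsto_of_tendsto_of_le_of_le h1 tendsto_const_nhds ?_ ?_
  · intro u
    rw [gg_ind, cnt_univ]
    simp only
    have h2 : Real.exp u - 1 ≤ (⌊Real.exp u⌋₊ : ℝ) := by
      have := Nat.lt_floor_add_one (Real.exp u)
      linarith
    have h3 := mul_le_mul_of_nonneg_left h2 (Real.exp_pos (-u)).le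
    have h4 : Real.exp (-u) * (Real.exp u - 1) = 1 - Real.exp (-u) := by
      have := exp_mul_exp_neg u
      linarith
    linarith
  · intro u
    exact (gg_ind_bd _ u).2

/-- harmonic sums -/
theorem LL_univ {x : ℝ} (hx : 1 ≤ x) : |LL Set.univ x - Real.log x - Real.eulerMascheroniConstant| ≤ 2 / x := by
  have hx0 : 0 < x := by linarith
  set n : ℕ := ⌊x⌋₊ with hn
  have hn1 : 1 ≤ n := Nat.le_floor (by exact_mod_cast hx)
  have hn0 : (0 : ℝ) < n := by exact_mod_cast hn1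
  have h1 : LL Set.univ x = (harmonic n : ℝ) := by
    unfold LL harmonic
    rw [← hn, ← Nat.range_succ_eq_Icc_zero, sum_range_succ', chi_zero, zero_div, add_zero]
    push_cast
    apply sum_congr rfl
    intro i _
    rw [chi_univ (by omega)]
    rw [one_div]
  rw [h1]
  have h2 := Real.eulerMascheroniSeq_lt_eulerMascheroniConstant n
  have h3 := Real.eulerMascheroniConstant_lt_eulerMascheroniSeq' n
  unfold Real.eulerMascheroniSeq at h2
  unfold Real.eulerMascheroniSeq' at h3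
  rw [if_neg (by omega)] at h3
  have hnx : (n : ℝ) ≤ x := Nat.floor_le hx0.le
  have hxn : x < n + 1 := Nat.lt_floor_add_one x
  have hn1' : (1 : ℝ) ≤ n := by exact_mod_cast hn1
  have h4 : Real.log (n + 1) - Real.log x ≤ 1 / x := by
    rw [← Real.log_div (by positivity) hx0.ne']
    refine (Real.log_le_sub_one_of_pos (by positivity)).trans ?_
    rw [div_sub_one hx0.ne']
    gcongr
    linarith
  have h5 : Real.log x - Real.log n ≤ 2 / x := by
    rw [← Real.log_div hx0.ne' hn0.ne']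
    refine (Real.log_le_sub_one_of_pos (by positivity)).trans ?_
    rw [div_sub_one hn0.ne', div_le_div_iff₀ hn0 hx0]
    nlinarith
  have h6 : 1 / x ≤ 2 / x := by gcongr; norm_num
  rw [abs_le]
  constructor <;> linarith

end Pool.Agent.K6.H38.ND
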