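import Pool.Agent.K6.H38.ND.Mer2

/-! Logarithmic sums over invariant sets: the constant. -/

set_option autoImplicit false

namespace Pool.Agent.K6.H38.ND

open Pool.Agent.H499R2.ND Pool.Agent.H320R2.PD Pool.Agent.H319R3.LV Finset Filter Topology ContDiff MeasureTheory

theorem LL_nonneg (T : Set ℤ) (x : ℝ) : 0 ≤ LL T x :=
  sum_nonneg fun n _ => div_nonneg (chi_nonneg T n) (Nat.cast_nonneg n)

theorem LL_le (T : Set ℤ) {x : ℝ} (hx : 0 ≤ x) : LL T x ≤ x := by
  unfold LL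
  rw [← Nat.range_succ_eq_Icc_zero, sum_range_succ', chi_zero, zero_div, add_zero]
  have h1 : ∀ i ∈ range ⌊x⌋₊, chi T (i + 1) / ((i + 1 : ℕ) : ℝ) ≤ 1 := by
    intro i _
    rw [div_le_one (by positivity)]
    refine (chi_le_one T (i + 1)).trans ?_
    push_cast
    have : (0 : ℝ) ≤ i := Nat.cast_nonneg i
    linarith
  refine (sum_le_sum h1).trans ?_
  rw [sum_const, card_range, nsmul_eq_mul, mul_one]
  exact Nat.floor_le hx

/-- the part of the sum between `x` and `2 x` -/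
theorem part_small {C L x D : ℝ} (hC : 0 ≤ C) (hL : ∀ v, |deriv Ph v| ≤ L) {T : Set ℤ} (hD0 : 0 ≤ D) (hD1 : D ≤ 1)
    (hT : ∀ t : ℝ, 2 ≤ t → |cnt T t - D * t| ≤ C * t / (Real.log t) ^ (1 / 30 : ℝ)) (hx : 2 ≤ x) :
    |∑ n ∈ Ioc ⌊x⌋₊ ⌊2 * x⌋₊, Ph (n / x) / n * (chi T n - D * chi Set.univ n)|
      ≤ (C + 1) * (2 * L + 3) / (Real.log x) ^ (1 / 30 : ℝ) := by
  have hx0 : 0 < x := by linarith
  have hL0 : 0 ≤ L := (abs_nonneg _).trans (hL 0)
  have hlx : 0 < Real.log x := Real.log_pos (by linarith)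
  set P : ℝ := (Real.log x) ^ (1 / 30 : ℝ) with hP
  have hP0 : 0 < P := Real.rpow_pos_of_pos hlx _
  have hDiff : Differentiable ℝ Ph := Ph_sm.differentiable (by norm_num)
  have hdc : Continuous (deriv Ph) := (contDiff_infty_iff_deriv.1 Ph_sm).2.continuous
  set f : ℝ → ℝ := fun t => Ph (t / x) / t with hf
  set g : ℝ → ℝ := fun t => (deriv Ph (t / x) * (1 / x) * t - Ph (t / x) * 1) / t ^ 2 with hg
  have hder : ∀ t : ℝ, t ≠ 0 → HasDerivAt f (g t) t := by
    intro t ht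
    have h1 : HasDerivAt (fun t : ℝ => t / x) (1 / x) t := (hasDerivAt_id t).div_const x
    have h2 : HasDerivAt Ph (deriv Ph (t / x)) (t / x) := (hDiff _).hasDerivAt
    have h3 : HasDerivAt (fun t : ℝ => Ph (t / x)) (deriv Ph (t / x) * (1 / x)) t := HasDerivAt.comp (h₂ := Ph) t h2 h1
    exact h3.div (hasDerivAt_id t) ht
  have hne : ∀ t ∈ Set.Icc x (2 * x), t ≠ 0 := fun t ht => by
    have := ht.1
    exact (by linarith : 0 < t).ne'
  have hgc : ContinuousOn g (Set.Icc x (2 * x)) := by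
    apply ContinuousOn.div
    · apply Continuous.continuousOn
      have h1 : Continuous fun t : ℝ => t / x := continuous_id.div_const x
      exact (((hdc.comp h1).mul continuous_const).mul continuous_id).sub ((hDiff.continuous.comp h1).mul continuous_const)
    · exact (continuous_pow 2).continuousOn
    · intro t ht
      exact pow_ne_zero 2 (hne t ht)
  have hdg : Set.EqOn g (deriv f) (Set.Icc x (2 * x)) := fun t ht => (hder t (hne t ht)).deriv.symm
  have hint : IntegrableOn (deriv f) (Set.Icc x (2 * x)) :=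
    (hgc.integrableOn_Icc).congr_fun hdg measurableSet_Icc
  have hgb : ∀ t ∈ Set.Icc x (2 * x), |g t| ≤ (L + 1) / x ^ 2 := by
    intro t ht
    have ht0 : 0 < t := by linarith [ht.1]
    have e : g t = deriv Ph (t / x) / (x * t) - Ph (t / x) / t ^ 2 := by
      rw [hg]; field_simp
    rw [e]
    refine (abs_sub _ _).trans ?_
    rw [abs_div, abs_div, abs_of_pos (by positivity : 0 < x * t), abs_of_pos (by positivity : 0 < t ^ 2),
      abs_of_nonneg (Ph_nonneg _)]
    have h1 : |deriv Ph (t / x)| / (x * t) ≤ L / x ^ 2 := by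
      rw [pow_two]
      apply div_le_div₀ hL0 (hL _) (by positivity)
      exact mul_le_mul_of_nonneg_left ht.1 hx0.le
    have h2 : Ph (t / x) / t ^ 2 ≤ 1 / x ^ 2 :=
      div_le_div₀ zero_le_one (Ph_le _) (by positivity) (pow_le_pow_left₀ hx0.le ht.1 2)
    rw [add_div]; linarith
  set c : ℕ → ℝ := fun n => chi T n - D * chi Set.univ n with hc
  have hS : ∀ t : ℝ, x ≤ t → t ≤ 2 * x → |∑ k ∈ Icc 0 ⌊t⌋₊, c k| ≤ (C + 1) * t / P := by
    intro t ht ht2
    have ht0 : 0 < t := by linarith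
    have e : ∑ k ∈ Icc 0 ⌊t⌋₊, c k = (cnt T t - D * t) + D * (t - ⌊t⌋₊) := by
      rw [hc, sum_sub_distrib, ← mul_sum, ← cnt_Icc, ← cnt_Icc, cnt_univ]; ring
    rw [e]
    have hlt : Real.log x ≤ Real.log t := Real.log_le_log hx0 ht
    have hPt : P ≤ (Real.log t) ^ (1 / 30 : ℝ) := Real.rpow_le_rpow hlx.le hlt (by norm_num)
    have h1 := hT t (by linarith)
    have h2 : C * t / (Real.log t) ^ (1 / 30 : ℝ) ≤ C * t / P :=
      div_le_div_of_nonneg_left (by positivity) hP0 hPt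
    have h3 : |D * (t - ⌊t⌋₊)| ≤ 1 := by
      have h4 : 0 ≤ t - ⌊t⌋₊ := sub_nonneg.2 (Nat.floor_le ht0.le)
      have h5 : t - ⌊t⌋₊ ≤ 1 := by linarith [Nat.lt_floor_add_one t]
      rw [abs_of_nonneg (by positivity)]
      nlinarith
    have h4 : 1 ≤ t / P := by
      rw [le_div_iff₀ hP0, one_mul]
      exact (log_le_of hx).trans ht
    refine (abs_add_le _ _).trans ?_
    rw [add_mul, add_div, one_mul]
    linarith
  have hab := sum_mul_eq_sub_sub_integral_mul c (f := f) hx0.le (by linarith : x ≤ 2 * x)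
    (fun t ht => (hder t (hne t ht)).differentiableAt) hint
  have e0 : ∑ n ∈ Ioc ⌊x⌋₊ ⌊2 * x⌋₊, Ph (n / x) / n * (chi T n - D * chi Set.univ n)
      = ∑ k ∈ Ioc ⌊x⌋₊ ⌊2 * x⌋₊, f k * c k := rfl
  rw [e0, hab]
  have hf2 : f (2 * x) = 0 := by
    simp only [hf]
    rw [show 2 * x / x = 2 by field_simp, Ph_zero le_rfl, zero_div]
  have hf1 : f x = 1 / x := by
    simp only [hf]
    rw [div_self hx0.ne', Ph_one le_rfl]
  rw [hf2, hf1, zero_mul, zero_sub]
  have hI : ‖∫ t in Set.Ioc x (2 * x), deriv f t * ∑ k ∈ Icc 0 ⌊t⌋₊, c k‖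
      ≤ ((L + 1) / x ^ 2 * ((C + 1) * (2 * x) / P)) * (volume : Measure ℝ).real (Set.Ioc x (2 * x)) := by
    apply norm_setIntegral_le_of_norm_le_const
    · simp
    · intro t ht
      have ht' : t ∈ Set.Icc x (2 * x) := ⟨ht.1.le, ht.2⟩
      rw [Real.norm_eq_abs, abs_mul, ← hdg ht']
      apply mul_le_mul (hgb t ht') _ (abs_nonneg _) (by positivity)
      refine (hS t ht'.1 ht'.2).trans ?_
      gcongr
      exact ht'.2
  rw [Real.volume_real_Ioc_of_le (by linarith), Real.norm_eq_abs] at hI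
  have h1 : |1 / x * ∑ k ∈ Icc 0 ⌊x⌋₊, c k| ≤ (C + 1) / P := by
    rw [abs_mul, abs_of_pos (by positivity : 0 < 1 / x)]
    have := mul_le_mul_of_nonneg_left (hS x le_rfl (by linarith)) (by positivity : 0 ≤ 1 / x)
    refine this.trans (le_of_eq ?_)
    field_simp
  have h2 : (L + 1) / x ^ 2 * ((C + 1) * (2 * x) / P) * (2 * x - x) = (C + 1) * (2 * (L + 1)) / P := by
    field_simp
    ring
  rw [h2] at hI
  have h3 := abs_sub (-(1 / x * ∑ k ∈ Icc 0 ⌊x⌋₊, c k)) (∫ t in Set.Ioc x (2 * x), deriv f t * ∑ k ∈ Icc 0 ⌊t⌋₊, c k)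
  rw [abs_neg] at h3
  have h4 : (C + 1) * (2 * L + 3) / P = (C + 1) / P + (C + 1) * (2 * (L + 1)) / P := by ring
  rw [h4]
  linarith

/-- **logarithmic sums over an invariant set** -/
theorem LL_main {s : ℤ} (hs : s = 1 ∨ s = -1) : ∃ C : ℝ, 0 < C ∧ ∀ T : Set ℤ, Inv s T → ∀ D : ℝ,
    Tendsto (gg T ind) atTop (𝓝 D) → ∃ γ : ℝ, ∀ x : ℝ, 2 ≤ x →
      |LL T x - D * Real.log x - γ| ≤ C / (Real.log x) ^ (1 / 30 : ℝ) := by
  obtain ⟨C, hC, hr⟩ := rate30 hs
  obtain ⟨C1, hC1, hsl⟩ := SL_main hs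
  obtain ⟨L, hL⟩ : ∃ L : ℝ, ∀ v, |deriv Ph v| ≤ L := by
    obtain ⟨L, _, hL⟩ := ps_good.bound
    refine ⟨L, fun v => ?_⟩
    have := hL v
    unfold ps at this
    rwa [abs_neg] at this
  have hL0 : 0 ≤ L := (abs_nonneg _).trans (hL 0)
  set E : ℝ := 2 + 2 * C1 + (C + 1) * (2 * L + 3) with hE
  have hE0 : 0 < E := by positivity
  refine ⟨2 * E + 20, by positivity, fun T hT D hD => ?_⟩
  have hD0 : 0 ≤ D := ge_of_tendsto' hD fun u => (gg_ind_bd T u).1
  have hD1 : D ≤ 1 := le_of_tendsto' hD fun u => (gg_ind_bd T u).2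
  obtain ⟨γ1, h1⟩ := hsl T hT D hD
  obtain ⟨γ2, h2⟩ := hsl Set.univ (inv_univ s) 1 dens_univ
  set γ : ℝ := D * Real.eulerMascheroniConstant + γ1 - D * γ2 with hγ
  have key : ∀ x : ℝ, 2 ≤ x → 1 ≤ Real.log x → |LL T x - D * Real.log x - γ| ≤ E / (Real.log x) ^ (1 / 30 : ℝ) := by
    intro x hx hlx
    have hx0 : 0 < x := by linarith
    set P : ℝ := (Real.log x) ^ (1 / 30 : ℝ) with hP
    have hP1 : 1 ≤ P := Real.one_le_rpow hlx (by norm_num)
    have hP0 : 0 < P := by linarith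
    have hPl : P ≤ Real.log x := by
      calc P ≤ (Real.log x) ^ (1 : ℝ) := Real.rpow_le_rpow_of_exponent_le hlx (by norm_num)
        _ = Real.log x := Real.rpow_one _
    have hlxx : Real.log x ≤ x := (Real.log_le_sub_one_of_pos hx0).trans (by linarith)
    have hps := part_small (T := T) hC.le hL hD0 hD1 (hr T hT D hD) hx
    set S₂ : ℝ := ∑ n ∈ Ioc ⌊x⌋₊ ⌊2 * x⌋₊, Ph (n / x) / n * (chi T n - D * chi Set.univ n) with hS₂
    have hfl : ⌊x⌋₊ ≤ ⌊2 * x⌋₊ := Nat.floor_le_floor (by linarith)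
    have hSLsum : ∀ T' : Set ℤ, SL T' (Real.log x) = LL T' x + ∑ n ∈ Ioc ⌊x⌋₊ ⌊2 * x⌋₊, chi T' n / n * Ph (n / x) := by
      intro T'
      have hM : 2 * Real.exp (Real.log x) ≤ ((⌊2 * x⌋₊ + 1 : ℕ) : ℝ) := by
        rw [Real.exp_log hx0]
        push_cast
        exact (Nat.lt_floor_add_one _).le
      rw [SL_eq T' hM, Real.exp_neg, Real.exp_log hx0]
      have h3 : ∀ n ∈ range (⌊2 * x⌋₊ + 1), chi T' n / n * Ph (n * x⁻¹) = chi T' n / n * Ph (n / x) := fun n _ => by
        rw [div_eq_mul_inv (n : ℝ) x]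
      rw [sum_congr rfl h3, Nat.range_succ_eq_Icc_zero]
      have h4 : Icc 0 ⌊2 * x⌋₊ = Icc 0 ⌊x⌋₊ ∪ Ioc ⌊x⌋₊ ⌊2 * x⌋₊ := by
        ext n; simp only [mem_union, mem_Icc, mem_Ioc]; omega
      have h5 : Disjoint (Icc 0 ⌊x⌋₊) (Ioc ⌊x⌋₊ ⌊2 * x⌋₊) := by
        rw [disjoint_left]; intro n hn hn2
        rw [mem_Icc] at hn; rw [mem_Ioc] at hn2; omega
      rw [h4, sum_union h5]
      congr 1
      unfold LL
      apply sum_congr rfl
      intro n hn
      rw [mem_Icc] at hn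
      rw [Ph_one, mul_one]
      rw [div_le_one hx0]
      exact (Nat.le_floor_iff hx0.le).1 hn.2
    have hdiff : (SL T (Real.log x) - D * SL Set.univ (Real.log x)) - (LL T x - D * LL Set.univ x) = S₂ := by
      rw [hSLsum T, hSLsum Set.univ, hS₂]
      have h6 : ∑ n ∈ Ioc ⌊x⌋₊ ⌊2 * x⌋₊, Ph (n / x) / n * (chi T n - D * chi Set.univ n)
          = ∑ n ∈ Ioc ⌊x⌋₊ ⌊2 * x⌋₊, chi T n / n * Ph (n / x)
            - D * ∑ n ∈ Ioc ⌊x⌋₊ ⌊2 * x⌋₊, chi Set.univ n / n * Ph (n / x) := by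
        rw [mul_sum, ← sum_sub_distrib]
        apply sum_congr rfl
        intro n _
        ring
      rw [h6]; ring
    have h3 := h1 (Real.log x) hlx
    have h4 := h2 (Real.log x) hlx
    have h5 := LL_univ (by linarith : 1 ≤ x)
    have h6 : C1 / Real.log x ≤ C1 / P := div_le_div_of_nonneg_left hC1 hP0 hPl
    have h7 : 2 / x ≤ 2 / P := div_le_div_of_nonneg_left (by norm_num) hP0 (hPl.trans hlxx)
    have e : LL T x - D * Real.log x - γ = D * (LL Set.univ x - Real.log x - Real.eulerMascheroniConstant)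
        + (SL T (Real.log x) - D * Real.log x - γ1) - D * (SL Set.univ (Real.log x) - 1 * Real.log x - γ2) - S₂ := by
      rw [← hdiff, hγ]; ring
    have h8 : |D * (LL Set.univ x - Real.log x - Real.eulerMascheroniConstant)| ≤ 2 / P := by
      rw [abs_mul, abs_of_nonneg hD0]
      calc D * _ ≤ 1 * (2 / x) := mul_le_mul hD1 h5 (abs_nonneg _) zero_le_one
        _ ≤ 2 / P := by linarith
    have h9 : |D * (SL Set.univ (Real.log x) - 1 * Real.log x - γ2)| ≤ C1 / P := by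
      rw [abs_mul, abs_of_nonneg hD0]
      calc D * _ ≤ 1 * (C1 / Real.log x) := mul_le_mul hD1 h4 (abs_nonneg _) zero_le_one
        _ ≤ C1 / P := by linarith
    rw [e]
    have h10 := abs_sub (D * (LL Set.univ x - Real.log x - Real.eulerMascheroniConstant)
        + (SL T (Real.log x) - D * Real.log x - γ1) - D * (SL Set.univ (Real.log x) - 1 * Real.log x - γ2)) S₂
    have h11 := abs_sub (D * (LL Set.univ x - Real.log x - Real.eulerMascheroniConstant)
        + (SL T (Real.log x) - D * Real.log x - γ1)) (D * (SL Set.univ (Real.log x) - 1 * Real.log x - γ2))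
    have h12 := abs_add_le (D * (LL Set.univ x - Real.log x - Real.eulerMascheroniConstant))
        (SL T (Real.log x) - D * Real.log x - γ1)
    have e2 : E / P = 2 / P + 2 * (C1 / P) + (C + 1) * (2 * L + 3) / P := by rw [hE]; ring
    rw [e2]
    linarith
  have hγb : |γ| ≤ E + 5 := by
    have hl3 : 1 ≤ Real.log 3 := by
      rw [Real.le_log_iff_exp_le (by norm_num)]
      exact Real.exp_one_lt_three.le
    have hl3' : Real.log 3 ≤ 2 := (Real.log_le_sub_one_of_pos (by norm_num)).trans (by norm_num)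
    have h3 := key 3 (by norm_num) hl3
    have h4 : E / (Real.log 3) ^ (1 / 30 : ℝ) ≤ E :=
      div_le_self hE0.le (Real.one_le_rpow hl3 (by norm_num))
    have h5 := LL_nonneg T 3
    have h6 := LL_le T (by norm_num : (0 : ℝ) ≤ 3)
    have h7 : 0 ≤ D * Real.log 3 := by positivity
    have h8 : D * Real.log 3 ≤ 2 := by nlinarith
    have h9 := abs_le.1 (h3.trans h4)
    rw [abs_le]
    constructor <;> linarith [h9.1, h9.2]
  refine ⟨γ, fun x hx => ?_⟩
  have hx0 : 0 < x := by linarith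
  have hl0 : 0 < Real.log x := Real.log_pos (by linarith)
  have hP0 : 0 < (Real.log x) ^ (1 / 30 : ℝ) := Real.rpow_pos_of_pos hl0 _
  rcases le_or_gt 1 (Real.log x) with hl | hl
  · refine (key x hx hl).trans ?_
    gcongr
    linarith
  · have hP1 : (Real.log x) ^ (1 / 30 : ℝ) ≤ 1 := Real.rpow_le_one hl0.le hl.le (by norm_num)
    have hx3 : x < 3 := by
      have h3 : Real.log x < Real.log 3 := by
        refine hl.trans_le ?_
        rw [Real.le_log_iff_exp_le (by norm_num)]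
        exact Real.exp_one_lt_three.le
      exact (Real.log_lt_log_iff hx0 (by norm_num)).1 h3
    have h3 := LL_nonneg T x
    have h4 := LL_le T hx0.le
    have h5 : 0 ≤ D * Real.log x := by positivity
    have h6 : D * Real.log x ≤ 1 := by nlinarith
    have h7 := abs_le.1 hγb
    have h8 : |LL T x - D * Real.log x - γ| ≤ 2 * E + 20 := by
      rw [abs_le]
      constructor <;> linarith [h7.1, h7.2]
    refine h8.trans ?_
    rw [le_div_iff₀ hP0]
    nlinarith

end Pool.Agent.K6.H38.ND
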