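import Pool.Agent.K6.H38.ND.Walk

/-! Operators: differences of functions which are almost harmonic for the walk. -/

set_option autoImplicit false

namespace Pool.Agent.K6.H38.ND

/-- linear operators on functions -/
abbrev EE := Module.End ℝ (ℝ → ℝ)

/-- translation -/
noncomputable def tau (a : ℝ) : EE where
  toFun f := fun w => f (w + a)
  map_add' _ _ := rfl
  map_smul' _ _ := rfl

theorem tau_apply (a : ℝ) (f : ℝ → ℝ) (w : ℝ) : tau a f w = f (w + a) := rfl

/-- averaging -/
noncomputable def AvE : EE where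
  toFun f := Av f
  map_add' f g := by
    ext w; simp only [Av, Pi.add_apply]; ring
  map_smul' c f := by
    ext w; simp only [Av, Pi.smul_apply, smul_eq_mul, RingHom.id_apply]; ring

theorem AvE_apply (f : ℝ → ℝ) : AvE f = Av f := rfl

theorem AvE_pow (n : ℕ) (f : ℝ → ℝ) : (AvE ^ n) f = Av^[n] f := by
  induction n with
  | zero => simp
  | succ n ih => rw [pow_succ', Module.End.mul_apply, ih, Function.iterate_succ_apply', AvE_apply]

theorem comm_tau_Av (a : ℝ) : Commute (tau a) AvE := by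
  apply LinearMap.ext
  intro f
  ext w
  rw [Module.End.mul_apply, Module.End.mul_apply, tau_apply, AvE_apply, AvE_apply]
  unfold Av
  rw [tau_apply, tau_apply]
  congr 3 <;> ring

/-- the difference operator and its modification -/
noncomputable def Del (η : ℝ) : EE := tau η - 1
noncomputable def DD (η : ℝ) (j : ℕ) : EE := tau η - AvE ^ j

theorem Del_apply (η : ℝ) (f : ℝ → ℝ) (w : ℝ) : Del η f w = f (w + η) - f w := rfl

theorem comm_DD_Av (η : ℝ) (j n : ℕ) : Commute (DD η j) (AvE ^ n) := by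
  unfold DD
  apply Commute.sub_left
  · exact (comm_tau_Av η).pow_right n
  · exact (Commute.refl AvE).pow_pow j n

/-- boundedness on half lines -/
def HB (T : EE) (c d : ℝ) : Prop := ∀ (f : ℝ → ℝ) (x M : ℝ), (∀ y, x ≤ y → |f y| ≤ M) → ∀ y, x + d ≤ y → |T f y| ≤ c * M

theorem HB_mul {T T' : EE} {c d c' d' : ℝ} (h : HB T c d) (h' : HB T' c' d') : HB (T * T') (c * c') (d' + d) := by
  intro f x M hf y hy
  have h1 := h (T' f) (x + d') (c' * M) (h' f x M hf) y (by linarith)
  rw [Module.End.mul_apply, mul_assoc]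
  exact h1

theorem HB_pow {T : EE} {c d : ℝ} (h : HB T c d) (k : ℕ) : HB (T ^ k) (c ^ k) (k * d) := by
  induction k with
  | zero => intro f x M hf y hy; simpa using hf y (by simpa using hy)
  | succ k ih =>
    have := HB_mul ih h
    intro f x M hf y hy
    rw [pow_succ, pow_succ]
    apply this f x M hf y
    push_cast at hy
    linarith

theorem log2_pos' : 0 < Real.log 2 := Real.log_pos (by norm_num)

theorem HB_Av : HB AvE 1 (Real.log 2) := by
  intro f x M hf y hy
  rw [AvE_apply]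
  have h3 : 0 < Real.log 3 := Real.log_pos (by norm_num)
  have h1 := hf (y - Real.log 2) (by linarith)
  have h2 := hf (y - Real.log 2 + Real.log 3) (by linarith)
  unfold Av
  rw [abs_div, abs_two]
  have := abs_add_le (f (y - Real.log 2)) (f (y - Real.log 2 + Real.log 3))
  linarith

theorem HB_Av_pow (j : ℕ) : HB (AvE ^ j) 1 (j * Real.log 2) := by
  have := HB_pow HB_Av j
  rwa [one_pow] at this

theorem HB_Del {η d : ℝ} (h : -η ≤ d) (h0 : 0 ≤ d) : HB (Del η) 2 d := by
  intro f x M hf y hy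
  rw [Del_apply]
  have h1 := hf (y + η) (by linarith)
  have h2 := hf y (by linarith)
  have := abs_sub (a := f (y + η)) (b := f y)
  linarith

theorem HB_DD {η : ℝ} {j : ℕ} (h : -η ≤ j * Real.log 2) : HB (DD η j) 2 (j * Real.log 2) := by
  intro f x M hf y hy
  have h0 : 0 ≤ j * Real.log 2 := mul_nonneg (Nat.cast_nonneg j) log2_pos'.le
  have h1 := hf (y + η) (by linarith)
  have h2 := HB_Av_pow j f x M hf y hy
  have e : DD η j f y = f (y + η) - (AvE ^ j) f y := rfl
  rw [e]
  have := abs_sub (a := f (y + η)) (b := (AvE ^ j) f y)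
  linarith

/-- boundedness -/
def Bd (T : EE) (c : ℝ) : Prop := ∀ (f : ℝ → ℝ) (M : ℝ), 0 < M → (∀ y, |f y| ≤ M) → ∀ y, |T f y| ≤ c * M

theorem Bd_pow {T : EE} {c : ℝ} (hc : 0 < c) (h : Bd T c) (k : ℕ) : Bd (T ^ k) (c ^ k) := by
  induction k with
  | zero => intro f M hM hf y; simpa using hf y
  | succ k ih =>
    intro f M hM hf y
    rw [pow_succ, Module.End.mul_apply, pow_succ, mul_assoc]
    exact ih (T f) (c * M) (by positivity) (h f M hM hf) y

theorem Bd_DD {j b n : ℕ} : Bd (DD (b * Real.log 3 - j * Real.log 2) j * AvE ^ n) (2 * (b + j + 1) / √ (n + 1)) := by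
  intro f M hM hf w
  set φ : ℝ → ℝ := fun y => M⁻¹ * f y with hφ
  have hφ1 : ∀ y, |φ y| ≤ 1 := by
    intro y
    rw [hφ]
    simp only
    rw [abs_mul, abs_of_pos (by positivity : 0 < M⁻¹), inv_mul_le_iff₀ hM, mul_one]
    exact hf y
  have hf2 : f = M • φ := by
    ext y
    rw [hφ, Pi.smul_apply, smul_eq_mul, mul_inv_cancel_left₀ hM.ne']
  set T : EE := DD (b * Real.log 3 - j * Real.log 2) j * AvE ^ n with hT
  have h1 : T f w = M * T φ w := by
    rw [hf2, map_smul, Pi.smul_apply, smul_eq_mul]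
  rw [h1, abs_mul, abs_of_pos hM, mul_comm]
  apply mul_le_mul_of_nonneg_right _ hM.le
  set ψ : ℝ → ℝ := Av^[n] φ with hψ
  have e : T φ w = ψ (w + (b * Real.log 3 - j * Real.log 2)) - (Av^[j] ψ) w := by
    rw [hT, Module.End.mul_apply, AvE_pow]
    have : DD (b * Real.log 3 - j * Real.log 2) j ψ w = ψ (w + (b * Real.log 3 - j * Real.log 2)) - (AvE ^ j) ψ w := rfl
    rw [this, AvE_pow]
  rw [e, abs_sub_comm]
  have hδ := Av_shift hφ1 n
  set δ : ℝ := 2 / √ (n + 1) with hδdef
  have hδ0 : 0 ≤ δ := by positivity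
  set l : ℝ := (b : ℝ) + j + 1 with hl
  have hl0 : 0 < l := by positivity
  set w' : ℝ := w + (b * Real.log 3 - j * Real.log 2) with hw'
  have h4 : ∀ k : ℤ, |ψ ((w - j * Real.log 2) + k * Real.log 3) - ψ w'| ≤ δ * l / 2 + δ / (2 * l) * ((k : ℝ) - b) ^ 2 := by
    intro k
    have h5 := Av_iter_shift hδ w' (k - b)
    have e : w' + ((k - b : ℤ) : ℝ) * Real.log 3 = (w - j * Real.log 2) + k * Real.log 3 := by
      rw [hw']; push_cast; ring
    rw [e] at h5
    refine h5.trans ?_
    push_cast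
    have h6 : |(k : ℝ) - b| ≤ l / 2 + ((k : ℝ) - b) ^ 2 / (2 * l) := by
      rw [div_add_div _ _ (by norm_num) (by positivity), le_div_iff₀ (by positivity), ← sq_abs ((k : ℝ) - b)]
      nlinarith [sq_nonneg (|(k : ℝ) - b| - l)]
    have h7 := mul_le_mul_of_nonneg_left h6 hδ0
    refine h7.trans (le_of_eq ?_)
    field_simp
  have h5 := Av_quad j h4 0
  have e : w - j * Real.log 2 + j * Real.log 2 + ((0 : ℤ) : ℝ) * Real.log 3 = w := by push_cast; ring
  rw [e] at h5
  refine h5.trans ?_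
  have h6 : (((0 : ℤ) : ℝ) + j / 2 - b) ^ 2 + (j : ℝ) / 4 ≤ l ^ 2 := by
    push_cast
    have hj0 : (0 : ℝ) ≤ j := Nat.cast_nonneg j
    have hb0 : (0 : ℝ) ≤ b := Nat.cast_nonneg b
    rw [hl]
    nlinarith [mul_nonneg hj0 hb0]
  have h7 := mul_le_mul_of_nonneg_left h6 (show 0 ≤ δ / (2 * l) by positivity)
  have e2 : δ / (2 * l) * l ^ 2 = δ * l / 2 := by field_simp
  have e3 : 2 * ((b : ℝ) + j + 1) / √ (n + 1) = δ * l := by rw [hδdef, hl]; ring
  rw [e3]
  linarith

/-- iterates are close on a half line -/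
theorem iter_half {F : ℝ → ℝ} {x₀ ε : ℝ} (h : ∀ w, x₀ ≤ w → |F w - Av F w| ≤ ε) (n : ℕ) :
    ∀ w, x₀ + n * Real.log 2 ≤ w → |F w - (Av^[n] F) w| ≤ n * ε := by
  have hl3 : 0 < Real.log 3 := Real.log_pos (by norm_num)
  have hl2 := log2_pos'
  induction n with
  | zero => intro w _; simp
  | succ n ih =>
    intro w hw
    rw [Function.iterate_succ_apply']
    push_cast at hw
    have hn0 : 0 ≤ (n : ℝ) * Real.log 2 := mul_nonneg (Nat.cast_nonneg n) hl2.le
    have h1 := h w (by linarith)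
    have h2 := ih (w - Real.log 2) (by linarith)
    have h3 := ih (w - Real.log 2 + Real.log 3) (by linarith)
    have h5 : |Av F w - Av (Av^[n] F) w| ≤ n * ε := by
      have e : Av F w - Av (Av^[n] F) w = ((F (w - Real.log 2) - (Av^[n] F) (w - Real.log 2))
            + (F (w - Real.log 2 + Real.log 3) - (Av^[n] F) (w - Real.log 2 + Real.log 3))) / 2 := by
        unfold Av; ring
      have h6 := abs_add_le (F (w - Real.log 2) - (Av^[n] F) (w - Real.log 2))
        (F (w - Real.log 2 + Real.log 3) - (Av^[n] F) (w - Real.log 2 + Real.log 3))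
      rw [e, abs_div, abs_two]
      linarith
    have h6 := abs_sub_le (F w) (Av F w) (Av (Av^[n] F) w)
    push_cast
    linarith

/-- high differences are small -/
theorem diff_small {F : ℝ → ℝ} {M x₀ ε : ℝ} (hM : 0 < M) (hF : ∀ w, |F w| ≤ M)
    (h : ∀ w, x₀ ≤ w → |F w - Av F w| ≤ ε) (j b n k : ℕ) {y : ℝ}
    (hy : x₀ + (k * n + (k + 1) * j) * Real.log 2 ≤ y) :
    |(Del (b * Real.log 3 - j * Real.log 2) ^ k) F y| ≤ (2 * (b + j + 1) / √ (n + 1)) ^ k * M + 2 ^ k * k * (j + n) * ε := by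
  have hl3 : 0 < Real.log 3 := Real.log_pos (by norm_num)
  have hl2 := log2_pos'
  set η : ℝ := b * Real.log 3 - j * Real.log 2 with hη
  have hηj : -η ≤ j * Real.log 2 := by
    have : 0 ≤ (b : ℝ) * Real.log 3 := mul_nonneg (Nat.cast_nonneg b) hl3.le
    rw [hη]; linarith
  have hj0 : 0 ≤ (j : ℝ) * Real.log 2 := mul_nonneg (Nat.cast_nonneg j) hl2.le
  have hHD := HB_DD hηj
  have hHΔ := HB_Del hηj hj0
  -- comparison of the two difference operators
  have hAj : ∀ w, x₀ + j * Real.log 2 ≤ w → |((AvE ^ j - 1 : EE) F) w| ≤ j * ε := by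
    intro w hw
    have := iter_half h j w hw
    have e : ((AvE ^ j - 1 : EE) F) w = (Av^[j] F) w - F w := by
      rw [← AvE_pow]; rfl
    rw [e, abs_sub_comm]; exact this
  have hcomp : ∀ m : ℕ, ∀ w, x₀ + (m + 1) * (j * Real.log 2) ≤ w →
      |(Del η ^ m) F w - (DD η j ^ m) F w| ≤ 2 ^ m * m * j * ε := by
    intro m
    induction m with
    | zero => intro w _; simp
    | succ m ih =>
      intro w hw
      push_cast at hw
      have e : (Del η ^ (m + 1)) F w - (DD η j ^ (m + 1)) F w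
          = Del η ((Del η ^ m) F - (DD η j ^ m) F) w + (DD η j ^ m) ((AvE ^ j - 1 : EE) F) w := by
        have e1 : Del η = DD η j + (AvE ^ j - 1) := by unfold Del DD; abel
        have e2 : (Del η ^ (m + 1) - DD η j ^ (m + 1) : EE)
            = Del η * (Del η ^ m - DD η j ^ m) + DD η j ^ m * (AvE ^ j - 1) := by
          have hc : (AvE ^ j - 1 : EE) * DD η j ^ m = DD η j ^ m * (AvE ^ j - 1) := by
            have h1 : Commute (DD η j ^ m) (AvE ^ j - 1 : EE) :=
              Commute.sub_right ((comm_DD_Av η j j).pow_left m) (Commute.one_right _)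
            exact h1.eq.symm
          have h2 : Del η * DD η j ^ m = DD η j ^ (m + 1) + (AvE ^ j - 1) * DD η j ^ m := by
            rw [e1, add_mul, ← pow_succ']
          rw [mul_sub, ← hc, ← pow_succ', h2]
          abel
        have e3 := congrArg (fun T : EE => T F w) e2
        exact e3
      rw [e]
      have h1 := hHΔ ((Del η ^ m) F - (DD η j ^ m) F) (x₀ + (m + 1) * (j * Real.log 2)) (2 ^ m * m * j * ε)
        (fun y hy => ih y hy) w (by linarith)
      have h2 := HB_pow hHD m ((AvE ^ j - 1 : EE) F) (x₀ + j * Real.log 2) (j * ε) hAj w (by linarith)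
      refine (abs_add_le _ _).trans ?_
      have hε : 0 ≤ ε := (abs_nonneg _).trans (h x₀ le_rfl)
      have h3 : (2 : ℝ) ^ m * (j * ε) ≤ 2 ^ (m + 1) * (j * ε) := by
        apply mul_le_mul_of_nonneg_right _ (by positivity)
        rw [pow_succ]; linarith [show (0 : ℝ) ≤ 2 ^ m by positivity]
      have e4 : (2 : ℝ) ^ (m + 1) * ((m + 1 : ℕ) : ℝ) * j * ε = 2 * (2 ^ m * m * j * ε) + 2 ^ (m + 1) * (j * ε) := by
        push_cast; ring
      rw [e4]
      linarith
  have hε : 0 ≤ ε := (abs_nonneg _).trans (h x₀ le_rfl)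
  have hkn : 0 ≤ (k : ℝ) * n * Real.log 2 := by positivity
  have h1 := hcomp k y (by
    have e : (k * n + (k + 1) * j) * Real.log 2 = k * n * Real.log 2 + (k + 1) * (j * Real.log 2) := by ring
    rw [e] at hy
    linarith)
  -- depth `k n`
  have hdeep : ∀ w, x₀ + ((k * n : ℕ) : ℝ) * Real.log 2 ≤ w → |(F - (AvE ^ (k * n)) F) w| ≤ ((k * n : ℕ) : ℝ) * ε := by
    intro w hw
    have := iter_half h (k * n) w hw
    rw [AvE_pow]; exact this
  have h2 := HB_pow hHD k (F - (AvE ^ (k * n)) F) (x₀ + ((k * n : ℕ) : ℝ) * Real.log 2) (((k * n : ℕ) : ℝ) * ε) hdeep y (by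
    push_cast
    have e : (k * n + (k + 1) * j) * Real.log 2 = k * n * Real.log 2 + k * (j * Real.log 2) + j * Real.log 2 := by ring
    rw [e] at hy
    linarith)
  have h3 : |(DD η j ^ k) ((AvE ^ (k * n)) F) y| ≤ (2 * (b + j + 1) / √ (n + 1)) ^ k * M := by
    have e : (DD η j ^ k) ((AvE ^ (k * n)) F) = ((DD η j * AvE ^ n) ^ k) F := by
      rw [(comm_DD_Av η j n).mul_pow, Module.End.mul_apply, ← pow_mul, mul_comm n k]
    rw [e]
    exact Bd_pow (by positivity) (Bd_DD (j := j) (b := b) (n := n)) k F M hM hF y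
  have e5 : (DD η j ^ k) F y = (DD η j ^ k) (F - (AvE ^ (k * n)) F) y + (DD η j ^ k) ((AvE ^ (k * n)) F) y := by
    rw [map_sub]
    simp
  have h4 : |(DD η j ^ k) F y| ≤ 2 ^ k * (((k * n : ℕ) : ℝ) * ε) + (2 * (b + j + 1) / √ (n + 1)) ^ k * M := by
    rw [e5]
    exact (abs_add_le _ _).trans (add_le_add h2 h3)
  have h5 : |(Del η ^ k) F y| ≤ |(Del η ^ k) F y - (DD η j ^ k) F y| + |(DD η j ^ k) F y| := by
    have := abs_add_le ((Del η ^ k) F y - (DD η j ^ k) F y) ((DD η j ^ k) F y)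
    rwa [sub_add_cancel] at this
  refine h5.trans ((add_le_add h1 h4).trans (le_of_eq ?_))
  push_cast
  ring

end Pool.Agent.K6.H38.ND
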