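import Pool.Agent.H319R3.LV.LV4
import Pool.Agent.K6.H38.ND.FE

/-! Residue classes modulo `2^j 3^m`. -/

set_option autoImplicit false

namespace Pool.Agent.K6.H38.ND

open Pool.Agent.H320R2.PD Pool.Agent.H499R2.ND Pool.Agent.H319R3.LV Finset

/-- elements of an invariant set in an interval and in a class mod `2^j 3^m`, moved by `T^j` -/
theorem prefix_gen {d : ℤ} {S : Set ℤ} (h : Inv d S) (A A' : ℝ) {j o : ℕ} {a y : ℤ} (m : ℕ)
    (hT : ∀ t : ℤ, (Td d)^[j] (a + 2 ^ j * t) = y + 3 ^ o * t) :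
      (wc S A A' (2 ^ j * 3 ^ m) a).card
        = (wc S (3 ^ o / 2 ^ j * A + ((y : ℝ) - 3 ^ o / 2 ^ j * a)) (3 ^ o / 2 ^ j * A' + ((y : ℝ) - 3 ^ o / 2 ^ j * a))
            (3 ^ (o + m)) y).card := by
  have h2j : (0 : ℝ) < 2 ^ j := by positivity
  have h3o : (0 : ℝ) < 3 ^ o := by positivity
  have h2jZ : (2 : ℤ) ^ j ≠ 0 := by positivity
  have h3oZ : (3 : ℤ) ^ o ≠ 0 := by positivity
  -- the correspondence
  have key : ∀ t : ℤ, (A ≤ ((a + 2 ^ j * t : ℤ) : ℝ) ∧ ((a + 2 ^ j * t : ℤ) : ℝ) < A') ↔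
      (3 ^ o / 2 ^ j * A + ((y : ℝ) - 3 ^ o / 2 ^ j * a) ≤ ((y + 3 ^ o * t : ℤ) : ℝ) ∧
        ((y + 3 ^ o * t : ℤ) : ℝ) < 3 ^ o / 2 ^ j * A' + ((y : ℝ) - 3 ^ o / 2 ^ j * a)) := by
    intro t
    have e1 : ((y + 3 ^ o * t : ℤ) : ℝ) - ((y : ℝ) - 3 ^ o / 2 ^ j * a)
        = 3 ^ o / 2 ^ j * ((a + 2 ^ j * t : ℤ) : ℝ) := by
      push_cast; field_simp; ring
    have hc : (0 : ℝ) < 3 ^ o / 2 ^ j := by positivity
    have e2 : (A ≤ ((a + 2 ^ j * t : ℤ) : ℝ)) ↔
        3 ^ o / 2 ^ j * A ≤ 3 ^ o / 2 ^ j * ((a + 2 ^ j * t : ℤ) : ℝ) :=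
      (mul_le_mul_iff_right₀ hc).symm
    have e3 : (((a + 2 ^ j * t : ℤ) : ℝ) < A') ↔
        3 ^ o / 2 ^ j * ((a + 2 ^ j * t : ℤ) : ℝ) < 3 ^ o / 2 ^ j * A' :=
      (mul_lt_mul_iff_right₀ hc).symm
    rw [e2, e3, ← e1]
    constructor
    · rintro ⟨h1, h2⟩; constructor <;> linarith
    · rintro ⟨h1, h2⟩; constructor <;> linarith
  have hmem : ∀ t : ℤ, a + 2 ^ j * t ∈ S ↔ y + 3 ^ o * t ∈ S := by
    intro t
    rw [inv_iter h j (a + 2 ^ j * t), hT t]
  refine Finset.card_nbij' (fun x => y + 3 ^ o * ((x - a) / 2 ^ j)) (fun z => a + 2 ^ j * ((z - y) / 3 ^ o))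
    ?_ ?_ ?_ ?_
  · intro x hx
    rw [mem_coe, mem_wc] at hx
    obtain ⟨h1, h2, t, ht⟩ := hx
    have hx' : x = a + 2 ^ j * (3 ^ m * t) := by linarith
    have hq : (x - a) / 2 ^ j = 3 ^ m * t := by
      rw [ht, mul_assoc, Int.mul_ediv_cancel_left _ h2jZ]
    rw [mem_coe, mem_wc]
    show _ ∧ _
    beta_reduce
    rw [hq]
    rw [hx'] at h1 h2
    refine ⟨(key _).1 h1, (hmem _).1 h2, ⟨t, ?_⟩⟩
    rw [pow_add]; ring
  · intro z hz
    rw [mem_coe, mem_wc] at hz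
    obtain ⟨h1, h2, t, ht⟩ := hz
    have hz' : z = y + 3 ^ o * (3 ^ m * t) := by rw [pow_add] at ht; linarith
    have hq : (z - y) / 3 ^ o = 3 ^ m * t := by
      rw [ht, pow_add, mul_assoc, Int.mul_ediv_cancel_left _ h3oZ]
    rw [mem_coe, mem_wc]
    beta_reduce
    rw [hq]
    rw [hz'] at h1 h2
    refine ⟨(key _).2 h1, (hmem _).2 h2, ⟨t, ?_⟩⟩
    ring
  · intro x hx
    rw [mem_coe, mem_wc] at hx
    obtain ⟨h1, h2, t, ht⟩ := hx
    have hq : (x - a) / 2 ^ j = 3 ^ m * t := by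
      rw [ht, mul_assoc, Int.mul_ediv_cancel_left _ h2jZ]
    beta_reduce
    rw [hq, add_sub_cancel_left, Int.mul_ediv_cancel_left _ h3oZ]
    linarith
  · intro z hz
    rw [mem_coe, mem_wc] at hz
    obtain ⟨h1, h2, t, ht⟩ := hz
    have hq : (z - y) / 3 ^ o = 3 ^ m * t := by
      rw [ht, pow_add, mul_assoc, Int.mul_ediv_cancel_left _ h3oZ]
    beta_reduce
    rw [hq, add_sub_cancel_left, Int.mul_ediv_cancel_left _ h2jZ]
    rw [pow_add] at ht
    linarith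

/-- number of elements in a short interval -/
theorem wc_short (S : Set ℤ) {a b l : ℝ} (hab : b ≤ a + l) (hl : 0 ≤ l) {q : ℤ} (hq : 0 < q) (c : ℤ) :
    ((wc S a b q c).card : ℝ) ≤ l / q + 1 := by
  have hqR : (0 : ℝ) < q := by exact_mod_cast hq
  rcases le_or_gt a b with h | h
  · refine (wc_card_le S h hq c).trans ?_
    have : (b - a) / q ≤ l / q := div_le_div_of_nonneg_right (by linarith) hqR.le
    linarith
  · have : wc S a b q c = ∅ := by
      ext x
      rw [mem_wc]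
      constructor
      · rintro ⟨⟨h1, h2⟩, _⟩; linarith
      · intro hx; simp at hx
    rw [this]; simp
    positivity

/-- change of the end points -/
theorem wc_ends (S : Set ℤ) (a b a' b' l : ℝ) (hl : 0 ≤ l) (ha : |a - a'| ≤ l) (hb : |b - b'| ≤ l) {q : ℤ} (hq : 0 < q) (c : ℤ) :
    |((wc S a b q c).card : ℝ) - (wc S a' b' q c).card| ≤ 2 * (l / q + 1) := by
  classical
  have key : ∀ a b a' b' : ℝ, |a - a'| ≤ l → |b - b'| ≤ l →
      ((wc S a b q c).card : ℝ) ≤ (wc S a' b' q c).card + 2 * (l / q + 1) := by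
    intro a b a' b' ha hb
    rw [abs_le] at ha hb
    have hsub : wc S a b q c ⊆ wc S a' b' q c ∪ (wc S a a' q c ∪ wc S b' b q c) := by
      intro x hx
      rw [mem_wc] at hx
      rw [mem_union, mem_union, mem_wc, mem_wc, mem_wc]
      obtain ⟨⟨h1, h2⟩, h3, h4⟩ := hx
      rcases lt_or_ge (x : ℝ) a' with h5 | h5
      · right; left; exact ⟨⟨h1, h5⟩, h3, h4⟩
      · rcases lt_or_ge (x : ℝ) b' with h6 | h6
        · left; exact ⟨⟨h5, h6⟩, h3, h4⟩
        · right; right; exact ⟨⟨h6, h2⟩, h3, h4⟩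
    have h1 := card_le_card hsub
    have h2 := card_union_le (wc S a' b' q c) (wc S a a' q c ∪ wc S b' b q c)
    have h3 := card_union_le (wc S a a' q c) (wc S b' b q c)
    have h4 : ((wc S a b q c).card : ℝ) ≤ (wc S a' b' q c).card + ((wc S a a' q c).card + (wc S b' b q c).card) := by
      exact_mod_cast (h1.trans h2).trans (Nat.add_le_add_left h3 _)
    have h5 := wc_short S (a := a) (b := a') (l := l) (by linarith) hl hq c
    have h6 := wc_short S (a := b') (b := b) (l := l) (by linarith) hl hq c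
    linarith
  rw [abs_le]
  constructor
  · have := key a' b' a b (by rw [abs_sub_comm]; exact ha) (by rw [abs_sub_comm]; exact hb)
    linarith
  · have := key a b a' b' ha hb
    linarith

/-- a dyadic scale near the square root -/
theorem dyad_sqrt {b : ℝ} (hb : 1 ≤ b) : ∃ i : ℕ, √ b ≤ b / 2 ^ i ∧ b / 2 ^ i ≤ 2 * √ b := by
  have hb0 : 0 < b := by linarith
  have hs1 : 1 ≤ √ b := by rw [Real.one_le_sqrt]; exact hb
  have hss : √ b * √ b = b := Real.mul_self_sqrt hb0.le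
  have hex : ∃ i : ℕ, b / 2 ^ i < √ b := by
    obtain ⟨i, hi⟩ := pow_unbounded_of_one_lt b (one_lt_two (α := ℝ))
    refine ⟨i, ?_⟩
    rw [div_lt_iff₀ (by positivity)]
    calc b < 2 ^ i := hi
      _ ≤ √ b * 2 ^ i := le_mul_of_one_le_left (by positivity) hs1
  set i := Nat.find hex with hi
  have hi1 : b / 2 ^ i < √ b := Nat.find_spec hex
  have hi0 : i ≠ 0 := by
    intro h0
    rw [h0, pow_zero, div_one] at hi1
    nlinarith
  have hi2 := Nat.find_min hex (m := i - 1) (by omega)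
  rw [not_lt] at hi2
  refine ⟨i - 1, hi2, ?_⟩
  have : b / 2 ^ i = b / 2 ^ (i - 1) / 2 := by
    rw [div_div, ← pow_succ]; congr 2; omega
  rw [this] at hi1
  linarith

/-- logarithm against square root -/
theorem log_pow_le (B : ℕ) {b : ℝ} (hb : 1 ≤ b) : (Real.log b) ^ B ≤ 4 ^ B * B.factorial * b ^ (1 / 4 : ℝ) := by
  have hb0 : 0 < b := by linarith
  have hl : 0 ≤ Real.log b := Real.log_nonneg hb
  have h1 : (Real.log b / 4) ^ B / B.factorial ≤ Real.exp (Real.log b / 4) :=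
    Real.pow_div_factorial_le_exp _ (by positivity) B
  have h2 : Real.exp (Real.log b / 4) = b ^ (1 / 4 : ℝ) := by
    rw [Real.rpow_def_of_pos hb0]; congr 1; ring
  have hf : (0 : ℝ) < B.factorial := by exact_mod_cast Nat.factorial_pos B
  rw [h2, div_le_iff₀ hf, div_pow, div_le_iff₀ (by positivity)] at h1
  linarith

/-- classes mod `3^m`, all integers up to a bound -/
theorem equi_three (B : ℕ) {d : ℤ} (hd : Odd d) (hd3 : IsCoprime d 3) : ∃ K : ℝ, 0 < K ∧
    ∃ c : ℝ, 0 < c ∧ c ≤ 1 / 4 ∧ ∀ T : Set ℤ, Inv d T → ∀ b : ℝ, 2 ≤ b → ∀ m : ℕ, (3 : ℝ) ^ m ≤ b ^ c → ∀ z : ℤ,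
      |((wc T 1 b (3 ^ m) z).card : ℝ) - ((wc T 1 b 1 0).card : ℝ) / 3 ^ m| ≤ K * (b / 3 ^ m) / (Real.log b) ^ B := by
  obtain ⟨K, hK, c₀, hc₀, hc₀1, he⟩ := equi_avg B hd hd3
  refine ⟨K * 2 ^ B + 2 * (4 ^ B * B.factorial) + 2 * 4000 ^ B, by positivity, c₀ / 2, by positivity, by linarith, ?_⟩
  intro T hT b hb m hm z
  have hb0 : 0 < b := by linarith
  have h3m : (0 : ℝ) < 3 ^ m := by positivity
  have h3m1 : (1 : ℝ) ≤ 3 ^ m := one_le_pow₀ (by norm_num)
  have hlb : 0 < Real.log b := Real.log_pos (by linarith)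
  have hlB : 0 < (Real.log b) ^ B := by positivity
  have hmlog : (m : ℝ) ≤ c₀ / 2 * Real.log b := by
    have h1 := Real.log_le_log h3m hm
    rw [Real.log_pow, Real.log_rpow hb0] at h1
    have h2 : (1 : ℝ) ≤ Real.log 3 := by
      rw [Real.le_log_iff_exp_le (by norm_num)]
      have := Real.exp_one_lt_d9
      linarith
    have h3 : (m : ℝ) ≤ m * Real.log 3 := le_mul_of_one_le_right (Nat.cast_nonneg _) h2
    linarith
  have h3b : (3 : ℝ) ^ m ≤ b ^ (1 / 4 : ℝ) := hm.trans (Real.rpow_le_rpow_of_exponent_le (by linarith) (by linarith))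
  have h3b' : (3 : ℝ) ^ m ≤ b := h3b.trans (by
    calc b ^ (1 / 4 : ℝ) ≤ b ^ (1 : ℝ) := Real.rpow_le_rpow_of_exponent_le (by linarith) (by norm_num)
      _ = b := Real.rpow_one b)
  have hn1 : (0 : ℝ) ≤ (wc T 1 b (3 ^ m) z).card := Nat.cast_nonneg _
  have hn2 : (0 : ℝ) ≤ ((wc T 1 b 1 0).card : ℝ) / 3 ^ m := by positivity
  rcases lt_or_ge (Real.log b) 4000 with hs | hl
  · have h1 := wc_card_le T (a := 1) (b := b) (by linarith) (q := 3 ^ m) (by positivity) z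
    have h2 := wc_one_card_le T (a := 1) (b := b) (by linarith) 0
    push_cast at h1
    have h4 : 1 ≤ b / 3 ^ m := by rw [le_div_iff₀ h3m]; linarith
    have h5 : ((wc T 1 b 1 0).card : ℝ) / 3 ^ m ≤ b / 3 ^ m := div_le_div_of_nonneg_right (by linarith) h3m.le
    have h6 : (b - 1) / 3 ^ m ≤ b / 3 ^ m := div_le_div_of_nonneg_right (by linarith) h3m.le
    have h7 : 2 * (b / 3 ^ m) ≤ (K * 2 ^ B + 2 * (4 ^ B * B.factorial) + 2 * 4000 ^ B) * (b / 3 ^ m) / (Real.log b) ^ B := by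
      rw [le_div_iff₀ hlB]
      have h8 : (Real.log b) ^ B ≤ 4000 ^ B := pow_le_pow_left₀ hlb.le hs.le B
      have h9 : 2 * (Real.log b) ^ B ≤ K * 2 ^ B + 2 * (4 ^ B * B.factorial) + 2 * 4000 ^ B := by
        have : 0 ≤ K * 2 ^ B + 2 * (4 ^ B * (B.factorial : ℝ)) := by positivity
        linarith
      calc 2 * (b / 3 ^ m) * (Real.log b) ^ B = 2 * (Real.log b) ^ B * (b / 3 ^ m) := by ring
        _ ≤ _ := mul_le_mul_of_nonneg_right h9 (by positivity)
    rw [abs_le]; constructor <;> linarith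
  · -- descent to the square root
    have hchain : ∀ i : ℕ, √ b ≤ b / 2 ^ i →
        |((wc T 1 b (3 ^ m) z).card : ℝ) - ((wc T 1 b 1 0).card : ℝ) / 3 ^ m|
          ≤ |((wc T 1 (b / 2 ^ i) (3 ^ m) z).card : ℝ) - ((wc T 1 (b / 2 ^ i) 1 0).card : ℝ) / 3 ^ m|
            + K * 2 ^ B / (Real.log b) ^ B * ((b - b / 2 ^ i) / 3 ^ m) := by
      intro i
      induction i with
      | zero => intro _; rw [pow_zero, div_one]; simp
      | succ i ih =>
        intro hi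
        set A : ℝ := b / 2 ^ (i + 1) with hA
        have hA2 : b / 2 ^ i = 2 * A := by rw [hA, pow_succ]; field_simp
        have hsb : 1 ≤ √ b := by rw [Real.one_le_sqrt]; linarith
        have hA1 : 1 ≤ A := hsb.trans hi
        have hA0 : 0 < A := by linarith
        have h1 := ih (by rw [hA2]; linarith)
        rw [hA2] at h1
        have hlA : Real.log b / 2 ≤ Real.log A := by
          have h2 := Real.log_le_log (by linarith) hi
          rw [Real.log_sqrt hb0.le] at h2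
          exact h2
        have h2 := he T hT A hA0 (by linarith) m (by nlinarith) z
        have e1 := wc_add T (a := 1) (b := A) (c := 2 * A) hA1 (by linarith) (3 ^ m) z
        have e2 := wc_add T (a := 1) (b := A) (c := 2 * A) hA1 (by linarith) 1 0
        have e1R : ((wc T 1 (2 * A) (3 ^ m) z).card : ℝ) = (wc T 1 A (3 ^ m) z).card + (wc T A (2 * A) (3 ^ m) z).card := by
          exact_mod_cast e1
        have e2R : ((wc T 1 (2 * A) 1 0).card : ℝ) = (wc T 1 A 1 0).card + (wc T A (2 * A) 1 0).card := by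
          exact_mod_cast e2
        rw [e1R, e2R] at h1
        have h3 : |((wc T 1 A (3 ^ m) z).card : ℝ) + (wc T A (2 * A) (3 ^ m) z).card
            - (((wc T 1 A 1 0).card : ℝ) + (wc T A (2 * A) 1 0).card) / 3 ^ m|
            ≤ |((wc T 1 A (3 ^ m) z).card : ℝ) - ((wc T 1 A 1 0).card : ℝ) / 3 ^ m| + K / (Real.log A) ^ B * (A / 3 ^ m) := by
          have h4 := abs_add_le (((wc T 1 A (3 ^ m) z).card : ℝ) - ((wc T 1 A 1 0).card : ℝ) / 3 ^ m)
            (((wc T A (2 * A) (3 ^ m) z).card : ℝ) - (wc T A (2 * A) 1 0).card / 3 ^ m)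
          have e : (((wc T 1 A (3 ^ m) z).card : ℝ) - ((wc T 1 A 1 0).card : ℝ) / 3 ^ m)
            + (((wc T A (2 * A) (3 ^ m) z).card : ℝ) - (wc T A (2 * A) 1 0).card / 3 ^ m)
            = ((wc T 1 A (3 ^ m) z).card : ℝ) + (wc T A (2 * A) (3 ^ m) z).card
            - (((wc T 1 A 1 0).card : ℝ) + (wc T A (2 * A) 1 0).card) / 3 ^ m := by ring
          rw [e] at h4
          linarith
        have h5 : K / (Real.log A) ^ B ≤ K * 2 ^ B / (Real.log b) ^ B := by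
          rw [div_le_div_iff₀ (pow_pos (by linarith) B) hlB, mul_assoc, ← mul_pow]
          apply mul_le_mul_of_nonneg_left _ hK.le
          apply pow_le_pow_left₀ hlb.le
          linarith
        have h6 := mul_le_mul_of_nonneg_right h5 (show 0 ≤ A / 3 ^ m by positivity)
        have e : K * 2 ^ B / (Real.log b) ^ B * ((b - A) / 3 ^ m)
            = K * 2 ^ B / (Real.log b) ^ B * ((b - 2 * A) / 3 ^ m) + K * 2 ^ B / (Real.log b) ^ B * (A / 3 ^ m) := by ring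
        rw [e]
        linarith
    obtain ⟨i, hi1, hi2⟩ := dyad_sqrt (show 1 ≤ b by linarith)
    have h1 := hchain i hi1
    set A : ℝ := b / 2 ^ i with hA
    have hsb : 1 ≤ √ b := by rw [Real.one_le_sqrt]; linarith
    have hA1 : 1 ≤ A := hsb.trans hi1
    have hcard1 := wc_one_card_le T (a := 1) (b := A) hA1 0
    have hcard3 : ((wc T 1 A (3 ^ m) z).card : ℝ) ≤ (wc T 1 A 1 0).card := by exact_mod_cast wc_q_le_one T 1 A (3 ^ m) z
    have hz0 : (0 : ℝ) ≤ (wc T 1 A (3 ^ m) z).card := Nat.cast_nonneg _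
    have hz1 : (0 : ℝ) ≤ (wc T 1 A 1 0).card := Nat.cast_nonneg _
    have hz2 : ((wc T 1 A 1 0).card : ℝ) / 3 ^ m ≤ (wc T 1 A 1 0).card := div_le_self hz1 h3m1
    have hz3 : 0 ≤ ((wc T 1 A 1 0).card : ℝ) / 3 ^ m := by positivity
    have h2 : |((wc T 1 A (3 ^ m) z).card : ℝ) - ((wc T 1 A 1 0).card : ℝ) / 3 ^ m| ≤ 2 * √ b := by
      rw [abs_le]; constructor <;> linarith
    have h3 : 2 * √ b ≤ 2 * (4 ^ B * B.factorial) / (Real.log b) ^ B * (b / 3 ^ m) := by
      have h4 := log_pow_le B (show 1 ≤ b by linarith)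
      have e1 : √ b = b ^ (1 / 2 : ℝ) := Real.sqrt_eq_rpow b
      have e2 : b = b ^ (1 / 2 : ℝ) * (b ^ (1 / 4 : ℝ) * b ^ (1 / 4 : ℝ)) := by
        rw [← Real.rpow_add hb0, ← Real.rpow_add hb0]; norm_num
      have hr := Real.rpow_nonneg hb0.le (1 / 2 : ℝ)
      have hr4 := Real.rpow_nonneg hb0.le (1 / 4 : ℝ)
      rw [div_mul_div_comm, le_div_iff₀ (by positivity)]
      calc 2 * √ b * (Real.log b ^ B * 3 ^ m) ≤ 2 * √ b * ((4 ^ B * B.factorial * b ^ (1 / 4 : ℝ)) * b ^ (1 / 4 : ℝ)) := by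
            apply mul_le_mul_of_nonneg_left _ (by positivity)
            exact mul_le_mul h4 h3b h3m.le (by positivity)
        _ = 2 * (4 ^ B * B.factorial) * (b ^ (1 / 2 : ℝ) * (b ^ (1 / 4 : ℝ) * b ^ (1 / 4 : ℝ))) := by rw [e1]; ring
        _ = 2 * (4 ^ B * B.factorial) * b := by rw [← e2]
    have h4 : K * 2 ^ B / (Real.log b) ^ B * ((b - A) / 3 ^ m) ≤ K * 2 ^ B / (Real.log b) ^ B * (b / 3 ^ m) := by
      apply mul_le_mul_of_nonneg_left _ (by positivity)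
      exact div_le_div_of_nonneg_right (by linarith) h3m.le
    have e : (K * 2 ^ B + 2 * (4 ^ B * B.factorial) + 2 * 4000 ^ B) * (b / 3 ^ m) / (Real.log b) ^ B
        = K * 2 ^ B / (Real.log b) ^ B * (b / 3 ^ m) + 2 * (4 ^ B * B.factorial) / (Real.log b) ^ B * (b / 3 ^ m)
          + 2 * 4000 ^ B * (b / 3 ^ m) / (Real.log b) ^ B := by ring
    rw [e]
    have h5 : 0 ≤ 2 * 4000 ^ B * (b / 3 ^ m) / (Real.log b) ^ B := by positivity
    linarith

end Pool.Agent.K6.H38.ND
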