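import Pool.Agent.K6.H38.ND.Prog

/-! Smooth weights in residue classes modulo `2^j 3^m`. -/

set_option autoImplicit false

namespace Pool.Agent.K6.H38.ND

open Pool.Agent.H320R2.PD Pool.Agent.H499R2.ND Pool.Agent.H319R3.LV Finset Filter Topology MeasureTheory

open scoped Classical in
/-- indicator of the positive elements in a residue class -/
noncomputable def cc (T : Set ℤ) (q a : ℤ) (n : ℕ) : ℝ := if q ∣ (n : ℤ) - a then chi T n else 0

theorem cc_nonneg (T : Set ℤ) (q a : ℤ) (n : ℕ) : 0 ≤ cc T q a n := by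
  unfold cc; split_ifs; exact chi_nonneg T n; exact le_rfl

theorem cc_le (T : Set ℤ) (q a : ℤ) (n : ℕ) : cc T q a n ≤ 1 := by
  unfold cc; split_ifs; exact chi_le_one T n; norm_num

theorem cc_one (T : Set ℤ) (n : ℕ) : cc T 1 0 n = chi T n := by
  unfold cc; rw [if_pos (one_dvd _)]

theorem cc_sum (T : Set ℤ) (q a : ℤ) {t : ℝ} {M : ℕ} (hM : t ≤ M) :
    ∑ n ∈ range M, (if (n : ℝ) < t then cc T q a n else 0) = ((wc T 1 t q a).card : ℝ) := by
  classical
  have h1 : wc T 1 t q a = ((range M).filter fun n : ℕ => (n : ℝ) < t ∧ (1 ≤ n ∧ (n : ℤ) ∈ T) ∧ q ∣ (n : ℤ) - a).image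
      (fun n : ℕ => (n : ℤ)) := by
    ext x
    rw [mem_wc, mem_image]
    constructor
    · rintro ⟨⟨h1, h2⟩, h3, h4⟩
      have hx1 : 1 ≤ x := by exact_mod_cast h1
      have hxn : ((x.toNat : ℕ) : ℤ) = x := Int.toNat_of_nonneg (by omega)
      have hxR : ((x.toNat : ℕ) : ℝ) = x := by exact_mod_cast hxn
      refine ⟨x.toNat, ?_, hxn⟩
      rw [mem_filter, mem_range]
      refine ⟨?_, ?_, ⟨by omega, by rw [hxn]; exact h3⟩, by rw [hxn]; exact h4⟩
      · have : ((x.toNat : ℕ) : ℝ) < M := by rw [hxR]; linarith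
        exact_mod_cast this
      · rw [hxR]; exact h2
    · rintro ⟨n, hn, rfl⟩
      rw [mem_filter, mem_range] at hn
      obtain ⟨h1, h2, ⟨h3, h4⟩, h5⟩ := hn
      refine ⟨⟨?_, ?_⟩, h4, h5⟩
      · exact_mod_cast h3
      · exact_mod_cast h2
  rw [h1, card_image_of_injective _ (fun a b hab => by simpa using hab)]
  have h2 : ∀ n ∈ range M, (if (n : ℝ) < t then cc T q a n else 0)
      = if (n : ℝ) < t ∧ (1 ≤ n ∧ (n : ℤ) ∈ T) ∧ q ∣ (n : ℤ) - a then 1 else 0 := by
    intro n _
    unfold cc chi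
    by_cases g1 : (n : ℝ) < t <;> by_cases g2 : q ∣ (n : ℤ) - a <;> by_cases g3 : 1 ≤ n ∧ (n : ℤ) ∈ T <;> simp [g1, g2, g3]
  rw [sum_congr rfl h2, sum_ite, sum_const_zero, add_zero, sum_const, nsmul_eq_mul, mul_one]

/-- integral form of the weighted sums -/
theorem wt_int (T : Set ℤ) (q a : ℤ) {φ : ℝ → ℝ} {R x : ℝ} (hφ : Good R φ) (hR : 0 ≤ R) (hx : 0 < x) {M : ℕ}
    (hM : (R + 1) * x ≤ M) :
    IntervalIntegrable (fun v => ((wc T 1 (x * v) q a).card : ℝ) * deriv φ v) volume 0 (R + 1) ∧
    ∑ n ∈ range M, cc T q a n * φ (n / x) = -∫ v in (0 : ℝ)..(R + 1), ((wc T 1 (x * v) q a).card : ℝ) * deriv φ v := by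
  have hdc : Continuous (deriv φ) := (contDiff_infty_iff_deriv.1 hφ.sm).2.continuous
  have hD : Differentiable ℝ φ := hφ.sm.differentiable (by norm_num)
  have hint : ∀ n : ℕ, IntervalIntegrable (fun v => cc T q a n * (if (n : ℝ) / x < v then deriv φ v else 0)) volume 0 (R + 1) := by
    intro n
    apply IntervalIntegrable.const_mul
    have h1 : IntervalIntegrable (deriv φ) volume 0 (R + 1) := hdc.intervalIntegrable _ _
    rw [intervalIntegrable_iff] at h1 ⊢
    have h2 := h1.indicator (measurableSet_Ioi (a := (n : ℝ) / x))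
    refine h2.congr ?_
    filter_upwards with v
    unfold Set.indicator
    rfl
  have hone : ∀ n : ℕ, cc T q a n * φ (n / x) = -∫ v in (0 : ℝ)..(R + 1), cc T q a n * (if (n : ℝ) / x < v then deriv φ v else 0) := by
    intro n
    rw [intervalIntegral.integral_const_mul, ← mul_neg]
    congr 1
    have hnx : 0 ≤ (n : ℝ) / x := by positivity
    rcases le_or_gt ((n : ℝ) / x) (R + 1) with h | h
    · have h1 : ∫ v in (0 : ℝ)..(R + 1), (if (n : ℝ) / x < v then deriv φ v else 0)
          = ∫ v in ((n : ℝ) / x)..(R + 1), deriv φ v := by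
        rw [intervalIntegral.integral_of_le (by linarith), intervalIntegral.integral_of_le h]
        have h2 : (fun v => if (n : ℝ) / x < v then deriv φ v else 0) = (Set.Ioi ((n : ℝ) / x)).indicator (deriv φ) := by
          ext v; unfold Set.indicator; rfl
        rw [h2, setIntegral_indicator measurableSet_Ioi]
        congr 2
        ext v
        simp only [Set.mem_inter_iff, Set.mem_Ioc, Set.mem_Ioi]
        constructor
        · rintro ⟨⟨_, h3⟩, h4⟩; exact ⟨h4, h3⟩
        · rintro ⟨h3, h4⟩; exact ⟨⟨by linarith, h4⟩, h3⟩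
      rw [h1, intervalIntegral.integral_eq_sub_of_hasDerivAt (f := φ) (fun v _ => (hD v).hasDerivAt) (hdc.intervalIntegrable _ _),
        hφ.van (R + 1) (by linarith)]
      ring
    · have h1 : ∫ v in (0 : ℝ)..(R + 1), (if (n : ℝ) / x < v then deriv φ v else 0) = 0 := by
        rw [intervalIntegral.integral_congr (g := fun _ => (0 : ℝ))]
        · simp
        · intro v hv
          rw [Set.uIcc_of_le (by linarith)] at hv
          simp only
          rw [if_neg (by linarith [hv.2])]
      rw [h1, hφ.van _ (by linarith), neg_zero]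
  have hpt : Set.EqOn (fun v => ∑ n ∈ range M, cc T q a n * (if (n : ℝ) / x < v then deriv φ v else 0))
      (fun v => ((wc T 1 (x * v) q a).card : ℝ) * deriv φ v) (Set.uIcc 0 (R + 1)) := by
    intro v hv
    rw [Set.uIcc_of_le (by linarith)] at hv
    simp only
    rw [← cc_sum T q a (t := x * v) (M := M) (by
      refine le_trans ?_ hM
      rw [mul_comm (R + 1)]
      exact mul_le_mul_of_nonneg_left hv.2 hx.le), sum_mul]
    apply sum_congr rfl
    intro n _
    have : (n : ℝ) / x < v ↔ (n : ℝ) < x * v := by rw [div_lt_iff₀ hx, mul_comm]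
    by_cases h1 : (n : ℝ) < x * v
    · rw [if_pos (this.2 h1), if_pos h1]
    · rw [if_neg (fun h => h1 (this.1 h)), if_neg h1]; ring
  have hsumint : IntervalIntegrable (fun v => ∑ n ∈ range M, cc T q a n * (if (n : ℝ) / x < v then deriv φ v else 0)) volume 0 (R + 1) := by
    have := IntervalIntegrable.sum (μ := volume) (a := 0) (b := R + 1) (range M)
      (f := fun n v => cc T q a n * (if (n : ℝ) / x < v then deriv φ v else 0)) (fun n _ => hint n)
    refine this.congr ?_
    intro v _
    simp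
  refine ⟨?_, ?_⟩
  · exact hsumint.congr (fun v hv => hpt (Set.uIoc_subset_uIcc hv))
  · rw [sum_congr rfl (fun n _ => hone n), sum_neg_distrib, ← intervalIntegral.integral_finsetSum (fun n _ => hint n),
      intervalIntegral.integral_congr hpt]

end Pool.Agent.K6.H38.ND
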