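import Pool.Agent.K6.H38.ND.Prog2

/-! Smooth weights in residue classes modulo `2^j 3^m`: the error term. -/

set_option autoImplicit false

namespace Pool.Agent.K6.H38.ND

open Pool.Agent.H320R2.PD Pool.Agent.H499R2.ND Pool.Agent.H319R3.LV Finset Filter Topology MeasureTheory

theorem tsum_cc (T : Set ℤ) (q a : ℤ) {φ : ℝ → ℝ} {R x : ℝ} (hφ : ∀ v, R < v → φ v = 0) (hx : 0 < x) {M : ℕ}
    (hM : (R + 1) * x ≤ M) : ∑' n : ℕ, cc T q a n * φ (n / x) = ∑ n ∈ range M, cc T q a n * φ (n / x) := by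
  rw [tsum_eq_sum (s := range M)]
  intro n hn
  rw [mem_range, not_lt] at hn
  have h1 : (M : ℝ) ≤ n := by exact_mod_cast hn
  rw [hφ, mul_zero]
  rw [lt_div_iff₀ hx]
  nlinarith

theorem gg_log (T : Set ℤ) (φ : ℝ → ℝ) {x : ℝ} (hx : 0 < x) :
    gg T φ (Real.log x) = (∑' n : ℕ, cc T 1 0 n * φ (n / x)) / x := by
  unfold gg
  rw [Real.exp_neg, Real.exp_log hx, div_eq_inv_mul]
  congr 1
  apply tsum_congr
  intro n
  rw [cc_one]
  rfl

theorem sum_cc_le (T : Set ℤ) {q : ℤ} (hq : 0 < q) (a : ℤ) {φ : ℝ → ℝ} {R H x : ℝ} (hφ : ∀ v, R < v → φ v = 0) (hR : 0 ≤ R)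
    (hH : ∀ v, |φ v| ≤ H) (hx : 0 < x) {M : ℕ} (hM : (R + 1) * x ≤ M) :
    |∑ n ∈ range M, cc T q a n * φ (n / x)| ≤ H * ((R + 1) * x / q + 1) := by
  have hH0 : 0 ≤ H := (abs_nonneg _).trans (hH 0)
  refine (abs_sum_le_sum_abs _ _).trans ?_
  have h1 : ∀ n ∈ range M, |cc T q a n * φ (n / x)| ≤ H * (if (n : ℝ) < (R + 1) * x then cc T q a n else 0) := by
    intro n _
    rw [abs_mul, abs_of_nonneg (cc_nonneg T q a n)]
    split_ifs with h
    · rw [mul_comm H]; exact mul_le_mul_of_nonneg_left (hH _) (cc_nonneg T q a n)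
    · rw [not_lt] at h
      rw [hφ, abs_zero, mul_zero, mul_zero]
      rw [lt_div_iff₀ hx]; nlinarith
  refine (sum_le_sum h1).trans ?_
  rw [← mul_sum, cc_sum T q a hM]
  apply mul_le_mul_of_nonneg_left _ hH0
  exact wc_short T (by linarith) (by positivity) hq a

/-- smooth weights in residue classes modulo `2^j 3^m` -/
theorem smooth_q (B : ℕ) {s : ℤ} (hs : s = 1 ∨ s = -1) : ∃ c : ℝ, 0 < c ∧ ∀ {R : ℝ}, 1 ≤ R → ∀ {φ : ℝ → ℝ}, Good R φ →
    ∃ K : ℝ, 0 < K ∧ ∀ T : Set ℤ, Inv s T → ∀ D : ℝ, Tendsto (gg T ind) atTop (𝓝 D) →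
    ∀ x : ℝ, 2 ≤ x → ∀ j m : ℕ, (2 ^ j * 3 ^ m : ℝ) ≤ x ^ c → ∀ a : ℤ,
      |∑' n : ℕ, cc T (2 ^ j * 3 ^ m) a n * φ (n / x) - D * (∫ v in Set.Ioi (0 : ℝ), φ v) * (x / (2 ^ j * 3 ^ m))|
        ≤ K * (x / (2 ^ j * 3 ^ m)) / (Real.log x) ^ B := by
  obtain ⟨K0, hK0, c, hc, hc16, he⟩ := equi_q B hs
  refine ⟨c / 2, by positivity, ?_⟩
  intro R hR φ hφ
  obtain ⟨H, hH0, hH⟩ := hφ.bound
  obtain ⟨L, hL⟩ := hφ.cp.deriv.exists_bound_of_continuous (contDiff_infty_iff_deriv.1 hφ.sm).2.continuous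
  have hL0 : 0 ≤ L := (norm_nonneg _).trans (hL 0)
  obtain ⟨CB, hCB⟩ := wt_main hs hR hφ
  set I : ℝ := ∫ v in Set.Ioi (0 : ℝ), φ v with hI
  set E : ℝ := K0 * (R + 1) * 2 ^ B + 2 * (4 ^ B * B.factorial) with hE
  have hE0 : 0 < E := by positivity
  refine ⟨(H * (R + 2) + |I|) * 20 ^ B + (R + 1) * L * E + |CB B| * 2 ^ B + 1, by positivity, ?_⟩
  intro T hT D hD x hx j m hq a
  have hD0 : 0 ≤ D := ge_of_tendsto' hD fun u => (gg_ind_bd T u).1
  have hD1 : D ≤ 1 := le_of_tendsto' hD fun u => (gg_ind_bd T u).2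
  obtain ⟨o, hoj, h1⟩ := he T hT j m a
  set q : ℝ := 2 ^ j * 3 ^ m with hqdef
  have hx0 : 0 < x := by linarith
  have h2j : (0 : ℝ) < 2 ^ j := by positivity
  have h2j1 : (1 : ℝ) ≤ 2 ^ j := one_le_pow₀ (by norm_num)
  have h3m1 : (1 : ℝ) ≤ 3 ^ m := one_le_pow₀ (by norm_num)
  have h3o1 : (1 : ℝ) ≤ 3 ^ o := one_le_pow₀ (by norm_num)
  have hq1 : 1 ≤ q := by rw [hqdef]; nlinarith
  have hq0 : 0 < q := by linarith
  have h3om : (0 : ℝ) < 3 ^ (o + m) := by positivity
  have h3om1 : (1 : ℝ) ≤ 3 ^ (o + m) := one_le_pow₀ (by norm_num)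
  set ρ : ℝ := 3 ^ o / 2 ^ j with hρ
  have hρ0 : 0 < ρ := by positivity
  have hratio : ∀ X : ℝ, ρ * X / 3 ^ (o + m) = X / q := by
    intro X; rw [hρ, hqdef, pow_add]; field_simp
  have hlx : 0 < Real.log x := Real.log_pos (by linarith)
  have hlxB : 0 < (Real.log x) ^ B := by positivity
  have hx1 : 1 ≤ x := by linarith
  have hqx : q ≤ x ^ (1 / 32 : ℝ) := hq.trans (Real.rpow_le_rpow_of_exponent_le hx1 (by linarith))
  have hqx' : q ≤ x := hqx.trans (by
    calc x ^ (1 / 32 : ℝ) ≤ x ^ (1 : ℝ) := Real.rpow_le_rpow_of_exponent_le hx1 (by norm_num)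
      _ = x := Real.rpow_one x)
  have hone : 1 ≤ x / q := by rw [le_div_iff₀ hq0]; linarith
  have hqZ : (0 : ℤ) < 2 ^ j * 3 ^ m := by positivity
  have hqc : (((2 ^ j * 3 ^ m : ℤ)) : ℝ) = q := by rw [hqdef]; push_cast; ring
  -- number of terms
  set M : ℕ := ⌈(R + 1) * x⌉₊ with hM
  have hM1 : (R + 1) * x ≤ M := Nat.le_ceil _
  rw [tsum_cc T _ a hφ.van hx0 hM1]
  have hDI : |D * I * (x / q)| ≤ |I| * (x / q) := by
    rw [abs_mul, abs_mul, abs_of_nonneg hD0, abs_of_nonneg (by positivity : 0 ≤ x / q)]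
    apply mul_le_mul_of_nonneg_right _ (by positivity)
    exact mul_le_of_le_one_left (abs_nonneg _) hD1
  have hetot : ((H * (R + 2) + |I|) * 20 ^ B + (R + 1) * L * E + |CB B| * 2 ^ B + 1) * (x / q) / (Real.log x) ^ B
      = (H * (R + 2) + |I|) * 20 ^ B * (x / q) / (Real.log x) ^ B + (R + 1) * L * E * (x / q) / (Real.log x) ^ B
        + |CB B| * 2 ^ B * (x / q) / (Real.log x) ^ B + (x / q) / (Real.log x) ^ B := by ring
  have hp1 : 0 ≤ (H * (R + 2) + |I|) * 20 ^ B * (x / q) / (Real.log x) ^ B := by positivity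
  have hp2 : 0 ≤ (R + 1) * L * E * (x / q) / (Real.log x) ^ B := by positivity
  have hp3 : 0 ≤ |CB B| * 2 ^ B * (x / q) / (Real.log x) ^ B := by positivity
  have hp4 : 0 ≤ (x / q) / (Real.log x) ^ B := by positivity
  rw [hetot]
  rcases lt_or_ge (Real.log x) 20 with hsm | hl
  · have h2 := sum_cc_le T hqZ a hφ.van (by linarith) hH hx0 hM1
    rw [hqc] at h2
    have h3 : H * ((R + 1) * x / q + 1) ≤ H * (R + 2) * (x / q) := by
      have : (R + 1) * x / q + 1 ≤ (R + 2) * (x / q) := by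
        have e : (R + 2) * (x / q) = (R + 1) * x / q + x / q := by ring
        rw [e]; linarith
      calc H * ((R + 1) * x / q + 1) ≤ H * ((R + 2) * (x / q)) := mul_le_mul_of_nonneg_left this hH0
        _ = _ := by ring
    have h4 := abs_sub (a := ∑ n ∈ range M, cc T (2 ^ j * 3 ^ m) a n * φ (n / x)) (b := D * I * (x / q))
    have h5 : (H * (R + 2) + |I|) * (x / q) ≤ (H * (R + 2) + |I|) * 20 ^ B * (x / q) / (Real.log x) ^ B := by
      rw [le_div_iff₀ hlxB]
      have h6 : (Real.log x) ^ B ≤ 20 ^ B := pow_le_pow_left₀ hlx.le hsm.le B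
      calc (H * (R + 2) + |I|) * (x / q) * (Real.log x) ^ B ≤ (H * (R + 2) + |I|) * (x / q) * 20 ^ B :=
            mul_le_mul_of_nonneg_left h6 (by positivity)
        _ = _ := by ring
    have e : (H * (R + 2) + |I|) * (x / q) = H * (R + 2) * (x / q) + |I| * (x / q) := by ring
    rw [e] at h5
    linarith
  · -- large x
    have hsq : √ x = x ^ (1 / 2 : ℝ) := Real.sqrt_eq_rpow x
    have hsx0 : 0 < √ x := Real.sqrt_pos.2 hx0
    have hlsq : Real.log (√ x) = Real.log x / 2 := Real.log_sqrt hx0.le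
    have hsq2 : 2 ≤ √ x := by
      have h2 : Real.exp 10 ≤ √ x := by
        rw [← Real.exp_log hsx0]
        exact Real.exp_le_exp.2 (by rw [hlsq]; linarith)
      have := Real.add_one_le_exp (10 : ℝ)
      linarith
    -- the functions
    obtain ⟨hi1, hw1⟩ := wt_int T (2 ^ j * 3 ^ m) a hφ (by linarith) hx0 hM1
    set M' : ℕ := ⌈(R + 1) * (ρ * x)⌉₊ with hM'
    have hM'1 : (R + 1) * (ρ * x) ≤ M' := Nat.le_ceil _
    have hρx0 : 0 < ρ * x := by positivity
    obtain ⟨hi2, hw2⟩ := wt_int T 1 0 hφ (by linarith) hρx0 hM'1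
    set F1 : ℝ → ℝ := fun v => ((wc T 1 (x * v) (2 ^ j * 3 ^ m) a).card : ℝ) * deriv φ v with hF1
    set F2 : ℝ → ℝ := fun v => ((wc T 1 (ρ * x * v) 1 0).card : ℝ) * deriv φ v with hF2
    have hdiff : ∑ n ∈ range M, cc T (2 ^ j * 3 ^ m) a n * φ (n / x)
        - (∑ n ∈ range M', cc T 1 0 n * φ (n / (ρ * x))) / 3 ^ (o + m)
        = -∫ v in (0 : ℝ)..(R + 1), (F1 v - F2 v / 3 ^ (o + m)) := by
      rw [hw1, hw2, intervalIntegral.integral_sub hi1 (hi2.div_const _), intervalIntegral.integral_div]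
      ring
    have hbound : ∀ v ∈ Set.uIoc (0 : ℝ) (R + 1), ‖F1 v - F2 v / 3 ^ (o + m)‖ ≤ E * (x / q) / (Real.log x) ^ B * L := by
      intro v hv
      rw [Set.uIoc_of_le (by linarith)] at hv
      have hv0 := hv.1
      have e : F1 v - F2 v / 3 ^ (o + m) = (((wc T 1 (x * v) (2 ^ j * 3 ^ m) a).card : ℝ)
          - ((wc T 1 (ρ * (x * v)) 1 0).card : ℝ) / 3 ^ (o + m)) * deriv φ v := by
        simp only [hF1, hF2]
        rw [show ρ * x * v = ρ * (x * v) by ring]; ring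
      rw [e, norm_mul, Real.norm_eq_abs]
      apply mul_le_mul _ (hL v) (norm_nonneg _) (by positivity)
      have hxv0 : 0 < x * v := by positivity
      rcases lt_or_ge (x * v) (√ x) with hlt | hge
      · -- small
        have c1 := wc_short T (a := 1) (b := x * v) (l := √ x) (by linarith) hsx0.le hqZ a
        rw [hqc] at c1
        have c2 := wc_short T (a := 1) (b := ρ * (x * v)) (l := ρ * (x * v)) (by linarith) (by positivity) (q := 1) one_pos 0
        rw [Int.cast_one, div_one] at c2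
        have c3 : √ x / q ≤ √ x := div_le_self hsx0.le hq1
        have c4 : ((wc T 1 (ρ * (x * v)) 1 0).card : ℝ) / 3 ^ (o + m) ≤ √ x + 1 := by
          have c5 := div_le_div_of_nonneg_right c2 h3om.le
          rw [add_div, hratio] at c5
          have c6 : x * v / q ≤ √ x := (div_le_self hxv0.le hq1).trans hlt.le
          have c7 : 1 / (3 : ℝ) ^ (o + m) ≤ 1 := by rw [div_le_one h3om]; exact h3om1
          linarith
        have n1 : (0 : ℝ) ≤ (wc T 1 (x * v) (2 ^ j * 3 ^ m) a).card := Nat.cast_nonneg _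
        have n2 : 0 ≤ ((wc T 1 (ρ * (x * v)) 1 0).card : ℝ) / 3 ^ (o + m) := by positivity
        have c8 : √ x + 1 ≤ 2 * √ x := by linarith
        have c9 : 2 * √ x ≤ 2 * (4 ^ B * B.factorial) * (x / q) / (Real.log x) ^ B := by
          rw [le_div_iff₀ hlxB]
          have c10 := log_pow_le B hx1
          have hx4 : 0 < x ^ (1 / 4 : ℝ) := Real.rpow_pos_of_pos hx0 _
          have c11 : √ x * x ^ (1 / 4 : ℝ) ≤ x / q := by
            rw [le_div_iff₀ hq0, hsq]
            calc x ^ (1 / 2 : ℝ) * x ^ (1 / 4 : ℝ) * q ≤ x ^ (1 / 2 : ℝ) * x ^ (1 / 4 : ℝ) * x ^ (1 / 32 : ℝ) :=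
                  mul_le_mul_of_nonneg_left hqx (by positivity)
              _ = x ^ (1 / 2 + 1 / 4 + 1 / 32 : ℝ) := by rw [← Real.rpow_add hx0, ← Real.rpow_add hx0]
              _ ≤ x ^ (1 : ℝ) := Real.rpow_le_rpow_of_exponent_le hx1 (by norm_num)
              _ = x := Real.rpow_one x
          calc 2 * √ x * (Real.log x) ^ B ≤ 2 * √ x * (4 ^ B * B.factorial * x ^ (1 / 4 : ℝ)) :=
                mul_le_mul_of_nonneg_left c10 (by positivity)
            _ = 2 * (4 ^ B * B.factorial) * (√ x * x ^ (1 / 4 : ℝ)) := by ring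
            _ ≤ 2 * (4 ^ B * B.factorial) * (x / q) := mul_le_mul_of_nonneg_left c11 (by positivity)
        have c12 : E * (x / q) / (Real.log x) ^ B = K0 * (R + 1) * 2 ^ B * (x / q) / (Real.log x) ^ B
            + 2 * (4 ^ B * B.factorial) * (x / q) / (Real.log x) ^ B := by rw [hE]; ring
        have c13 : 0 ≤ K0 * (R + 1) * 2 ^ B * (x / q) / (Real.log x) ^ B := by positivity
        rw [c12, abs_le]
        constructor <;> linarith
      · -- large
        have hv2 : 2 ≤ x * v := by linarith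
        have hqv : q ≤ (x * v) ^ c := by
          refine hq.trans ?_
          have : x ^ (c / 2) = (√ x) ^ c := by
            rw [hsq, ← Real.rpow_mul hx0.le]; congr 1; ring
          rw [this]
          exact Real.rpow_le_rpow hsx0.le hge hc.le
        have c1 := h1 (x * v) hv2 hqv
        have hlv : Real.log x / 2 ≤ Real.log (x * v) := by
          rw [← hlsq]; exact Real.log_le_log hsx0 hge
        refine c1.trans ?_
        have c2 : K0 * (x * v / q) / (Real.log (x * v)) ^ B ≤ K0 * (R + 1) * 2 ^ B * (x / q) / (Real.log x) ^ B := by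
          rw [div_le_div_iff₀ (pow_pos (by linarith) B) hlxB]
          have c3 : (Real.log x) ^ B ≤ 2 ^ B * (Real.log (x * v)) ^ B := by
            rw [← mul_pow]
            exact pow_le_pow_left₀ hlx.le (by linarith) B
          have c4 : x * v / q ≤ (R + 1) * (x / q) := by
            rw [mul_div_assoc', mul_comm (R + 1) x]
            exact div_le_div_of_nonneg_right (mul_le_mul_of_nonneg_left hv.2 hx0.le) hq0.le
          calc K0 * (x * v / q) * (Real.log x) ^ B ≤ K0 * ((R + 1) * (x / q)) * (2 ^ B * (Real.log (x * v)) ^ B) := by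
                apply mul_le_mul _ c3 (by positivity) (by positivity)
                exact mul_le_mul_of_nonneg_left c4 hK0.le
            _ = _ := by ring
        have c12 : E * (x / q) / (Real.log x) ^ B = K0 * (R + 1) * 2 ^ B * (x / q) / (Real.log x) ^ B
            + 2 * (4 ^ B * B.factorial) * (x / q) / (Real.log x) ^ B := by rw [hE]; ring
        have c13 : 0 ≤ 2 * (4 ^ B * B.factorial) * (x / q) / (Real.log x) ^ B := by positivity
        rw [c12]; linarith
    have h2 := intervalIntegral.norm_integral_le_of_norm_le_const hbound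
    rw [Real.norm_eq_abs, show R + 1 - 0 = R + 1 by ring, abs_of_pos (by linarith : 0 < R + 1)] at h2
    have h3 : |∑ n ∈ range M, cc T (2 ^ j * 3 ^ m) a n * φ (n / x)
        - (∑ n ∈ range M', cc T 1 0 n * φ (n / (ρ * x))) / 3 ^ (o + m)| ≤ (R + 1) * L * E * (x / q) / (Real.log x) ^ B := by
      rw [hdiff, abs_neg]
      refine h2.trans (le_of_eq ?_)
      ring
    -- the sum over all of T
    have hρx : √ x ≤ ρ * x := by
      have g1 : (2 : ℝ) ^ j ≤ √ x := by
        have : (2 : ℝ) ^ j ≤ q := by rw [hqdef]; exact le_mul_of_one_le_right h2j.le h3m1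
        rw [hsq]
        refine (this.trans hqx).trans (Real.rpow_le_rpow_of_exponent_le hx1 (by norm_num))
      rw [hρ, div_mul_eq_mul_div, le_div_iff₀ h2j]
      calc √ x * 2 ^ j ≤ √ x * √ x := mul_le_mul_of_nonneg_left g1 hsx0.le
        _ = x := Real.mul_self_sqrt hx0.le
        _ ≤ 3 ^ o * x := le_mul_of_one_le_left hx0.le h3o1
    have hlρ : Real.log x / 2 ≤ Real.log (ρ * x) := by
      rw [← hlsq]; exact Real.log_le_log hsx0 hρx
    have h4 := hCB T hT D hD B (Real.log (ρ * x)) (by linarith)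
    rw [gg_log T φ hρx0, tsum_cc T 1 0 hφ.van hρx0 hM'1] at h4
    have h5 : |(∑ n ∈ range M', cc T 1 0 n * φ (n / (ρ * x))) / 3 ^ (o + m) - D * I * (x / q)|
        ≤ |CB B| * 2 ^ B * (x / q) / (Real.log x) ^ B := by
      have e : (∑ n ∈ range M', cc T 1 0 n * φ (n / (ρ * x))) / 3 ^ (o + m) - D * I * (x / q)
          = ((∑ n ∈ range M', cc T 1 0 n * φ (n / (ρ * x))) / (ρ * x) - D * I) * (x / q) := by
        rw [← hratio x]; field_simp
      rw [e, abs_mul, abs_of_pos (by positivity : 0 < x / q)]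
      have g1 : CB B / (Real.log (ρ * x)) ^ B ≤ |CB B| * 2 ^ B / (Real.log x) ^ B := by
        refine (div_le_div_of_nonneg_right (le_abs_self (CB B)) (pow_pos (by linarith) B).le).trans ?_
        rw [div_le_div_iff₀ (pow_pos (by linarith) B) hlxB, mul_assoc, ← mul_pow]
        apply mul_le_mul_of_nonneg_left _ (abs_nonneg _)
        exact pow_le_pow_left₀ hlx.le (by linarith) B
      have g2 := mul_le_mul_of_nonneg_right (h4.trans g1) (show 0 ≤ x / q by positivity)
      refine g2.trans (le_of_eq ?_)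
      ring
    have h6 := abs_sub_le (∑ n ∈ range M, cc T (2 ^ j * 3 ^ m) a n * φ (n / x))
      ((∑ n ∈ range M', cc T 1 0 n * φ (n / (ρ * x))) / 3 ^ (o + m)) (D * I * (x / q))
    linarith

end Pool.Agent.K6.H38.ND
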