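import Mathlib

/-! Convergence with a rate from comparison on multiplicative intervals. -/

set_option autoImplicit false

namespace Pool.Agent.K6.H38.ND

open Filter Topology

theorem tail_lemma {G ε : ℝ → ℝ} {W lam ρ : ℝ} (hW : 0 < W) (hlam : 1 < lam) (hρ0 : 0 ≤ ρ) (hρ : ρ < 1)
    (hε0 : ∀ w, W ≤ w → 0 ≤ ε w) (h : ∀ w w', W ≤ w → w ≤ w' → w' ≤ lam * w → |G w - G w'| ≤ ε w)
    (hε : ∀ w, W ≤ w → ε (lam * w) ≤ ρ * ε w) :
    ∃ D, Tendsto G atTop (𝓝 D) ∧ ∀ w, W ≤ w → |G w - D| ≤ ε w / (1 - ρ) := by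
  have h1ρ : 0 < 1 - ρ := by linarith
  have hP : ∀ i : ℕ, ∀ w w', W ≤ w → w ≤ w' → w' ≤ lam ^ i * w → |G w - G w'| ≤ ε w / (1 - ρ) := by
    intro i
    induction i with
    | zero =>
      intro w w' hw h1 h2
      rw [pow_zero, one_mul] at h2
      have : w' = w := le_antisymm h2 h1
      rw [this, sub_self, abs_zero]
      exact div_nonneg (hε0 w hw) h1ρ.le
    | succ i ih =>
      intro w w' hw h1 h2
      have hw0 : 0 < w := lt_of_lt_of_le hW hw
      rcases le_or_gt w' (lam * w) with h3 | h3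
      · refine (h w w' hw h1 h3).trans ?_
        rw [le_div_iff₀ h1ρ]
        have := hε0 w hw
        nlinarith
      · have hlw : w ≤ lam * w := le_mul_of_one_le_left hw0.le hlam.le
        have h4 := h w (lam * w) hw hlw le_rfl
        have h5 := ih (lam * w) w' (hw.trans hlw) h3.le (by rw [pow_succ] at h2; linarith)
        have h6 := abs_sub_le (G w) (G (lam * w)) (G w')
        have h7 : ε (lam * w) / (1 - ρ) ≤ ρ * ε w / (1 - ρ) := div_le_div_of_nonneg_right (hε w hw) h1ρ.le
        have h8 : ε w / (1 - ρ) = ε w + ρ * ε w / (1 - ρ) := by field_simp; ring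
        rw [h8]
        linarith
  have hAll : ∀ w w', W ≤ w → w ≤ w' → |G w - G w'| ≤ ε w / (1 - ρ) := by
    intro w w' hw hww
    have hw0 : 0 < w := lt_of_lt_of_le hW hw
    obtain ⟨i, hi⟩ := pow_unbounded_of_one_lt (w' / w) hlam
    refine hP i w w' hw hww ?_
    rw [div_lt_iff₀ hw0] at hi
    exact hi.le
  have hεi : ∀ i : ℕ, ε (lam ^ i * W) ≤ ρ ^ i * ε W := by
    intro i
    induction i with
    | zero => simp
    | succ i ih =>
      have h1 : W ≤ lam ^ i * W := le_mul_of_one_le_left hW.le (one_le_pow₀ hlam.le)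
      have h2 := hε _ h1
      have e : lam ^ (i + 1) * W = lam * (lam ^ i * W) := by ring
      rw [e]
      refine h2.trans ?_
      rw [pow_succ]
      have := mul_le_mul_of_nonneg_left ih hρ0
      linarith
  have hC : CauchySeq G := by
    rw [Metric.cauchySeq_iff]
    intro e he
    have hεW := hε0 W le_rfl
    obtain ⟨i, hi⟩ := exists_pow_lt_of_lt_one (show 0 < e * (1 - ρ) / (2 * (ε W + 1)) by positivity) hρ
    refine ⟨lam ^ i * W, ?_⟩
    intro m hm n hn
    have h1 : W ≤ lam ^ i * W := le_mul_of_one_le_left hW.le (one_le_pow₀ hlam.le)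
    have h2 := hAll _ m h1 hm
    have h3 := hAll _ n h1 hn
    rw [Real.dist_eq]
    have h4 := abs_sub_le (G m) (G (lam ^ i * W)) (G n)
    rw [abs_sub_comm] at h2
    have h5 : ε (lam ^ i * W) / (1 - ρ) < e / 2 := by
      rw [div_lt_iff₀ h1ρ]
      refine lt_of_le_of_lt (hεi i) ?_
      rw [lt_div_iff₀ (by positivity)] at hi
      have h6 : ρ ^ i * ε W ≤ ρ ^ i * (ε W + 1) := mul_le_mul_of_nonneg_left (by linarith) (by positivity)
      linarith
    linarith
  obtain ⟨D, hD⟩ := cauchySeq_tendsto_of_complete hC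
  refine ⟨D, hD, ?_⟩
  intro w hw
  have h1 : Tendsto (fun w' => |G w - G w'|) atTop (𝓝 |G w - D|) := (tendsto_const_nhds.sub hD).abs
  refine le_of_tendsto h1 ?_
  filter_upwards [eventually_ge_atTop w] with w' hw'
  exact hAll w w' hw hw'

end Pool.Agent.K6.H38.ND
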