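import Pool.Agent.K6.H38.ND.Dio
import Pool.Agent.K6.H38.ND.Tail

/-! Almost harmonic functions: the rate of convergence. -/

set_option autoImplicit false

namespace Pool.Agent.K6.H38.ND

open Filter Topology

variable {K : ℝ}

theorem lipab {G : ℝ → ℝ} (h : Hyp K G) {a b x₀ : ℝ} (hx : 1 ≤ x₀) (ha : x₀ ≤ a) (hb : x₀ ≤ b) :
    |G a - G b| ≤ |a - b| + 1 / x₀ := by
  rcases le_total b a with hab | hab
  · have h1 := h.lip a (a - b) (by linarith) (by linarith)
    rw [show a - (a - b) = b by ring] at h1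
    rw [abs_of_nonneg (by linarith : 0 ≤ a - b)]
    have : 1 / a ≤ 1 / x₀ := one_div_le_one_div_of_le (by linarith) ha
    linarith
  · have h1 := h.lip b (b - a) (by linarith) (by linarith)
    rw [show b - (b - a) = a by ring] at h1
    rw [abs_sub_comm a b, abs_sub_comm (G a), abs_of_nonneg (by linarith : 0 ≤ b - a)]
    have : 1 / b ≤ 1 / x₀ := one_div_le_one_div_of_le (by linarith) hb
    linarith

theorem triv {G : ℝ → ℝ} (h : Hyp K G) (a b : ℝ) : |G a - G b| ≤ 2 := by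
  have h1 := h.one a
  have h2 := h.one b
  have := abs_sub (a := G a) (b := G b)
  linarith

theorem sqrt_ge {N : ℕ} {w : ℝ} (hw : (N : ℝ) ^ 34 ≤ w) : (N : ℝ) ^ 17 ≤ √ w := by
  apply Real.le_sqrt_of_sq_le
  rw [← pow_mul]
  exact hw

theorem S4 (hK : 0 ≤ K) : ∃ C : ℝ, 0 < C ∧ ∀ G, Hyp K G → ∀ N : ℕ, 1 ≤ N → ∀ w : ℝ, (N : ℝ) ^ 34 ≤ w →
    ∀ t : ℝ, 0 ≤ t → t ≤ 1 → |G w - G (w - t)| ≤ C / N := by
  obtain ⟨CD, hCD, hdio⟩ := dio_inhom
  set N1 : ℕ := ⌈8 * CD⌉₊ + 2 with hN1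
  refine ⟨2 * N1 + 12 * CD + 85 * K + 4, by positivity, ?_⟩
  intro G hG N hN w hw t ht0 ht1
  have hNR : (1 : ℝ) ≤ N := by exact_mod_cast hN
  have hN0 : (0 : ℝ) < N := by linarith
  rcases lt_or_ge N N1 with hs | hl
  · refine (triv hG _ _).trans ?_
    rw [le_div_iff₀ hN0]
    have h1 : (N : ℝ) ≤ N1 := by exact_mod_cast hs.le
    linarith
  · have hlR : 8 * CD + 2 ≤ (N : ℝ) := by
      have h1 : ((⌈8 * CD⌉₊ + 2 : ℕ) : ℝ) ≤ N := by exact_mod_cast hl
      push_cast at h1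
      have := Nat.le_ceil (8 * CD)
      linarith
    obtain ⟨j, b, hj, hb, hjb⟩ := hdio N hN t ht0 ht1
    have hN2 : (10 : ℝ) ≤ N := by linarith
    have hNw : (N : ℝ) ≤ w := (le_self_pow₀ hNR (by norm_num)).trans hw
    have hw0 : 0 < w := by linarith
    have hw16 : 16 ≤ w := by
      refine le_trans ?_ hw
      calc (16 : ℝ) ≤ 10 ^ 2 := by norm_num
        _ ≤ (N : ℝ) ^ 2 := pow_le_pow_left₀ (by norm_num) hN2 2
        _ ≤ (N : ℝ) ^ 34 := pow_le_pow_right₀ hNR (by norm_num)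
    have hj8 : (j : ℝ) ≤ w / 8 := by
      have h1 : 8 * (CD * (N : ℝ) ^ 16) ≤ w := by
        refine le_trans ?_ hw
        calc 8 * (CD * (N : ℝ) ^ 16) = (8 * CD) * (N : ℝ) ^ 16 := by ring
          _ ≤ N * (N : ℝ) ^ 16 := mul_le_mul_of_nonneg_right (by linarith) (by positivity)
          _ = (N : ℝ) ^ 17 := by ring
          _ ≤ (N : ℝ) ^ 34 := pow_le_pow_right₀ hNR (by norm_num)
      linarith
    set X : ℝ := CD * (N : ℝ) ^ 16 with hX
    have hX1 : 1 ≤ X := by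
      have : (1 : ℝ) ≤ (N : ℝ) ^ 16 := one_le_pow₀ hNR
      calc (1 : ℝ) = 1 * 1 := by norm_num
        _ ≤ CD * (N : ℝ) ^ 16 := mul_le_mul hCD this (by norm_num) (by linarith)
    have hj0 : (0 : ℝ) ≤ j := Nat.cast_nonneg j
    have hb0 : (0 : ℝ) ≤ b := Nat.cast_nonneg b
    have h1 := shift_close hK hG hw16 hj8 (l := 2 * X) (by linarith) (b := b) (by
      have h2 : ((j : ℝ) / 2 - b) ^ 2 ≤ X ^ 2 := by
        apply sq_le_sq'
        · linarith
        · linarith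
      nlinarith)
    have hsq := sqrt_ge hw
    have h2 : 6 * (2 * X) / √ w ≤ 12 * CD / N := by
      rw [div_le_div_iff₀ (by positivity) hN0]
      have h3 := mul_le_mul_of_nonneg_left hsq (show 0 ≤ 12 * CD by linarith)
      calc 6 * (2 * X) * N = 12 * CD * (N : ℝ) ^ 17 := by rw [hX]; ring
        _ ≤ _ := h3
    have h3 : 85 * K / w ^ 2 ≤ 85 * K / N := by
      apply div_le_div_of_nonneg_left (by positivity) hN0
      nlinarith
    have hw' : w - t - 1 / N ≤ w - j * Real.log 2 + b * Real.log 3 := by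
      have := (abs_le.1 hjb).1
      linarith
    have hinv : 1 / (N : ℝ) ≤ 1 := by rw [div_le_one hN0]; exact hNR
    have h4 := lipab hG (a := w - j * Real.log 2 + b * Real.log 3) (b := w - t) (x₀ := w / 2) (by linarith) (by linarith) (by linarith)
    have e : w - j * Real.log 2 + b * Real.log 3 - (w - t) = b * Real.log 3 - j * Real.log 2 + t := by ring
    rw [e] at h4
    have h5 : 1 / (w / 2) ≤ 2 / N := by
      rw [one_div_div]
      exact div_le_div_of_nonneg_left (by norm_num) hN0 hNw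
    have h6 := abs_sub_le (G w) (G (w - j * Real.log 2 + b * Real.log 3)) (G (w - t))
    have h7 : (2 * (N1 : ℝ) + 12 * CD + 85 * K + 4) / N = 2 * N1 / N + 12 * CD / N + 85 * K / N + 1 / N + 2 / N + 1 / N := by ring
    rw [h7]
    have h8 : 0 ≤ 2 * (N1 : ℝ) / N := by positivity
    have h9 : 0 ≤ 1 / (N : ℝ) := by positivity
    linarith

theorem half_nat {N : ℕ} (hN : 2 ≤ N) : 1 ≤ N / 2 ∧ (N : ℝ) / 3 ≤ ((N / 2 : ℕ) : ℝ) ∧ ((N / 2 : ℕ) : ℝ) ≤ N / 2 := by
  refine ⟨by omega, ?_, Nat.cast_div_le⟩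
  rw [div_le_iff₀ (by norm_num)]
  have : N ≤ N / 2 * 3 := by omega
  exact_mod_cast this

theorem half_pow {N : ℕ} {w : ℝ} (hw : (N : ℝ) ^ 34 ≤ 2 * w) : ((N / 2 : ℕ) : ℝ) ^ 34 ≤ w := by
  have h1 : ((N / 2 : ℕ) : ℝ) ≤ N / 2 := Nat.cast_div_le
  have h2 := pow_le_pow_left₀ (Nat.cast_nonneg _) h1 34
  rw [div_pow] at h2
  have h3 : (N : ℝ) ^ 34 / 2 ^ 34 ≤ (N : ℝ) ^ 34 / 2 := by
    apply div_le_div_of_nonneg_left (by positivity) (by norm_num) (by norm_num)
  linarith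

theorem S5 (hK : 0 ≤ K) : ∃ C : ℝ, 0 < C ∧ ∀ G, Hyp K G → ∀ N : ℕ, 1 ≤ N → ∀ w : ℝ, (N : ℝ) ^ 34 ≤ w →
    ∀ t : ℝ, 0 ≤ t → t ≤ (N : ℝ) ^ 32 → |G w - G (w - t)| ≤ C / N := by
  obtain ⟨C4, hC4, h4⟩ := S4 hK
  have hl2 := l2b
  have hl3 := l3b
  refine ⟨20 + 12 + 85 * K + 3 * C4, by positivity, ?_⟩
  intro G hG N hN w hw t ht0 ht1
  have hNR : (1 : ℝ) ≤ N := by exact_mod_cast hN
  have hN0 : (0 : ℝ) < N := by linarith
  rcases lt_or_ge N 10 with hs | hl
  · refine (triv hG _ _).trans ?_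
    rw [le_div_iff₀ hN0]
    have h1 : (N : ℝ) ≤ 10 := by exact_mod_cast hs.le
    linarith
  · have hN2 : (10 : ℝ) ≤ N := by exact_mod_cast hl
    have hNw : (N : ℝ) ≤ w := (le_self_pow₀ hNR (by norm_num)).trans hw
    have hw0 : 0 < w := by linarith
    have h100 : 100 * (N : ℝ) ^ 32 ≤ w := by
      refine le_trans ?_ hw
      calc 100 * (N : ℝ) ^ 32 = 10 ^ 2 * (N : ℝ) ^ 32 := by ring
        _ ≤ (N : ℝ) ^ 2 * (N : ℝ) ^ 32 := mul_le_mul_of_nonneg_right (pow_le_pow_left₀ (by norm_num) hN2 2) (by positivity)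
        _ = (N : ℝ) ^ 34 := by ring
    have hN32 : (1 : ℝ) ≤ (N : ℝ) ^ 32 := one_le_pow₀ hNR
    set γ2 : ℝ := 2 * Real.log 2 - Real.log 3 with hγ2
    have hγa : 0.2874 ≤ γ2 := by rw [hγ2]; linarith
    have hγb : γ2 ≤ 0.288 := by rw [hγ2]; linarith
    set b : ℕ := ⌊t / γ2⌋₊ with hb
    have hb1 : (b : ℝ) ≤ t / γ2 := Nat.floor_le (by positivity)
    have hb2 : t / γ2 < b + 1 := Nat.lt_floor_add_one _
    rw [le_div_iff₀ (by linarith)] at hb1
    rw [div_lt_iff₀ (by linarith)] at hb2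
    have hb0 : (0 : ℝ) ≤ b := Nat.cast_nonneg b
    have hb35 : (b : ℝ) ≤ 3.5 * t := by nlinarith
    have h1 := shift_close hK hG (w := w) (j := 2 * b) (b := b) (l := 2 * (N : ℝ) ^ 16) (by linarith) (by push_cast; linarith)
      (by positivity) (by
        push_cast
        have e : (2 * (N : ℝ) ^ 16) ^ 2 = 4 * (N : ℝ) ^ 32 := by ring
        rw [e]
        have e2 : (2 * (b : ℝ) / 2 - b) ^ 2 + 2 * (b : ℝ) / 4 = b / 2 := by ring
        rw [e2]; linarith)
    push_cast at h1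
    have e3 : w - 2 * (b : ℝ) * Real.log 2 + b * Real.log 3 = w - b * γ2 := by rw [hγ2]; ring
    rw [e3] at h1
    have hsq := sqrt_ge hw
    have h2 : 6 * (2 * (N : ℝ) ^ 16) / √ w ≤ 12 / N := by
      rw [div_le_div_iff₀ (by positivity) hN0]
      calc 6 * (2 * (N : ℝ) ^ 16) * N = 12 * (N : ℝ) ^ 17 := by ring
        _ ≤ 12 * √ w := by linarith
    have h3 : 85 * K / w ^ 2 ≤ 85 * K / N := by
      apply div_le_div_of_nonneg_left (by positivity) hN0
      nlinarith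
    -- remainder
    obtain ⟨hH1, hH2, hH3⟩ := half_nat (N := N) (by omega)
    have hw1 : w / 2 ≤ w - b * γ2 := by linarith
    have h5 := h4 G hG (N / 2) hH1 (w - b * γ2) (half_pow (by linarith)) (t - b * γ2) (by linarith) (by linarith)
    rw [show w - b * γ2 - (t - b * γ2) = w - t by ring] at h5
    have h6 : C4 / ((N / 2 : ℕ) : ℝ) ≤ 3 * C4 / N := by
      rw [div_le_div_iff₀ (by linarith) hN0]
      have := mul_le_mul_of_nonneg_left hH2 (show 0 ≤ 3 * C4 by positivity)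
      calc C4 * (N : ℝ) = 3 * C4 * (N / 3) := by ring
        _ ≤ _ := this
    have h7 := abs_sub_le (G w) (G (w - b * γ2)) (G (w - t))
    have h8 : (20 + 12 + 85 * K + 3 * C4) / N = 20 / N + 12 / N + 85 * K / N + 3 * C4 / N := by ring
    rw [h8]
    have h9 : 0 ≤ 20 / (N : ℝ) := by positivity
    linarith

theorem S6 (hK : 0 ≤ K) : ∃ C : ℝ, 0 < C ∧ ∀ G, Hyp K G → ∀ N : ℕ, 1 ≤ N → ∀ w : ℝ, (N : ℝ) ^ 34 ≤ w →
    ∀ t : ℝ, 0 ≤ t → t ≤ (N : ℝ) ^ 34 / 10 → |G w - G (w - t)| ≤ C / N := by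
  obtain ⟨C4, hC4, h4⟩ := S4 hK
  obtain ⟨C5, hC5, h5⟩ := S5 hK
  have hl2 := l2b
  have hl3 := l3b
  refine ⟨200 + 38 * K + 3 * C5 + 1 + 3 * C4, by positivity, ?_⟩
  intro G hG N hN w hw t ht0 ht1
  have hNR : (1 : ℝ) ≤ N := by exact_mod_cast hN
  have hN0 : (0 : ℝ) < N := by linarith
  rcases lt_or_ge N 100 with hs | hl
  · refine (triv hG _ _).trans ?_
    rw [le_div_iff₀ hN0]
    have h1 : (N : ℝ) ≤ 100 := by exact_mod_cast hs.le
    linarith
  · have hN2 : (100 : ℝ) ≤ N := by exact_mod_cast hl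
    have hNw : (N : ℝ) ≤ w := (le_self_pow₀ hNR (by norm_num)).trans hw
    have hw0 : 0 < w := by linarith
    set γ2 : ℝ := 2 * Real.log 2 - Real.log 3 with hγ2
    have hγa : 0.2874 ≤ γ2 := by rw [hγ2]; linarith
    have hγb : γ2 ≤ 0.288 := by rw [hγ2]; linarith
    set m : ℕ := ⌊t / γ2⌋₊ with hm
    have hm1 : (m : ℝ) ≤ t / γ2 := Nat.floor_le (by positivity)
    have hm2 : t / γ2 < m + 1 := Nat.lt_floor_add_one _
    rw [le_div_iff₀ (by linarith)] at hm1
    rw [div_lt_iff₀ (by linarith)] at hm2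
    have hm0 : (0 : ℝ) ≤ m := Nat.cast_nonneg m
    have hm35 : (m : ℝ) ≤ 3.5 * t := by nlinarith
    have hmw : (m : ℝ) ≤ 0.35 * (N : ℝ) ^ 34 := by linarith
    obtain ⟨hH1, hH2, hH3⟩ := half_nat (N := N) (by omega)
    set y : ℝ := w - (2 * m : ℕ) * Real.log 2 with hy
    have hy2 : y = w - 2 * m * Real.log 2 := by rw [hy]; push_cast; ring
    set c₀ : ℝ := G (y + m * Real.log 3) with hc₀
    have hym : y + m * Real.log 3 = w - m * γ2 := by rw [hy2, hγ2]; ring
    set R : ℝ := (N : ℝ) ^ 18 with hR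
    have hR0 : 0 < R := by positivity
    -- the shift range of S5
    have hRS : 1.1 * R ≤ ((N / 2 : ℕ) : ℝ) ^ 32 := by
      have h6 : ((N : ℝ) / 3) ^ 32 ≤ ((N / 2 : ℕ) : ℝ) ^ 32 := pow_le_pow_left₀ (by positivity) hH2 32
      refine le_trans ?_ h6
      rw [div_pow, le_div_iff₀ (by positivity)]
      calc 1.1 * R * 3 ^ 32 ≤ (100 : ℝ) ^ 14 * R := by
            have : (1.1 : ℝ) * 3 ^ 32 ≤ 100 ^ 14 := by norm_num
            nlinarith
        _ ≤ (N : ℝ) ^ 14 * R := mul_le_mul_of_nonneg_right (pow_le_pow_left₀ (by norm_num) hN2 14) hR0.le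
        _ = (N : ℝ) ^ 32 := by rw [hR]; ring
    have hquad : ∀ k : ℤ, |G (y + k * Real.log 3) - c₀| ≤ C5 / ((N / 2 : ℕ) : ℝ) + 2 / R ^ 2 * ((k : ℝ) - m) ^ 2 := by
      intro k
      rcases le_or_gt (|(k : ℝ) - m|) R with hk | hk
      · have h6 : |G (y + k * Real.log 3) - c₀| ≤ C5 / ((N / 2 : ℕ) : ℝ) := by
          rcases le_total (k : ℝ) m with hkm | hkm
          · -- k ≤ m
            have h7 := h5 G hG (N / 2) hH1 (y + m * Real.log 3) (half_pow (by rw [hym]; linarith)) (((m : ℝ) - k) * Real.log 3)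
              (mul_nonneg (by linarith) (by linarith)) (by
                rw [abs_of_nonpos (by linarith)] at hk
                refine le_trans ?_ hRS
                have : ((m : ℝ) - k) * Real.log 3 ≤ R * 1.1 := mul_le_mul (by linarith) (by linarith) (by linarith) hR0.le
                linarith)
            rw [show y + m * Real.log 3 - ((m : ℝ) - k) * Real.log 3 = y + k * Real.log 3 by ring] at h7
            rw [abs_sub_comm]; exact h7
          · have h7 := h5 G hG (N / 2) hH1 (y + k * Real.log 3) (half_pow (by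
                have : 0 ≤ ((k : ℝ) - m) * Real.log 3 := mul_nonneg (by linarith) (by linarith)
                have e : y + k * Real.log 3 = y + m * Real.log 3 + ((k : ℝ) - m) * Real.log 3 := by ring
                rw [e, hym]; linarith)) (((k : ℝ) - m) * Real.log 3)
              (mul_nonneg (by linarith) (by linarith)) (by
                rw [abs_of_nonneg (by linarith)] at hk
                refine le_trans ?_ hRS
                have : ((k : ℝ) - m) * Real.log 3 ≤ R * 1.1 := mul_le_mul (by linarith) (by linarith) (by linarith) hR0.le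
                linarith)
            rw [show y + k * Real.log 3 - ((k : ℝ) - m) * Real.log 3 = y + m * Real.log 3 by ring] at h7
            exact h7
        have h8 : 0 ≤ 2 / R ^ 2 * ((k : ℝ) - m) ^ 2 := by positivity
        linarith
      · have h6 := triv hG (y + k * Real.log 3) (y + m * Real.log 3)
        have h7 : 2 ≤ 2 / R ^ 2 * ((k : ℝ) - m) ^ 2 := by
          rw [div_mul_eq_mul_div, le_div_iff₀ (by positivity), ← sq_abs ((k : ℝ) - m)]
          have := pow_le_pow_left₀ hR0.le hk.le 2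
          linarith
        have h8 : 0 ≤ C5 / ((N / 2 : ℕ) : ℝ) := by positivity
        linarith
    have h6 := Av_quad (2 * m) hquad 0
    have e6 : y + (2 * m : ℕ) * Real.log 2 + ((0 : ℤ) : ℝ) * Real.log 3 = w := by rw [hy]; push_cast; ring
    rw [e6] at h6
    have e7 : (((0 : ℤ) : ℝ) + ((2 * m : ℕ) : ℝ) / 2 - m) ^ 2 + ((2 * m : ℕ) : ℝ) / 4 = m / 2 := by push_cast; ring
    rw [e7] at h6
    have h7 : 2 / R ^ 2 * ((m : ℝ) / 2) ≤ 1 / N := by
      have e8 : 2 / R ^ 2 * ((m : ℝ) / 2) = m / R ^ 2 := by ring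
      rw [e8, div_le_div_iff₀ (by positivity) hN0, one_mul]
      calc (m : ℝ) * N ≤ (0.35 * (N : ℝ) ^ 34) * N := mul_le_mul_of_nonneg_right hmw hN0.le
        _ ≤ (N : ℝ) ^ 35 := by
            have : (0 : ℝ) ≤ (N : ℝ) ^ 35 := by positivity
            have e : (0.35 * (N : ℝ) ^ 34) * N = 0.35 * (N : ℝ) ^ 35 := by ring
            rw [e]; linarith
        _ ≤ (N : ℝ) ^ 36 := pow_le_pow_right₀ hNR (by norm_num)
        _ = R ^ 2 := by rw [hR]; ring
    have h8 := iter_close' hK hG (w := w) (by linarith) (n := 2 * m) (by push_cast; linarith)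
    have h9 : 38 * K / w ^ 2 ≤ 38 * K / N := by
      apply div_le_div_of_nonneg_left (by positivity) hN0
      nlinarith
    have h10 : C5 / ((N / 2 : ℕ) : ℝ) ≤ 3 * C5 / N := by
      rw [div_le_div_iff₀ (by linarith) hN0]
      have := mul_le_mul_of_nonneg_left hH2 (show 0 ≤ 3 * C5 by positivity)
      calc C5 * (N : ℝ) = 3 * C5 * (N / 3) := by ring
        _ ≤ _ := this
    have h11 := h4 G hG (N / 2) hH1 (w - m * γ2) (half_pow (by linarith)) (t - m * γ2) (by linarith) (by linarith)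
    rw [show w - m * γ2 - (t - m * γ2) = w - t by ring, ← hym, ← hc₀] at h11
    have h12 : C4 / ((N / 2 : ℕ) : ℝ) ≤ 3 * C4 / N := by
      rw [div_le_div_iff₀ (by linarith) hN0]
      have := mul_le_mul_of_nonneg_left hH2 (show 0 ≤ 3 * C4 by positivity)
      calc C4 * (N : ℝ) = 3 * C4 * (N / 3) := by ring
        _ ≤ _ := this
    have h13 := abs_sub_le (G w) ((Av^[2 * m] G) w) c₀
    have h14 := abs_sub_le (G w) c₀ (G (w - t))
    have h15 : (200 + 38 * K + 3 * C5 + 1 + 3 * C4) / N = 200 / N + 38 * K / N + 3 * C5 / N + 1 / N + 3 * C4 / N := by ring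
    rw [h15]
    have h16 : 0 ≤ 200 / (N : ℝ) := by positivity
    linarith

end Pool.Agent.K6.H38.ND
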