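import Pool.Agent.K6.H38.ND.Op
import Pool.Agent.K6.H38.ND.Dio

/-! Smooth functions which are almost harmonic: differences and derivatives. -/

set_option autoImplicit false

namespace Pool.Agent.K6.H38.ND

/-- mean value inequality on a half line -/
theorem mvt {f f' : ℝ → ℝ} {x₀ C : ℝ} (h : ∀ w, x₀ ≤ w → HasDerivAt f (f' w) w) (hC : ∀ w, x₀ ≤ w → |f' w| ≤ C)
    {a b : ℝ} (ha : x₀ ≤ a) (hb : x₀ ≤ b) : |f b - f a| ≤ C * |b - a| := by
  have := Convex.norm_image_sub_le_of_norm_hasDerivWithin_le (f := f) (f' := f') (C := C) (s := Set.Ici x₀) (x := a) (y := b)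
    (fun x hx => (h x hx).hasDerivWithinAt) (fun x hx => by rw [Real.norm_eq_abs]; exact hC x hx) (convex_Ici x₀) ha hb
  simpa [Real.norm_eq_abs] using this

/-- first order Taylor formula on a half line -/
theorem taylor1 {f f' f'' : ℝ → ℝ} {x₀ M : ℝ} (h : ∀ w, x₀ ≤ w → HasDerivAt f (f' w) w)
    (h' : ∀ w, x₀ ≤ w → HasDerivAt f' (f'' w) w) (hM : ∀ w, x₀ ≤ w → |f'' w| ≤ M)
    {a b : ℝ} (ha : x₀ ≤ a) (hb : x₀ ≤ b) : |f b - f a - (b - a) * f' a| ≤ M * (b - a) ^ 2 := by
  have h1 : ∀ w ∈ Set.uIcc a b, HasDerivWithinAt (fun s => f s - (s - a) * f' a) (f' w - f' a) (Set.uIcc a b) w := by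
    intro w hw
    have hw0 : x₀ ≤ w := by
      rw [Set.mem_uIcc] at hw
      rcases hw with hw | hw <;> linarith
    have h2 : HasDerivAt (fun s => f s - (s - a) * f' a) (f' w - 1 * f' a) w :=
      (h w hw0).sub (((hasDerivAt_id w).sub_const a).mul_const (f' a))
    rw [one_mul] at h2
    exact h2.hasDerivWithinAt
  have h2 : ∀ w ∈ Set.uIcc a b, ‖f' w - f' a‖ ≤ M * |b - a| := by
    intro w hw
    have hw0 : x₀ ≤ w := by
      rw [Set.mem_uIcc] at hw
      rcases hw with hw | hw <;> linarith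
    have h3 := mvt h' hM ha hw0
    rw [Real.norm_eq_abs]
    refine h3.trans (mul_le_mul_of_nonneg_left ?_ ((abs_nonneg _).trans (hM a ha)))
    rw [Set.mem_uIcc] at hw
    rcases hw with hw | hw
    · rw [abs_of_nonneg (by linarith), abs_of_nonneg (by linarith)]; linarith
    · rw [abs_of_nonpos (by linarith), abs_of_nonpos (by linarith)]; linarith
  have := Convex.norm_image_sub_le_of_norm_hasDerivWithin_le (f := fun s => f s - (s - a) * f' a) (f' := fun w => f' w - f' a)
    (C := M * |b - a|) (s := Set.uIcc a b) (x := a) (y := b) h1 h2 (convex_uIcc a b) Set.left_mem_uIcc Set.right_mem_uIcc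
  rw [Real.norm_eq_abs, Real.norm_eq_abs] at this
  have e : f b - (b - a) * f' a - (f a - (a - a) * f' a) = f b - f a - (b - a) * f' a := by ring
  rw [e] at this
  refine this.trans (le_of_eq ?_)
  rw [mul_assoc, ← sq, sq_abs]

/-- sequences of smooth, bounded, almost harmonic functions, each the derivative of the one before -/
structure HypS (b : ℕ → ℝ) (h : ℕ → ℕ → ℝ) (g : ℕ → ℝ → ℝ) : Prop where
  der : ∀ k w, HasDerivAt (g k) (g (k + 1) w) w
  bd : ∀ k w, |g k w| ≤ b k
  harm : ∀ B k w, 1 ≤ w → |g k w - Av (g k) w| ≤ h B k / w ^ B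

theorem Del_deriv {g : ℕ → ℝ → ℝ} (hg : ∀ k w, HasDerivAt (g k) (g (k + 1) w) w) (δ : ℝ) (k : ℕ) :
    ∀ i w, HasDerivAt ((Del δ ^ k) (g i)) ((Del δ ^ k) (g (i + 1)) w) w := by
  induction k with
  | zero => intro i w; simpa using hg i w
  | succ k ih =>
    intro i w
    have e : ∀ f : ℝ → ℝ, (Del δ ^ (k + 1)) f = fun w => (Del δ ^ k) f (w + δ) - (Del δ ^ k) f w := by
      intro f
      rw [pow_succ', Module.End.mul_apply]
      rfl
    rw [e, e]
    have h1 := ih i w
    have h2 : HasDerivAt (fun w => (Del δ ^ k) (g i) (w + δ)) ((Del δ ^ k) (g (i + 1)) (w + δ)) w := by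
      have := HasDerivAt.comp_add_const w δ (ih i (w + δ))
      exact this
    exact h2.sub h1

/-- differences and derivatives -/
theorem Del_close {g : ℕ → ℝ → ℝ} (hg : ∀ k w, HasDerivAt (g k) (g (k + 1) w) w) {δ : ℝ} (hδ : 0 ≤ δ) (k : ℕ) :
    ∀ i w M, (∀ y, w ≤ y → |g (i + k + 1) y| ≤ M) →
      |(Del δ ^ k) (g i) w - δ ^ k * g (i + k) w| ≤ k * δ ^ (k + 1) * M := by
  induction k with
  | zero => intro i w M _; simp
  | succ k ih =>
    intro i w M hM
    have hM0 : 0 ≤ M := (abs_nonneg _).trans (hM w le_rfl)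
    set q : ℝ → ℝ := (Del δ ^ k) (g i) with hq
    have e : (Del δ ^ (k + 1)) (g i) w = q (w + δ) - q w := by
      rw [pow_succ', Module.End.mul_apply]; rfl
    rw [e]
    -- the first part
    have hr : ∀ s, w ≤ s → HasDerivAt (fun s => q s - δ ^ k * g (i + k) s)
        ((Del δ ^ k) (g (i + 1)) s - δ ^ k * g (i + 1 + k) s) s := by
      intro s _
      have h1 := Del_deriv hg δ k i s
      have h2 := (hg (i + k) s).const_mul (δ ^ k)
      rw [show i + k + 1 = i + 1 + k by ring] at h2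
      exact h1.sub h2
    have hrb : ∀ s, w ≤ s → |(Del δ ^ k) (g (i + 1)) s - δ ^ k * g (i + 1 + k) s| ≤ k * δ ^ (k + 1) * M := by
      intro s hs
      apply ih (i + 1) s M
      intro y hy
      have := hM y (by linarith)
      rwa [show i + (k + 1) + 1 = i + 1 + k + 1 by ring] at this
    have h1 := mvt hr hrb (a := w) (b := w + δ) le_rfl (by linarith)
    rw [show w + δ - w = δ by ring, abs_of_nonneg hδ] at h1
    -- the second part
    have h2 := taylor1 (f := g (i + k)) (f' := g (i + k + 1)) (f'' := g (i + k + 1 + 1)) (x₀ := w) (M := M)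
      (fun s _ => hg (i + k) s) (fun s _ => hg (i + k + 1) s) (fun s hs => by
        have := hM s hs
        rwa [show i + (k + 1) + 1 = i + k + 1 + 1 by ring] at this) (a := w) (b := w + δ) le_rfl (by linarith)
    rw [show w + δ - w = δ by ring] at h2
    have e2 : q (w + δ) - q w - δ ^ (k + 1) * g (i + (k + 1)) w
        = ((q (w + δ) - δ ^ k * g (i + k) (w + δ)) - (q w - δ ^ k * g (i + k) w))
          + δ ^ k * (g (i + k) (w + δ) - g (i + k) w - δ * g (i + k + 1) w) := by
      rw [show i + (k + 1) = i + k + 1 by ring]; ring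
    rw [e2]
    refine (abs_add_le _ _).trans ?_
    rw [abs_mul, abs_of_nonneg (pow_nonneg hδ k)]
    have h3 := mul_le_mul_of_nonneg_left h2 (pow_nonneg hδ k)
    have e3 : ((k + 1 : ℕ) : ℝ) * δ ^ (k + 1 + 1) * M = k * δ ^ (k + 1) * M * δ + δ ^ k * (M * δ ^ 2) := by
      push_cast; ring
    rw [e3]
    exact add_le_add h1 h3

/-- differences with the opposite step -/
theorem Del_neg (η : ℝ) (k : ℕ) (f : ℝ → ℝ) : ∀ w, (Del (-η) ^ k) f w = (-1) ^ k * (Del η ^ k) f (w - k * η) := by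
  induction k with
  | zero => intro w; simp
  | succ k ih =>
    intro w
    have e : ∀ (δ : ℝ) (w : ℝ), (Del δ ^ (k + 1)) f w = (Del δ ^ k) f (w + δ) - (Del δ ^ k) f w := by
      intro δ w
      rw [pow_succ', Module.End.mul_apply]
      rfl
    rw [e, e, ih, ih]
    push_cast
    have e1 : w - (k + 1) * η + η = w - k * η := by ring
    have e2 : w + -η - k * η = w - (k + 1) * η := by ring
    rw [e1, e2, pow_succ]
    ring

theorem Del_abs {η : ℝ} (k : ℕ) (f : ℝ → ℝ) (w : ℝ) :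
    ∃ w', w ≤ w' ∧ |(Del |η| ^ k) f w| = |(Del η ^ k) f w'| := by
  rcases le_or_gt 0 η with h | h
  · refine ⟨w, le_rfl, ?_⟩
    rw [abs_of_nonneg h]
  · refine ⟨w - k * η, ?_, ?_⟩
    · have : (k : ℝ) * η ≤ 0 := mul_nonpos_of_nonneg_of_nonpos (Nat.cast_nonneg k) h.le
      linarith
    · rw [abs_of_neg h, Del_neg, abs_mul, abs_pow, abs_neg, abs_one, one_pow, one_mul]

end Pool.Agent.K6.H38.ND
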