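import Pool.Agent.K6.H38.ND.Sm1
import Pool.Agent.K6.H38.ND.Tail

/-! Smooth functions which are almost harmonic converge faster than any power. -/

set_option autoImplicit false

namespace Pool.Agent.K6.H38.ND

open Filter Topology

variable {b : ℕ → ℝ} {h : ℕ → ℕ → ℝ}

theorem boot (hb : ∀ k, 0 < b k) (hh : ∀ B k, 0 ≤ h B k) (a : ℕ) : ∀ k, a ≤ k → ∃ C : ℝ, 0 < C ∧
    ∀ g, HypS b h g → ∀ N : ℕ, 1 ≤ N → ∀ w : ℝ, (N : ℝ) ^ 36 ≤ w → |g k w| ≤ C / (N : ℝ) ^ a := by
  induction a with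
  | zero =>
    intro k _
    refine ⟨b k, hb k, fun g hg N _ w _ => ?_⟩
    simpa using hg.bd k w
  | succ a ih =>
    intro k hk
    obtain ⟨C1, hC1, h1⟩ := ih (k + 1) (by omega)
    obtain ⟨c, hc, hdio⟩ := dio_hom
    have hl2 := l2b
    have hbk := hb k
    have hb0 := hb 0
    have hhB := hh (k + 2) 0
    set N1 : ℕ := 48 * (k + 1) with hN1
    have hk1 : 1 ≤ k := by omega
    have hkR : (1 : ℝ) ≤ k := by exact_mod_cast hk1
    have hkpos : (0 : ℝ) < k := by linarith
    set E1 : ℝ := (20 * k / c) ^ k * b 0 with hE1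
    set E2 : ℝ := 2 ^ k * k * h (k + 2) 0 * 4 ^ (k + 2) / c ^ k with hE2
    have hE1p : 0 < E1 := by positivity
    have hE2p : 0 ≤ E2 := by positivity
    refine ⟨b k * (N1 : ℝ) ^ (a + 1) + E1 + E2 + k * C1, by positivity, ?_⟩
    intro g hg N hN w hw
    have hNR : (1 : ℝ) ≤ N := by exact_mod_cast hN
    have hN0 : (0 : ℝ) < N := by linarith
    rcases lt_or_ge N N1 with hs | hl
    · have h2 := hg.bd k w
      have h3 : b k ≤ b k * (N1 : ℝ) ^ (a + 1) / (N : ℝ) ^ (a + 1) := by
        rw [le_div_iff₀ (by positivity)]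
        apply mul_le_mul_of_nonneg_left _ (hb k).le
        apply pow_le_pow_left₀ (by linarith)
        exact_mod_cast hs.le
      have h4 : b k * (N1 : ℝ) ^ (a + 1) / (N : ℝ) ^ (a + 1)
          ≤ (b k * (N1 : ℝ) ^ (a + 1) + E1 + E2 + k * C1) / (N : ℝ) ^ (a + 1) := by
        apply div_le_div_of_nonneg_right _ (by positivity)
        have : 0 ≤ k * C1 := by positivity
        linarith
      linarith
    · have hlR : (48 : ℝ) * (k + 1) ≤ N := by exact_mod_cast hl
      have hw2 : (48 : ℝ) * (k + 1) * N ≤ w := by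
        refine le_trans ?_ hw
        calc (48 : ℝ) * (k + 1) * N ≤ N * N := mul_le_mul_of_nonneg_right hlR hN0.le
          _ = N ^ 2 := by ring
          _ ≤ N ^ 36 := pow_le_pow_right₀ hNR (by norm_num)
      have hkN : (0 : ℝ) ≤ k * N := by positivity
      have hw96 : (96 : ℝ) ≤ w := by nlinarith
      have hw0 : 0 < w := by linarith
      obtain ⟨j, m, hj, hm, hη1, hη2⟩ := hdio N hN
      set η : ℝ := m * Real.log 3 - j * Real.log 2 with hη
      set δ : ℝ := |η| with hδ
      have hδ0 : 0 < δ := lt_of_lt_of_le (by positivity) hη1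
      have hjR : (j : ℝ) ≤ 3 * N := by exact_mod_cast hj
      have hmR : (m : ℝ) ≤ N := by exact_mod_cast hm
      have hj0 : (0 : ℝ) ≤ j := Nat.cast_nonneg j
      have hm0 : (0 : ℝ) ≤ m := Nat.cast_nonneg m
      set n : ℕ := ⌊w / (4 * k)⌋₊ with hn
      have hn1 : (n : ℝ) ≤ w / (4 * k) := Nat.floor_le (by positivity)
      have hn2 : w / (4 * k) < n + 1 := Nat.lt_floor_add_one _
      have hn0 : (0 : ℝ) ≤ n := Nat.cast_nonneg n
      have hkn : k * (n : ℝ) ≤ w / 4 := by
        have := mul_le_mul_of_nonneg_left hn1 hkpos.le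
        refine this.trans (le_of_eq ?_)
        field_simp
      have hnw : (n : ℝ) ≤ w / 4 := by nlinarith
      have hkj : ((k : ℝ) + 1) * j ≤ w / 16 := by
        have : ((k : ℝ) + 1) * j ≤ (k + 1) * (3 * N) := mul_le_mul_of_nonneg_left hjR (by linarith)
        nlinarith
      have hjw : (j : ℝ) ≤ w / 16 := by nlinarith
      -- the difference
      obtain ⟨w', hw', hΔeq⟩ := Del_abs (η := η) k (g 0) w
      have hd := diff_small (F := g 0) (M := b 0) (x₀ := w / 4) (ε := h (k + 2) 0 / (w / 4) ^ (k + 2)) (hb 0) (hg.bd 0)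
        (by
          intro y hy
          refine (hg.harm (k + 2) 0 y (by linarith)).trans ?_
          apply div_le_div_of_nonneg_left (hh _ _) (by positivity)
          exact pow_le_pow_left₀ (by positivity) hy _) j m n k (y := w') (by
          refine le_trans ?_ hw'
          have h5 : (k * n + (k + 1) * j) * Real.log 2 ≤ (w / 4 + w / 16) * 0.6932 :=
            mul_le_mul (by linarith) hl2.2 (by linarith) (by positivity)
          linarith)
      rw [← hη, ← hΔeq] at hd
      -- comparison with the derivative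
      have hcl := Del_close hg.der (δ := δ) hδ0.le k 0 w (C1 / (N : ℝ) ^ a) (by
        intro y hy
        rw [zero_add]
        exact h1 g hg N hN y (by linarith))
      rw [zero_add] at hcl
      have h5 : δ ^ k * |g k w| ≤ |(Del δ ^ k) (g 0) w| + k * δ ^ (k + 1) * (C1 / (N : ℝ) ^ a) := by
        have h6 := abs_sub_abs_le_abs_sub (δ ^ k * g k w) ((Del δ ^ k) (g 0) w)
        rw [abs_sub_comm, abs_mul, abs_of_pos (pow_pos hδ0 k)] at h6
        linarith
      -- the first term
      have hsq : (N : ℝ) ^ 18 / (2 * k) ≤ √ (n + 1) := by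
        apply Real.le_sqrt_of_sq_le
        rw [div_pow, ← pow_mul]
        have h6 : (N : ℝ) ^ (18 * 2) / (2 * k) ^ 2 ≤ w / (4 * k) := by
          rw [div_le_div_iff₀ (by positivity) (by positivity)]
          have h7 : (N : ℝ) ^ (18 * 2) ≤ w := hw
          have h8 : (4 : ℝ) * k ≤ (2 * k) ^ 2 := by nlinarith
          exact mul_le_mul h7 h8 (by positivity) hw0.le
        linarith
      have hnum : 2 * ((m : ℝ) + j + 1) ≤ 10 * N := by linarith
      have hT1 : (2 * ((m : ℝ) + j + 1) / √ (n + 1)) ^ k ≤ (20 * k / (N : ℝ) ^ 17) ^ k := by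
        apply pow_le_pow_left₀ (by positivity)
        have h6 : 2 * ((m : ℝ) + j + 1) / √ (n + 1) ≤ 10 * N / ((N : ℝ) ^ 18 / (2 * k)) :=
          div_le_div₀ (by positivity) hnum (by positivity) hsq
        refine h6.trans (le_of_eq ?_)
        field_simp
        ring
      -- the second term
      have hT2 : (2 : ℝ) ^ k * k * (j + n) * (h (k + 2) 0 / (w / 4) ^ (k + 2)) ≤ 2 ^ k * k * h (k + 2) 0 * 4 ^ (k + 2) / w ^ (k + 1) := by
        have h6 : (j : ℝ) + n ≤ w := by linarith
        have h7 : (2 : ℝ) ^ k * k * (j + n) * (h (k + 2) 0 / (w / 4) ^ (k + 2))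
            ≤ 2 ^ k * k * w * (h (k + 2) 0 / (w / 4) ^ (k + 2)) := by
          apply mul_le_mul_of_nonneg_right _ (by positivity)
          exact mul_le_mul_of_nonneg_left h6 (by positivity)
        refine h7.trans (le_of_eq ?_)
        rw [div_pow, show k + 2 = (k + 1) + 1 by ring, pow_succ w (k + 1)]
        field_simp
      have hinv : (1 : ℝ) / δ ^ k ≤ ((N : ℝ) ^ 16 / c) ^ k := by
        rw [one_div, ← inv_pow]
        apply pow_le_pow_left₀ (by positivity)
        rw [inv_eq_one_div, div_le_div_iff₀ hδ0 hc, one_mul]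
        rw [div_le_iff₀ (by positivity)] at hη1
        linarith
      have h6 : |g k w| ≤ 1 / δ ^ k * |(Del δ ^ k) (g 0) w| + k * δ * (C1 / (N : ℝ) ^ a) := by
        have hp : 0 < δ ^ k := pow_pos hδ0 k
        have e : 1 / δ ^ k * |(Del δ ^ k) (g 0) w| + k * δ * (C1 / (N : ℝ) ^ a)
            = (|(Del δ ^ k) (g 0) w| + k * δ ^ (k + 1) * (C1 / (N : ℝ) ^ a)) / δ ^ k := by
          rw [pow_succ]; field_simp
        rw [e, le_div_iff₀ hp]
        linarith
      have h7 : k * δ * (C1 / (N : ℝ) ^ a) ≤ k * C1 / (N : ℝ) ^ (a + 1) := by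
        have e : (k : ℝ) * C1 / (N : ℝ) ^ (a + 1) = k * (1 / N) * (C1 / (N : ℝ) ^ a) := by
          rw [pow_succ]; field_simp
        rw [e]
        apply mul_le_mul_of_nonneg_right _ (by positivity)
        exact mul_le_mul_of_nonneg_left hη2 hkpos.le
      have h8 : 1 / δ ^ k * |(Del δ ^ k) (g 0) w| ≤ ((N : ℝ) ^ 16 / c) ^ k *
          ((20 * k / (N : ℝ) ^ 17) ^ k * b 0 + 2 ^ k * k * h (k + 2) 0 * 4 ^ (k + 2) / w ^ (k + 1)) := by
        apply mul_le_mul hinv _ (abs_nonneg _) (by positivity)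
        have := mul_le_mul_of_nonneg_right hT1 (hb 0).le
        linarith
      have h9 : ((N : ℝ) ^ 16 / c) ^ k * ((20 * k / (N : ℝ) ^ 17) ^ k * b 0) ≤ E1 / (N : ℝ) ^ (a + 1) := by
        rw [← mul_assoc, ← mul_pow]
        have e : (N : ℝ) ^ 16 / c * (20 * k / (N : ℝ) ^ 17) = (20 * k / c) / N := by
          field_simp
        rw [e, div_pow, hE1, div_mul_eq_mul_div]
        apply div_le_div_of_nonneg_left (by positivity) (by positivity)
        exact pow_le_pow_right₀ hNR hk
      have h10 : ((N : ℝ) ^ 16 / c) ^ k * (2 ^ k * k * h (k + 2) 0 * 4 ^ (k + 2) / w ^ (k + 1)) ≤ E2 / (N : ℝ) ^ (a + 1) := by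
        have e : ((N : ℝ) ^ 16 / c) ^ k * (2 ^ k * k * h (k + 2) 0 * 4 ^ (k + 2) / w ^ (k + 1)) = E2 * ((N : ℝ) ^ (16 * k) / w ^ (k + 1)) := by
          rw [hE2, div_pow, ← pow_mul]; field_simp
        rw [e, div_eq_mul_one_div E2]
        apply mul_le_mul_of_nonneg_left _ hE2p
        rw [div_le_div_iff₀ (by positivity) (by positivity), one_mul]
        calc (N : ℝ) ^ (16 * k) * (N : ℝ) ^ (a + 1) = (N : ℝ) ^ (16 * k + (a + 1)) :=
              (pow_add (N : ℝ) (16 * k) (a + 1)).symm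
          _ ≤ (N : ℝ) ^ (36 * (k + 1)) := pow_le_pow_right₀ hNR (by omega)
          _ = ((N : ℝ) ^ 36) ^ (k + 1) := by rw [pow_mul]
          _ ≤ w ^ (k + 1) := pow_le_pow_left₀ (by positivity) hw _
      have h11 : (b k * (N1 : ℝ) ^ (a + 1) + E1 + E2 + k * C1) / (N : ℝ) ^ (a + 1)
          = b k * (N1 : ℝ) ^ (a + 1) / (N : ℝ) ^ (a + 1) + E1 / (N : ℝ) ^ (a + 1) + E2 / (N : ℝ) ^ (a + 1)
            + k * C1 / (N : ℝ) ^ (a + 1) := by ring
      rw [h11]
      have h12 : 0 ≤ b k * (N1 : ℝ) ^ (a + 1) / (N : ℝ) ^ (a + 1) := by positivity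
      rw [mul_add] at h8
      linarith

end Pool.Agent.K6.H38.ND
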